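import Pool.Agent.LibHL.KC
import Pool.Agent.LibHD.X1
import Pool.Agent.LibHD.A

set_option autoImplicit false
set_option linter.unusedSectionVars false

open scoped Classical

noncomputable section

namespace HD

variable {V : Type*} [Fintype V] [DecidableEq V] {G : SimpleGraph V}

/-! Row KM -/
/-- KM: Menger's theorem inside a highly connected set. -/
theorem kc_menger {M A B : Finset V} {k n : ℕ} (hM : KC G M k) (hA : A ⊆ M) (hB : B ⊆ M) (hn : n ≤ k + 1)
    (hnA : n ≤ A.card) (hnB : n ≤ B.card) :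
    ∃ F : Fin n → Finset V, (∀ i, F i ⊆ M ∧ Conn G (F i) ∧ (F i ∩ A).Nonempty ∧ (F i ∩ B).Nonempty) ∧
      ∀ i j, i ≠ j → Disjoint (F i) (F j) := by
  obtain ⟨F, hF, hFd⟩ := menger (res G M) A B n (by
    intro S hS
    obtain ⟨a, ha, ha'⟩ := Finset.exists_mem_notMem_of_card_lt_card (lt_of_lt_of_le hS hnA)
    obtain ⟨b, hb, hb'⟩ := Finset.exists_mem_notMem_of_card_lt_card (lt_of_lt_of_le hS hnB)
    refine ⟨a, Finset.mem_sdiff.2 ⟨ha, ha'⟩, b, Finset.mem_sdiff.2 ⟨hb, hb'⟩, ?_⟩
    obtain ⟨Y, h1, h2, h3, h4⟩ := hM.2 S (by omega) a (Finset.mem_sdiff.2 ⟨hA ha, ha'⟩)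
      b (Finset.mem_sdiff.2 ⟨hB hb, hb'⟩)
    refine ⟨Y, ?_, h2, h3, X1_conn_res (h1.trans Finset.sdiff_subset) h4⟩
    intro y hy
    exact Finset.mem_sdiff.2 ⟨Finset.mem_univ y, (Finset.mem_sdiff.1 (h1 hy)).2⟩)
  refine ⟨F, fun i => ⟨?_, X1_conn_of_res (hF i).1, (hF i).2.1, (hF i).2.2⟩, hFd⟩
  obtain ⟨a, ha⟩ := (hF i).2.1
  exact X1_sub (hF i).1 (Finset.mem_inter.1 ha).1 (hA (Finset.mem_inter.1 ha).2)

/-! Row TR -/
/-- TR: trimming a connected set to an induced path. -/
theorem trim0 {F A : Finset V} {e : V} (hF : Conn G F) (he : e ∈ F) (hA : (F ∩ A).Nonempty) :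
    ∃ F' ⊆ F, Conn G F' ∧ e ∈ F' ∧ (F' ∩ A).card = 1 ∧ Col G F' 2 := by
  obtain ⟨a0, ha0⟩ := hA
  have hr : ∃ a ∈ F ∩ A, (res G F).Reachable e a :=
    ⟨a0, ha0, A3_reach hF he (Finset.mem_inter.1 ha0).1⟩
  obtain ⟨Q, a, h1, h2, h3, h4, h5, h6, h7, -⟩ := geo (res G F) e (F ∩ A) hr
  have hQF : Q ⊆ F := X1_sub h5 h2 he
  refine ⟨Q, hQF, X1_conn_of_res h5, h2, ?_, fun y => (res G F).dist e y % 2,
    fun u _ => Nat.mod_lt _ two_pos, ?_⟩
  · have h8 : Q ∩ A = Q ∩ (F ∩ A) := by
      ext x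
      simp only [Finset.mem_inter]
      exact ⟨fun h => ⟨h.1, hQF h.1, h.2⟩, fun h => ⟨h.1, h.2.2⟩⟩
    rw [h8, h4, Finset.card_singleton]
  · intro u hu v hv huv
    have hadj : (res G F).Adj u v := ⟨huv, hQF hu, hQF hv⟩
    exact A3_par (h7 u hu) hadj (fun h => huv.ne (h6 u hu v hv h))

/-! Row SH -/
/-- one step: a new part is attached along a shortest path. -/
theorem SH_step {T U W A P0 : Finset V} (hT : Conn G T) (hWT : W ⊆ T) (hW : Conn G W)
    (hAW : A ⊆ W) (hcol : Col G (W \ (U ∪ A)) 2) (hP0 : Conn G P0) (hP0T : P0 ⊆ T)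
    (hP0U : P0 ⊆ U) :
    ∃ T' A' : Finset V, T' ⊆ T ∧ Conn G T' ∧ W ⊆ T' ∧ P0 ⊆ T' ∧ A' ⊆ T' ∧
      A'.card ≤ A.card + 1 ∧ Col G (T' \ (U ∪ A')) 2 := by
  by_cases hmeet : (W ∩ P0).Nonempty
  · obtain ⟨x, hx⟩ := hmeet
    obtain ⟨hxW, hxP⟩ := Finset.mem_inter.1 hx
    refine ⟨W ∪ P0, A, Finset.union_subset hWT hP0T, hW.union_mem hP0 hxW hxP,
      Finset.subset_union_left, Finset.subset_union_right, hAW.trans Finset.subset_union_left,
      Nat.le_succ _, ?_⟩
    refine hcol.mono ?_ le_rfl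
    intro y hy
    obtain ⟨h1, h2⟩ := Finset.mem_sdiff.1 hy
    refine Finset.mem_sdiff.2 ⟨?_, h2⟩
    rcases Finset.mem_union.1 h1 with h3 | h3
    · exact h3
    · exact absurd (Finset.mem_union_left _ (hP0U h3)) h2
  · obtain ⟨z0, hz0⟩ := hP0.nonempty
    obtain ⟨w0, hw0⟩ := hW.nonempty
    obtain ⟨⟨z, w⟩, hzw, hmin⟩ := Finset.exists_min_image (P0 ×ˢ W)
      (fun p : V × V => (res G T).dist p.1 p.2) ⟨(z0, w0), Finset.mem_product.2 ⟨hz0, hw0⟩⟩
    obtain ⟨hz, hw⟩ := Finset.mem_product.1 hzw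
    dsimp only at hz hw hmin
    have hzT := hP0T hz
    have hwT := hWT hw
    obtain ⟨P, hzP, hwP, hPc, hinj, hreach, hlt, -⟩ :=
      geo_aux (res G T) z _ w (A3_reach hT hzT hwT) rfl
    obtain ⟨hPT, hPc'⟩ := A3_sub hPc hzP hzT
    have hmin' : ∀ x ∈ W, (res G T).dist z w ≤ (res G T).dist z x := fun x hx =>
      hmin (z, x) (Finset.mem_product.2 ⟨hz, hx⟩)
    have hnot : ∀ x ∈ P, x ∉ W → (res G T).dist z x < (res G T).dist z w := by
      intro x hx hxW
      exact hlt x hx (fun h => hxW (h ▸ hw))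
    have hkey : ∀ x ∈ P, x ∉ W → ∀ y ∈ W, G.Adj x y →
        (res G T).dist z x + 1 = (res G T).dist z w := by
      intro x hx hxW y hy hxy
      have h1 := hnot x hx hxW
      have h2 := hmin' y hy
      have h3 : (res G T).dist z y ≤ (res G T).dist z x + 1 :=
        A3_dist (hreach x hx) ⟨hxy, hPT hx, hWT hy⟩
      omega
    have hcard : ((P \ W).filter
        (fun x => (res G T).dist z x + 1 = (res G T).dist z w)).card ≤ 1 := by
      rw [Finset.card_le_one]
      intro a ha b hb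
      rw [Finset.mem_filter, Finset.mem_sdiff] at ha hb
      exact hinj a ha.1.1 b hb.1.1 (by omega)
    refine ⟨W ∪ P ∪ P0, A ∪ (P \ W).filter
        (fun x => (res G T).dist z x + 1 = (res G T).dist z w), ?_, ?_, ?_, ?_, ?_, ?_, ?_⟩
    · exact Finset.union_subset (Finset.union_subset hWT hPT) hP0T
    · exact (hW.union_mem hPc' hw hwP).union_mem hP0 (Finset.mem_union_right _ hzP) hz
    · exact Finset.subset_union_left.trans Finset.subset_union_left
    · exact Finset.subset_union_right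
    · refine Finset.union_subset
        (hAW.trans (Finset.subset_union_left.trans Finset.subset_union_left)) ?_
      intro x hx
      exact Finset.mem_union_left _ (Finset.mem_union_right _
        (Finset.mem_sdiff.1 (Finset.mem_filter.1 hx).1).1)
    · exact (Finset.card_union_le _ _).trans (Nat.add_le_add_left hcard _)
    · obtain ⟨φ, h1, h2⟩ := hcol
      have hin : ∀ u ∈ (W ∪ P ∪ P0) \ (U ∪ (A ∪ (P \ W).filter
          (fun x => (res G T).dist z x + 1 = (res G T).dist z w))),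
          (u ∈ W → u ∈ W \ (U ∪ A)) ∧ (u ∉ W → u ∈ P) := by
        intro u hu
        simp only [Finset.mem_sdiff, Finset.mem_union] at hu
        obtain ⟨hu1, hu2⟩ := hu
        push Not at hu2
        refine ⟨fun h => ?_, fun h => ?_⟩
        · rw [Finset.mem_sdiff, Finset.mem_union]
          exact ⟨h, fun h3 => h3.elim hu2.1 hu2.2.1⟩
        · rcases hu1 with (h3 | h3) | h3
          · exact absurd h3 h
          · exact h3
          · exact absurd (hP0U h3) hu2.1
      have hno : ∀ u ∈ (W ∪ P ∪ P0) \ (U ∪ (A ∪ (P \ W).filter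
          (fun x => (res G T).dist z x + 1 = (res G T).dist z w))), u ∉ W → ∀ v ∈ W,
          ¬ G.Adj u v := by
        intro u hu huW v hv huv
        have huP := (hin u hu).2 huW
        have h3 := hkey u huP huW v hv huv
        refine (Finset.mem_sdiff.1 hu).2 (Finset.mem_union_right _ (Finset.mem_union_right _ ?_))
        exact Finset.mem_filter.2 ⟨Finset.mem_sdiff.2 ⟨huP, huW⟩, h3⟩
      refine ⟨fun v => if v ∈ W then φ v else (res G T).dist z v % 2, ?_, ?_⟩
      · intro u hu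
        by_cases huW : u ∈ W
        · simp only [huW, if_true]
          exact h1 u ((hin u hu).1 huW)
        · simp only [huW, if_false]
          exact Nat.mod_lt _ (by norm_num)
      · intro u hu v hv huv
        by_cases huW : u ∈ W <;> by_cases hvW : v ∈ W
        · simp only [huW, hvW, if_true]
          exact h2 u ((hin u hu).1 huW) v ((hin v hv).1 hvW) huv
        · exact absurd huv.symm (hno v hv hvW u huW)
        · exact absurd huv (hno u hu huW v hvW)
        · simp only [huW, hvW, if_false]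
          have huP := (hin u hu).2 huW
          have hvP := (hin v hv).2 hvW
          refine A3_par (hreach u huP) ⟨huv, hPT huP, hPT hvP⟩ fun heq => ?_
          exact huv.ne (hinj u huP v hvP heq)

/-- SH: a connected set containing given connected parts can be shrunk so that outside the parts and a few vertices it
is bipartite. -/
theorem shrink0 {T : Finset V} (hT : Conn G T) {q : ℕ} (Q : Fin q → Finset V) (hq : 1 ≤ q)
    (hQ : ∀ i, Conn G (Q i) ∧ Q i ⊆ T) :
    ∃ T' A : Finset V, T' ⊆ T ∧ Conn G T' ∧ (∀ i, Q i ⊆ T') ∧ A ⊆ T' ∧ A.card ≤ q ∧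
      Col G (T' \ (Finset.univ.biUnion Q ∪ A)) 2 := by
  have hsub : ∀ i, Q i ⊆ Finset.univ.biUnion Q := fun i =>
    Finset.subset_biUnion_of_mem Q (Finset.mem_univ i)
  have key : ∀ J : Finset (Fin q), J.Nonempty → ∃ T' A : Finset V, T' ⊆ T ∧ Conn G T' ∧
      (∀ i ∈ J, Q i ⊆ T') ∧ A ⊆ T' ∧ A.card ≤ J.card ∧
      Col G (T' \ (Finset.univ.biUnion Q ∪ A)) 2 := by
    intro J
    induction J using Finset.induction_on with
    | empty => exact fun h => absurd h Finset.not_nonempty_empty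
    | insert i J hi ih =>
      intro _
      by_cases hJ : J.Nonempty
      · obtain ⟨W, A, hWT, hW, hQW, hAW, hA, hcol⟩ := ih hJ
        obtain ⟨T', A', h1, h2, h3, h4, h5, h6, h7⟩ :=
          SH_step hT hWT hW hAW hcol (hQ i).1 (hQ i).2 (hsub i)
        refine ⟨T', A', h1, h2, ?_, h5, ?_, h7⟩
        · intro j hj
          rcases Finset.mem_insert.1 hj with h | h
          · rw [h]; exact h4
          · exact (hQW j h).trans h3
        · rw [Finset.card_insert_of_notMem hi]
          omega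
      · rw [Finset.not_nonempty_iff_eq_empty] at hJ
        subst hJ
        refine ⟨Q i, ∅, (hQ i).2, (hQ i).1, ?_, Finset.empty_subset _, by simp, ?_⟩
        · intro j hj
          rcases Finset.mem_insert.1 hj with h | h
          · rw [h]
          · exact absurd h (Finset.notMem_empty j)
        · refine (col_empty (G := G) 2).mono ?_ le_rfl
          intro y hy
          obtain ⟨h1, h2⟩ := Finset.mem_sdiff.1 hy
          exact absurd (Finset.mem_union_left _ (hsub i h1)) h2
  obtain ⟨T', A, h1, h2, h3, h4, h5, h6⟩ := key Finset.univ ⟨⟨0, hq⟩, Finset.mem_univ _⟩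
  rw [Finset.card_univ, Fintype.card_fin] at h5
  exact ⟨T', A, h1, h2, fun i => h3 i (Finset.mem_univ i), h4, h5, h6⟩

/-! Row MD -/
theorem MD_nbIn_card_le (S : Finset V) (v : V) : (nbIn G S v).card ≤ S.card :=
  Finset.card_le_card (Finset.filter_subset _ _)

theorem MD_nbIn_subset_erase (S : Finset V) (v : V) : nbIn G S v ⊆ S.erase v := by
  intro u hu
  rw [mem_nbIn] at hu
  exact Finset.mem_erase.2 ⟨fun h => G.loopless.irrefl v (h ▸ hu.2), hu.1⟩

theorem MD_nbIn_card_lt {S : Finset V} {v : V} (hv : v ∈ S) : (nbIn G S v).card + 1 ≤ S.card := by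
  have h := Finset.card_le_card (MD_nbIn_subset_erase (G := G) S v)
  have h2 := Finset.card_erase_add_one hv
  omega

theorem MD_erase {H : Finset V} {v : V} (hv : v ∈ H) :
    dg G H ≤ dg G (H.erase v) + 2 * (nbIn G H v).card := by
  have h1 : dg G H = (nbIn G H v).card + ∑ u ∈ H.erase v, (nbIn G H u).card := by
    unfold dg
    rw [Finset.add_sum_erase H (fun u => (nbIn G H u).card) hv]
  have h2 : ∀ u ∈ H.erase v, (nbIn G H u).card ≤ (nbIn G (H.erase v) u).card + (if G.Adj v u then 1 else 0) := by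
    intro u hu
    by_cases hvu : G.Adj v u
    · rw [if_pos hvu]
      have h3 : nbIn G H u ⊆ insert v (nbIn G (H.erase v) u) := by
        intro w hw
        rw [mem_nbIn] at hw
        by_cases hwv : w = v
        · rw [hwv]; exact Finset.mem_insert_self _ _
        · exact Finset.mem_insert_of_mem (mem_nbIn.2 ⟨Finset.mem_erase.2 ⟨hwv, hw.1⟩, hw.2⟩)
      exact (Finset.card_le_card h3).trans (Finset.card_insert_le _ _)
    · rw [if_neg hvu, add_zero]
      refine Finset.card_le_card ?_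
      intro w hw
      rw [mem_nbIn] at hw ⊢
      refine ⟨Finset.mem_erase.2 ⟨?_, hw.1⟩, hw.2⟩
      rintro rfl
      exact hvu hw.2.symm
  have h4 : ∑ u ∈ H.erase v, (if G.Adj v u then 1 else 0) ≤ (nbIn G H v).card := by
    rw [← Finset.card_filter]
    refine Finset.card_le_card ?_
    intro w hw
    rw [Finset.mem_filter] at hw
    exact mem_nbIn.2 ⟨Finset.mem_of_mem_erase hw.1, hw.2⟩
  have h5 := Finset.sum_le_sum h2
  rw [Finset.sum_add_distrib] at h5
  have h6 : dg G (H.erase v) = ∑ u ∈ H.erase v, (nbIn G (H.erase v) u).card := rfl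
  omega

theorem MD_split {H A B T U1 U2 : Finset V} (hH : H = A ∪ B ∪ T) (hAB : Disjoint A B)
    (hAT : Disjoint A T) (hBT : Disjoint B T) (hU1 : U1 = A ∪ T) (hU2 : U2 = B ∪ T)
    (hno : ∀ u ∈ A, ∀ v ∈ B, ¬ G.Adj u v) : dg G H ≤ dg G U1 + dg G U2 := by
  have e1 : dg G H = (∑ v ∈ A, (nbIn G H v).card + ∑ v ∈ B, (nbIn G H v).card)
      + ∑ v ∈ T, (nbIn G H v).card := by
    unfold dg
    have hd : Disjoint (A ∪ B) T := Finset.disjoint_union_left.2 ⟨hAT, hBT⟩
    conv_lhs => rw [hH]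
    rw [Finset.sum_union hd, Finset.sum_union hAB, ← hH]
  have e2 : dg G U1 = ∑ v ∈ A, (nbIn G U1 v).card + ∑ v ∈ T, (nbIn G U1 v).card := by
    unfold dg
    conv_lhs => rw [hU1]
    rw [Finset.sum_union hAT, ← hU1]
  have e3 : dg G U2 = ∑ v ∈ B, (nbIn G U2 v).card + ∑ v ∈ T, (nbIn G U2 v).card := by
    unfold dg
    conv_lhs => rw [hU2]
    rw [Finset.sum_union hBT, ← hU2]
  have a1 : ∑ v ∈ A, (nbIn G H v).card ≤ ∑ v ∈ A, (nbIn G U1 v).card := by
    refine Finset.sum_le_sum fun v hv => Finset.card_le_card ?_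
    intro w hw
    rw [mem_nbIn] at hw ⊢
    refine ⟨?_, hw.2⟩
    have h := hw.1
    rw [hH, Finset.mem_union, Finset.mem_union] at h
    rw [hU1, Finset.mem_union]
    rcases h with (h | h) | h
    · exact Or.inl h
    · exact absurd hw.2 (hno v hv w h)
    · exact Or.inr h
  have a2 : ∑ v ∈ B, (nbIn G H v).card ≤ ∑ v ∈ B, (nbIn G U2 v).card := by
    refine Finset.sum_le_sum fun v hv => Finset.card_le_card ?_
    intro w hw
    rw [mem_nbIn] at hw ⊢
    refine ⟨?_, hw.2⟩
    have h := hw.1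
    rw [hH, Finset.mem_union, Finset.mem_union] at h
    rw [hU2, Finset.mem_union]
    rcases h with (h | h) | h
    · exact absurd hw.2.symm (hno w h v hv)
    · exact Or.inl h
    · exact Or.inr h
  have a3 : ∑ v ∈ T, (nbIn G H v).card ≤ ∑ v ∈ T, (nbIn G U1 v).card + ∑ v ∈ T, (nbIn G U2 v).card := by
    rw [← Finset.sum_add_distrib]
    refine Finset.sum_le_sum fun v hv => ?_
    refine le_trans (Finset.card_le_card ?_) (Finset.card_union_le _ _)
    intro w hw
    rw [mem_nbIn] at hw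
    rw [Finset.mem_union, mem_nbIn, mem_nbIn]
    have h := hw.1
    rw [hH, Finset.mem_union, Finset.mem_union] at h
    rcases h with (h | h) | h
    · exact Or.inl ⟨by rw [hU1, Finset.mem_union]; exact Or.inl h, hw.2⟩
    · exact Or.inr ⟨by rw [hU2, Finset.mem_union]; exact Or.inl h, hw.2⟩
    · exact Or.inl ⟨by rw [hU1, Finset.mem_union]; exact Or.inr h, hw.2⟩
  omega

/-- MD: Mader: a dense set contains a highly connected subset. -/
theorem mader {Y : Finset V} {k : ℕ} (hk : 1 ≤ k) (hY : Y.Nonempty) (hd : 4 * k * Y.card ≤ dg G Y) :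
    ∃ H ⊆ Y, KC G H k := by
  have hYc : 0 < Y.card := hY.card_pos
  have hY4 : 4 * k ≤ Y.card := by
    have h1 : dg G Y ≤ Y.card * Y.card := by
      unfold dg
      refine (Finset.sum_le_card_nsmul Y _ Y.card fun v _ => MD_nbIn_card_le Y v).trans ?_
      rw [smul_eq_mul]
    exact Nat.le_of_mul_le_mul_right (hd.trans h1) hYc
  have hkk : 0 < k * k := Nat.mul_pos hk hk
  let F : Finset (Finset V) := Y.powerset.filter
    (fun H => 2 * k ≤ H.card ∧ 4 * k * H.card < dg G H + 4 * (k * k))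
  have hYF : Y ∈ F := by
    refine Finset.mem_filter.2 ⟨Finset.mem_powerset_self Y, ?_, ?_⟩
    · omega
    · omega
  obtain ⟨H, hHF, hmin⟩ := Finset.exists_min_image F Finset.card ⟨Y, hYF⟩
  obtain ⟨hHp, hH2, hH3⟩ := Finset.mem_filter.1 hHF
  have hHY : H ⊆ Y := Finset.mem_powerset.1 hHp
  have hmin' : ∀ U : Finset V, U ⊆ H → U.card < H.card → 2 * k ≤ U.card →
      dg G U + 4 * (k * k) ≤ 4 * k * U.card := by
    intro U hU1 hU2 hU3
    by_contra hcon
    have hUF : U ∈ F := Finset.mem_filter.2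
      ⟨Finset.mem_powerset.2 (hU1.trans hHY), hU3, not_le.1 hcon⟩
    have := hmin U hUF
    omega
  have hH5 : 2 * k + 1 ≤ H.card := by
    by_contra hcon
    have hc : H.card = 2 * k := by omega
    have h1 : dg G H ≤ H.card * (2 * k - 1) := by
      unfold dg
      refine (Finset.sum_le_card_nsmul H _ (2 * k - 1) fun v hv => ?_).trans ?_
      · have := MD_nbIn_card_lt (G := G) hv
        omega
      · rw [smul_eq_mul]
    rw [hc] at h1 hH3
    obtain ⟨m, rfl⟩ : ∃ m, k = m + 1 := ⟨k - 1, by omega⟩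
    have h2 : 2 * (m + 1) - 1 = 2 * m + 1 := by omega
    rw [h2] at h1
    nlinarith
  have hdeg : ∀ v ∈ H, 2 * k + 1 ≤ (nbIn G H v).card := by
    intro v hv
    by_contra hcon
    have h1 := MD_erase (G := G) hv
    have h2 := Finset.card_erase_add_one hv
    have h3 := hmin' (H.erase v) (Finset.erase_subset _ _) (by omega) (by omega)
    have h4 : 4 * k * H.card = 4 * k * (H.erase v).card + 4 * k := by
      rw [← h2]; ring
    omega
  refine ⟨H, hHY, by omega, ?_⟩
  intro S hS x hx y hy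
  by_contra hxy
  have hxH : x ∈ H := (Finset.mem_sdiff.1 hx).1
  have hyH : y ∈ H := (Finset.mem_sdiff.1 hy).1
  have hxA : x ∈ comp G (H \ S) x := mem_comp_self hx
  have hyA : y ∉ comp G (H \ S) x := fun h => hxy (mem_comp.1 h)
  have hA : comp G (H \ S) x ⊆ H \ S := comp_subset _ _
  have hnt : ∀ u ∈ comp G (H \ S) x, ∀ v ∈ (H \ S) \ comp G (H \ S) x, ¬ G.Adj u v := by
    intro u hu v hv huv
    exact comp_no_touch (H \ S) x ⟨u, hu, v, hv, huv⟩
  generalize hAdef : comp G (H \ S) x = A at hxA hyA hA hnt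
  have hyB : y ∈ (H \ S) \ A := Finset.mem_sdiff.2 ⟨hy, hyA⟩
  have hHeq : H = A ∪ ((H \ S) \ A) ∪ (S ∩ H) := by
    ext w
    simp only [Finset.mem_union, Finset.mem_sdiff, Finset.mem_inter]
    constructor
    · intro hw
      by_cases h1 : w ∈ S
      · exact Or.inr ⟨h1, hw⟩
      · by_cases h2 : w ∈ A
        · exact Or.inl (Or.inl h2)
        · exact Or.inl (Or.inr ⟨⟨hw, h1⟩, h2⟩)
    · rintro ((h | h) | h)
      · exact (Finset.mem_sdiff.1 (hA h)).1
      · exact h.1.1
      · exact h.2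
  have hAB : Disjoint A ((H \ S) \ A) := Finset.disjoint_sdiff
  have hAT : Disjoint A (S ∩ H) := by
    rw [Finset.disjoint_left]
    intro w hw hw2
    exact (Finset.mem_sdiff.1 (hA hw)).2 (Finset.mem_inter.1 hw2).1
  have hBT : Disjoint ((H \ S) \ A) (S ∩ H) := by
    rw [Finset.disjoint_left]
    intro w hw hw2
    exact (Finset.mem_sdiff.1 (Finset.mem_sdiff.1 hw).1).2 (Finset.mem_inter.1 hw2).1
  have hsum := MD_split (G := G) hHeq hAB hAT hBT rfl rfl hnt
  have hc1 : (A ∪ (S ∩ H)).card = A.card + (S ∩ H).card := Finset.card_union_of_disjoint hAT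
  have hc2 : (((H \ S) \ A) ∪ (S ∩ H)).card = ((H \ S) \ A).card + (S ∩ H).card :=
    Finset.card_union_of_disjoint hBT
  have hc3 : H.card = A.card + ((H \ S) \ A).card + (S ∩ H).card := by
    conv_lhs => rw [hHeq]
    rw [Finset.card_union_of_disjoint (Finset.disjoint_union_left.2 ⟨hAT, hBT⟩),
      Finset.card_union_of_disjoint hAB]
  have hc4 : (S ∩ H).card ≤ k := (Finset.card_le_card Finset.inter_subset_left).trans hS
  have hA0 : 0 < A.card := Finset.card_pos.2 ⟨x, hxA⟩
  have hB0 : 0 < ((H \ S) \ A).card := Finset.card_pos.2 ⟨y, hyB⟩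
  have hx2 : 2 * k + 1 ≤ (A ∪ (S ∩ H)).card := by
    refine (hdeg x hxH).trans (Finset.card_le_card ?_)
    intro w hw
    rw [mem_nbIn] at hw
    have h := hw.1
    rw [hHeq, Finset.mem_union, Finset.mem_union] at h
    rw [Finset.mem_union]
    rcases h with (h | h) | h
    · exact Or.inl h
    · exact absurd hw.2 (hnt x hxA w h)
    · exact Or.inr h
  have hy2 : 2 * k + 1 ≤ (((H \ S) \ A) ∪ (S ∩ H)).card := by
    refine (hdeg y hyH).trans (Finset.card_le_card ?_)
    intro w hw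
    rw [mem_nbIn] at hw
    have h := hw.1
    rw [hHeq, Finset.mem_union, Finset.mem_union] at h
    rw [Finset.mem_union]
    rcases h with (h | h) | h
    · exact absurd hw.2.symm (hnt w h y hyB)
    · exact Or.inl h
    · exact Or.inr h
  have hs1 : A ∪ (S ∩ H) ⊆ H := Finset.union_subset (hA.trans Finset.sdiff_subset) Finset.inter_subset_right
  have hs2 : ((H \ S) \ A) ∪ (S ∩ H) ⊆ H :=
    Finset.union_subset (Finset.sdiff_subset.trans Finset.sdiff_subset) Finset.inter_subset_right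
  have m1 := hmin' _ hs1 (by omega) (by omega)
  have m2 := hmin' _ hs2 (by omega) (by omega)
  have hfin : 4 * k * (A ∪ (S ∩ H)).card + 4 * k * (((H \ S) \ A) ∪ (S ∩ H)).card
      = 4 * k * H.card + 4 * k * (S ∩ H).card := by
    rw [hc1, hc2, hc3]; ring
  have hle : 4 * k * (S ∩ H).card ≤ 4 * (k * k) := by
    calc 4 * k * (S ∩ H).card ≤ 4 * k * k := Nat.mul_le_mul_left _ hc4
      _ = 4 * (k * k) := by ring
  omega

end HD
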