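import Pool.Agent.LibHL.KC

set_option autoImplicit false
set_option linter.unusedSectionVars false

open scoped Classical

noncomputable section

namespace HD

variable {V : Type*} [Fintype V] [DecidableEq V] {G : SimpleGraph V}

/-! Row G1 -/
theorem G1_split {X U : Finset V} (hU : U ⊆ X) (v : V) :
    (nbIn G X v).card = (nbIn G U v).card + (nbIn G (X \ U) v).card := by
  unfold nbIn
  rw [← Finset.card_union_of_disjoint, ← Finset.filter_union, Finset.union_sdiff_of_subset hU]
  exact Finset.disjoint_filter_filter Finset.disjoint_sdiff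

theorem G1_lt {U C : Finset V} {v : V} (hv : v ∈ C) (h : nbIn G U v ⊆ C) :
    (nbIn G U v).card + 1 ≤ C.card := by
  have h1 : nbIn G U v ⊆ C.erase v := by
    intro u hu
    refine Finset.mem_erase.2 ⟨?_, h hu⟩
    rintro rfl
    exact G.loopless.irrefl _ (Finset.mem_filter.1 hu).2
  have h2 := Finset.card_le_card h1
  rw [Finset.card_erase_of_mem hv] at h2
  have h3 : 1 ≤ C.card := Finset.card_pos.2 ⟨v, hv⟩
  omega

theorem G1_aux {X U A B S : Finset V} {k p : ℕ} (hk : 1 ≤ k) (hp : 4 * k ≤ p)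
    (hdeg : ∀ v ∈ X, p ≤ (nbIn G X v).card) (hUX : U ⊆ X)
    (hW : ∑ v ∈ U, min k (nbIn G (X \ U) v).card ≤ 2 * k ^ 2) (hUc : 3 * k + 2 ≤ U.card)
    (hmin : ∀ D ⊆ X, ∑ v ∈ D, min k (nbIn G (X \ D) v).card ≤ 2 * k ^ 2 → 2 * k < D.card →
      U.card ≤ D.card)
    (hA : A.Nonempty) (hB : B.Nonempty) (hAB : Disjoint A B) (hAS : Disjoint A S)
    (hBS : Disjoint B S) (hU : U = A ∪ B ∪ S) (hS : S.card ≤ k)
    (hno : ∀ u ∈ A, ∀ v ∈ B, ¬ G.Adj u v)
    (hsum : ∑ v ∈ A, min k (nbIn G (X \ U) v).card ≤ k ^ 2) : False := by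
  have hAU : A ⊆ U := by
    rw [hU]
    exact Finset.subset_union_left.trans Finset.subset_union_left
  have hBU : B ⊆ U := by
    rw [hU]
    exact Finset.subset_union_right.trans Finset.subset_union_left
  have hSU : S ⊆ U := by
    rw [hU]
    exact Finset.subset_union_right
  have hcard : U.card = A.card + B.card + S.card := by
    rw [hU, Finset.card_union_of_disjoint (Finset.disjoint_union_left.2 ⟨hAS, hBS⟩),
      Finset.card_union_of_disjoint hAB]
  have hA1 : 1 ≤ A.card := Finset.card_pos.2 hA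
  have hB1 : 1 ≤ B.card := Finset.card_pos.2 hB
  -- the set C
  have hC2 : (A ∪ S).card ≤ 2 * k := by
    by_contra hcon
    push Not at hcon
    have h1 : ∀ v ∈ A, min k (nbIn G (X \ (A ∪ S)) v).card ≤ min k (nbIn G (X \ U) v).card := by
      intro v hv
      have h2 : nbIn G (X \ (A ∪ S)) v ⊆ nbIn G (X \ U) v := by
        intro u hu
        obtain ⟨hu1, hu2⟩ := Finset.mem_filter.1 hu
        obtain ⟨hu3, hu4⟩ := Finset.mem_sdiff.1 hu1
        refine Finset.mem_filter.2 ⟨Finset.mem_sdiff.2 ⟨hu3, ?_⟩, hu2⟩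
        intro hu5
        rw [hU] at hu5
        rcases Finset.mem_union.1 hu5 with h6 | h6
        · rcases Finset.mem_union.1 h6 with h7 | h7
          · exact hu4 (Finset.mem_union_left _ h7)
          · exact hno v hv u h7 hu2
        · exact hu4 (Finset.mem_union_right _ h6)
      exact min_le_min_left k (Finset.card_le_card h2)
    have h3 : ∑ v ∈ A ∪ S, min k (nbIn G (X \ (A ∪ S)) v).card ≤ 2 * k ^ 2 := by
      rw [Finset.sum_union hAS]
      have h4 : ∑ v ∈ A, min k (nbIn G (X \ (A ∪ S)) v).card ≤ k ^ 2 :=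
        (Finset.sum_le_sum h1).trans hsum
      have h5 : ∑ v ∈ S, min k (nbIn G (X \ (A ∪ S)) v).card ≤ S.card * k := by
        have h6 : ∑ v ∈ S, min k (nbIn G (X \ (A ∪ S)) v).card ≤ ∑ _v ∈ S, k :=
          Finset.sum_le_sum fun v _ => min_le_left _ _
        rwa [Finset.sum_const, smul_eq_mul] at h6
      have h7 : S.card * k ≤ k * k := Nat.mul_le_mul_right k hS
      nlinarith
    have h8 := hmin (A ∪ S) ((Finset.union_subset hAU hSU).trans hUX) h3 hcon
    rw [Finset.card_union_of_disjoint hAS] at h8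
    omega
  have hwA : ∀ v ∈ A, min k (nbIn G (X \ U) v).card = k := by
    intro v hv
    have h1 : nbIn G U v ⊆ A ∪ S := by
      intro u hu
      obtain ⟨hu1, hu2⟩ := Finset.mem_filter.1 hu
      rw [hU] at hu1
      rcases Finset.mem_union.1 hu1 with h6 | h6
      · rcases Finset.mem_union.1 h6 with h7 | h7
        · exact Finset.mem_union_left _ h7
        · exact absurd hu2 (hno v hv u h7)
      · exact Finset.mem_union_right _ h6
    have h2 := G1_lt (Finset.mem_union_left S hv) h1
    have h3 := G1_split (G := G) hUX v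
    have h4 := hdeg v (hUX (hAU hv))
    rw [min_eq_left]
    omega
  have hAk : A.card ≤ k := by
    rw [Finset.sum_congr rfl hwA, Finset.sum_const, smul_eq_mul] at hsum
    by_contra hcon
    push Not at hcon
    have h1 : (k + 1) * k ≤ A.card * k := Nat.mul_le_mul_right k hcon
    nlinarith
  -- the set D
  have hDX : B ∪ S ⊆ X := (Finset.union_subset hBU hSU).trans hUX
  have hD : ∑ v ∈ B ∪ S, min k (nbIn G (X \ (B ∪ S)) v).card ≤ 2 * k ^ 2 := by
    have hsub : ∀ v, nbIn G (X \ (B ∪ S)) v ⊆ nbIn G (X \ U) v ∪ nbIn G A v := by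
      intro v u hu
      obtain ⟨hu1, hu2⟩ := Finset.mem_filter.1 hu
      obtain ⟨hu3, hu4⟩ := Finset.mem_sdiff.1 hu1
      by_cases huA : u ∈ A
      · exact Finset.mem_union_right _ (Finset.mem_filter.2 ⟨huA, hu2⟩)
      · refine Finset.mem_union_left _ (Finset.mem_filter.2 ⟨Finset.mem_sdiff.2 ⟨hu3, ?_⟩, hu2⟩)
        intro hu5
        rw [hU] at hu5
        rcases Finset.mem_union.1 hu5 with h6 | h6
        · rcases Finset.mem_union.1 h6 with h7 | h7
          · exact huA h7
          · exact hu4 (Finset.mem_union_left _ h7)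
        · exact hu4 (Finset.mem_union_right _ h6)
    have h1 : ∀ v ∈ B, min k (nbIn G (X \ (B ∪ S)) v).card ≤ min k (nbIn G (X \ U) v).card := by
      intro v hv
      refine min_le_min_left k (Finset.card_le_card ?_)
      intro u hu
      rcases Finset.mem_union.1 (hsub v hu) with h2 | h2
      · exact h2
      · obtain ⟨h3, h4⟩ := Finset.mem_filter.1 h2
        exact absurd h4.symm (hno u h3 v hv)
    have h2 : ∀ v ∈ S, min k (nbIn G (X \ (B ∪ S)) v).card ≤
        min k (nbIn G (X \ U) v).card + A.card := by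
      intro v hv
      have h3 := Finset.card_le_card (hsub v)
      have h4 := Finset.card_union_le (nbIn G (X \ U) v) (nbIn G A v)
      have h5 : (nbIn G A v).card ≤ A.card := Finset.card_le_card (Finset.filter_subset _ _)
      omega
    rw [Finset.sum_union hBS]
    have h3 := Finset.sum_le_sum h1
    have h4 := Finset.sum_le_sum h2
    rw [Finset.sum_add_distrib, Finset.sum_const, smul_eq_mul] at h4
    have h5 : ∑ v ∈ U, min k (nbIn G (X \ U) v).card =
        ∑ v ∈ A, min k (nbIn G (X \ U) v).card + ∑ v ∈ B, min k (nbIn G (X \ U) v).card +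
          ∑ v ∈ S, min k (nbIn G (X \ U) v).card := by
      conv_lhs => rw [hU]
      rw [Finset.sum_union (Finset.disjoint_union_left.2 ⟨hAS, hBS⟩), Finset.sum_union hAB, ← hU]
    have h6 : ∑ v ∈ A, min k (nbIn G (X \ U) v).card = A.card * k := by
      rw [Finset.sum_congr rfl hwA, Finset.sum_const, smul_eq_mul]
    have h7 : S.card * A.card ≤ A.card * k := by
      rw [mul_comm]
      exact Nat.mul_le_mul_left _ hS
    omega
  have h9 : (B ∪ S).card = B.card + S.card := Finset.card_union_of_disjoint hBS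
  have h8 := hmin (B ∪ S) hDX hD (by omega)
  omega

/-- G1: in a graph of large minimum degree a minimal set of small boundary weight is highly connected. -/
theorem gn_min {X : Finset V} {k p : ℕ} (hk : 1 ≤ k) (hp : 4 * k ≤ p) (hX : X.Nonempty)
    (hdeg : ∀ v ∈ X, p ≤ (nbIn G X v).card) :
    ∃ U ⊆ X, KC G U k ∧ ∑ v ∈ U, min k (nbIn G (X \ U) v).card ≤ 2 * k ^ 2 ∧ 2 * k < U.card := by
  have hXc : p + 1 ≤ X.card := by
    obtain ⟨v, hv⟩ := hX
    have h1 := G1_lt (G := G) (U := X) hv (Finset.filter_subset _ _)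
    have h2 := hdeg v hv
    omega
  let F : Finset (Finset V) := X.powerset.filter fun U =>
    ∑ v ∈ U, min k (nbIn G (X \ U) v).card ≤ 2 * k ^ 2 ∧ 2 * k < U.card
  have hXF : X ∈ F := by
    refine Finset.mem_filter.2 ⟨Finset.mem_powerset.2 (Finset.Subset.refl _), ?_, by omega⟩
    have h1 : ∑ v ∈ X, min k (nbIn G (X \ X) v).card = 0 := by
      apply Finset.sum_eq_zero
      intro v _
      rw [Finset.sdiff_self]
      simp [nbIn]
    rw [h1]
    exact Nat.zero_le _
  obtain ⟨U, hUF, hmin0⟩ := Finset.exists_min_image F Finset.card ⟨X, hXF⟩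
  obtain ⟨hUX0, hW, hUc⟩ := Finset.mem_filter.1 hUF
  have hUX : U ⊆ X := Finset.mem_powerset.1 hUX0
  have hmin : ∀ D ⊆ X, ∑ v ∈ D, min k (nbIn G (X \ D) v).card ≤ 2 * k ^ 2 → 2 * k < D.card →
      U.card ≤ D.card := fun D hD h1 h2 =>
    hmin0 D (Finset.mem_filter.2 ⟨Finset.mem_powerset.2 hD, h1, h2⟩)
  have hbig : 3 * k + 2 ≤ U.card := by
    have h1 : ∃ v ∈ U, (nbIn G (X \ U) v).card < k := by
      by_contra hcon
      push Not at hcon
      have h2 : ∑ v ∈ U, min k (nbIn G (X \ U) v).card = U.card * k := by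
        rw [Finset.sum_congr rfl (fun v hv => min_eq_left (hcon v hv)), Finset.sum_const,
          smul_eq_mul]
      rw [h2] at hW
      have h3 : (2 * k + 1) * k ≤ U.card * k := Nat.mul_le_mul_right k hUc
      nlinarith
    obtain ⟨v, hv, h2⟩ := h1
    have h3 := G1_split (G := G) hUX v
    have h4 := hdeg v (hUX hv)
    have h5 := G1_lt (G := G) (U := U) hv (Finset.filter_subset _ _)
    omega
  refine ⟨U, hUX, ⟨by omega, ?_⟩, hW, hUc⟩
  intro S hS x hx y hy
  by_contra hcon
  have hAsub : comp G (U \ S) x ⊆ U \ S := comp_subset _ _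
  have hno : ∀ u ∈ comp G (U \ S) x, ∀ v ∈ (U \ S) \ comp G (U \ S) x, ¬ G.Adj u v := by
    intro u hu v hv huv
    exact comp_no_touch (G := G) (U \ S) x ⟨u, hu, v, hv, huv⟩
  have hA : (comp G (U \ S) x).Nonempty := ⟨x, mem_comp_self hx⟩
  have hB : ((U \ S) \ comp G (U \ S) x).Nonempty :=
    ⟨y, Finset.mem_sdiff.2 ⟨hy, fun h => hcon (mem_comp.1 h)⟩⟩
  have hAB : Disjoint (comp G (U \ S) x) ((U \ S) \ comp G (U \ S) x) := Finset.disjoint_sdiff
  have hUS : Disjoint (U \ S) (U ∩ S) := Finset.disjoint_sdiff_inter U S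
  have hAS : Disjoint (comp G (U \ S) x) (U ∩ S) := Finset.disjoint_of_subset_left hAsub hUS
  have hBS : Disjoint ((U \ S) \ comp G (U \ S) x) (U ∩ S) :=
    Finset.disjoint_of_subset_left Finset.sdiff_subset hUS
  have hUeq : U = comp G (U \ S) x ∪ ((U \ S) \ comp G (U \ S) x) ∪ (U ∩ S) := by
    rw [Finset.union_sdiff_of_subset hAsub, Finset.sdiff_union_inter]
  have hSc : (U ∩ S).card ≤ k := (Finset.card_le_card Finset.inter_subset_right).trans hS
  have hsum : ∑ v ∈ comp G (U \ S) x, min k (nbIn G (X \ U) v).card +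
      ∑ v ∈ (U \ S) \ comp G (U \ S) x, min k (nbIn G (X \ U) v).card ≤ 2 * k ^ 2 := by
    rw [← Finset.sum_union hAB, Finset.union_sdiff_of_subset hAsub]
    exact (Finset.sum_le_sum_of_subset Finset.sdiff_subset).trans hW
  by_cases h1 : ∑ v ∈ comp G (U \ S) x, min k (nbIn G (X \ U) v).card ≤ k ^ 2
  · exact G1_aux hk hp hdeg hUX hW hbig hmin hA hB hAB hAS hBS hUeq hSc hno h1
  · have h2 : ∑ v ∈ (U \ S) \ comp G (U \ S) x, min k (nbIn G (X \ U) v).card ≤ k ^ 2 := by
      omega
    refine G1_aux hk hp hdeg hUX hW hbig hmin hB hA hAB.symm hBS hAS ?_ hSc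
      (fun u hu v hv huv => hno v hv u hu huv.symm) h2
    rw [Finset.union_comm ((U \ S) \ comp G (U \ S) x) (comp G (U \ S) x)]
    exact hUeq

/-! Row G2 -/
theorem G2_choose {α : Type*} (A : α → Finset ℕ) (K : Finset α)
    (h : ∀ v ∈ K, K.card ≤ (A v).card) :
    ∃ c : α → ℕ, (∀ v ∈ K, c v ∈ A v) ∧ ∀ u ∈ K, ∀ v ∈ K, u ≠ v → c u ≠ c v := by
  induction K using Finset.induction_on with
  | empty => exact ⟨fun _ => 0, by simp, by simp⟩
  | insert a K ha ih =>
    obtain ⟨c, h1, h2⟩ := ih (fun v hv => by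
      have := h v (Finset.mem_insert_of_mem hv)
      rw [Finset.card_insert_of_notMem ha] at this
      omega)
    have h3 := h a (Finset.mem_insert_self a K)
    rw [Finset.card_insert_of_notMem ha] at h3
    obtain ⟨x, hx, hx'⟩ : ∃ x ∈ A a, x ∉ K.image c := by
      by_contra hcon
      push Not at hcon
      have h4 : (A a).card ≤ (K.image c).card := Finset.card_le_card (fun x hx => hcon x hx)
      have h5 := Finset.card_image_le (s := K) (f := c)
      omega
    have h6 : ∀ v ∈ K, v ≠ a := fun v hv hva => ha (hva ▸ hv)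
    refine ⟨fun v => if v = a then x else c v, ?_, ?_⟩
    · intro v hv
      by_cases hva : v = a
      · simp only [hva, if_true]
        exact hx
      · simp only [hva, if_false]
        exact h1 v ((Finset.mem_insert.1 hv).resolve_left hva)
    · intro u hu v hv huv
      by_cases hua : u = a
      · by_cases hva : v = a
        · exact absurd (hua.trans hva.symm) huv
        · simp only [hua, hva, if_true, if_false]
          intro h7
          exact hx' (Finset.mem_image.2 ⟨v, (Finset.mem_insert.1 hv).resolve_left hva, h7.symm⟩)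
      · by_cases hva : v = a
        · simp only [hua, hva, if_true, if_false]
          intro h7
          exact hx' (Finset.mem_image.2 ⟨u, (Finset.mem_insert.1 hu).resolve_left hua, h7⟩)
        · simp only [hua, hva, if_false]
          exact h2 u ((Finset.mem_insert.1 hu).resolve_left hua) v
            ((Finset.mem_insert.1 hv).resolve_left hva) huv

theorem G2_enum (Q : Finset ℕ) (m : ℕ) (hQ : Q.card = m) :
    ∃ q : ℕ → ℕ, (∀ i < m, q i ∈ Q) ∧ ∀ i < m, ∀ j < m, q i = q j → i = j := by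
  refine ⟨fun i => if h : i < m then Q.orderEmbOfFin hQ ⟨i, h⟩ else 0, ?_, ?_⟩
  · intro i hi
    simp only [hi, dif_pos]
    exact Finset.orderEmbOfFin_mem Q hQ _
  · intro i hi j hj hij
    simp only [hi, hj, dif_pos] at hij
    have h1 := (Q.orderEmbOfFin hQ).injective hij
    exact congrArg Fin.val h1

theorem G2_shift {m a b s t : ℕ} (ha : a < m) (hb : b < m) (hst : s = t)
    (h : (a + s) % m = (b + t) % m) : a = b := by
  subst hst
  have h1 : a ≡ b [MOD m] := Nat.ModEq.add_right_cancel' s h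
  exact Nat.ModEq.eq_of_lt_of_lt h1 ha hb

/-- The shift with few conflicts. -/
theorem G2_few {L : Finset V} {N : V → Finset V} {k m : ℕ} (hk : 1 ≤ k) (hm : 2 * k ≤ m)
    (hN : ∑ v ∈ L, (N v).card ≤ 2 * k ^ 2) (φ f : V → ℕ) (Q : ℕ → ℕ)
    (hQ : ∀ i < m, ∀ j < m, Q i = Q j → i = j) :
    ∃ s < m, (L.filter (fun v => ∃ u ∈ N v, Q ((φ v + s) % m) = f u)).card ≤ k := by
  have hm0 : 0 < m := by omega
  by_contra hcon
  push Not at hcon
  have h1 : ∀ v ∈ L, ((Finset.range m).filter
      (fun s => ∃ u ∈ N v, Q ((φ v + s) % m) = f u)).card ≤ (N v).card := by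
    intro v _
    have h2 : (Finset.range m).filter (fun s => ∃ u ∈ N v, Q ((φ v + s) % m) = f u) ⊆
        (N v).biUnion (fun u => (Finset.range m).filter (fun s => Q ((φ v + s) % m) = f u)) := by
      intro s hs
      obtain ⟨h3, u, h4, h5⟩ := Finset.mem_filter.1 hs
      exact Finset.mem_biUnion.2 ⟨u, h4, Finset.mem_filter.2 ⟨h3, h5⟩⟩
    refine (Finset.card_le_card h2).trans ?_
    refine (Finset.card_biUnion_le_card_mul _ _ 1 ?_).trans (by rw [mul_one])
    intro u _
    refine Finset.card_le_one.2 ?_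
    intro s hs t ht
    obtain ⟨h3, h4⟩ := Finset.mem_filter.1 hs
    obtain ⟨h5, h6⟩ := Finset.mem_filter.1 ht
    have h7 := hQ _ (Nat.mod_lt _ hm0) _ (Nat.mod_lt _ hm0) (h4.trans h6.symm)
    rw [add_comm (φ v) s, add_comm (φ v) t] at h7
    exact G2_shift (Finset.mem_range.1 h3) (Finset.mem_range.1 h5) rfl h7
  have h2 : ∑ s ∈ Finset.range m, (L.filter (fun v => ∃ u ∈ N v, Q ((φ v + s) % m) = f u)).card
      ≤ ∑ v ∈ L, (N v).card := by
    simp only [Finset.card_filter]
    rw [Finset.sum_comm]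
    refine Finset.sum_le_sum ?_
    intro v hv
    have := h1 v hv
    rw [Finset.card_filter] at this
    exact this
  have h3 : ∑ s ∈ Finset.range m, (k + 1) ≤
      ∑ s ∈ Finset.range m, (L.filter (fun v => ∃ u ∈ N v, Q ((φ v + s) % m) = f u)).card :=
    Finset.sum_le_sum (fun s hs => hcon s (Finset.mem_range.1 hs))
  rw [Finset.sum_const, Finset.card_range, smul_eq_mul] at h3
  have h4 : m * (k + 1) ≤ 2 * k ^ 2 := h3.trans (h2.trans hN)
  have h5 : 2 * k * (k + 1) ≤ m * (k + 1) := Nat.mul_le_mul_right _ hm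
  nlinarith

/-- G2: extending a colouring to the vertices of a set with few outside neighbours. -/
theorem gn_ext {X U : Finset V} {k m : ℕ} (hk : 1 ≤ k) (hm : 2 * k ≤ m) (hUX : U ⊆ X)
    (hW : ∑ v ∈ U, min k (nbIn G (X \ U) v).card ≤ 2 * k ^ 2) (hU : Col G U m)
    (hL : Col G (X \ U.filter (fun v => (nbIn G (X \ U) v).card < k)) (m + 4 * k)) :
    Col G X (m + 4 * k) := by
  obtain ⟨φ, hφ1, hφ2⟩ := hU
  obtain ⟨f, hf1, hf2⟩ := hL
  have hm0 : 0 < m := by omega
  set L : Finset V := U.filter (fun v => (nbIn G (X \ U) v).card < k) with hLdef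
  set T : Finset V := U.filter (fun v => ¬ (nbIn G (X \ U) v).card < k) with hTdef
  have hLU : L ⊆ U := Finset.filter_subset _ _
  have hTU : T ⊆ U := Finset.filter_subset _ _
  -- the two sums
  have hT : T.card ≤ 2 * k := by
    have h1 : ∑ v ∈ T, k ≤ ∑ v ∈ U, min k (nbIn G (X \ U) v).card := by
      refine (Finset.sum_le_sum ?_).trans (Finset.sum_le_sum_of_subset hTU)
      intro v hv
      have := (Finset.mem_filter.1 hv).2
      exact le_min le_rfl (by omega)
    rw [Finset.sum_const, smul_eq_mul] at h1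
    have h2 : T.card * k ≤ (2 * k) * k := by
      refine (h1.trans hW).trans (le_of_eq (by ring))
    exact Nat.le_of_mul_le_mul_right h2 (by omega)
  have hLs : ∑ v ∈ L, (nbIn G (X \ U) v).card ≤ 2 * k ^ 2 := by
    refine le_trans ?_ hW
    refine (Finset.sum_le_sum ?_).trans (Finset.sum_le_sum_of_subset hLU)
    intro v hv
    have := (Finset.mem_filter.1 hv).2
    exact le_min (by omega) le_rfl
  -- the colours
  have hrem : m + 2 * k ≤ (Finset.range (m + 4 * k) \ T.image f).card := by
    have h1 := Finset.le_card_sdiff (T.image f) (Finset.range (m + 4 * k))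
    have h2 := Finset.card_image_le (s := T) (f := f)
    rw [Finset.card_range] at h1
    omega
  obtain ⟨Q, hQ1, hQ2⟩ := Finset.exists_subset_card_eq
    (show m ≤ (Finset.range (m + 4 * k) \ T.image f).card by omega)
  have hrem2 : 2 * k ≤ ((Finset.range (m + 4 * k) \ T.image f) \ Q).card := by
    have h1 := Finset.le_card_sdiff Q (Finset.range (m + 4 * k) \ T.image f)
    omega
  obtain ⟨R, hR1, hR2⟩ := Finset.exists_subset_card_eq hrem2
  obtain ⟨q, hq1, hq2⟩ := G2_enum Q m hQ2
  obtain ⟨s, hs, hK⟩ := G2_few (L := L) (N := fun v => nbIn G (X \ U) v) hk hm hLs φ f q hq2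
  set K : Finset V := L.filter (fun v => ∃ u ∈ nbIn G (X \ U) v, q ((φ v + s) % m) = f u)
    with hKdef
  have hKL : K ⊆ L := Finset.filter_subset _ _
  obtain ⟨c, hc1, hc2⟩ := G2_choose (fun v => R \ (nbIn G (X \ U) v).image f) K (by
    intro v hv
    have h1 := Finset.le_card_sdiff ((nbIn G (X \ U) v).image f) R
    have h2 := Finset.card_image_le (s := nbIn G (X \ U) v) (f := f)
    have h3 := (Finset.mem_filter.1 (hKL hv)).2
    omega)
  have hmod : ∀ n : ℕ, n % m < m := fun n => Nat.mod_lt _ hm0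
  have hQr : ∀ x ∈ Q, x < m + 4 * k ∧ x ∉ T.image f := fun x hx =>
    ⟨Finset.mem_range.1 (Finset.mem_sdiff.1 (hQ1 hx)).1, (Finset.mem_sdiff.1 (hQ1 hx)).2⟩
  have hRr : ∀ x ∈ R, x < m + 4 * k ∧ x ∉ T.image f ∧ x ∉ Q := fun x hx =>
    ⟨Finset.mem_range.1 (Finset.mem_sdiff.1 (Finset.mem_sdiff.1 (hR1 hx)).1).1,
      (Finset.mem_sdiff.1 (Finset.mem_sdiff.1 (hR1 hx)).1).2, (Finset.mem_sdiff.1 (hR1 hx)).2⟩
  -- the new colouring on L
  set g : V → ℕ := fun v => if v ∈ K then c v else q ((φ v + s) % m) with hgdef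
  have hgK : ∀ v ∈ K, g v = c v := fun v hv => by simp only [hgdef, hv, if_true]
  have hgN : ∀ v, v ∉ K → g v = q ((φ v + s) % m) := fun v hv => by
    simp only [hgdef, hv, if_false]
  have hcR : ∀ v ∈ K, c v ∈ R := fun v hv => (Finset.mem_sdiff.1 (hc1 v hv)).1
  have hg1 : ∀ v ∈ L, g v < m + 4 * k ∧ g v ∉ T.image f := by
    intro v _
    by_cases hv : v ∈ K
    · rw [hgK v hv]
      exact ⟨(hRr _ (hcR v hv)).1, (hRr _ (hcR v hv)).2.1⟩
    · rw [hgN v hv]
      exact hQr _ (hq1 _ (hmod _))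
  have hg2 : ∀ u ∈ L, ∀ v ∈ X \ L, G.Adj u v → g u ≠ f v := by
    intro u hu v hv huv
    obtain ⟨hvX, hvL⟩ := Finset.mem_sdiff.1 hv
    by_cases hvU : v ∈ U
    · have hvT : v ∈ T := by
        refine Finset.mem_filter.2 ⟨hvU, fun h => hvL (Finset.mem_filter.2 ⟨hvU, h⟩)⟩
      intro h
      exact (hg1 u hu).2 (Finset.mem_image.2 ⟨v, hvT, h.symm⟩)
    · have hvN : v ∈ nbIn G (X \ U) u := mem_nbIn.2 ⟨Finset.mem_sdiff.2 ⟨hvX, hvU⟩, huv⟩
      by_cases huK : u ∈ K
      · rw [hgK u huK]
        intro h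
        exact (Finset.mem_sdiff.1 (hc1 u huK)).2 (Finset.mem_image.2 ⟨v, hvN, h.symm⟩)
      · rw [hgN u huK]
        intro h
        exact huK (Finset.mem_filter.2 ⟨hu, v, hvN, h⟩)
  have hg3 : ∀ u ∈ L, ∀ v ∈ L, G.Adj u v → g u ≠ g v := by
    intro u hu v hv huv
    by_cases huK : u ∈ K
    · by_cases hvK : v ∈ K
      · rw [hgK u huK, hgK v hvK]
        exact hc2 u huK v hvK huv.ne
      · rw [hgK u huK, hgN v hvK]
        intro h
        exact (hRr _ (hcR u huK)).2.2 (h ▸ hq1 _ (hmod _))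
    · by_cases hvK : v ∈ K
      · rw [hgN u huK, hgK v hvK]
        intro h
        exact (hRr _ (hcR v hvK)).2.2 (h ▸ hq1 _ (hmod _))
      · rw [hgN u huK, hgN v hvK]
        intro h
        exact hφ2 u (hLU hu) v (hLU hv) huv (G2_shift (hφ1 u (hLU hu)) (hφ1 v (hLU hv)) rfl
          (hq2 _ (hmod _) _ (hmod _) h))
  refine ⟨fun v => if v ∈ L then g v else f v, ?_, ?_⟩
  · intro u hu
    by_cases huL : u ∈ L
    · simp only [huL, if_true]
      exact (hg1 u huL).1
    · simp only [huL, if_false]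
      exact hf1 u (Finset.mem_sdiff.2 ⟨hu, huL⟩)
  · intro u hu v hv huv
    by_cases huL : u ∈ L
    · by_cases hvL : v ∈ L
      · simp only [huL, hvL, if_true]
        exact hg3 u huL v hvL huv
      · simp only [huL, hvL, if_true, if_false]
        exact hg2 u huL v (Finset.mem_sdiff.2 ⟨hv, hvL⟩) huv
    · by_cases hvL : v ∈ L
      · simp only [huL, hvL, if_true, if_false]
        exact (hg2 v hvL u (Finset.mem_sdiff.2 ⟨hu, huL⟩) huv.symm).symm
      · simp only [huL, hvL, if_false]
        exact hf2 u (Finset.mem_sdiff.2 ⟨hu, huL⟩) v (Finset.mem_sdiff.2 ⟨hv, hvL⟩) huv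

/-! Row G3 -/
theorem G3_extend {X : Finset V} {v : V} {c : ℕ} (hv : v ∈ X) (h : Col G (X.erase v) c)
    (hd : (nbIn G X v).card < c) : Col G X c := by
  obtain ⟨φ, h1, h2⟩ := h
  obtain ⟨a, ha1, ha2⟩ : ∃ a ∈ Finset.range c, a ∉ (nbIn G X v).image φ := by
    apply Finset.exists_mem_notMem_of_card_lt_card
    rw [Finset.card_range]
    exact lt_of_le_of_lt Finset.card_image_le hd
  have ha3 : a < c := Finset.mem_range.1 ha1
  refine ⟨fun u => if u = v then a else φ u, ?_, ?_⟩
  · intro u hu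
    by_cases huv : u = v
    · simp only [huv, if_true]
      exact ha3
    · simp only [huv, if_false]
      exact h1 u (Finset.mem_erase.2 ⟨huv, hu⟩)
  · intro u hu w hw huw
    by_cases huv : u = v <;> by_cases hwv : w = v
    · subst huv
      subst hwv
      exact absurd huw (G.loopless.irrefl _)
    · subst huv
      simp only [if_true, hwv, if_false]
      intro h3
      apply ha2
      rw [h3]
      exact Finset.mem_image_of_mem φ (mem_nbIn.2 ⟨hw, huw⟩)
    · subst hwv
      simp only [if_true, huv, if_false]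
      intro h3
      apply ha2
      rw [← h3]
      exact Finset.mem_image_of_mem φ (mem_nbIn.2 ⟨hu, huw.symm⟩)
    · simp only [huv, hwv, if_false]
      exact h2 u (Finset.mem_erase.2 ⟨huv, hu⟩) w (Finset.mem_erase.2 ⟨hwv, hw⟩) huw

/-- G3: Girao-Narayanan: a graph of large chromatic number has a highly connected induced subgraph of almost the same
chromatic number. -/
theorem gn0 {U : Finset V} {k c : ℕ} (hk : 1 ≤ k) (hc : 6 * k ≤ c) (h : ¬ Col G U c) :
    ∃ M ⊆ U, KC G M k ∧ ¬ Col G M (c - 4 * k) := by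
  by_contra hcon
  push Not at hcon
  apply h
  obtain ⟨m, hm⟩ : ∃ m, m = c - 4 * k := ⟨_, rfl⟩
  rw [← hm] at hcon
  have hcm : c = m + 4 * k := by omega
  have key : ∀ n : ℕ, ∀ X ⊆ U, X.card = n → Col G X c := by
    intro n
    induction n using Nat.strong_induction_on with
    | _ n ih =>
      intro X hXU hXn
      rcases X.eq_empty_or_nonempty with rfl | hX
      · exact col_empty c
      by_cases hdeg : ∀ v ∈ X, c ≤ (nbIn G X v).card
      · obtain ⟨Y, hYX, hKC, hW, hY⟩ := gn_min (G := G) hk (by omega : 4 * k ≤ c) hX hdeg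
        have h1 : Col G Y m := hcon Y (hYX.trans hXU) hKC
        have h2 : ∃ v ∈ Y, (nbIn G (X \ Y) v).card < k := by
          by_contra h3
          push Not at h3
          have h4 : ∑ v ∈ Y, min k (nbIn G (X \ Y) v).card = Y.card * k := by
            rw [Finset.sum_congr rfl (fun v hv => min_eq_left (h3 v hv)), Finset.sum_const,
              smul_eq_mul]
          rw [h4] at hW
          have h5 : (2 * k + 1) * k ≤ Y.card * k := Nat.mul_le_mul_right k hY
          nlinarith
        obtain ⟨v, hv, h3⟩ := h2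
        have h4 : (X \ Y.filter (fun v => (nbIn G (X \ Y) v).card < k)).card < n := by
          rw [← hXn]
          apply Finset.card_lt_card
          refine Finset.ssubset_iff_subset_ne.2 ⟨Finset.sdiff_subset, ?_⟩
          intro h5
          have h6 : v ∈ X \ Y.filter (fun v => (nbIn G (X \ Y) v).card < k) := by
            rw [h5]
            exact hYX hv
          exact (Finset.mem_sdiff.1 h6).2 (Finset.mem_filter.2 ⟨hv, h3⟩)
        have h5 := ih _ h4 _ (Finset.sdiff_subset.trans hXU) rfl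
        rw [hcm] at h5 ⊢
        exact gn_ext hk (by omega) hYX hW h1 h5
      · push Not at hdeg
        obtain ⟨v, hv, hd⟩ := hdeg
        have h1 : (X.erase v).card < n := by
          rw [← hXn]
          exact Finset.card_erase_lt_of_mem hv
        exact G3_extend hv (ih _ h1 _ ((Finset.erase_subset v X).trans hXU) rfl) hd
  exact key U.card U (Finset.Subset.refl _) rfl

end HD
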