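import Pool.Agent.LibHL.KC
import Pool.Agent.LibHD.M
import Pool.Agent.LibHD.X1

set_option autoImplicit false
set_option linter.unusedSectionVars false

open scoped Classical

noncomputable section

namespace HD

variable {V : Type*} [Fintype V] [DecidableEq V] {G : SimpleGraph V}

/-! Row SW -/
/-- the auxiliary graph -/
def SW_H (G : SimpleGraph V) (reg X : Finset V) (n : ℕ) : SimpleGraph (V ⊕ Fin n) where
  Adj a b := (∃ u v, a = Sum.inl u ∧ b = Sum.inl v ∧ G.Adj u v ∧ u ∈ reg ∧ v ∈ reg) ∨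
    (∃ u s, a = Sum.inl u ∧ b = Sum.inr s ∧ u ∈ X) ∨ (∃ u s, a = Sum.inr s ∧ b = Sum.inl u ∧ u ∈ X)
  symm := ⟨by
    rintro a b (⟨u, v, h1, h2, h3, h4, h5⟩ | ⟨u, s, h1, h2, h3⟩ | ⟨u, s, h1, h2, h3⟩)
    · exact Or.inl ⟨v, u, h2, h1, h3.symm, h5, h4⟩
    · exact Or.inr (Or.inr ⟨u, s, h2, h1, h3⟩)
    · exact Or.inr (Or.inl ⟨u, s, h2, h1, h3⟩)⟩
  loopless := ⟨by
    rintro a (⟨u, v, h1, h2, h3, _⟩ | ⟨u, s, h1, h2, _⟩ | ⟨u, s, h1, h2, _⟩)
    · rw [h1] at h2
      have h4 : u = v := Sum.inl_injective h2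
      rw [h4] at h3
      exact G.loopless.irrefl v h3
    · rw [h1] at h2
      exact absurd h2 (by simp)
    · rw [h1] at h2
      exact absurd h2 (by simp)⟩

theorem SW_adj {reg X : Finset V} {n : ℕ} {u v : V} :
    (SW_H G reg X n).Adj (Sum.inl u) (Sum.inl v) ↔ G.Adj u v ∧ u ∈ reg ∧ v ∈ reg := by
  constructor
  · rintro (⟨u', v', h1, h2, h3⟩ | ⟨u', s, h1, h2, _⟩ | ⟨u', s, h1, h2, _⟩)
    · rw [Sum.inl_injective h1, Sum.inl_injective h2]
      exact h3
    · exact absurd h2 (by simp)
    · exact absurd h1 (by simp)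
  · intro h
    exact Or.inl ⟨u, v, rfl, rfl, h⟩

theorem SW_adj_inr {reg X : Finset V} {n : ℕ} {s : Fin n} {w : V ⊕ Fin n}
    (h : (SW_H G reg X n).Adj (Sum.inr s) w) : ∃ x ∈ X, w = Sum.inl x := by
  rcases h with ⟨u', v', h1, h2, h3⟩ | ⟨u', s, h1, h2, _⟩ | ⟨u', s, h1, h2, h3⟩
  · exact absurd h1 (by simp)
  · exact absurd h1 (by simp)
  · exact ⟨u', h3, h2⟩

theorem SW_conn {reg X Y : Finset V} {n : ℕ} (hY : Conn G Y) (hreg : Y ⊆ reg) :
    Conn (SW_H G reg X n) (Y.image Sum.inl) := by
  apply PC.conn _ (hY.nonempty.image _)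
  intro P hP h1 h2
  have hpc := hY.pc (Y.filter (fun v => Sum.inl v ∈ P)) (Finset.filter_subset _ _) ?_ ?_
  · obtain ⟨u, hu, v, hv, huv⟩ := hpc
    rw [Finset.mem_filter] at hu
    rw [Finset.mem_sdiff, Finset.mem_filter] at hv
    refine ⟨Sum.inl u, hu.2, Sum.inl v, ?_, SW_adj.2 ⟨huv, hreg hu.1, hreg hv.1⟩⟩
    exact Finset.mem_sdiff.2 ⟨Finset.mem_image_of_mem _ hv.1, fun h => hv.2 ⟨hv.1, h⟩⟩
  · obtain ⟨p, hp⟩ := h1
    obtain ⟨u, hu, rfl⟩ := Finset.mem_image.1 (hP hp)
    exact ⟨u, Finset.mem_filter.2 ⟨hu, hp⟩⟩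
  · obtain ⟨p, hp⟩ := h2
    rw [Finset.mem_sdiff] at hp
    obtain ⟨u, hu, rfl⟩ := Finset.mem_image.1 hp.1
    exact ⟨u, Finset.mem_sdiff.2 ⟨hu, fun h => hp.2 (Finset.mem_filter.1 h).2⟩⟩

theorem SW_back {reg X : Finset V} {n : ℕ} {Z : Finset (V ⊕ Fin n)} (hZ : Conn (SW_H G reg X n) Z)
    (hno : ∀ s, Sum.inr s ∉ Z) {e : V} (he : Sum.inl e ∈ Z) (hreg : e ∈ reg) :
    Conn G (Finset.univ.filter (fun v => Sum.inl v ∈ Z)) ∧
      Finset.univ.filter (fun v => Sum.inl v ∈ Z) ⊆ reg := by
  constructor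
  · apply PC.conn _ ⟨e, Finset.mem_filter.2 ⟨Finset.mem_univ _, he⟩⟩
    intro P hP h1 h2
    have hPZ : P.image Sum.inl ⊆ Z := by
      intro w hw
      obtain ⟨v, hv, rfl⟩ := Finset.mem_image.1 hw
      exact (Finset.mem_filter.1 (hP hv)).2
    have hne : (Z \ P.image Sum.inl).Nonempty := by
      obtain ⟨v, hv⟩ := h2
      rw [Finset.mem_sdiff, Finset.mem_filter] at hv
      refine ⟨Sum.inl v, Finset.mem_sdiff.2 ⟨hv.1.2, fun h => hv.2 ?_⟩⟩
      obtain ⟨v', hv', h3⟩ := Finset.mem_image.1 h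
      rw [← Sum.inl_injective h3]
      exact hv'
    obtain ⟨a, ha, b, hb, hab⟩ := hZ.pc _ hPZ (h1.image _) hne
    obtain ⟨u, hu, rfl⟩ := Finset.mem_image.1 ha
    rw [Finset.mem_sdiff] at hb
    rcases b with v | s
    · refine ⟨u, hu, v, ?_, (SW_adj.1 hab).1⟩
      exact Finset.mem_sdiff.2 ⟨Finset.mem_filter.2 ⟨Finset.mem_univ _, hb.1⟩,
        fun h => hb.2 (Finset.mem_image_of_mem _ h)⟩
    · exact absurd hb.1 (hno s)
  · by_contra hcon
    obtain ⟨v, hv, hvr⟩ := Finset.not_subset.1 hcon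
    have hv' := (Finset.mem_filter.1 hv).2
    have hPZ : Z.filter (fun w => ∃ u ∈ reg, w = Sum.inl u) ⊆ Z := Finset.filter_subset _ _
    obtain ⟨a, ha, b, hb, hab⟩ := hZ.pc _ hPZ
      ⟨Sum.inl e, Finset.mem_filter.2 ⟨he, e, hreg, rfl⟩⟩
      ⟨Sum.inl v, Finset.mem_sdiff.2 ⟨hv', fun h => by
        obtain ⟨_, u, hu, h3⟩ := Finset.mem_filter.1 h
        rw [Sum.inl_injective h3] at hvr
        exact hvr hu⟩⟩
    obtain ⟨_, u, hu, rfl⟩ := Finset.mem_filter.1 ha
    rw [Finset.mem_sdiff] at hb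
    rcases b with v | s
    · exact hb.2 (Finset.mem_filter.2 ⟨hb.1, v, (SW_adj.1 hab).2.2, rfl⟩)
    · exact absurd hb.1 (hno s)

/-- SW: exceeding Menger. -/
theorem swap0 {reg A E C D X : Finset V} {r κ : ℕ} (F : V → Finset V)
    (hF1 : ∀ e ∈ E ∪ C, F e ⊆ reg \ X ∧ Conn G (F e) ∧ e ∈ F e ∧ (F e ∩ A).Nonempty)
    (hF2 : ∀ e ∈ E ∪ C, ∀ e' ∈ E ∪ C, e ≠ e' → Disjoint (F e) (F e'))
    (hEC : Disjoint E C) (hr : C.card = r) (hD : D ⊆ reg) (hKC : KC G D κ) (hκ : E.card + r ≤ κ)
    (hCD : C ⊆ D) (hXD : X ⊆ D) (hX : κ < X.card) :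
    ∃ (E' : Finset V) (F' : V → Finset V), E' ⊆ X ∧ E'.card = r ∧
      (∀ e ∈ E ∪ E', F' e ⊆ reg ∧ Conn G (F' e) ∧ F' e ∩ (E ∪ X) = {e} ∧ (F' e ∩ A).Nonempty) ∧
      ∀ e ∈ E ∪ E', ∀ e' ∈ E ∪ E', e ≠ e' → Disjoint (F' e) (F' e') := by
  obtain ⟨n, hn⟩ : ∃ n : ℕ, n = X.card - r := ⟨_, rfl⟩
  have hEX : Disjoint E X := by
    rw [Finset.disjoint_left]
    intro e he hx
    have h1 := hF1 e (Finset.mem_union_left _ he)
    exact (Finset.mem_sdiff.1 (h1.1 h1.2.2.1)).2 hx
  obtain ⟨A', hA'⟩ : ∃ A' : Finset (V ⊕ Fin n), A' = A.image Sum.inl ∪ Finset.univ.image Sum.inr :=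
    ⟨_, rfl⟩
  obtain ⟨B', hB'⟩ : ∃ B' : Finset (V ⊕ Fin n), B' = (E ∪ X).image Sum.inl := ⟨_, rfl⟩
  have hB'card : B'.card = E.card + X.card := by
    rw [hB', Finset.card_image_of_injective _ Sum.inl_injective, Finset.card_union_of_disjoint hEX]
  have hFreg : ∀ e ∈ E ∪ C, F e ⊆ reg := fun e he => (hF1 e he).1.trans Finset.sdiff_subset
  -- the conclusion from a free set
  have hfree : ∀ (S : Finset (V ⊕ Fin n)) (e : V), e ∈ E → (∀ v ∈ F e, Sum.inl v ∉ S) →
      ∃ a ∈ A' \ S, ∃ b ∈ B' \ S, Joined (SW_H G reg X n) (Finset.univ \ S) a b := by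
    intro S e he hS
    obtain ⟨h1, h2, h3, a, ha⟩ := hF1 e (Finset.mem_union_left _ he)
    rw [Finset.mem_inter] at ha
    refine ⟨Sum.inl a, Finset.mem_sdiff.2 ⟨?_, hS a ha.1⟩, Sum.inl e,
      Finset.mem_sdiff.2 ⟨?_, hS e h3⟩, (F e).image Sum.inl, ?_, Finset.mem_image_of_mem _ ha.1,
      Finset.mem_image_of_mem _ h3, SW_conn h2 (hFreg e (Finset.mem_union_left _ he))⟩
    · rw [hA']
      exact Finset.mem_union_left _ (Finset.mem_image_of_mem _ ha.2)
    · rw [hB']
      exact Finset.mem_image_of_mem _ (Finset.mem_union_left _ he)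
    · intro w hw
      obtain ⟨v, hv, rfl⟩ := Finset.mem_image.1 hw
      exact Finset.mem_sdiff.2 ⟨Finset.mem_univ _, hS v hv⟩
  -- a blocked family forces many elements of S
  have hblock : ∀ (S : Finset (V ⊕ Fin n)) (T : Finset V), T ⊆ E ∪ C →
      (∀ e ∈ T, ∃ v ∈ F e, Sum.inl v ∈ S) →
      T.card ≤ (S.filter (fun w => ∃ e ∈ T, ∃ v ∈ F e, w = Sum.inl v)).card := by
    intro S T hT hS
    choose! f hf1 hf2 using hS
    calc T.card = (T.image f).card := by
          rw [Finset.card_image_of_injOn]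
          intro e he e' he' hee
          by_contra hne
          have hd := hF2 e (hT he) e' (hT he') hne
          exact Finset.disjoint_left.1 hd (hf1 e he) (hee ▸ hf1 e' he')
      _ = ((T.image f).image (Sum.inl : V → V ⊕ Fin n)).card :=
          (Finset.card_image_of_injective _ Sum.inl_injective).symm
      _ ≤ _ := by
          apply Finset.card_le_card
          intro w hw
          obtain ⟨v, hv, rfl⟩ := Finset.mem_image.1 hw
          obtain ⟨e, he, rfl⟩ := Finset.mem_image.1 hv
          exact Finset.mem_filter.2 ⟨hf2 e he, e, he, f e, hf1 e he, rfl⟩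
  have hmen := menger (SW_H G reg X n) A' B' (E.card + X.card) ?_
  · obtain ⟨Z, hZ1, hZ2⟩ := hmen
    have hhit := M1_hits hB'card (fun i => (hZ1 i).2.2) hZ2
    have hidx : ∀ e : V, ∃ i, e ∈ E ∪ X → Z i ∩ B' = {Sum.inl e} := by
      intro e
      by_cases he : e ∈ E ∪ X
      · obtain ⟨i, hi⟩ := hhit (Sum.inl e) (by rw [hB']; exact Finset.mem_image_of_mem _ he)
        exact ⟨i, fun _ => hi⟩
      · have hpos : 0 < E.card + X.card := by omega
        exact ⟨⟨0, hpos⟩, fun h => absurd h he⟩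
    choose i hi using hidx
    have hmemZ : ∀ e ∈ E ∪ X, Sum.inl e ∈ Z (i e) := by
      intro e he
      have h1 : Sum.inl e ∈ Z (i e) ∩ B' := by
        rw [hi e he]
        exact Finset.mem_singleton_self _
      exact (Finset.mem_inter.1 h1).1
    have hinj : ∀ e ∈ E ∪ X, ∀ e' ∈ E ∪ X, i e = i e' → e = e' := by
      intro e he e' he' hee
      have h1 := hi e he
      rw [hee, hi e' he'] at h1
      exact (Sum.inl_injective (Finset.singleton_injective h1)).symm
    have hnoE : ∀ e ∈ E, ∀ s, Sum.inr s ∉ Z (i e) := by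
      intro e he s hs
      have heX : e ∈ E ∪ X := Finset.mem_union_left _ he
      have h1 : ({Sum.inr s} : Finset (V ⊕ Fin n)) ⊆ Z (i e) := by simpa using hs
      obtain ⟨a, ha, b, hb, hab⟩ := (hZ1 (i e)).1.pc {Sum.inr s} h1 ⟨_, Finset.mem_singleton_self _⟩
        ⟨Sum.inl e, Finset.mem_sdiff.2 ⟨hmemZ e heX, by simp⟩⟩
      rw [Finset.mem_singleton] at ha
      rw [ha] at hab
      obtain ⟨x, hx, rfl⟩ := SW_adj_inr hab
      have h2 : Sum.inl x ∈ Z (i e) ∩ B' := by
        refine Finset.mem_inter.2 ⟨(Finset.mem_sdiff.1 hb).1, ?_⟩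
        rw [hB']
        exact Finset.mem_image_of_mem _ (Finset.mem_union_right _ hx)
      rw [hi e heX, Finset.mem_singleton] at h2
      rw [Sum.inl_injective h2] at hx
      exact Finset.disjoint_left.1 hEX he hx
    -- the targets in X whose set has no auxiliary vertex
    have hcardbad : (X.filter (fun x => ∃ s, Sum.inr s ∈ Z (i x))).card ≤ n := by
      have h1 : ∀ x ∈ X.filter (fun x => ∃ s, Sum.inr s ∈ Z (i x)), ∃ s, Sum.inr s ∈ Z (i x) :=
        fun x hx => (Finset.mem_filter.1 hx).2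
      have : Nonempty (Fin n) := ⟨⟨0, by omega⟩⟩
      choose! f hf using h1
      calc (X.filter (fun x => ∃ s, Sum.inr s ∈ Z (i x))).card ≤ (Finset.univ : Finset (Fin n)).card := by
            apply Finset.card_le_card_of_injOn f (fun x _ => Finset.mem_coe.2 (Finset.mem_univ _))
            intro x hx x' hx' hxx
            have hx1 : x ∈ E ∪ X := Finset.mem_union_right _ (Finset.mem_filter.1 hx).1
            have hx2 : x' ∈ E ∪ X := Finset.mem_union_right _ (Finset.mem_filter.1 hx').1
            apply hinj x hx1 x' hx2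
            by_contra hne
            exact Finset.disjoint_left.1 (hZ2 _ _ hne) (hf x hx) (hxx ▸ hf x' hx')
        _ = n := by rw [Finset.card_univ, Fintype.card_fin]
    have hgood : r ≤ (X.filter (fun x => ¬ ∃ s, Sum.inr s ∈ Z (i x))).card := by
      have h1 := Finset.card_filter_add_card_filter_not (s := X)
        (fun x => ∃ s, Sum.inr s ∈ Z (i x))
      omega
    obtain ⟨E', hE'1, hE'2⟩ := Finset.exists_subset_card_eq hgood
    have hE'X : E' ⊆ X := hE'1.trans (Finset.filter_subset _ _)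
    have hsub : ∀ e ∈ E ∪ E', e ∈ E ∪ X := by
      intro e he
      rcases Finset.mem_union.1 he with h | h
      · exact Finset.mem_union_left _ h
      · exact Finset.mem_union_right _ (hE'X h)
    have hno : ∀ e ∈ E ∪ E', ∀ s, Sum.inr s ∉ Z (i e) := by
      intro e he s hs
      rcases Finset.mem_union.1 he with h | h
      · exact hnoE e h s hs
      · exact (Finset.mem_filter.1 (hE'1 h)).2 ⟨s, hs⟩
    have hreg : ∀ e ∈ E ∪ E', e ∈ reg := by
      intro e he
      rcases Finset.mem_union.1 he with h | h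
      · have h1 := hF1 e (Finset.mem_union_left _ h)
        exact hFreg e (Finset.mem_union_left _ h) h1.2.2.1
      · exact hD (hXD (hE'X h))
    refine ⟨E', fun e => Finset.univ.filter (fun v => Sum.inl v ∈ Z (i e)), hE'X, hE'2, ?_, ?_⟩
    · intro e he
      obtain ⟨h1, h2⟩ := SW_back (hZ1 (i e)).1 (hno e he) (hmemZ e (hsub e he)) (hreg e he)
      refine ⟨h2, h1, ?_, ?_⟩
      · ext v
        rw [Finset.mem_inter, Finset.mem_filter, Finset.mem_singleton]
        constructor
        · rintro ⟨⟨_, h3⟩, h4⟩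
          have h5 : Sum.inl v ∈ Z (i e) ∩ B' := by
            refine Finset.mem_inter.2 ⟨h3, ?_⟩
            rw [hB']
            exact Finset.mem_image_of_mem _ h4
          rw [hi e (hsub e he), Finset.mem_singleton] at h5
          exact Sum.inl_injective h5
        · rintro rfl
          exact ⟨⟨Finset.mem_univ _, hmemZ v (hsub v he)⟩, hsub v he⟩
      · obtain ⟨w, hw⟩ := (hZ1 (i e)).2.1
        rw [Finset.mem_inter, hA', Finset.mem_union] at hw
        rcases hw.2 with h3 | h3
        · obtain ⟨a, ha, rfl⟩ := Finset.mem_image.1 h3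
          exact ⟨a, Finset.mem_inter.2 ⟨Finset.mem_filter.2 ⟨Finset.mem_univ _, hw.1⟩, ha⟩⟩
        · obtain ⟨s, _, rfl⟩ := Finset.mem_image.1 h3
          exact absurd hw.1 (hno e he s)
    · intro e he e' he' hne
      rw [Finset.disjoint_left]
      intro v hv hv'
      have h1 : i e ≠ i e' := fun h => hne (hinj e (hsub e he) e' (hsub e' he') h)
      exact Finset.disjoint_left.1 (hZ2 _ _ h1) (Finset.mem_filter.1 hv).2 (Finset.mem_filter.1 hv').2
  · -- the hypothesis of Menger
    intro S hS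
    by_cases hcase2 : ∀ x ∈ X, Sum.inl x ∈ S
    · by_cases hex : ∃ e ∈ E, ∀ v ∈ F e, Sum.inl v ∉ S
      · obtain ⟨e, he, h1⟩ := hex
        exact hfree S e he h1
      · exfalso
        push Not at hex
        have h1 := hblock S E Finset.subset_union_left hex
        have h2 : (X.image (Sum.inl : V → V ⊕ Fin n)).card = X.card :=
          Finset.card_image_of_injective _ Sum.inl_injective
        have h3 : Disjoint (X.image (Sum.inl : V → V ⊕ Fin n))
            (S.filter (fun w => ∃ e ∈ E, ∃ v ∈ F e, w = Sum.inl v)) := by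
          rw [Finset.disjoint_left]
          intro w hw hw'
          obtain ⟨x, hx, rfl⟩ := Finset.mem_image.1 hw
          obtain ⟨_, e, he, v, hv, h4⟩ := Finset.mem_filter.1 hw'
          have h5 := (hF1 e (Finset.mem_union_left _ he)).1 hv
          rw [← Sum.inl_injective h4] at h5
          exact (Finset.mem_sdiff.1 h5).2 hx
        have h4 : (X.image (Sum.inl : V → V ⊕ Fin n)) ∪
            (S.filter (fun w => ∃ e ∈ E, ∃ v ∈ F e, w = Sum.inl v)) ⊆ S := by
          apply Finset.union_subset _ (Finset.filter_subset _ _)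
          intro w hw
          obtain ⟨x, hx, rfl⟩ := Finset.mem_image.1 hw
          exact hcase2 x hx
        have h5 := Finset.card_le_card h4
        rw [Finset.card_union_of_disjoint h3] at h5
        omega
    · push Not at hcase2
      obtain ⟨x, hx, hxS⟩ := hcase2
      by_cases hcase1 : ∃ s, Sum.inr s ∉ S
      · obtain ⟨s, hs⟩ := hcase1
        refine ⟨Sum.inr s, Finset.mem_sdiff.2 ⟨?_, hs⟩, Sum.inl x, Finset.mem_sdiff.2 ⟨?_, hxS⟩, ?_⟩
        · rw [hA']
          exact Finset.mem_union_right _ (Finset.mem_image_of_mem _ (Finset.mem_univ s))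
        · rw [hB']
          exact Finset.mem_image_of_mem _ (Finset.mem_union_right _ hx)
        · exact joined_of_adj (Finset.mem_sdiff.2 ⟨Finset.mem_univ _, hs⟩)
            (Finset.mem_sdiff.2 ⟨Finset.mem_univ _, hxS⟩) (Or.inr (Or.inr ⟨x, s, rfl, rfl, hx⟩))
      · push Not at hcase1
        have hinrcard : (Finset.univ.image (Sum.inr : Fin n → V ⊕ Fin n)).card = n := by
          rw [Finset.card_image_of_injective _ Sum.inr_injective, Finset.card_univ, Fintype.card_fin]
        have hinrsub : Finset.univ.image (Sum.inr : Fin n → V ⊕ Fin n) ⊆ S := by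
          intro w hw
          obtain ⟨s, _, rfl⟩ := Finset.mem_image.1 hw
          exact hcase1 s
        by_cases hex : ∃ e ∈ E ∪ C, ∀ v ∈ F e, Sum.inl v ∉ S
        · obtain ⟨e, he, h1⟩ := hex
          rcases Finset.mem_union.1 he with heE | heC
          · exact hfree S e heE h1
          · -- join e with x inside D
            obtain ⟨S', hS'⟩ : ∃ S' : Finset V, S' = Finset.univ.filter (fun v => Sum.inl v ∈ S) :=
              ⟨_, rfl⟩
            have hS'card : S'.card ≤ κ := by
              have h2 : (S'.image (Sum.inl : V → V ⊕ Fin n)).card = S'.card :=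
                Finset.card_image_of_injective _ Sum.inl_injective
              have h3 : Disjoint (S'.image (Sum.inl : V → V ⊕ Fin n))
                  (Finset.univ.image (Sum.inr : Fin n → V ⊕ Fin n)) := by
                rw [Finset.disjoint_left]
                intro w hw hw'
                obtain ⟨v, _, rfl⟩ := Finset.mem_image.1 hw
                obtain ⟨s, _, h4⟩ := Finset.mem_image.1 hw'
                exact absurd h4 (by simp)
              have h4 : (S'.image (Sum.inl : V → V ⊕ Fin n)) ∪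
                  (Finset.univ.image (Sum.inr : Fin n → V ⊕ Fin n)) ⊆ S := by
                apply Finset.union_subset _ hinrsub
                intro w hw
                obtain ⟨v, hv, rfl⟩ := Finset.mem_image.1 hw
                rw [hS'] at hv
                exact (Finset.mem_filter.1 hv).2
              have h5 := Finset.card_le_card h4
              rw [Finset.card_union_of_disjoint h3] at h5
              omega
            have hF := hF1 e he
            have heS' : e ∈ D \ S' := by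
              refine Finset.mem_sdiff.2 ⟨hCD heC, fun h => ?_⟩
              rw [hS'] at h
              exact h1 e hF.2.2.1 (Finset.mem_filter.1 h).2
            have hxS' : x ∈ D \ S' := by
              refine Finset.mem_sdiff.2 ⟨hXD hx, fun h => ?_⟩
              rw [hS'] at h
              exact hxS (Finset.mem_filter.1 h).2
            obtain ⟨Y, hY1, hY2, hY3, hY4⟩ := hKC.2 S' hS'card e heS' x hxS'
            obtain ⟨a, ha⟩ := hF.2.2.2
            rw [Finset.mem_inter] at ha
            have hU : Conn G (F e ∪ Y) := hF.2.1.union_mem hY4 hF.2.2.1 hY2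
            have hUreg : F e ∪ Y ⊆ reg :=
              Finset.union_subset (hFreg e he) (hY1.trans (Finset.sdiff_subset.trans hD))
            have hUS : ∀ v ∈ F e ∪ Y, Sum.inl v ∉ S := by
              intro v hv hvS
              rcases Finset.mem_union.1 hv with h | h
              · exact h1 v h hvS
              · refine (Finset.mem_sdiff.1 (hY1 h)).2 ?_
                rw [hS']
                exact Finset.mem_filter.2 ⟨Finset.mem_univ _, hvS⟩
            refine ⟨Sum.inl a, Finset.mem_sdiff.2 ⟨?_, h1 a ha.1⟩, Sum.inl x,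
              Finset.mem_sdiff.2 ⟨?_, hxS⟩, (F e ∪ Y).image Sum.inl, ?_,
              Finset.mem_image_of_mem _ (Finset.mem_union_left _ ha.1),
              Finset.mem_image_of_mem _ (Finset.mem_union_right _ hY3), SW_conn hU hUreg⟩
            · rw [hA']
              exact Finset.mem_union_left _ (Finset.mem_image_of_mem _ ha.2)
            · rw [hB']
              exact Finset.mem_image_of_mem _ (Finset.mem_union_right _ hx)
            · intro w hw
              obtain ⟨v, hv, rfl⟩ := Finset.mem_image.1 hw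
              exact Finset.mem_sdiff.2 ⟨Finset.mem_univ _, hUS v hv⟩
        · exfalso
          push Not at hex
          have h1 := hblock S (E ∪ C) (Finset.Subset.refl _) hex
          rw [Finset.card_union_of_disjoint hEC] at h1
          have h3 : Disjoint (Finset.univ.image (Sum.inr : Fin n → V ⊕ Fin n))
              (S.filter (fun w => ∃ e ∈ E ∪ C, ∃ v ∈ F e, w = Sum.inl v)) := by
            rw [Finset.disjoint_left]
            intro w hw hw'
            obtain ⟨s, _, rfl⟩ := Finset.mem_image.1 hw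
            obtain ⟨_, e, he, v, hv, h4⟩ := Finset.mem_filter.1 hw'
            exact absurd h4 (by simp)
          have h4 : (Finset.univ.image (Sum.inr : Fin n → V ⊕ Fin n)) ∪
              (S.filter (fun w => ∃ e ∈ E ∪ C, ∃ v ∈ F e, w = Sum.inl v)) ⊆ S :=
            Finset.union_subset hinrsub (Finset.filter_subset _ _)
          have h5 := Finset.card_le_card h4
          rw [Finset.card_union_of_disjoint h3] at h5
          omega

end HD
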