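import Pool.Agent.LibHL.KC
import Pool.Agent.LibHD.E3
import Pool.Agent.LibHD.X1

set_option autoImplicit false
set_option linter.unusedSectionVars false

open scoped Classical

noncomputable section

namespace HD

variable {V : Type*} [Fintype V] [DecidableEq V] {G : SimpleGraph V}

/-! Row LK -/
/-- LK: linking groups of terminals through a fan set and a hub. -/
theorem link_groups {A1 A2 D : Finset V} {m k : ℕ} (hm : 1 ≤ m) (hk : 2 ^ 11 * m ≤ k)
    (h4 : Disjoint A1 A2) (h6 : Disjoint A2 D)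
    (hP : ∀ S : Finset V, S.card ≤ k → ∀ x ∈ A1 \ S, ∀ y ∈ A1 \ S, Joined G ((A1 ∪ D) \ S) x y)
    (hA21 : ∀ v ∈ A2, k ≤ (nbIn G A1 v).card) (hA22 : ∀ v ∈ A2, k ≤ (nbIn G A2 v).card) (hA2 : A2.Nonempty)
    {ι γ : Type} [Fintype ι] (w : ι → V) (grp : ι → γ) (hι : Fintype.card ι ≤ m)
    (hw : ∀ i, k ≤ (nbIn G A1 (w i)).card) :
    ∃ W : γ → Finset V, (∀ g, W g ⊆ A1 ∪ A2 ∪ D) ∧
      (∀ i, Conn G (W (grp i)) ∧ Touch G {w i} (W (grp i))) ∧ ∀ g g', g ≠ g' → Disjoint (W g) (W g') := by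
  have hk2 : 2048 * m ≤ k := by
    have : (2 : ℕ) ^ 11 = 2048 := by norm_num
    rw [this] at hk
    exact hk
  have hmk : m ≤ k := by omega
  obtain ⟨h, ρ, P, hPc, hPd, h0, hkρ, hhρ, hdeg⟩ := hub_exists (G := G) (A := A2) (k := k)
    (by omega) hA2 hA22
  obtain ⟨Q, hQ⟩ : ∃ Q : SimpleGraph (Fin h), ∀ x y, Q.Adj x y ↔ x ≠ y ∧ Touch G (P x) (P y) :=
    ⟨{ Adj := fun x y => x ≠ y ∧ Touch G (P x) (P y)
       symm := ⟨fun x y hxy => ⟨hxy.1.symm, hxy.2.symm⟩⟩
       loopless := ⟨fun x hx => hx.1 rfl⟩ }, fun x y => Iff.rfl⟩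
  obtain ⟨IQ, hIQ, hlink⟩ := hub_link Q (ρ := ρ) (m := m) hm (by rwa [Fintype.card_fin])
    (by rwa [Fintype.card_fin]) (by
      intro y
      have h1 := hdeg y
      refine le_trans h1 (Nat.add_le_add_right (Nat.mul_le_mul_left 2
        (Finset.card_le_card ?_)) 2)
      intro x hx
      rw [Finset.mem_filter] at hx ⊢
      exact ⟨hx.1, hx.2.1, (hQ y x).2 ⟨hx.2.1.symm, hx.2.2⟩⟩) (by omega)
  obtain ⟨x0⟩ : Nonempty (ι ↪ IQ) := by
    apply Function.Embedding.nonempty_of_card_le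
    rw [Fintype.card_coe]
    exact hι.trans hIQ
  have huex : ∀ i : ι, ∃ u, u ∈ P (x0 i).1 := fun i => (hPc (x0 i).1).2.nonempty
  choose u hu using huex
  obtain ⟨σ, F, hF, hFd⟩ := fans (G := G) (A1 := A1) (D := D) (k := k) hP
    (τ := ι) (hι.trans hmk) w u hw (fun i => hA21 _ ((hPc _).1 (hu i)))
  obtain ⟨W', hW1, hW2, hW3⟩ := hlink ι γ (fun i => (x0 (σ i)).1) grp hι
    (by
      intro p q hpq
      have h5 : x0 (σ p) = x0 (σ q) := Subtype.ext hpq
      exact σ.injective (x0.injective h5))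
    (fun i => (x0 (σ i)).2)
  have hFW : ∀ i, F i ⊆ (W' (grp i)).biUnion P ∪
      (Finset.univ.filter fun j => grp j = grp i).biUnion F := by
    intro i x hx
    refine Finset.mem_union_right _ (Finset.mem_biUnion.2 ⟨i, ?_, hx⟩)
    exact Finset.mem_filter.2 ⟨Finset.mem_univ i, rfl⟩
  refine ⟨fun g => (W' g).biUnion P ∪ (Finset.univ.filter fun j => grp j = g).biUnion F,
    ?_, ?_, ?_⟩
  · intro g x hx
    rcases Finset.mem_union.1 hx with hx | hx
    · obtain ⟨y, _, hy⟩ := Finset.mem_biUnion.1 hx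
      exact Finset.mem_union_left _ (Finset.mem_union_right _ ((hPc y).1 hy))
    · obtain ⟨i, _, hi⟩ := Finset.mem_biUnion.1 hx
      rcases Finset.mem_union.1 ((hF i).1 hi) with h5 | h5
      · exact Finset.mem_union_left _ (Finset.mem_union_left _ h5)
      · exact Finset.mem_union_right _ h5
  · intro i
    refine ⟨?_, (hF i).2.2.1.mono (Finset.Subset.refl _) (hFW i)⟩
    apply X2_star
    · exact lift_conn P (fun y => (hPc y).2) Q (fun x y hxy => ((hQ x y).1 hxy).2) (hW2 i)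
    · intro c hc
      have hgc : grp c = grp i := (Finset.mem_filter.1 hc).2
      refine ⟨(hF c).2.1, ?_⟩
      have h5 := (hF c).2.2.2.symm
      apply h5.mono _ (Finset.Subset.refl _)
      rw [Finset.singleton_subset_iff, Finset.mem_biUnion]
      refine ⟨_, ?_, hu (σ c)⟩
      rw [← hgc]
      exact hW1 c
  · intro g g' hgg
    rw [Finset.disjoint_left]
    intro x hx hx'
    have dP : ∀ g, x ∈ (W' g).biUnion P → x ∈ A2 := by
      intro g hx
      obtain ⟨y, _, hy⟩ := Finset.mem_biUnion.1 hx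
      exact (hPc y).1 hy
    have dF : ∀ g, x ∈ (Finset.univ.filter fun j => grp j = g).biUnion F → x ∉ A2 := by
      intro g hx h2
      obtain ⟨i, _, hi⟩ := Finset.mem_biUnion.1 hx
      rcases Finset.mem_union.1 ((hF i).1 hi) with h5 | h5
      · exact Finset.disjoint_left.1 h4 h5 h2
      · exact Finset.disjoint_left.1 h6 h2 h5
    rcases Finset.mem_union.1 hx with ha | ha <;> rcases Finset.mem_union.1 hx' with hb | hb
    · obtain ⟨y, hy, hxy⟩ := Finset.mem_biUnion.1 ha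
      obtain ⟨y', hy', hxy'⟩ := Finset.mem_biUnion.1 hb
      by_cases hyy : y = y'
      · subst hyy
        exact Finset.disjoint_left.1 (hW3 g g' hgg) hy hy'
      · exact Finset.disjoint_left.1 (hPd y y' hyy) hxy hxy'
    · exact dF _ hb (dP _ ha)
    · exact dF _ ha (dP _ hb)
    · obtain ⟨i, hi, hxi⟩ := Finset.mem_biUnion.1 ha
      obtain ⟨j, hj, hxj⟩ := Finset.mem_biUnion.1 hb
      have hij : i ≠ j := by
        rintro rfl
        exact hgg ((Finset.mem_filter.1 hi).2.symm.trans (Finset.mem_filter.1 hj).2)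
      exact Finset.disjoint_left.1 (hFd i j hij) hxi hxj

/-! Row GD -/
/-- Degrees in a highly connected set. -/
theorem GD_deg {H : Finset V} {K : ℕ} (hH : KC G H K) : ∀ v ∈ H, K ≤ (nbIn G H v).card := by
  intro v hv
  by_contra hcon
  push Not at hcon
  have hvS : v ∉ nbIn G H v := fun h => G.loopless.irrefl _ (mem_nbIn.1 h).2
  have h1 : (insert v (nbIn G H v)).card < H.card := by
    rw [Finset.card_insert_of_notMem hvS]
    exact lt_of_le_of_lt hcon hH.1
  obtain ⟨y, hy, hyn⟩ := Finset.exists_mem_notMem_of_card_lt_card h1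
  rw [Finset.mem_insert, not_or] at hyn
  have h2 := hH.2 (nbIn G H v) hcon.le v (Finset.mem_sdiff.2 ⟨hv, hvS⟩) y
    (Finset.mem_sdiff.2 ⟨hy, hyn.2⟩)
  have h3 := joined_split (P := {v}) h2 (Finset.mem_singleton_self v)
    (by rw [Finset.mem_singleton]; exact hyn.1)
  obtain ⟨u, hu, z, hz, huz⟩ := h3
  have hu' : u = v := Finset.mem_singleton.1 (Finset.mem_inter.1 hu).2
  rw [hu'] at huz
  have hz1 := (Finset.mem_sdiff.1 (Finset.mem_sdiff.1 hz).1)
  exact hz1.2 (mem_nbIn.2 ⟨hz1.1, huz⟩)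

/-- Adding terminals to a connected set. -/
theorem GD_conn {X : Finset V} {ι : Type} (w : ι → V) (s : Finset ι) (hX : Conn G X)
    (h : ∀ i ∈ s, Touch G {w i} X) : Conn G (X ∪ s.image w) := by
  induction s using Finset.induction_on with
  | empty => rw [Finset.image_empty, Finset.union_empty]; exact hX
  | insert a s ha ih =>
    have h1 := ih fun i hi => h i (Finset.mem_insert_of_mem hi)
    have h2 := (h a (Finset.mem_insert_self a s)).symm
    have h3 := h1.union_touch (conn_singleton (w a))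
      (h2.mono Finset.subset_union_left (Finset.Subset.refl _))
    have h4 : X ∪ (insert a s).image w = X ∪ s.image w ∪ {w a} := by
      ext z
      simp only [Finset.mem_union, Finset.mem_image, Finset.mem_insert, Finset.mem_singleton]
      constructor
      · rintro (hz | ⟨i, hi | hi, rfl⟩)
        · exact Or.inl (Or.inl hz)
        · exact Or.inr (by rw [hi])
        · exact Or.inl (Or.inr ⟨i, hi, rfl⟩)
      · rintro ((hz | ⟨i, hi, rfl⟩) | hz)
        · exact Or.inl hz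
        · exact Or.inr ⟨i, Or.inr hi, rfl⟩
        · exact Or.inr ⟨a, Or.inl rfl, hz.symm⟩
    rw [h4]
    exact h3

/-- GD: the gadget: a small highly connected set has three parts such that any few terminals outside two of the parts
can be linked in groups through these two parts. -/
theorem gadget {H T : Finset V} {k m : ℕ} (hm : 1 ≤ m) (hk : 2 ^ 12 * m ≤ k) (hH : KC G H (2 ^ 15 * k))
    (hc : H.card ≤ k ^ 2) (hT : T ⊆ H) (hTm : T.card ≤ m) :
    ∃ A : Fin 3 → Finset V, (∀ j, A j ⊆ H \ T) ∧ (∀ i j, i ≠ j → Disjoint (A i) (A j)) ∧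
      H \ T ⊆ A 0 ∪ A 1 ∪ A 2 ∧ (∀ j, ∀ v ∈ H, 2 ^ 11 * m ≤ (nbIn G (A j) v).card) ∧
      ∀ j, ∀ (ι γ : Type) [Fintype ι] (w : ι → V) (grp : ι → γ), Fintype.card ι ≤ m → Function.Injective w →
        (∀ i, w i ∈ T ∪ A j) →
        ∃ W : γ → Finset V, (∀ g, ∀ v ∈ W g, v ∈ H \ (T ∪ A j) ∨ ∃ i, grp i = g ∧ w i = v) ∧
          (∀ i, w i ∈ W (grp i) ∧ Conn G (W (grp i))) ∧ ∀ g g', g ≠ g' → Disjoint (W g) (W g') := by
  have hm11 : m ≤ 2 ^ 11 * m := Nat.le_mul_of_pos_left m (by norm_num)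
  have hsum : 2 ^ 11 * m + m ≤ k := by
    have : 2 ^ 11 * m + m ≤ 2 ^ 12 * m := by norm_num; omega
    exact this.trans hk
  have hk1 : 1 ≤ k := by omega
  obtain ⟨c, hcp⟩ := good_partition (G := G) (I := H) (D := ∅) (k := k) hk1
    (Finset.disjoint_empty_right H) (by rw [Finset.card_empty]; exact Nat.zero_le _) hc (GD_deg hH)
    (fun S hS x hx y hy => by rw [Finset.union_empty]; exact hH.2 S hS x hx y hy)
  set A : Fin 3 → Finset V := fun j => (H.filter (fun v => c v = j)) \ T with hA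
  have hmemA : ∀ j v, v ∈ A j ↔ (v ∈ H ∧ c v = j) ∧ v ∉ T := by
    intro j v
    rw [hA]
    simp only [Finset.mem_sdiff, Finset.mem_filter]
  have hAH : ∀ j, A j ⊆ H \ T := fun j v hv =>
    Finset.mem_sdiff.2 ⟨((hmemA j v).1 hv).1.1, ((hmemA j v).1 hv).2⟩
  have hAH' : ∀ j, A j ⊆ H := fun j v hv => ((hmemA j v).1 hv).1.1
  have hdis : ∀ i j, i ≠ j → Disjoint (A i) (A j) := by
    intro i j hij
    rw [Finset.disjoint_left]
    intro v hv hv'
    exact hij (((hmemA i v).1 hv).1.2.symm.trans ((hmemA j v).1 hv').1.2)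
  have hdeg : ∀ j, ∀ v ∈ H, 2 ^ 11 * m ≤ (nbIn G (A j) v).card := by
    intro j v hv
    have h1 := (hcp j).2 v hv
    have h2 : nbIn G (H.filter (fun v => c v = j)) v \ T ⊆ nbIn G (A j) v := by
      intro u hu
      rw [Finset.mem_sdiff, mem_nbIn, Finset.mem_filter] at hu
      exact mem_nbIn.2 ⟨(hmemA j u).2 ⟨hu.1.1, hu.2⟩, hu.1.2⟩
    have h3 := Finset.card_le_card h2
    have h4 := Finset.le_card_sdiff T (nbIn G (H.filter (fun v => c v = j)) v)
    omega
  have hjoin : ∀ j, ∀ S : Finset V, S.card ≤ 2 ^ 11 * m → ∀ x ∈ A j \ S, ∀ y ∈ A j \ S,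
      Joined G ((A j ∪ ∅) \ S) x y := by
    intro j S hS x hx y hy
    have hST : (S ∪ T).card ≤ k := by
      have := Finset.card_union_le S T
      omega
    rw [Finset.mem_sdiff, hmemA] at hx hy
    have h1 := (hcp j).1 (S ∪ T) hST x
      (Finset.mem_sdiff.2 ⟨Finset.mem_filter.2 hx.1.1, fun h =>
        (Finset.mem_union.1 h).elim hx.2 hx.1.2⟩) y
      (Finset.mem_sdiff.2 ⟨Finset.mem_filter.2 hy.1.1, fun h =>
        (Finset.mem_union.1 h).elim hy.2 hy.1.2⟩)
    refine h1.mono fun v hv => ?_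
    rw [Finset.mem_sdiff, Finset.union_empty, Finset.mem_filter, Finset.mem_union, not_or] at hv
    rw [Finset.union_empty]
    exact Finset.mem_sdiff.2 ⟨(hmemA j v).2 ⟨hv.1, hv.2.2⟩, hv.2.1⟩
  have hHne : H.Nonempty := Finset.card_pos.1 (lt_of_le_of_lt (Nat.zero_le _) hH.1)
  refine ⟨A, hAH, hdis, ?_, hdeg, ?_⟩
  · intro v hv
    rw [Finset.mem_sdiff] at hv
    have h1 : v ∈ A (c v) := (hmemA _ v).2 ⟨⟨hv.1, rfl⟩, hv.2⟩
    have h2 : ∀ i : Fin 3, i = 0 ∨ i = 1 ∨ i = 2 := by decide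
    rcases h2 (c v) with h3 | h3 | h3
    · rw [h3] at h1; exact Finset.mem_union_left _ (Finset.mem_union_left _ h1)
    · rw [h3] at h1; exact Finset.mem_union_left _ (Finset.mem_union_right _ h1)
    · rw [h3] at h1; exact Finset.mem_union_right _ h1
  · intro j ι γ _ w grp hι hw hwm
    have hex : ∀ j : Fin 3, ∃ j1 j2 : Fin 3, j1 ≠ j2 ∧ j1 ≠ j ∧ j2 ≠ j := by decide
    obtain ⟨j1, j2, h12, h1j, h2j⟩ := hex j
    have hwH : ∀ i, w i ∈ H := fun i => (Finset.mem_union.1 (hwm i)).elim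
      (fun h => hT h) (fun h => hAH' j h)
    have hne2 : (A j2).Nonempty := by
      obtain ⟨v, hv⟩ := hHne
      have h1 := hdeg j2 v hv
      have h2 : 0 < (nbIn G (A j2) v).card := by omega
      obtain ⟨u, hu⟩ := Finset.card_pos.1 h2
      exact ⟨u, (mem_nbIn.1 hu).1⟩
    obtain ⟨W0, hW1, hW2, hW3⟩ := link_groups (G := G) (A1 := A j1) (A2 := A j2) (D := ∅) hm
      (le_refl (2 ^ 11 * m)) (hdis j1 j2 h12) (Finset.disjoint_empty_right _) (hjoin j1)
      (fun v hv => hdeg j1 v (hAH' j2 hv)) (fun v hv => hdeg j2 v (hAH' j2 hv)) hne2 w grp hι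
      (fun i => hdeg j1 (w i) (hwH i))
    have hW0 : ∀ g, ∀ v ∈ W0 g, v ∈ H \ (T ∪ A j) := by
      intro g v hv
      have h1 := hW1 g hv
      rw [Finset.union_empty, Finset.mem_union, hmemA, hmemA] at h1
      rw [Finset.mem_sdiff, Finset.mem_union, hmemA]
      rcases h1 with h1 | h1
      · exact ⟨h1.1.1, fun h2 => h2.elim h1.2 fun h3 => h1j (h1.1.2.symm.trans h3.1.2)⟩
      · exact ⟨h1.1.1, fun h2 => h2.elim h1.2 fun h3 => h2j (h1.1.2.symm.trans h3.1.2)⟩
    refine ⟨fun g => W0 g ∪ (Finset.univ.filter (fun i => grp i = g)).image w, ?_, ?_, ?_⟩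
    · intro g v hv
      rcases Finset.mem_union.1 hv with h1 | h1
      · exact Or.inl (hW0 g v h1)
      · right
        obtain ⟨i, hi, hiv⟩ := Finset.mem_image.1 h1
        exact ⟨i, (Finset.mem_filter.1 hi).2, hiv⟩
    · intro i
      refine ⟨Finset.mem_union_right _ (Finset.mem_image.2
        ⟨i, Finset.mem_filter.2 ⟨Finset.mem_univ _, rfl⟩, rfl⟩), ?_⟩
      refine GD_conn w _ (hW2 i).1 fun i' hi' => ?_
      have h1 : grp i' = grp i := (Finset.mem_filter.1 hi').2
      rw [← h1]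
      exact (hW2 i').2
    · intro g g' hgg
      rw [Finset.disjoint_left]
      intro v hv hv'
      rcases Finset.mem_union.1 hv with h1 | h1 <;> rcases Finset.mem_union.1 hv' with h2 | h2
      · exact Finset.disjoint_left.1 (hW3 g g' hgg) h1 h2
      · obtain ⟨i, hi, hiv⟩ := Finset.mem_image.1 h2
        have h3 := hW0 g v h1
        rw [← hiv] at h3
        exact (Finset.mem_sdiff.1 h3).2 (hwm i)
      · obtain ⟨i, hi, hiv⟩ := Finset.mem_image.1 h1
        have h3 := hW0 g' v h2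
        rw [← hiv] at h3
        exact (Finset.mem_sdiff.1 h3).2 (hwm i)
      · obtain ⟨i, hi, hiv⟩ := Finset.mem_image.1 h1
        obtain ⟨i', hi', hiv'⟩ := Finset.mem_image.1 h2
        have h3 : i = i' := hw (hiv.trans hiv'.symm)
        have h4 := (Finset.mem_filter.1 hi).2
        have h5 := (Finset.mem_filter.1 hi').2
        rw [← h3] at h5
        exact hgg (h4.symm.trans h5)

end HD
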