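import Pool.Agent.LibHL.Api
import Pool.Agent.LibHL.A4
import Pool.Agent.LibHD.X2

set_option autoImplicit false
set_option linter.unusedSectionVars false

open scoped Classical

noncomputable section

namespace HD

/-- `G[M]` has a model of a complete graph rooted at the elements of `R`. -/
def RModel {V : Type*} [Fintype V] [DecidableEq V] (G : SimpleGraph V) (M R : Finset V) : Prop :=
  ∃ f : V → Finset V, (∀ r ∈ R, r ∈ f r ∧ f r ⊆ M ∧ Conn G (f r)) ∧
    ∀ r ∈ R, ∀ s ∈ R, r ≠ s → Disjoint (f r) (f s) ∧ Touch G (f r) (f s)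

variable {V : Type*} [Fintype V] [DecidableEq V] {G : SimpleGraph V}

/-! Row RT -/
theorem RT_arith {C0 L : ℝ} {τ c : ℕ} (hτ : 1 ≤ τ) (hC0 : 0 < C0) (hL : Real.log 2 ≤ L)
    (hc : (3 * C0 + 2 ^ 34) * τ * L ≤ c) :
    3 * ⌈C0 * τ * L⌉₊ + τ + 4 * (2 ^ 28 * τ) ≤ c ∧ 6 * (2 ^ 28 * τ) ≤ c := by
  have hτ' : (1 : ℝ) ≤ τ := by exact_mod_cast hτ
  have hl2 : (0.69 : ℝ) ≤ Real.log 2 := by
    have := Real.log_two_gt_d9
    linarith
  have hL' : (0.69 : ℝ) ≤ L := hl2.trans hL
  have h0 : 0 ≤ C0 * τ * L := by positivity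
  have hceil : ((⌈C0 * τ * L⌉₊ : ℕ) : ℝ) < C0 * τ * L + 1 := Nat.ceil_lt_add_one h0
  have h1 : (2 : ℝ) ^ 34 * τ * 0.69 ≤ 2 ^ 34 * τ * L := by
    apply mul_le_mul_of_nonneg_left hL' (by positivity)
  have h2 : (3 * C0 + 2 ^ 34) * τ * L = 3 * (C0 * τ * L) + 2 ^ 34 * τ * L := by ring
  constructor
  · have h3 : ((3 * ⌈C0 * τ * L⌉₊ + τ + 4 * (2 ^ 28 * τ) : ℕ) : ℝ) ≤ c := by
      push_cast
      nlinarith
    exact_mod_cast h3
  · have h3 : ((6 * (2 ^ 28 * τ) : ℕ) : ℝ) ≤ c := by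
      push_cast
      nlinarith
    exact_mod_cast h3

theorem RT_log {x y t : ℝ} (hx : 0 ≤ x) (hxy : x ≤ y) (ht : 1 ≤ t) :
    Real.log (2 + Real.log (1 + x / t)) ≤ Real.log (2 + Real.log (1 + y / t)) ∧
      Real.log 2 ≤ Real.log (2 + Real.log (1 + y / t)) := by
  have ht0 : 0 < t := by linarith
  have h1 : 0 ≤ x / t := by positivity
  have h2 : x / t ≤ y / t := div_le_div_of_nonneg_right hxy ht0.le
  have h3 : 0 ≤ Real.log (1 + x / t) := Real.log_nonneg (by linarith)
  have h4 : Real.log (1 + x / t) ≤ Real.log (1 + y / t) := Real.log_le_log (by linarith) (by linarith)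
  exact ⟨Real.log_le_log (by linarith) (by linarith), Real.log_le_log (by norm_num) (by linarith)⟩

/-- RT: a small set of large chromatic number in a highly connected set gives a rooted clique model. -/
theorem rooted_small : ∃ C : ℝ, 0 < C ∧ ∀ (V : Type) [Fintype V] [DecidableEq V] (G : SimpleGraph V)
    (M X R : Finset V) (τ c : ℕ), 1 ≤ τ → KC G M τ → X ⊆ M → R ⊆ M → R.card = τ → X.card ^ 2 ≤ τ ^ 3 →
    C * τ * Real.log (2 + Real.log (1 + (X.card : ℝ) / τ)) ≤ c → ¬ Col G X c → RModel G M R := by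
  obtain ⟨C0, hC0, hsmall⟩ := small_graphs
  refine ⟨3 * C0 + 2 ^ 34, by positivity, ?_⟩
  intro V _ _ G M X R τ c hτ hM hXM hRM hRc hXτ hc hcol
  have hτ' : (1 : ℝ) ≤ τ := by exact_mod_cast hτ
  obtain ⟨L, hL⟩ : ∃ L : ℝ, L = Real.log (2 + Real.log (1 + (X.card : ℝ) / τ)) := ⟨_, rfl⟩
  have hL2 : Real.log 2 ≤ L := by
    rw [hL]
    exact (RT_log (le_refl (0 : ℝ)) (Nat.cast_nonneg _) hτ').2
  rw [← hL] at hc
  obtain ⟨hc1, hc2⟩ := RT_arith hτ hC0 hL2 hc
  obtain ⟨c0, hc0⟩ : ∃ c0 : ℕ, c0 = ⌈C0 * τ * L⌉₊ := ⟨_, rfl⟩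
  rw [← hc0] at hc1
  -- a highly connected subset of the same chromatic number
  obtain ⟨X', hX'X, hX'K, hX'c⟩ := gn0 (k := 2 ^ 28 * τ) (by omega) hc2 hcol
  have hX'card : τ ≤ X'.card := by
    have := hX'K.1
    omega
  have hX'M : X' ⊆ M := hX'X.trans hXM
  -- linkage from R to X'
  obtain ⟨F, hF1, hF2⟩ := kc_menger hM hRM hX'M (n := τ) (by omega) hRc.ge hX'card
  have hrex : ∀ i, ∃ v, v ∈ F i ∩ R := fun i => (hF1 i).2.2.1
  choose r hr using hrex
  have hrF : ∀ i, r i ∈ F i := fun i => (Finset.mem_inter.1 (hr i)).1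
  have hrR : ∀ i, r i ∈ R := fun i => (Finset.mem_inter.1 (hr i)).2
  have hrinj : Function.Injective r := by
    intro i j hij
    by_contra hne
    exact Finset.disjoint_left.1 (hF2 i j hne) (hrF i) (hij ▸ hrF j)
  have hrimg : Finset.univ.image r = R := by
    apply Finset.eq_of_subset_of_card_le
    · intro z hz
      obtain ⟨i, _, rfl⟩ := Finset.mem_image.1 hz
      exact hrR i
    · rw [Finset.card_image_of_injective _ hrinj, Finset.card_univ, Fintype.card_fin, hRc]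
  have hidx : ∀ p : V, ∃ i : Fin τ, p ∈ R → r i = p := by
    intro p
    by_cases hp : p ∈ R
    · rw [← hrimg] at hp
      obtain ⟨i, _, hi⟩ := Finset.mem_image.1 hp
      exact ⟨i, fun _ => hi⟩
    · exact ⟨⟨0, hτ⟩, fun h => absurd h hp⟩
  choose idx hidx using hidx
  -- trimming
  have htrim : ∀ i, ∃ F' : Finset V, ∃ x : V, F' ⊆ F i ∧ Conn G F' ∧ r i ∈ F' ∧ F' ∩ X' = {x} := by
    intro i
    obtain ⟨F', h1, h2, h3, h4, _⟩ := trim0 (hF1 i).2.1 (hrF i) (hF1 i).2.2.2
    obtain ⟨x, hx⟩ := Finset.card_eq_one.1 h4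
    exact ⟨F', x, h1, h2, h3, hx⟩
  choose F' x hF'1 hF'2 hF'3 hF'4 using htrim
  have hxF' : ∀ i, x i ∈ F' i ∧ x i ∈ X' := by
    intro i
    have h1 : x i ∈ F' i ∩ X' := by
      rw [hF'4 i]
      exact Finset.mem_singleton_self _
    exact Finset.mem_inter.1 h1
  have hF'dis : ∀ i j, i ≠ j → Disjoint (F' i) (F' j) := fun i j hij =>
    (hF2 i j hij).mono (hF'1 i) (hF'1 j)
  have hxinj : Function.Injective x := by
    intro i j hij
    by_contra hne
    exact Finset.disjoint_left.1 (hF'dis i j hne) (hxF' i).1 (hij ▸ (hxF' j).1)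
  obtain ⟨T, hT⟩ : ∃ T : Finset V, T = Finset.univ.image x := ⟨_, rfl⟩
  have hxT : ∀ i, x i ∈ T := by
    intro i
    rw [hT]
    exact Finset.mem_image_of_mem _ (Finset.mem_univ i)
  have hTcard : T.card ≤ τ := by
    rw [hT]
    refine Finset.card_image_le.trans ?_
    rw [Finset.card_univ, Fintype.card_fin]
  have hTX' : T ⊆ X' := by
    intro v hv
    rw [hT] at hv
    obtain ⟨i, _, rfl⟩ := Finset.mem_image.1 hv
    exact (hxF' i).2
  -- the gadget
  have hX'sq : X'.card ≤ (2 ^ 13 * τ) ^ 2 := by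
    have h1 : X'.card ≤ X.card := Finset.card_le_card hX'X
    have h2 : X'.card ^ 2 ≤ τ ^ 3 := (Nat.pow_le_pow_left h1 2).trans hXτ
    have h3 : τ ^ 3 ≤ (τ ^ 2) ^ 2 := by
      rw [← pow_mul]
      exact Nat.pow_le_pow_right hτ (by norm_num)
    have h4 : X'.card ≤ τ ^ 2 := by
      by_contra hcon
      push Not at hcon
      have h5 : (τ ^ 2) ^ 2 < X'.card ^ 2 := Nat.pow_lt_pow_left hcon (by norm_num)
      omega
    calc X'.card ≤ τ ^ 2 := h4
      _ ≤ (2 ^ 13 * τ) ^ 2 := Nat.pow_le_pow_left (by omega) 2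
  have hKCH : KC G X' (2 ^ 15 * (2 ^ 13 * τ)) := by
    have h1 : 2 ^ 15 * (2 ^ 13 * τ) = 2 ^ 28 * τ := by ring
    rw [h1]
    exact hX'K
  obtain ⟨A, hA1, hA2, hA3, -, hA5⟩ := gadget (m := 2 * τ) (k := 2 ^ 13 * τ) (by omega) (by omega)
    hKCH hX'sq hTX' (by omega)
  -- a part of large chromatic number
  have hj : ∃ j, ¬ Col G (A j) c0 := by
    by_contra hcon
    push Not at hcon
    have h1 : Col G (A 0 ∪ A 1 ∪ A 2 ∪ T) (c0 + c0 + c0 + τ) :=
      (((hcon 0).union (hcon 1)).union (hcon 2)).union ((col_card T).mono (Finset.Subset.refl _) hTcard)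
    apply hX'c
    refine h1.mono ?_ (by omega)
    intro v hv
    by_cases hvT : v ∈ T
    · exact Finset.mem_union_right _ hvT
    · exact Finset.mem_union_left _ (hA3 (Finset.mem_sdiff.2 ⟨hv, hvT⟩))
  obtain ⟨j, hj⟩ := hj
  have hAjX' : A j ⊆ X' := (hA1 j).trans Finset.sdiff_subset
  have hAjT : ∀ v ∈ A j, v ∉ T := fun v hv => (Finset.mem_sdiff.1 (hA1 j hv)).2
  have hmod : Model G (A j) τ := by
    by_contra hmod
    apply hj
    have h1 : (A j).card ≤ X.card := Finset.card_le_card (hAjX'.trans hX'X)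
    refine hsmall V G (A j) τ c0 hτ ((Nat.pow_le_pow_left h1 2).trans hXτ) hmod ?_
    have h2 := (RT_log (Nat.cast_nonneg (A j).card)
      (by exact_mod_cast h1 : ((A j).card : ℝ) ≤ (X.card : ℝ)) hτ').1
    rw [← hL] at h2
    calc C0 * τ * Real.log (2 + Real.log (1 + ((A j).card : ℝ) / τ)) ≤ C0 * τ * L :=
          mul_le_mul_of_nonneg_left h2 (by positivity)
      _ ≤ c0 := by
          rw [hc0]
          exact Nat.le_ceil _
  obtain ⟨f0, hf1, hf2⟩ := hmod
  have hyex : ∀ i, ∃ v, v ∈ f0 i := fun i => (hf1 i).2.nonempty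
  choose y hy using hyex
  have hyA : ∀ i, y i ∈ A j := fun i => (hf1 i).1 (hy i)
  have hyinj : Function.Injective y := by
    intro i i' hii
    by_contra hne
    exact Finset.disjoint_left.1 (hf2 i i' hne).1 (hy i) (hii ▸ hy i')
  -- linking through the gadget
  obtain ⟨W, hW1, hW2, hW3⟩ := hA5 j (Fin τ ⊕ Fin τ) (Fin τ) (Sum.elim x y) (Sum.elim id id)
    (by rw [Fintype.card_sum, Fintype.card_fin]; omega)
    (by
      rintro (a | a) (b | b) hab
      · exact congrArg _ (hxinj hab)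
      · have h1 : x a = y b := hab
        exact absurd (h1 ▸ hxT a) (hAjT _ (hyA b))
      · have h1 : y a = x b := hab
        exact absurd (h1 ▸ hxT b) (hAjT _ (hyA a))
      · exact congrArg _ (hyinj hab))
    (by
      rintro (a | a)
      · exact Finset.mem_union_left _ (hxT a)
      · exact Finset.mem_union_right _ (hyA a))
  have hWx : ∀ i, x i ∈ W i := fun i => (hW2 (Sum.inl i)).1
  have hWy : ∀ i, y i ∈ W i := fun i => (hW2 (Sum.inr i)).1
  have hWc : ∀ i, Conn G (W i) := fun i => (hW2 (Sum.inl i)).2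
  have hWX' : ∀ i, W i ⊆ X' := by
    intro i v hv
    rcases hW1 i v hv with h1 | ⟨a, _, h2⟩
    · exact (Finset.mem_sdiff.1 h1).1
    · rcases a with a | a
      · have h3 : x a = v := h2
        rw [← h3]
        exact (hxF' a).2
      · have h3 : y a = v := h2
        rw [← h3]
        exact hAjX' (hyA a)
  have hWA : ∀ i, ∀ v ∈ W i, v ∈ A j → v = y i := by
    intro i v hv hvA
    rcases hW1 i v hv with h1 | ⟨a, h2, h3⟩
    · exact absurd (Finset.mem_union_right _ hvA) (Finset.mem_sdiff.1 h1).2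
    · rcases a with a | a
      · have h4 : x a = v := h3
        exact absurd (h4 ▸ hxT a) (hAjT v hvA)
      · have h4 : y a = v := h3
        have h5 : a = i := h2
        rw [← h4, h5]
  -- the separate disjointness facts
  have dFW : ∀ i i', i ≠ i' → Disjoint (F' i) (W i') := by
    intro i i' hne
    rw [Finset.disjoint_left]
    intro v hv hv'
    have h1 : v ∈ F' i ∩ X' := Finset.mem_inter.2 ⟨hv, hWX' i' hv'⟩
    rw [hF'4 i, Finset.mem_singleton] at h1
    rw [h1] at hv'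
    exact Finset.disjoint_left.1 (hW3 i i' hne) (hWx i) hv'
  have dFf : ∀ i i', Disjoint (F' i) (f0 i') := by
    intro i i'
    rw [Finset.disjoint_left]
    intro v hv hv'
    have h2 := (hf1 i').1 hv'
    have h1 : v ∈ F' i ∩ X' := Finset.mem_inter.2 ⟨hv, hAjX' h2⟩
    rw [hF'4 i, Finset.mem_singleton] at h1
    exact hAjT v h2 (h1 ▸ hxT i)
  have dWf : ∀ i i', i ≠ i' → Disjoint (W i) (f0 i') := by
    intro i i' hne
    rw [Finset.disjoint_left]
    intro v hv hv'
    have h1 := hWA i v hv ((hf1 i').1 hv')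
    rw [h1] at hv'
    exact Finset.disjoint_left.1 (hf2 i i' hne).1 (hy i) hv'
  refine ⟨fun p => F' (idx p) ∪ W (idx p) ∪ f0 (idx p), ?_, ?_⟩
  · intro p hp
    refine ⟨?_, ?_, ?_⟩
    · apply Finset.mem_union_left
      apply Finset.mem_union_left
      have h1 := hF'3 (idx p)
      rw [hidx p hp] at h1
      exact h1
    · apply Finset.union_subset
      · apply Finset.union_subset
        · exact (hF'1 _).trans (hF1 _).1
        · exact (hWX' _).trans hX'M
      · exact (hf1 _).1.trans (hAjX'.trans hX'M)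
    · have h1 : Conn G (F' (idx p) ∪ W (idx p)) :=
        (hF'2 _).union_mem (hWc _) (hxF' _).1 (hWx _)
      exact h1.union_mem (hf1 _).2 (Finset.mem_union_right _ (hWy _)) (hy _)
  · intro p hp q hq hpq
    have hne : idx p ≠ idx q := by
      intro h
      apply hpq
      rw [← hidx p hp, ← hidx q hq, h]
    constructor
    · rw [Finset.disjoint_union_left, Finset.disjoint_union_left, Finset.disjoint_union_right,
        Finset.disjoint_union_right, Finset.disjoint_union_right, Finset.disjoint_union_right,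
        Finset.disjoint_union_right, Finset.disjoint_union_right]
      exact ⟨⟨⟨⟨hF'dis _ _ hne, dFW _ _ hne⟩, dFf _ _⟩,
        ⟨⟨(dFW _ _ hne.symm).symm, hW3 _ _ hne⟩, dWf _ _ hne⟩⟩,
        ⟨⟨(dFf _ _).symm, (dWf _ _ hne.symm).symm⟩, (hf2 _ _ hne).1⟩⟩
    · exact (hf2 _ _ hne).2.mono Finset.subset_union_right Finset.subset_union_right

end HD
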