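import Pool.Agent.LibHL.A1
import Pool.Agent.LibHL.A2
import Pool.Agent.LibHL.A3

/-!
# LibHL : the results of block (a) in the form used later
-/

set_option autoImplicit false
set_option linter.unusedSectionVars false

open scoped Classical

noncomputable section

namespace HD

variable {V : Type*} [Fintype V] [DecidableEq V] {G : SimpleGraph V}

theorem gn {U : Finset V} {κ c : ℕ} (h : ¬ Col G U (c + 4 * κ)) (hc : 2 * κ ≤ c) :
    ∃ M ⊆ U, KC G M κ ∧ ¬ Col G M c := by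
  rcases Nat.eq_zero_or_pos κ with h0 | h0
  · subst h0
    exact gn_zero (by simpa using h)
  · obtain ⟨M, h1, h2, h3⟩ := gn0 (k := κ) (c := c + 4 * κ) h0 (by omega) h
    refine ⟨M, h1, h2, ?_⟩
    rwa [Nat.add_sub_cancel] at h3

theorem trim {F A : Finset V} {e : V} (hF : Conn G F) (he : e ∈ F) (hA : (F ∩ A).Nonempty) :
    ∃ F' ⊆ F, Conn G F' ∧ e ∈ F' ∧ (∃ a, F' ∩ A = {a}) ∧ Col G F' 2 := by
  obtain ⟨F', h1, h2, h3, h4, h5⟩ := trim0 hF he hA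
  exact ⟨F', h1, h2, h3, Finset.card_eq_one.1 h4, h5⟩

/-- `n` disjoint sets each meeting a set of size `n` meet it in exactly one point each. -/
theorem meet_once {n : ℕ} {F : Fin n → Finset V} {B : Finset V} (hB : B.card = n)
    (h1 : ∀ i, (F i ∩ B).Nonempty) (h2 : ∀ i j, i ≠ j → Disjoint (F i) (F j)) :
    ∀ e ∈ B, ∃ i, F i ∩ B = {e} := M1_hits hB h1 h2

theorem link0 {M A B : Finset V} {κ : ℕ} (hM : KC G M κ) (hA : A ⊆ M) (hB : B ⊆ M) (hBκ : B.card ≤ κ)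
    (hBA : B.card ≤ A.card) :
    ∃ F : V → Finset V, Sys G M A B B F ∧ ∀ e ∈ B, Col G (F e) 2 ∧ ∃ a, F e ∩ A = {a} := by
  obtain ⟨Z, hZ, hZd⟩ := kc_menger (n := B.card) hM hA hB (by omega) hBA le_rfl
  have hm := meet_once (n := B.card) (F := Z) (B := B) rfl (fun i => (hZ i).2.2.2) hZd
  have key : ∀ e : V, ∃ (Y : Finset V), e ∈ B → (∃ i, Z i ∩ B = {e} ∧ Y ⊆ Z i) ∧ Conn G Y ∧ e ∈ Y ∧
      (∃ a, Y ∩ A = {a}) ∧ Col G Y 2 := by
    intro e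
    by_cases he : e ∈ B
    · obtain ⟨i, hi⟩ := hm e he
      have heZ : e ∈ Z i := by
        have : e ∈ Z i ∩ B := by rw [hi]; exact Finset.mem_singleton_self e
        exact (Finset.mem_inter.1 this).1
      obtain ⟨Y, h1, h2, h3, h4, h5⟩ := trim (hZ i).2.1 heZ (hZ i).2.2.1
      exact ⟨Y, fun _ => ⟨⟨i, hi, h1⟩, h2, h3, h4, h5⟩⟩
    · exact ⟨∅, fun h => absurd h he⟩
  choose Y hY using key
  refine ⟨Y, ⟨?_, ?_⟩, fun e he => ⟨(hY e he).2.2.2.2, (hY e he).2.2.2.1⟩⟩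
  · intro e he
    obtain ⟨⟨i, hi, hYi⟩, h2, h3, ⟨a, ha⟩, h5⟩ := hY e he
    refine ⟨hYi.trans (hZ i).1, h2, h3, ⟨a, by rw [ha]; exact Finset.mem_singleton_self a⟩, ?_⟩
    exact (Finset.inter_subset_inter hYi (Finset.Subset.refl B)).trans (by rw [hi])
  · intro e he e' he' hne
    obtain ⟨⟨i, hi, hYi⟩, _⟩ := hY e he
    obtain ⟨⟨j, hj, hYj⟩, _⟩ := hY e' he'
    have hij : i ≠ j := by
      rintro rfl
      exact hne (Finset.singleton_injective (hi.symm.trans hj))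
    exact Disjoint.mono hYi hYj (hZd i j hij)

theorem swap {reg A E C D X : Finset V} {κ : ℕ} {F : V → Finset V}
    (hF : Sys G (reg \ X) A (E ∪ C) E F) (hEC : Disjoint E C) (hD : D ⊆ reg) (hKC : KC G D κ)
    (hκ : E.card + C.card ≤ κ) (hCD : C ⊆ D) (hXD : X ⊆ D) (hX : κ < X.card) (_hE : E ⊆ reg \ X) :
    ∃ (E' : Finset V) (F' : V → Finset V), E' ⊆ X ∧ E'.card = C.card ∧
      Sys G reg A (E ∪ E') (E ∪ X) F' := by
  obtain ⟨E', F', h1, h2, h3, h4⟩ := swap0 (F := F) (reg := reg) (A := A) (E := E) (C := C) (D := D) (X := X)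
    (r := C.card) (κ := κ) (fun e he => ⟨(hF.1 e he).1, (hF.1 e he).2.1, (hF.1 e he).2.2.1, (hF.1 e he).2.2.2.1⟩)
    hF.2 hEC rfl hD hKC hκ hCD hXD hX
  refine ⟨E', F', h1, h2, ⟨?_, h4⟩⟩
  intro e he
  obtain ⟨a1, a2, a3, a4⟩ := h3 e he
  refine ⟨a1, a2, ?_, a4, a3.le⟩
  have : e ∈ F' e ∩ (E ∪ X) := by rw [a3]; exact Finset.mem_singleton_self e
  exact (Finset.mem_inter.1 this).1

theorem shrink {T : Finset V} (hT : Conn G T) {q : ℕ} (hq : 1 ≤ q) (Q : Fin q → Finset V)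
    (hQ : ∀ i, Conn G (Q i) ∧ Q i ⊆ T) :
    ∃ T' A : Finset V, T' ⊆ T ∧ Conn G T' ∧ (∀ i, Q i ⊆ T') ∧ A ⊆ T' ∧ A.card ≤ q ∧
      Col G (T' \ (Finset.univ.biUnion Q ∪ A)) 2 := shrink0 hT Q hq hQ

theorem sys_sub {reg reg' A B W W' : Finset V} {F : V → Finset V} (h : Sys G reg A B W F) (h1 : reg ⊆ reg')
    (h2 : W' ⊆ W) : Sys G reg' A B W' F :=
  ⟨fun e he => ⟨(h.1 e he).1.trans h1, (h.1 e he).2.1, (h.1 e he).2.2.1, (h.1 e he).2.2.2.1,
    (Finset.inter_subset_inter (Finset.Subset.refl _) h2).trans (h.1 e he).2.2.2.2⟩, h.2⟩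

/-- shrink the members of a system so that each meets `A` exactly once -/
theorem sys_trim {reg A B W : Finset V} {F : V → Finset V} (h : Sys G reg A B W F) :
    ∃ F' : V → Finset V, Sys G reg A B W F' ∧ (∀ e ∈ B, F' e ⊆ F e ∧ Col G (F' e) 2 ∧ ∃ a, F' e ∩ A = {a}) := by
  have key : ∀ e : V, ∃ Y : Finset V, e ∈ B → Y ⊆ F e ∧ Conn G Y ∧ e ∈ Y ∧ (∃ a, Y ∩ A = {a}) ∧ Col G Y 2 := by
    intro e
    by_cases he : e ∈ B
    · obtain ⟨a1, a2, a3, a4, a5⟩ := h.1 e he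
      obtain ⟨Y, h1, h2, h3, h4, h5⟩ := trim a2 a3 a4
      exact ⟨Y, fun _ => ⟨h1, h2, h3, h4, h5⟩⟩
    · exact ⟨∅, fun h => absurd h he⟩
  choose Y hY using key
  refine ⟨Y, ⟨?_, ?_⟩, fun e he => ⟨(hY e he).1, (hY e he).2.2.2.2, (hY e he).2.2.2.1⟩⟩
  · intro e he
    obtain ⟨h1, h2, h3, ⟨a, ha⟩, h5⟩ := hY e he
    refine ⟨h1.trans (h.1 e he).1, h2, h3, ⟨a, by rw [ha]; exact Finset.mem_singleton_self a⟩, ?_⟩
    exact (Finset.inter_subset_inter h1 (Finset.Subset.refl W)).trans (h.1 e he).2.2.2.2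
  · intro e he e' he' hne
    exact Disjoint.mono (hY e he).1 (hY e' he').1 (h.2 e he e' he' hne)

end HD
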