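import Pool.Agent.LibHL.BMDefs

/-!
# LibHL : block (b), the lazy walk operator
-/

set_option autoImplicit false
set_option linter.unusedSectionVars false

open scoped Classical

noncomputable section

namespace HD

variable {V : Type} [Fintype V] [DecidableEq V] {G : SimpleGraph V}

/-- The density of the walk after `s` steps from `x`. -/
def dens (G : SimpleGraph V) (W : Finset V) (Δ : ℕ) (x : V) (s : ℕ) : V → ℝ :=
  (Mop G W Δ)^[s] (fun v => if v = x then 1 else 0)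

/-! Row EN -/

theorem EN_sum (Y : Finset V) (x : V) (f : V → ℝ) :
    ∑ y ∈ nbIn G Y x, f y = ∑ y ∈ Y, if G.Adj x y then f y else 0 := by
  unfold nbIn
  rw [Finset.sum_filter]

theorem EN_card (Y : Finset V) (x : V) :
    ((nbIn G Y x).card : ℝ) = ∑ y ∈ Y, if G.Adj x y then (1 : ℝ) else 0 := by
  rw [← EN_sum Y x (fun _ => (1 : ℝ))]
  simp

theorem EN_A (Y : Finset V) (x₀ : V) (hx : x₀ ∉ Y) (u : V → ℝ) :
    ∑ x ∈ insert x₀ Y, ∑ y ∈ insert x₀ Y, (if G.Adj x y then u x * u y else 0)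
      = (∑ x ∈ Y, ∑ y ∈ Y, (if G.Adj x y then u x * u y else 0))
        + 2 * ∑ y ∈ Y, (if G.Adj x₀ y then u x₀ * u y else 0) := by
  rw [Finset.sum_insert hx, Finset.sum_insert hx, if_neg (fun h => G.loopless.irrefl x₀ h), zero_add]
  have h1 : ∑ x ∈ Y, ∑ y ∈ insert x₀ Y, (if G.Adj x y then u x * u y else 0)
      = ∑ x ∈ Y, ((if G.Adj x₀ x then u x₀ * u x else 0)
        + ∑ y ∈ Y, (if G.Adj x y then u x * u y else 0)) := by
    refine Finset.sum_congr rfl fun x _ => ?_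
    rw [Finset.sum_insert hx]
    congr 1
    by_cases h : G.Adj x₀ x
    · rw [if_pos h, if_pos h.symm, mul_comm]
    · rw [if_neg h, if_neg (fun h' => h h'.symm)]
  rw [h1, Finset.sum_add_distrib]
  ring

theorem EN_D (Y : Finset V) (x₀ : V) (hx : x₀ ∉ Y) (u : V → ℝ) :
    ∑ x ∈ insert x₀ Y, (∑ y ∈ insert x₀ Y, (if G.Adj x y then (1 : ℝ) else 0)) * u x ^ 2
      = (∑ x ∈ Y, (∑ y ∈ Y, (if G.Adj x y then (1 : ℝ) else 0)) * u x ^ 2)
        + (∑ y ∈ Y, (if G.Adj x₀ y then (1 : ℝ) else 0)) * u x₀ ^ 2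
        + ∑ y ∈ Y, (if G.Adj x₀ y then u y ^ 2 else 0) := by
  rw [Finset.sum_insert hx, Finset.sum_insert hx, if_neg (fun h => G.loopless.irrefl x₀ h), zero_add]
  have h1 : ∑ x ∈ Y, (∑ y ∈ insert x₀ Y, (if G.Adj x y then (1 : ℝ) else 0)) * u x ^ 2
      = ∑ x ∈ Y, ((if G.Adj x₀ x then u x ^ 2 else 0)
        + (∑ y ∈ Y, (if G.Adj x y then (1 : ℝ) else 0)) * u x ^ 2) := by
    refine Finset.sum_congr rfl fun x _ => ?_
    rw [Finset.sum_insert hx, add_mul]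
    congr 1
    by_cases h : G.Adj x₀ x
    · rw [if_pos h, if_pos h.symm, one_mul]
    · rw [if_neg h, if_neg (fun h' => h h'.symm), zero_mul]
  rw [h1, Finset.sum_add_distrib]
  ring

theorem EN_main {η : ℝ} (u : V → ℝ) (n : ℕ) : ∀ Y : Finset V, Y.card = n →
    (∀ Y' ⊆ Y, Y'.Nonempty → ∃ v ∈ Y', ((nbIn G Y' v).card : ℝ) ≤ η) →
    ∑ x ∈ Y, ∑ y ∈ Y, (if G.Adj x y then u x * u y else 0) ≤
      4 * η * ∑ x ∈ Y, u x ^ 2
        + (1 / 4) * ∑ x ∈ Y, (∑ y ∈ Y, (if G.Adj x y then (1 : ℝ) else 0)) * u x ^ 2 := by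
  induction n with
  | zero =>
    intro Y hY _
    rw [Finset.card_eq_zero] at hY
    rw [hY]
    simp
  | succ n ih =>
    intro Y hYn hY
    have hne : Y.Nonempty := by
      rw [← Finset.card_pos]
      omega
    obtain ⟨x₀, hx₀, hdeg⟩ := hY Y (Finset.Subset.refl Y) hne
    have hcard : (Y.erase x₀).card = n := by
      rw [Finset.card_erase_of_mem hx₀]
      omega
    have hI := ih (Y.erase x₀) hcard (fun Y' hY' hn => hY Y' (hY'.trans (Finset.erase_subset _ _)) hn)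
    have hnot : x₀ ∉ Y.erase x₀ := Finset.notMem_erase x₀ Y
    have hins : insert x₀ (Y.erase x₀) = Y := Finset.insert_erase hx₀
    have hA := EN_A (G := G) (Y.erase x₀) x₀ hnot u
    have hD := EN_D (G := G) (Y.erase x₀) x₀ hnot u
    have hS : ∑ x ∈ insert x₀ (Y.erase x₀), u x ^ 2 = u x₀ ^ 2 + ∑ x ∈ Y.erase x₀, u x ^ 2 :=
      Finset.sum_insert hnot
    have hdg : ∑ y ∈ Y.erase x₀, (if G.Adj x₀ y then (1 : ℝ) else 0) ≤ η := by
      rw [EN_card] at hdeg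
      have h2 : ∑ y ∈ insert x₀ (Y.erase x₀), (if G.Adj x₀ y then (1 : ℝ) else 0)
          = ∑ y ∈ Y.erase x₀, (if G.Adj x₀ y then (1 : ℝ) else 0) := by
        rw [Finset.sum_insert hnot, if_neg (fun h => G.loopless.irrefl x₀ h), zero_add]
      rw [hins] at h2
      rw [← h2]
      exact hdeg
    rw [hins] at hA hD hS
    rw [hA, hD, hS]
    generalize Y.erase x₀ = W at *
    have hkey : 2 * ∑ y ∈ W, (if G.Adj x₀ y then u x₀ * u y else 0)
        ≤ 4 * (∑ y ∈ W, (if G.Adj x₀ y then (1 : ℝ) else 0)) * u x₀ ^ 2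
          + (1 / 4) * ∑ y ∈ W, (if G.Adj x₀ y then u y ^ 2 else 0) := by
      rw [Finset.mul_sum, Finset.mul_sum, Finset.mul_sum, Finset.sum_mul, ← Finset.sum_add_distrib]
      refine Finset.sum_le_sum fun y _ => ?_
      by_cases h : G.Adj x₀ y
      · rw [if_pos h, if_pos h, if_pos h]
        nlinarith [sq_nonneg (2 * u x₀ - (1 / 2) * u y)]
      · rw [if_neg h, if_neg h, if_neg h]
        simp
    have hsq : 0 ≤ u x₀ ^ 2 := sq_nonneg _
    have hd0 : 0 ≤ ∑ y ∈ W, (if G.Adj x₀ y then (1 : ℝ) else 0) := by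
      refine Finset.sum_nonneg fun y _ => ?_
      split_ifs
      · norm_num
      · exact le_refl _
    have h3 : 4 * (∑ y ∈ W, (if G.Adj x₀ y then (1 : ℝ) else 0)) * u x₀ ^ 2 ≤ 4 * η * u x₀ ^ 2 := by
      have := mul_le_mul_of_nonneg_right hdg hsq
      linarith
    have h4 : 0 ≤ (∑ y ∈ W, (if G.Adj x₀ y then (1 : ℝ) else 0)) * u x₀ ^ 2 := mul_nonneg hd0 hsq
    linarith

/-- M1: the quadratic form of a degenerate graph. -/
theorem energy {Y : Finset V} {η : ℝ}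
    (hY : ∀ Y' ⊆ Y, Y'.Nonempty → ∃ v ∈ Y', ((nbIn G Y' v).card : ℝ) ≤ η) (u : V → ℝ) :
    ∑ x ∈ Y, ∑ y ∈ nbIn G Y x, u x * u y ≤
      4 * η * ∑ x ∈ Y, u x ^ 2 + (1 / 4) * ∑ x ∈ Y, ((nbIn G Y x).card : ℝ) * u x ^ 2 := by
  have h := EN_main (G := G) (η := η) u Y.card Y rfl hY
  have e1 : ∑ x ∈ Y, ∑ y ∈ nbIn G Y x, u x * u y
      = ∑ x ∈ Y, ∑ y ∈ Y, (if G.Adj x y then u x * u y else 0) :=
    Finset.sum_congr rfl fun x _ => EN_sum Y x (fun y => u x * u y)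
  have e2 : ∑ x ∈ Y, ((nbIn G Y x).card : ℝ) * u x ^ 2
      = ∑ x ∈ Y, (∑ y ∈ Y, (if G.Adj x y then (1 : ℝ) else 0)) * u x ^ 2 :=
    Finset.sum_congr rfl fun x _ => by rw [EN_card]
  rw [e1, e2]
  exact h

/-! Row MQ -/

theorem MQ_swap {W : Finset V} (F : V → V → ℝ) :
    ∑ x ∈ W, ∑ y ∈ nbIn G W x, F x y = ∑ x ∈ W, ∑ y ∈ nbIn G W x, F y x := by
  refine Finset.sum_comm' ?_
  intro x y
  simp only [nbIn, Finset.mem_filter]
  constructor
  · rintro ⟨h1, h2, h3⟩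
    exact ⟨⟨h1, h3.symm⟩, h2⟩
  · rintro ⟨⟨h1, h3⟩, h2⟩
    exact ⟨h1, h2, h3.symm⟩

theorem MQ_energy {W : Finset V} (u : V → ℝ) :
    ∑ x ∈ W, u x * ∑ y ∈ nbIn G W x, (u x - u y) = En G W u := by
  have h1 : ∑ x ∈ W, u x * ∑ y ∈ nbIn G W x, (u x - u y) =
      ∑ x ∈ W, ∑ y ∈ nbIn G W x, u x * (u x - u y) := by
    refine Finset.sum_congr rfl fun x _ => ?_
    rw [Finset.mul_sum]
  have h2 := MQ_swap (G := G) (W := W) fun x y => u x * (u x - u y)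
  have h3 : ∑ x ∈ W, ∑ y ∈ nbIn G W x, u x * (u x - u y) +
      ∑ x ∈ W, ∑ y ∈ nbIn G W x, u y * (u y - u x) =
      ∑ x ∈ W, ∑ y ∈ nbIn G W x, (u x - u y) ^ 2 := by
    rw [← Finset.sum_add_distrib]
    refine Finset.sum_congr rfl fun x _ => ?_
    rw [← Finset.sum_add_distrib]
    refine Finset.sum_congr rfl fun y _ => ?_
    ring
  unfold En
  rw [h1, ← h3, ← h2]
  ring

/-- M2: the walk operator contracts by the energy. -/
theorem mop_sq {W : Finset V} {D0 : ℕ} (hD0 : 0 < D0) (hdeg : ∀ v ∈ W, (nbIn G W v).card ≤ D0) (u : V → ℝ) :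
    nsq W (Mop G W (2 * D0) u) ≤ nsq W u - (1 / (2 * (D0 : ℝ))) * En G W u := by
  have hD : (0 : ℝ) < (D0 : ℝ) := by exact_mod_cast hD0
  have h1 : ∀ v, Mop G W (2 * D0) u v ^ 2 = u v ^ 2 -
      (1 / (D0 : ℝ)) * (u v * ∑ y ∈ nbIn G W v, (u v - u y)) +
      (1 / (4 * (D0 : ℝ) ^ 2)) * (∑ y ∈ nbIn G W v, (u v - u y)) ^ 2 := by
    intro v
    unfold Mop
    have h2 : ∑ y ∈ nbIn G W v, (u v - u y) =
        ((nbIn G W v).card : ℝ) * u v - ∑ y ∈ nbIn G W v, u y := by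
      rw [Finset.sum_sub_distrib, Finset.sum_const, nsmul_eq_mul]
    rw [h2]
    push_cast
    field_simp
    ring
  have h2 : nsq W (Mop G W (2 * D0) u) = nsq W u - (1 / (D0 : ℝ)) * En G W u +
      (1 / (4 * (D0 : ℝ) ^ 2)) * ∑ v ∈ W, (∑ y ∈ nbIn G W v, (u v - u y)) ^ 2 := by
    unfold nsq
    rw [← MQ_energy u, Finset.mul_sum, Finset.mul_sum, ← Finset.sum_sub_distrib,
      ← Finset.sum_add_distrib]
    exact Finset.sum_congr rfl fun v _ => h1 v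
  have h3 : ∑ v ∈ W, (∑ y ∈ nbIn G W v, (u v - u y)) ^ 2 ≤ 2 * (D0 : ℝ) * En G W u := by
    have h4 : ∑ v ∈ W, (∑ y ∈ nbIn G W v, (u v - u y)) ^ 2 ≤
        ∑ v ∈ W, (D0 : ℝ) * ∑ y ∈ nbIn G W v, (u v - u y) ^ 2 := by
      refine Finset.sum_le_sum fun v hv => ?_
      have h5 : (∑ y ∈ nbIn G W v, (u v - u y)) ^ 2 ≤
          ((nbIn G W v).card : ℝ) * ∑ y ∈ nbIn G W v, (u v - u y) ^ 2 := sq_sum_le_card_mul_sum_sq
      refine h5.trans (mul_le_mul_of_nonneg_right ?_ (Finset.sum_nonneg fun y _ => sq_nonneg _))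
      exact_mod_cast hdeg v hv
    refine h4.trans (le_of_eq ?_)
    rw [← Finset.mul_sum]
    unfold En
    ring
  rw [h2]
  have h4 : (1 / (4 * (D0 : ℝ) ^ 2)) * ∑ v ∈ W, (∑ y ∈ nbIn G W v, (u v - u y)) ^ 2 ≤
      (1 / (4 * (D0 : ℝ) ^ 2)) * (2 * (D0 : ℝ) * En G W u) :=
    mul_le_mul_of_nonneg_left h3 (by positivity)
  have h5 : (1 / (4 * (D0 : ℝ) ^ 2)) * (2 * (D0 : ℝ) * En G W u) =
      (1 / (2 * (D0 : ℝ))) * En G W u := by
    field_simp
    ring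
  have h6 : (1 / (D0 : ℝ)) * En G W u = 2 * ((1 / (2 * (D0 : ℝ))) * En G W u) := by
    field_simp
  rw [h5] at h4
  rw [h6]
  linarith

/-! Row MS -/

theorem MS_sum {W : Finset V} (f g : V → ℝ) :
    ∑ v ∈ W, f v * ∑ w ∈ nbIn G W v, g w = ∑ v ∈ W, (∑ w ∈ nbIn G W v, f w) * g v := by
  have h1 : ∀ v, f v * ∑ w ∈ nbIn G W v, g w = ∑ w ∈ W, if G.Adj v w then f v * g w else 0 := by
    intro v
    rw [nbIn, Finset.mul_sum, Finset.sum_filter]
  have h2 : ∀ v, (∑ w ∈ nbIn G W v, f w) * g v = ∑ w ∈ W, if G.Adj v w then f w * g v else 0 := by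
    intro v
    rw [nbIn, Finset.sum_mul, Finset.sum_filter]
  rw [Finset.sum_congr rfl fun v _ => h1 v, Finset.sum_congr rfl fun v _ => h2 v, Finset.sum_comm]
  refine Finset.sum_congr rfl fun v _ => Finset.sum_congr rfl fun w _ => ?_
  by_cases h : G.Adj v w
  · rw [if_pos h, if_pos h.symm]
  · rw [if_neg h, if_neg fun h' => h h'.symm]

/-- M3: the walk operator is symmetric. -/
theorem mop_symm {W : Finset V} {Δ : ℕ} (f g : V → ℝ) :
    ∑ v ∈ W, f v * Mop G W Δ g v = ∑ v ∈ W, Mop G W Δ f v * g v := by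
  have h1 : ∀ v, f v * Mop G W Δ g v =
      (f v * ∑ w ∈ nbIn G W v, g w) / Δ + f v * (((Δ : ℝ) - (nbIn G W v).card) * g v) / Δ := by
    intro v
    unfold Mop
    ring
  have h2 : ∀ v, Mop G W Δ f v * g v =
      ((∑ w ∈ nbIn G W v, f w) * g v) / Δ + f v * (((Δ : ℝ) - (nbIn G W v).card) * g v) / Δ := by
    intro v
    unfold Mop
    ring
  rw [Finset.sum_congr rfl fun v _ => h1 v, Finset.sum_congr rfl fun v _ => h2 v,
    Finset.sum_add_distrib, Finset.sum_add_distrib, ← Finset.sum_div, MS_sum, Finset.sum_div]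

theorem mop_one {W : Finset V} {Δ : ℕ} (hΔ : 0 < Δ) (v : V) : Mop G W Δ (fun _ => 1) v = 1 := by
  unfold Mop
  rw [Finset.sum_const, nsmul_eq_mul]
  have h : (Δ : ℝ) ≠ 0 := by positivity
  rw [div_eq_one_iff_eq h]
  ring

theorem mop_nonneg {W : Finset V} {Δ : ℕ} (hdeg : ∀ v ∈ W, (nbIn G W v).card ≤ Δ) {u : V → ℝ}
    (hu : ∀ v ∈ W, 0 ≤ u v) : ∀ v ∈ W, 0 ≤ Mop G W Δ u v := by
  intro v hv
  unfold Mop
  refine div_nonneg (add_nonneg (Finset.sum_nonneg fun w hw => hu w ?_)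
    (mul_nonneg ?_ (hu v hv))) (Nat.cast_nonneg _)
  · exact (Finset.mem_filter.1 hw).1
  · have h := hdeg v hv
    have h' : ((nbIn G W v).card : ℝ) ≤ Δ := by exact_mod_cast h
    linarith

/-! Row MM -/

theorem MM_mem {S : Finset V} {v u : V} : u ∈ nbIn G S v ↔ u ∈ S ∧ G.Adj v u := by
  unfold nbIn
  rw [Finset.mem_filter]

theorem MM_swap {W : Finset V} (F : V → V → ℝ) :
    ∑ x ∈ W, ∑ y ∈ nbIn G W x, F x y = ∑ y ∈ W, ∑ x ∈ nbIn G W y, F x y := by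
  unfold nbIn
  simp only [Finset.sum_filter]
  rw [Finset.sum_comm]
  refine Finset.sum_congr rfl fun y _ => Finset.sum_congr rfl fun x _ => ?_
  by_cases h : G.Adj x y
  · rw [if_pos h, if_pos h.symm]
  · rw [if_neg h, if_neg fun h' => h h'.symm]

theorem MM_en {W : Finset V} (u : V → ℝ) :
    En G W u = ∑ x ∈ W, ((nbIn G W x).card : ℝ) * u x ^ 2 - ∑ x ∈ W, ∑ y ∈ nbIn G W x, u x * u y := by
  have h1 : ∑ x ∈ W, ∑ y ∈ nbIn G W x, u y ^ 2 = ∑ x ∈ W, ((nbIn G W x).card : ℝ) * u x ^ 2 := by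
    rw [MM_swap (fun _ y => u y ^ 2)]
    refine Finset.sum_congr rfl fun x _ => ?_
    rw [Finset.sum_const, nsmul_eq_mul]
  have h2 : ∑ x ∈ W, ∑ y ∈ nbIn G W x, u x ^ 2 = ∑ x ∈ W, ((nbIn G W x).card : ℝ) * u x ^ 2 := by
    refine Finset.sum_congr rfl fun x _ => ?_
    rw [Finset.sum_const, nsmul_eq_mul]
  have h3 : ∑ x ∈ W, ∑ y ∈ nbIn G W x, (u x - u y) ^ 2 =
      ∑ x ∈ W, ∑ y ∈ nbIn G W x, u x ^ 2 - 2 * ∑ x ∈ W, ∑ y ∈ nbIn G W x, u x * u y +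
        ∑ x ∈ W, ∑ y ∈ nbIn G W x, u y ^ 2 := by
    rw [Finset.mul_sum, ← Finset.sum_sub_distrib, ← Finset.sum_add_distrib]
    refine Finset.sum_congr rfl fun x _ => ?_
    rw [Finset.mul_sum, ← Finset.sum_sub_distrib, ← Finset.sum_add_distrib]
    refine Finset.sum_congr rfl fun y _ => ?_
    ring
  unfold En
  rw [h3, h1, h2]
  ring

theorem MM_restrict {W Y : Finset V} (hYW : Y ⊆ W) (u : V → ℝ) (hu : ∀ v ∈ W, v ∉ Y → u v = 0) :
    ∑ x ∈ W, ∑ y ∈ nbIn G W x, u x * u y = ∑ x ∈ Y, ∑ y ∈ nbIn G Y x, u x * u y := by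
  symm
  have h1 : ∑ x ∈ Y, ∑ y ∈ nbIn G Y x, u x * u y = ∑ x ∈ Y, ∑ y ∈ nbIn G W x, u x * u y := by
    refine Finset.sum_congr rfl fun x _ => ?_
    refine Finset.sum_subset ?_ ?_
    · intro y hy
      rw [MM_mem] at hy ⊢
      exact ⟨hYW hy.1, hy.2⟩
    · intro y hy hy'
      rw [MM_mem] at hy hy'
      have h2 : y ∉ Y := fun h => hy' ⟨h, hy.2⟩
      rw [hu y hy.1 h2, mul_zero]
  rw [h1]
  refine Finset.sum_subset hYW ?_
  intro x hx hx'
  refine Finset.sum_eq_zero fun y _ => ?_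
  rw [hu x hx hx', zero_mul]

/-- M4: strong contraction for functions of small support. -/
theorem mop_small {W Y : Finset V} {D0 : ℕ} {δ : ℝ} (hD0 : 0 < D0) (hδ : 0 ≤ δ) (hYW : Y ⊆ W)
    (hdeg : ∀ v ∈ W, δ ≤ ((nbIn G W v).card : ℝ) ∧ (nbIn G W v).card ≤ D0)
    (hY : ∀ Y' ⊆ Y, Y'.Nonempty → ∃ v ∈ Y', ((nbIn G Y' v).card : ℝ) ≤ δ / 16) (u : V → ℝ)
    (hu : ∀ v ∈ W, v ∉ Y → u v = 0) :
    nsq W (Mop G W (2 * D0) u) ≤ (1 - 2 * (δ / (8 * D0))) * nsq W u := by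
  have h1 := mop_sq hD0 (fun v hv => (hdeg v hv).2) u
  have h2 := energy hY u
  have h3 := MM_en (G := G) (W := W) u
  have h4 := MM_restrict (G := G) hYW u hu
  have h5 : ∑ x ∈ Y, u x ^ 2 ≤ nsq W u := by
    unfold nsq
    exact Finset.sum_le_sum_of_subset_of_nonneg hYW fun x _ _ => sq_nonneg _
  have h6 : ∑ x ∈ Y, ((nbIn G Y x).card : ℝ) * u x ^ 2 ≤ ∑ x ∈ W, ((nbIn G W x).card : ℝ) * u x ^ 2 := by
    refine le_trans (Finset.sum_le_sum (g := fun x => ((nbIn G W x).card : ℝ) * u x ^ 2) fun x _ => ?_)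
      (Finset.sum_le_sum_of_subset_of_nonneg hYW fun x _ _ => by positivity)
    refine mul_le_mul_of_nonneg_right ?_ (sq_nonneg _)
    have h7 : nbIn G Y x ⊆ nbIn G W x := by
      intro y hy
      rw [MM_mem] at hy ⊢
      exact ⟨hYW hy.1, hy.2⟩
    exact_mod_cast Finset.card_le_card h7
  have h7 : δ * nsq W u ≤ ∑ x ∈ W, ((nbIn G W x).card : ℝ) * u x ^ 2 := by
    unfold nsq
    rw [Finset.mul_sum]
    exact Finset.sum_le_sum fun x hx => mul_le_mul_of_nonneg_right (hdeg x hx).1 (sq_nonneg _)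
  have h8 : (δ / 2) * nsq W u ≤ En G W u := by
    have h9 : 4 * (δ / 16) * ∑ x ∈ Y, u x ^ 2 ≤ 4 * (δ / 16) * nsq W u :=
      mul_le_mul_of_nonneg_left h5 (by positivity)
    rw [h3, h4]
    linarith
  have hD : (0 : ℝ) < D0 := by exact_mod_cast hD0
  have h9 : (1 / (2 * (D0 : ℝ))) * ((δ / 2) * nsq W u) ≤ (1 / (2 * (D0 : ℝ))) * En G W u :=
    mul_le_mul_of_nonneg_left h8 (by positivity)
  have h10 : (1 - 2 * (δ / (8 * D0))) * nsq W u =
      nsq W u - (1 / (2 * (D0 : ℝ))) * ((δ / 2) * nsq W u) := by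
    field_simp
    ring
  rw [h10]
  linarith

/-! Row ST -/

theorem ST_En_nonneg (W : Finset V) (u : V → ℝ) : 0 ≤ En G W u := by
  unfold En
  have : 0 ≤ ∑ x ∈ W, ∑ y ∈ nbIn G W x, (u x - u y) ^ 2 :=
    Finset.sum_nonneg fun x _ => Finset.sum_nonneg fun y _ => sq_nonneg _
  linarith

theorem ST_sq {a b c : ℝ} (hc : 0 < c) : (a + b) ^ 2 ≤ (1 + c) * a ^ 2 + (1 + 1 / c) * b ^ 2 := by
  have h1 : (1 + c) * a ^ 2 + (1 + 1 / c) * b ^ 2 - (a + b) ^ 2 = (c * a - b) ^ 2 / c := by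
    field_simp
    ring
  have h2 : 0 ≤ (c * a - b) ^ 2 / c := div_nonneg (sq_nonneg _) hc.le
  linarith

theorem ST_add (W : Finset V) (Δ : ℕ) (u h l : V → ℝ) (hu : ∀ v, u v = h v + l v) (v : V) :
    Mop G W Δ u v = Mop G W Δ h v + Mop G W Δ l v := by
  unfold Mop
  rw [← add_div]
  congr 1
  have h1 : ∑ w ∈ nbIn G W v, u w = ∑ w ∈ nbIn G W v, h w + ∑ w ∈ nbIn G W v, l w := by
    rw [← Finset.sum_add_distrib]
    exact Finset.sum_congr rfl fun w _ => hu w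
  rw [h1, hu v]
  ring

/-- M5: one step for a probability density. -/
theorem mop_step {W : Finset V} {D0 m : ℕ} {δ c0 θ : ℝ} (hD0 : 0 < D0) (hδ : 0 < δ)
    (hdeg : ∀ v ∈ W, δ ≤ ((nbIn G W v).card : ℝ) ∧ (nbIn G W v).card ≤ D0)
    (hLS : ∀ Y ⊆ W, Y.Nonempty → Y.card ≤ m → ∃ v ∈ Y, ((nbIn G Y v).card : ℝ) ≤ δ / 16)
    (hc0 : c0 = δ / (8 * D0)) (hc1 : c0 ≤ 1) (hθ : 0 < θ) (hm : 1 / θ ≤ m) (u : V → ℝ) (hu : ∀ v ∈ W, 0 ≤ u v)
    (hsum : ∑ v ∈ W, u v ≤ 1) :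
    nsq W (Mop G W (2 * D0) u) ≤ (1 - c0) * nsq W u + 2 / c0 * θ := by
  have hD0' : (0 : ℝ) < D0 := by exact_mod_cast hD0
  have hc : 0 < c0 := by
    rw [hc0]
    positivity
  obtain ⟨h, hh⟩ : ∃ h : V → ℝ, ∀ v, h v = if θ ≤ u v then u v else 0 := ⟨_, fun _ => rfl⟩
  obtain ⟨l, hl⟩ : ∃ l : V → ℝ, ∀ v, l v = u v - h v := ⟨_, fun _ => rfl⟩
  have hul : ∀ v, u v = h v + l v := fun v => by
    rw [hl]
    ring
  obtain ⟨Y, hYd⟩ : ∃ Y : Finset V, Y = W.filter (fun v => θ ≤ u v) := ⟨_, rfl⟩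
  have hYW : Y ⊆ W := by
    rw [hYd]
    exact Finset.filter_subset _ _
  have hYcard : Y.card ≤ m := by
    have h1 : (Y.card : ℝ) * θ ≤ ∑ v ∈ Y, u v := by
      rw [← nsmul_eq_mul]
      apply Finset.card_nsmul_le_sum
      intro v hv
      rw [hYd, Finset.mem_filter] at hv
      exact hv.2
    have h2 : ∑ v ∈ Y, u v ≤ ∑ v ∈ W, u v :=
      Finset.sum_le_sum_of_subset_of_nonneg hYW fun v hv _ => hu v hv
    have h3 : (Y.card : ℝ) ≤ 1 / θ := by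
      rw [le_div_iff₀ hθ]
      linarith
    exact_mod_cast h3.trans hm
  have hsmall := mop_small (G := G) (W := W) (Y := Y) (D0 := D0) (δ := δ) hD0 hδ.le hYW hdeg
    (fun Y' hY' hne => hLS Y' (hY'.trans hYW) hne ((Finset.card_le_card hY').trans hYcard)) h
    (by
      intro v hv hvY
      rw [hh]
      apply if_neg
      intro h1
      apply hvY
      rw [hYd, Finset.mem_filter]
      exact ⟨hv, h1⟩)
  rw [← hc0] at hsmall
  have hlsq := mop_sq (G := G) (W := W) (D0 := D0) hD0 (fun v hv => (hdeg v hv).2) l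
  have hEn : 0 ≤ (1 / (2 * (D0 : ℝ))) * En G W l := mul_nonneg (by positivity) (ST_En_nonneg W l)
  have hlθ : nsq W l ≤ θ := by
    have h1 : nsq W l ≤ ∑ v ∈ W, θ * u v := by
      unfold nsq
      apply Finset.sum_le_sum
      intro v hv
      rw [hl, hh]
      have h2 := hu v hv
      split_ifs with h3
      · rw [sub_self]
        have : 0 ≤ θ * u v := mul_nonneg hθ.le h2
        simpa using this
      · rw [sub_zero]
        push Not at h3
        nlinarith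
    rw [← Finset.mul_sum] at h1
    have h2 : θ * ∑ v ∈ W, u v ≤ θ * 1 := mul_le_mul_of_nonneg_left hsum hθ.le
    linarith
  have hhu : nsq W h ≤ nsq W u := by
    unfold nsq
    apply Finset.sum_le_sum
    intro v _
    rw [hh]
    split_ifs
    · exact le_refl _
    · have := sq_nonneg (u v)
      simpa using this
  have hh0 : 0 ≤ nsq W h := Finset.sum_nonneg fun v _ => sq_nonneg _
  have hmain : nsq W (Mop G W (2 * D0) u) ≤ (1 + c0) * nsq W (Mop G W (2 * D0) h) +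
      (1 + 1 / c0) * nsq W (Mop G W (2 * D0) l) := by
    unfold nsq
    rw [Finset.mul_sum, Finset.mul_sum, ← Finset.sum_add_distrib]
    apply Finset.sum_le_sum
    intro v _
    rw [ST_add W (2 * D0) u h l hul v]
    exact ST_sq hc
  have h1c : 1 ≤ 1 / c0 := by
    rw [le_div_iff₀ hc]
    linarith
  have h2 : (1 + c0) * nsq W (Mop G W (2 * D0) h) ≤ (1 - c0) * nsq W h := by
    have h3 : (1 + c0) * nsq W (Mop G W (2 * D0) h) ≤ (1 + c0) * ((1 - 2 * c0) * nsq W h) :=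
      mul_le_mul_of_nonneg_left hsmall (by linarith)
    have h4 : 0 ≤ c0 ^ 2 * nsq W h := mul_nonneg (sq_nonneg _) hh0
    nlinarith
  have h5 : (1 - c0) * nsq W h ≤ (1 - c0) * nsq W u := mul_le_mul_of_nonneg_left hhu (by linarith)
  have h6 : (1 + 1 / c0) * nsq W (Mop G W (2 * D0) l) ≤ (1 + 1 / c0) * θ :=
    mul_le_mul_of_nonneg_left (by linarith) (by linarith)
  have h7 : (1 + 1 / c0) * θ ≤ 2 / c0 * θ := by
    apply mul_le_mul_of_nonneg_right _ hθ.le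
    have : 2 / c0 = 1 / c0 + 1 / c0 := by ring
    linarith
  linarith

/-! Row IT -/

theorem IT_dens_succ {W : Finset V} {Δ : ℕ} (x : V) (s : ℕ) :
    dens G W Δ x (s + 1) = Mop G W Δ (dens G W Δ x s) := by
  unfold dens
  rw [Function.iterate_succ_apply']

theorem IT_dens {W : Finset V} {D0 : ℕ} (hD0 : 0 < D0)
    (hdeg : ∀ v ∈ W, (nbIn G W v).card ≤ D0) {x : V} (hx : x ∈ W) (s : ℕ) :
    (∀ v ∈ W, 0 ≤ dens G W (2 * D0) x s v) ∧ ∑ v ∈ W, dens G W (2 * D0) x s v = 1 := by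
  induction s with
  | zero =>
    unfold dens
    simp only [Function.iterate_zero, id_eq]
    refine ⟨fun v _ => ?_, ?_⟩
    · split_ifs <;> norm_num
    · rw [Finset.sum_ite_eq' W x, if_pos hx]
  | succ s ih =>
    rw [IT_dens_succ]
    refine ⟨mop_nonneg (fun v hv => (hdeg v hv).trans (by omega)) ih.1, ?_⟩
    have h1 := mop_symm (G := G) (W := W) (Δ := 2 * D0) (fun _ => 1) (dens G W (2 * D0) x s)
    simp only [one_mul] at h1
    rw [h1]
    refine (Finset.sum_congr rfl fun v _ => ?_).trans ih.2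
    rw [mop_one (by omega), one_mul]

/-- M6: spreading. -/
theorem spread {W : Finset V} {D0 m ρ M2 : ℕ} {δ c0 : ℝ} (hD0 : 0 < D0) (hδ : 0 < δ)
    (hdeg : ∀ v ∈ W, δ ≤ ((nbIn G W v).card : ℝ) ∧ (nbIn G W v).card ≤ D0)
    (hLS : ∀ Y ⊆ W, Y.Nonempty → Y.card ≤ m → ∃ v ∈ Y, ((nbIn G Y v).card : ℝ) ≤ δ / 16)
    (hc0 : c0 = δ / (8 * D0)) (hc1 : c0 ≤ 1) (hM2 : 1 ≤ M2) (hm : 4 * (M2 : ℝ) / c0 ^ 2 ≤ m)
    (hρ : (1 - c0) ^ ρ ≤ 1 / (2 * (M2 : ℝ))) {x : V} (hx : x ∈ W) :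
    nsq W (dens G W (2 * D0) x ρ) ≤ 1 / M2 := by
  have hDr : (0 : ℝ) < D0 := by exact_mod_cast hD0
  have hMr : (1 : ℝ) ≤ M2 := by exact_mod_cast hM2
  have hc : 0 < c0 := by rw [hc0]; positivity
  have hθ : 0 < c0 ^ 2 / (4 * (M2 : ℝ)) := by positivity
  have hθm : 1 / (c0 ^ 2 / (4 * (M2 : ℝ))) ≤ m := by
    rw [one_div_div]
    exact hm
  have hd := IT_dens (G := G) hD0 (fun v hv => (hdeg v hv).2) hx
  have key : ∀ s, nsq W (dens G W (2 * D0) x s) ≤ (1 - c0) ^ s + 1 / (2 * (M2 : ℝ)) := by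
    intro s
    induction s with
    | zero =>
      have h1 : nsq W (dens G W (2 * D0) x 0) = 1 := by
        unfold nsq dens
        simp only [Function.iterate_zero, id_eq]
        have h2 : ∀ v ∈ W, (if v = x then (1 : ℝ) else 0) ^ 2 = if v = x then 1 else 0 := by
          intro v _
          split_ifs <;> norm_num
        rw [Finset.sum_congr rfl h2, Finset.sum_ite_eq' W x, if_pos hx]
      rw [h1, pow_zero]
      have : 0 ≤ 1 / (2 * (M2 : ℝ)) := by positivity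
      linarith
    | succ s ih =>
      rw [IT_dens_succ]
      have h1 := mop_step (G := G) hD0 hδ hdeg hLS hc0 hc1 hθ hθm (dens G W (2 * D0) x s)
        (hd s).1 (hd s).2.le
      have h2 : (1 - c0) * nsq W (dens G W (2 * D0) x s) ≤
          (1 - c0) * ((1 - c0) ^ s + 1 / (2 * (M2 : ℝ))) :=
        mul_le_mul_of_nonneg_left ih (by linarith)
      have h3 : 2 / c0 * (c0 ^ 2 / (4 * (M2 : ℝ))) = c0 * (1 / (2 * (M2 : ℝ))) := by
        field_simp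
        ring
      rw [h3] at h1
      calc nsq W (Mop G W (2 * D0) (dens G W (2 * D0) x s))
          ≤ (1 - c0) * ((1 - c0) ^ s + 1 / (2 * (M2 : ℝ))) + c0 * (1 / (2 * (M2 : ℝ))) := by
            linarith
        _ = (1 - c0) ^ (s + 1) + 1 / (2 * (M2 : ℝ)) := by ring
  have h1 := key ρ
  have h2 : 1 / (2 * (M2 : ℝ)) + 1 / (2 * (M2 : ℝ)) = 1 / M2 := by
    field_simp
    norm_num
  linarith

end HD
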