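import Pool.Agent.LibHL.B1

/-!
# LibHL : block (b), walks and legs
-/

set_option autoImplicit false
set_option linter.unusedSectionVars false

open scoped Classical

noncomputable section

namespace HD

variable {V : Type} [Fintype V] [DecidableEq V] {G : SimpleGraph V}

/-! Row SL -/

/-- the sum over the slots. -/
theorem SL_sum (N : Finset V) (v : V) (Δ : ℕ) (h : N.card ≤ Δ) (f : V → ℝ) :
    ∑ i : Fin Δ, f (if hi : (i : ℕ) < N.card then (N.equivFin.symm ⟨i, hi⟩ : V) else v) =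
      ∑ w ∈ N, f w + ((Δ : ℝ) - N.card) * f v := by
  obtain ⟨m, rfl⟩ := Nat.exists_eq_add_of_le h
  rw [Fin.sum_univ_eq_sum_range (fun i => f (if hi : i < N.card then
    (N.equivFin.symm ⟨i, hi⟩ : V) else v)) (N.card + m), Finset.sum_range_add]
  congr 1
  · rw [← Fin.sum_univ_eq_sum_range (fun i => f (if hi : i < N.card then
      (N.equivFin.symm ⟨i, hi⟩ : V) else v)) N.card]
    have h1 : ∀ i : Fin N.card, f (if hi : (i : ℕ) < N.card then
        (N.equivFin.symm ⟨i, hi⟩ : V) else v) = f (N.equivFin.symm i : V) := by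
      intro i
      rw [dif_pos i.2]
    rw [Finset.sum_congr rfl fun i _ => h1 i,
      Equiv.sum_comp N.equivFin.symm (fun w : N => f (w : V)), Finset.sum_coe_sort N f]
  · have h1 : ∀ x ∈ Finset.range m, f (if hi : N.card + x < N.card then
        (N.equivFin.symm ⟨N.card + x, hi⟩ : V) else v) = f v := by
      intro x _
      rw [dif_neg (by omega)]
    rw [Finset.sum_congr rfl h1, Finset.sum_const, Finset.card_range, nsmul_eq_mul]
    push_cast
    ring

/-- M7: slots exist. -/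
theorem exists_step {W : Finset V} {Δ : ℕ} (hdeg : ∀ v ∈ W, (nbIn G W v).card ≤ Δ) :
    ∃ st : V → Fin Δ → V, IsStep G W Δ st := by
  refine ⟨fun v i => if hi : (i : ℕ) < (nbIn G W v).card then
    ((nbIn G W v).equivFin.symm ⟨i, hi⟩ : V) else v, ?_⟩
  intro v hv
  refine ⟨fun i => ?_, fun f => SL_sum (nbIn G W v) v Δ (hdeg v hv) f⟩
  by_cases hi : (i : ℕ) < (nbIn G W v).card
  · simp only [hi, dif_pos]
    have h1 := ((nbIn G W v).equivFin.symm ⟨i, hi⟩).2
    unfold nbIn at h1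
    rw [Finset.mem_filter] at h1
    exact ⟨h1.1, Or.inr h1.2⟩
  · simp only [hi]
    exact ⟨hv, Or.inl rfl⟩

/-! Row WS -/

theorem wset_spec {W : Finset V} {Δ : ℕ} {st : V → Fin Δ → V} (hst : IsStep G W Δ st) (ρ : ℕ) :
    ∀ x ∈ W, ∀ c : Fin ρ → Fin Δ, x ∈ wset st ρ x c ∧ wend st ρ x c ∈ wset st ρ x c ∧ wset st ρ x c ⊆ W ∧
      Conn G (wset st ρ x c) ∧ (wset st ρ x c).card ≤ ρ + 1 := by
  induction ρ with
  | zero =>
    intro x hx c
    change x ∈ ({x} : Finset V) ∧ x ∈ ({x} : Finset V) ∧ ({x} : Finset V) ⊆ W ∧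
      Conn G ({x} : Finset V) ∧ ({x} : Finset V).card ≤ 0 + 1
    refine ⟨Finset.mem_singleton_self x, Finset.mem_singleton_self x,
      Finset.singleton_subset_iff.2 hx, conn_singleton x, ?_⟩
    rw [Finset.card_singleton]
  | succ ρ ih =>
    intro x hx c
    obtain ⟨h1, h2⟩ := (hst x hx).1 (c 0)
    obtain ⟨k1, k2, k3, k4, k5⟩ := ih (st x (c 0)) h1 (Fin.tail c)
    have e1 : wset st (ρ + 1) x c = insert x (wset st ρ (st x (c 0)) (Fin.tail c)) := rfl
    have e2 : wend st (ρ + 1) x c = wend st ρ (st x (c 0)) (Fin.tail c) := rfl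
    rw [e1, e2]
    refine ⟨Finset.mem_insert_self _ _, Finset.mem_insert_of_mem k2,
      Finset.insert_subset hx k3, ?_, ?_⟩
    · rcases h2 with h2 | h2
      · have h3 : x ∈ wset st ρ (st x (c 0)) (Fin.tail c) := by
          rw [h2] at k1
          rw [h2]
          exact k1
        rw [Finset.insert_eq_of_mem h3]
        exact k4
      · rw [Finset.insert_eq]
        exact (conn_singleton x).union_touch k4 ⟨x, Finset.mem_singleton_self x, _, k1, h2⟩
    · exact (Finset.card_insert_le _ _).trans (Nat.succ_le_succ k5)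

/-! Row WE -/

theorem WE_sum {Δ ρ : ℕ} (F : (Fin (ρ + 1) → Fin Δ) → ℝ) :
    ∑ c : Fin (ρ + 1) → Fin Δ, F c = ∑ i : Fin Δ, ∑ c : Fin ρ → Fin Δ, F (Fin.cons i c) := by
  rw [← (Fin.consEquiv (fun _ : Fin (ρ + 1) => Fin Δ)).sum_comp F, Fintype.sum_prod_type]
  rfl

/-- M8: averaging over codes is the walk operator. -/
theorem wend_avg {W : Finset V} {Δ : ℕ} {st : V → Fin Δ → V} (hΔ : 0 < Δ) (hst : IsStep G W Δ st) (ρ : ℕ)
    (f : V → ℝ) : ∀ x ∈ W, ∑ c : Fin ρ → Fin Δ, f (wend st ρ x c) = (Δ : ℝ) ^ ρ * ((Mop G W Δ)^[ρ] f) x := by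
  induction ρ with
  | zero =>
    intro x _
    simp [wend]
  | succ ρ ih =>
    intro x hx
    obtain ⟨h1, h2⟩ := hst x hx
    rw [WE_sum]
    have h3 : ∀ i : Fin Δ, ∑ c : Fin ρ → Fin Δ, f (wend st (ρ + 1) x (Fin.cons i c)) =
        (Δ : ℝ) ^ ρ * ((Mop G W Δ)^[ρ] f) (st x i) := by
      intro i
      rw [← ih (st x i) (h1 i).1]
      apply Finset.sum_congr rfl
      intro c _
      simp only [wend, Fin.cons_zero, Fin.tail_cons]
    rw [Finset.sum_congr rfl (fun i _ => h3 i), ← Finset.mul_sum, h2, Function.iterate_succ_apply', Mop, pow_succ]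
    have h4 : (Δ : ℝ) ≠ 0 := by
      have := hΔ.ne'
      exact_mod_cast this
    field_simp

/-! Row WH -/

theorem WH_ind {W : Finset V} (v : V) : ∑ x ∈ W, (if v = x then (1 : ℝ) else 0) ≤ 1 := by
  rw [Finset.sum_ite_eq]
  split_ifs
  · exact le_rfl
  · exact zero_le_one

theorem WH_split {Δ : ℕ} (st : V → Fin Δ → V) (ρ : ℕ) (v x : V) :
    ((Finset.univ.filter (fun c : Fin (ρ + 1) → Fin Δ => v ∈ wset st (ρ + 1) x c)).card : ℝ) ≤
      (if v = x then (1 : ℝ) else 0) * (Δ : ℝ) ^ (ρ + 1) +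
        ∑ i, ((Finset.univ.filter (fun c : Fin ρ → Fin Δ => v ∈ wset st ρ (st x i) c)).card : ℝ) := by
  have h1 : ((Finset.univ.filter (fun c : Fin (ρ + 1) → Fin Δ => v ∈ wset st (ρ + 1) x c)).card : ℝ) =
      ∑ i, ∑ c : Fin ρ → Fin Δ, if v ∈ wset st (ρ + 1) x (Fin.cons i c) then (1 : ℝ) else 0 := by
    rw [← Finset.sum_boole, ← (Fin.consEquiv (fun _ : Fin (ρ + 1) => Fin Δ)).sum_comp,
      Fintype.sum_prod_type]
    rfl
  have h2 : ∀ (i : Fin Δ) (c : Fin ρ → Fin Δ),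
      (if v ∈ wset st (ρ + 1) x (Fin.cons i c) then (1 : ℝ) else 0) ≤
        (if v = x then (1 : ℝ) else 0) + if v ∈ wset st ρ (st x i) c then (1 : ℝ) else 0 := by
    intro i c
    have h3 : wset st (ρ + 1) x (Fin.cons i c) = insert x (wset st ρ (st x i) c) := by
      simp only [wset, Fin.cons_zero, Fin.tail_cons]
    rw [h3]
    simp only [Finset.mem_insert]
    by_cases h4 : v = x
    · rw [if_pos (Or.inl h4), if_pos h4]
      split_ifs <;> norm_num
    · by_cases h5 : v ∈ wset st ρ (st x i) c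
      · rw [if_pos (Or.inr h5), if_neg h4, if_pos h5, zero_add]
      · rw [if_neg (fun h6 => h6.elim h4 h5), if_neg h4, if_neg h5, zero_add]
  rw [h1]
  have h3 : ∑ i : Fin Δ, ∑ c : Fin ρ → Fin Δ, (if v ∈ wset st (ρ + 1) x (Fin.cons i c) then (1 : ℝ) else 0) ≤
      ∑ i : Fin Δ, ∑ c : Fin ρ → Fin Δ, ((if v = x then (1 : ℝ) else 0) +
        if v ∈ wset st ρ (st x i) c then (1 : ℝ) else 0) :=
    Finset.sum_le_sum fun i _ => Finset.sum_le_sum fun c _ => h2 i c
  refine h3.trans (le_of_eq ?_)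
  have h4 : ∀ i : Fin Δ, ∑ c : Fin ρ → Fin Δ, ((if v = x then (1 : ℝ) else 0) +
        if v ∈ wset st ρ (st x i) c then (1 : ℝ) else 0) =
      (if v = x then (1 : ℝ) else 0) * (Δ : ℝ) ^ ρ +
        ((Finset.univ.filter (fun c : Fin ρ → Fin Δ => v ∈ wset st ρ (st x i) c)).card : ℝ) := by
    intro i
    rw [Finset.sum_add_distrib, Finset.sum_const, Finset.sum_boole, Finset.card_univ, Fintype.card_fun,
      Fintype.card_fin, Fintype.card_fin, nsmul_eq_mul]
    push_cast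
    ring
  rw [Finset.sum_congr rfl fun i _ => h4 i, Finset.sum_add_distrib, Finset.sum_const, Finset.card_univ,
    Fintype.card_fin, nsmul_eq_mul]
  ring

/-- M9: hitting bound. -/
theorem wset_hit {W : Finset V} {Δ : ℕ} {st : V → Fin Δ → V} (hΔ : 0 < Δ) (hst : IsStep G W Δ st) (ρ : ℕ) (v : V) :
    ∑ x ∈ W, ((Finset.univ.filter (fun c : Fin ρ → Fin Δ => v ∈ wset st ρ x c)).card : ℝ) ≤
      (ρ + 1) * (Δ : ℝ) ^ ρ := by
  induction ρ with
  | zero =>
    have h1 : ∀ x ∈ W, ((Finset.univ.filter (fun c : Fin 0 → Fin Δ => v ∈ wset st 0 x c)).card : ℝ) ≤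
        if v = x then (1 : ℝ) else 0 := by
      intro x _
      by_cases h : v = x
      · rw [if_pos h]
        have h2 := Finset.card_filter_le (Finset.univ : Finset (Fin 0 → Fin Δ)) (fun c => v ∈ wset st 0 x c)
        have h3 : (Finset.univ : Finset (Fin 0 → Fin Δ)).card = 1 := by simp
        rw [h3] at h2
        exact_mod_cast h2
      · rw [if_neg h, Finset.filter_eq_empty_iff.2]
        · simp
        · intro c _
          simp only [wset, Finset.mem_singleton]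
          exact h
    refine (Finset.sum_le_sum h1).trans ((WH_ind v).trans ?_)
    norm_num
  | succ ρ ih =>
    have hΔ' : (0 : ℝ) < Δ := by exact_mod_cast hΔ
    obtain ⟨N, hN⟩ : ∃ N : V → ℝ, ∀ x, N x =
        ((Finset.univ.filter (fun c : Fin ρ → Fin Δ => v ∈ wset st ρ x c)).card : ℝ) := ⟨_, fun _ => rfl⟩
    have h1 : ∀ x ∈ W, ((Finset.univ.filter (fun c : Fin (ρ + 1) → Fin Δ => v ∈ wset st (ρ + 1) x c)).card : ℝ) ≤
        (if v = x then (1 : ℝ) else 0) * (Δ : ℝ) ^ (ρ + 1) + Δ * (1 * Mop G W Δ N x) := by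
      intro x hx
      refine (WH_split st ρ v x).trans (le_of_eq ?_)
      congr 1
      have h2 := (hst x hx).2 N
      simp only [← hN]
      rw [h2]
      unfold Mop
      field_simp
    have h2 : ∑ x ∈ W, Δ * (1 * Mop G W Δ N x) = Δ * ∑ x ∈ W, N x := by
      rw [← Finset.mul_sum, mop_symm (fun _ => 1) N]
      congr 1
      refine Finset.sum_congr rfl fun x _ => ?_
      rw [mop_one hΔ, one_mul]
    have h3 : ∑ x ∈ W, N x ≤ (ρ + 1) * (Δ : ℝ) ^ ρ := by
      simp only [hN]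
      exact ih
    have h4 := WH_ind (W := W) v
    have h5 : (0 : ℝ) ≤ (Δ : ℝ) ^ (ρ + 1) := by positivity
    calc ∑ x ∈ W, ((Finset.univ.filter (fun c : Fin (ρ + 1) → Fin Δ => v ∈ wset st (ρ + 1) x c)).card : ℝ)
        ≤ ∑ x ∈ W, ((if v = x then (1 : ℝ) else 0) * (Δ : ℝ) ^ (ρ + 1) + Δ * (1 * Mop G W Δ N x)) :=
          Finset.sum_le_sum h1
      _ = (∑ x ∈ W, (if v = x then (1 : ℝ) else 0)) * (Δ : ℝ) ^ (ρ + 1) + Δ * ∑ x ∈ W, N x := by
          rw [Finset.sum_add_distrib, ← Finset.sum_mul, h2]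
      _ ≤ 1 * (Δ : ℝ) ^ (ρ + 1) + Δ * ((ρ + 1) * (Δ : ℝ) ^ ρ) :=
          add_le_add (mul_le_mul_of_nonneg_right h4 h5) (mul_le_mul_of_nonneg_left h3 hΔ'.le)
      _ = (((ρ + 1 : ℕ) : ℝ) + 1) * (Δ : ℝ) ^ (ρ + 1) := by
          push_cast
          ring

/-! Row LG -/

theorem LG_iter {W : Finset V} {Δ : ℕ} (n : ℕ) : ∀ f g : V → ℝ,
    ∑ v ∈ W, f v * ((Mop G W Δ)^[n] g) v = ∑ v ∈ W, ((Mop G W Δ)^[n] f) v * g v := by
  induction n with
  | zero =>
    intro f g
    rfl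
  | succ n ih =>
    intro f g
    rw [Function.iterate_succ_apply' (Mop G W Δ) n g, mop_symm, ih, Function.iterate_succ_apply]

theorem LG_one {W : Finset V} {Δ : ℕ} (hΔ : 0 < Δ) (n : ℕ) :
    (Mop G W Δ)^[n] (fun _ => (1 : ℝ)) = fun _ => 1 := by
  induction n with
  | zero => rfl
  | succ n ih =>
    rw [Function.iterate_succ_apply']
    funext v
    rw [ih]
    exact mop_one hΔ v

theorem LG_sum {W : Finset V} {Δ : ℕ} (hΔ : 0 < Δ) (n : ℕ) (f : V → ℝ) :
    ∑ v ∈ W, ((Mop G W Δ)^[n] f) v = ∑ v ∈ W, f v := by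
  have h1 := LG_iter (G := G) (W := W) (Δ := Δ) n (fun _ => 1) f
  rw [LG_one hΔ n] at h1
  simpa only [one_mul] using h1

theorem LG_card {W : Finset V} {Δ : ℕ} {st : V → Fin Δ → V} (hΔ : 0 < Δ) (hst : IsStep G W Δ st) (ρ : ℕ)
    (x : V) (hx : x ∈ W) (p : V → Prop) (f : V → ℝ)
    (hf : ∀ c : Fin ρ → Fin Δ, f (wend st ρ x c) = if p (wend st ρ x c) then 1 else 0) :
    ((Finset.univ.filter (fun c : Fin ρ → Fin Δ => p (wend st ρ x c))).card : ℝ) =
      (Δ : ℝ) ^ ρ * ((Mop G W Δ)^[ρ] f) x := by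
  rw [← wend_avg hΔ hst ρ f x hx, Finset.card_filter]
  push_cast
  exact Finset.sum_congr rfl fun c _ => (hf c).symm

theorem LG_ind {W : Finset V} {Δ : ℕ} {st : V → Fin Δ → V} (hΔ : 0 < Δ) (hst : IsStep G W Δ st) (ρ : ℕ)
    (x : V) (hx : x ∈ W) (v : V) :
    ((Finset.univ.filter (fun c : Fin ρ → Fin Δ => wend st ρ x c = v)).card : ℝ) =
      (Δ : ℝ) ^ ρ * ((Mop G W Δ)^[ρ] (fun w => if w = v then 1 else 0)) x := by
  rw [← wend_avg hΔ hst ρ _ x hx, Finset.card_filter]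
  push_cast
  rfl

/-- M10: the legs. -/
theorem legs {W : Finset V} {D0 ρ M2 : ℕ} {vp : ℝ} {st : V → Fin (2 * D0) → V} (hD0 : 0 < D0)
    (hst : IsStep G W (2 * D0) st) (hdeg : ∀ v ∈ W, (nbIn G W v).card ≤ D0) (hM2 : 1 ≤ M2)
    (hvp0 : 0 ≤ vp) (hvp : (D0 : ℝ) ≤ vp ^ 2 * M2)
    (hsp : ∀ x ∈ W, nsq W (dens G W (2 * D0) x ρ) ≤ 1 / M2) :
    Legs G W (Fin ρ → Fin (2 * D0)) (ρ + 1) vp (wend st ρ) (wset st ρ) := by
  have hΔ : 0 < 2 * D0 := by omega
  have hcard : ((Fintype.card (Fin ρ → Fin (2 * D0)) : ℕ) : ℝ) = ((2 * D0 : ℕ) : ℝ) ^ ρ := by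
    rw [Fintype.card_fun, Fintype.card_fin, Fintype.card_fin]
    push_cast
    rfl
  have hpos : (0 : ℝ) ≤ ((2 * D0 : ℕ) : ℝ) ^ ρ := by positivity
  refine ⟨?_, ?_, ?_, ?_, ?_, ?_, ?_, ?_⟩
  · intro x hx c
    exact (wset_spec hst ρ x hx c).1
  · intro x hx c
    exact (wset_spec hst ρ x hx c).2.1
  · intro x hx c
    exact (wset_spec hst ρ x hx c).2.2.1
  · intro x hx c
    exact (wset_spec hst ρ x hx c).2.2.2.1
  · intro x hx c
    exact (wset_spec hst ρ x hx c).2.2.2.2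
  · intro v
    rw [hcard]
    have h1 := wset_hit hΔ hst ρ v
    push_cast
    push_cast at h1
    exact h1
  · intro v hv
    rw [hcard]
    have h1 : ∀ x ∈ W, ((Finset.univ.filter (fun c : Fin ρ → Fin (2 * D0) => wend st ρ x c = v)).card : ℝ) =
        ((2 * D0 : ℕ) : ℝ) ^ ρ * ((Mop G W (2 * D0))^[ρ] (fun w => if w = v then 1 else 0)) x :=
      fun x hx => LG_ind hΔ hst ρ x hx v
    rw [Finset.sum_congr rfl h1, ← Finset.mul_sum, LG_sum hΔ, Finset.sum_ite_eq' W v, if_pos hv, mul_one]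
  · intro x hx v hv
    rw [hcard]
    have h1 := LG_card hΔ hst ρ x hx (fun w => G.Adj v w) (fun w => if w ∈ nbIn G W v then 1 else 0) (by
      intro c
      have hW : wend st ρ x c ∈ W :=
        (wset_spec hst ρ x hx c).2.2.1 (wset_spec hst ρ x hx c).2.1
      have h2 : wend st ρ x c ∈ nbIn G W v ↔ G.Adj v (wend st ρ x c) := by
        unfold nbIn
        rw [Finset.mem_filter]
        exact ⟨fun h => h.2, fun h => ⟨hW, h⟩⟩
      simp only [h2])
    have h2 : ((Mop G W (2 * D0))^[ρ] (fun w => if w ∈ nbIn G W v then (1 : ℝ) else 0)) x =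
        ∑ y ∈ nbIn G W v, dens G W (2 * D0) x ρ y := by
      have h3 := LG_iter (G := G) (W := W) (Δ := 2 * D0) ρ (fun w => if w = x then (1 : ℝ) else 0)
        (fun w => if w ∈ nbIn G W v then (1 : ℝ) else 0)
      have h4 : ∑ y ∈ W, (if y = x then (1 : ℝ) else 0) *
          ((Mop G W (2 * D0))^[ρ] (fun w => if w ∈ nbIn G W v then (1 : ℝ) else 0)) y =
          ((Mop G W (2 * D0))^[ρ] (fun w => if w ∈ nbIn G W v then (1 : ℝ) else 0)) x := by
        simp only [ite_mul, one_mul, zero_mul]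
        rw [Finset.sum_ite_eq' W x, if_pos hx]
      rw [← h4, h3]
      have h5 : ∀ y ∈ W, ((Mop G W (2 * D0))^[ρ] (fun w => if w = x then (1 : ℝ) else 0)) y *
          (if y ∈ nbIn G W v then (1 : ℝ) else 0) =
          if G.Adj v y then dens G W (2 * D0) x ρ y else 0 := by
        intro y hy
        have h6 : y ∈ nbIn G W v ↔ G.Adj v y := by
          unfold nbIn
          rw [Finset.mem_filter]
          exact ⟨fun h => h.2, fun h => ⟨hy, h⟩⟩
        simp only [h6, mul_ite, mul_one, mul_zero]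
        rfl
      rw [Finset.sum_congr rfl h5, ← Finset.sum_filter]
      rfl
    have h3 : (∑ y ∈ nbIn G W v, dens G W (2 * D0) x ρ y) ^ 2 ≤ vp ^ 2 := by
      have h4 := sq_sum_le_card_mul_sum_sq (s := nbIn G W v) (f := dens G W (2 * D0) x ρ)
      have hM : (0 : ℝ) < M2 := by exact_mod_cast hM2
      have h5 : ∑ y ∈ nbIn G W v, dens G W (2 * D0) x ρ y ^ 2 ≤ 1 / M2 := by
        refine le_trans ?_ (hsp x hx)
        unfold nsq
        refine Finset.sum_le_sum_of_subset_of_nonneg ?_ fun y _ _ => sq_nonneg _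
        unfold nbIn
        exact Finset.filter_subset _ _
      have h6 : ((nbIn G W v).card : ℝ) ≤ D0 := by exact_mod_cast hdeg v hv
      have h7 : ((nbIn G W v).card : ℝ) * ∑ y ∈ nbIn G W v, dens G W (2 * D0) x ρ y ^ 2 ≤
          D0 * (1 / M2) :=
        mul_le_mul h6 h5 (Finset.sum_nonneg fun y _ => sq_nonneg _) (Nat.cast_nonneg _)
      have h8 : (D0 : ℝ) * (1 / M2) ≤ vp ^ 2 := by
        rw [mul_one_div, div_le_iff₀ hM]
        exact hvp
      exact h4.trans (h7.trans h8)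
    have h4 : ∑ y ∈ nbIn G W v, dens G W (2 * D0) x ρ y ≤ vp :=
      (le_abs_self _).trans (abs_le_of_sq_le_sq h3 hvp0)
    rw [h1, h2, mul_comm vp]
    exact mul_le_mul_of_nonneg_left h4 hpos

end HD
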