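import Pool.Agent.LibHL.BMDefs

/-!
# LibHL : block (b), spiders, touching pairs
-/

set_option autoImplicit false
set_option linter.unusedSectionVars false

open scoped Classical

noncomputable section

namespace HD

variable {V : Type} [Fintype V] [DecidableEq V] {G : SimpleGraph V}

/-! Row A1 -/

/-- Resampling of one coordinate. -/
theorem A1_res {P : Type} [Fintype P] {b : ℕ} (i : Fin b) (F : P → (Fin b → P) → ℝ)
    (hF : ∀ p c q, F p (Function.update c i q) = F p c) :
    (∑ c : Fin b → P, F (c i) c) * (Fintype.card P : ℝ) = ∑ c : Fin b → P, ∑ p, F p c := by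
  have hinv : Function.Involutive
      (fun z : (Fin b → P) × P => ((Function.update z.1 i z.2, z.1 i) : (Fin b → P) × P)) := by
    intro z
    simp
  have h1 : ∑ z : (Fin b → P) × P, F (z.1 i) z.1 = ∑ z : (Fin b → P) × P, F z.2 z.1 := by
    rw [← Equiv.sum_comp hinv.toPerm]
    apply Finset.sum_congr rfl
    intro z _
    show F ((Function.update z.1 i z.2) i) (Function.update z.1 i z.2) = F z.2 z.1
    rw [Function.update_self, hF]
  rw [Fintype.sum_prod_type, Fintype.sum_prod_type] at h1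
  rw [← h1, Finset.sum_mul]
  apply Finset.sum_congr rfl
  intro c _
  show F (c i) c * (Fintype.card P : ℝ) = ∑ _y : P, F (c i) c
  rw [Finset.sum_const, Finset.card_univ, nsmul_eq_mul, mul_comm]

theorem A1_one {P : Type} [Fintype P] {b : ℕ} (i : Fin b) (g : P → ℝ) :
    (∑ c : Fin b → P, g (c i)) * (Fintype.card P : ℝ) = (Fintype.card P : ℝ) ^ b * ∑ p, g p := by
  rw [A1_res i (fun p _ => g p) (fun _ _ _ => rfl), Finset.sum_const, Finset.card_univ, Fintype.card_fun,
    Fintype.card_fin, nsmul_eq_mul, Nat.cast_pow]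


/-- A1: one leg of a spider. -/
theorem avg_leg {W : Finset V} {P : Type} [Fintype P] {b : ℕ} (i : Fin b) (f : V → P → ℝ) :
    (∑ ξ : Spi W P b, f ξ.1 (ξ.2 i)) * (Fintype.card P : ℝ) =
      (Fintype.card P : ℝ) ^ b * ∑ x ∈ W, ∑ c, f x c := by
  rw [Fintype.sum_prod_type, Finset.sum_mul, Finset.mul_sum, ← Finset.sum_coe_sort W]
  apply Finset.sum_congr rfl
  intro x _
  exact A1_one i (fun p => f x p)

/-- A1': two legs of a spider. -/
theorem avg_leg2 {W : Finset V} {P : Type} [Fintype P] {b : ℕ} {i k : Fin b} (h : i ≠ k) (f : V → P → P → ℝ) :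
    (∑ ξ : Spi W P b, f ξ.1 (ξ.2 i) (ξ.2 k)) * (Fintype.card P : ℝ) ^ 2 =
      (Fintype.card P : ℝ) ^ b * ∑ x ∈ W, ∑ c, ∑ c', f x c c' := by
  rw [Fintype.sum_prod_type, Finset.sum_mul, Finset.mul_sum, ← Finset.sum_coe_sort W]
  apply Finset.sum_congr rfl
  intro x _
  have h1 : (∑ c : Fin b → P, f x (c i) (c k)) * (Fintype.card P : ℝ) = ∑ c : Fin b → P, ∑ p, f x p (c k) :=
    A1_res i (fun p c => f x p (c k)) (fun p c q => by
      show f x p (Function.update c i q k) = f x p (c k)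
      rw [Function.update_of_ne (Ne.symm h)])
  have h2 := A1_one k (fun p' => ∑ p, f x p p')
  show (∑ c : Fin b → P, f x (c i) (c k)) * (Fintype.card P : ℝ) ^ 2 = _
  rw [pow_two, ← mul_assoc, h1]
  rw [h2, Finset.sum_comm]

/-! Row A2 -/

theorem A2_count {X : Type} [Fintype X] {R : ℕ} (T : Finset (Fin R)) (a : Fin R → X) :
    ((Finset.univ.filter (fun ω : Fin R → X => ∀ j ∈ T, ω j = a j)).card : ℝ) *
      (Fintype.card X : ℝ) ^ T.card = (Fintype.card X : ℝ) ^ R := by
  have h1 : Finset.univ.filter (fun ω : Fin R → X => ∀ j ∈ T, ω j = a j) =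
      Fintype.piFinset (fun j => if j ∈ T then ({a j} : Finset X) else Finset.univ) := by
    ext ω
    rw [Finset.mem_filter, Fintype.mem_piFinset]
    constructor
    · rintro ⟨_, h⟩ j
      by_cases hj : j ∈ T
      · rw [if_pos hj, Finset.mem_singleton]
        exact h j hj
      · rw [if_neg hj]
        exact Finset.mem_univ _
    · intro h
      refine ⟨Finset.mem_univ _, fun j hj => ?_⟩
      have h2 := h j
      rw [if_pos hj, Finset.mem_singleton] at h2
      exact h2
  have h2 : (Fintype.card X : ℝ) ^ T.card = ∏ j : Fin R, (if j ∈ T then (Fintype.card X : ℝ) else 1) := by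
    rw [Finset.prod_ite_mem, Finset.univ_inter, Finset.prod_const]
  rw [h1, Fintype.card_piFinset, h2, Nat.cast_prod, ← Finset.prod_mul_distrib]
  have h3 : ∀ j : Fin R, (((if j ∈ T then ({a j} : Finset X) else Finset.univ).card : ℕ) : ℝ) *
      (if j ∈ T then (Fintype.card X : ℝ) else 1) = (Fintype.card X : ℝ) := by
    intro j
    by_cases hj : j ∈ T
    · rw [if_pos hj, if_pos hj, Finset.card_singleton, Nat.cast_one, one_mul]
    · rw [if_neg hj, if_neg hj, Finset.card_univ, mul_one]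
  rw [Finset.prod_congr rfl (fun j _ => h3 j), Finset.prod_const, Finset.card_univ, Fintype.card_fin]

/-- A2: two coordinates. -/
theorem avg2 {X : Type} [Fintype X] {R : ℕ} {r r' : Fin R} (h : r ≠ r') (f : X → X → ℝ) :
    (∑ ω : Fin R → X, f (ω r) (ω r')) * (Fintype.card X : ℝ) ^ 2 =
      (Fintype.card X : ℝ) ^ R * ∑ x, ∑ y, f x y := by
  have hcount : ∀ x y : X, ((Finset.univ.filter (fun ω : Fin R → X => ω r = x ∧ ω r' = y)).card : ℝ) *
      (Fintype.card X : ℝ) ^ 2 = (Fintype.card X : ℝ) ^ R := by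
    intro x y
    have h1 := A2_count ({r, r'} : Finset (Fin R)) (fun j => if j = r then x else y)
    rw [Finset.card_pair h] at h1
    rw [← h1]
    congr 3
    apply Finset.filter_congr
    intro ω _
    constructor
    · rintro ⟨h2, h3⟩ j hj
      rcases Finset.mem_insert.1 hj with h4 | h4
      · rw [h4, if_pos rfl]
        exact h2
      · rw [Finset.mem_singleton] at h4
        rw [h4, if_neg h.symm]
        exact h3
    · intro h2
      have h3 := h2 r (Finset.mem_insert_self _ _)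
      have h4 := h2 r' (Finset.mem_insert_of_mem (Finset.mem_singleton_self _))
      rw [if_pos rfl] at h3
      rw [if_neg h.symm] at h4
      exact ⟨h3, h4⟩
  have hexp : ∀ ω : Fin R → X, f (ω r) (ω r') =
      ∑ x, ∑ y, (if ω r = x ∧ ω r' = y then f x y else 0) := by
    intro ω
    rw [Finset.sum_eq_single (ω r), Finset.sum_eq_single (ω r')]
    · rw [if_pos ⟨rfl, rfl⟩]
    · intro y _ hy
      rw [if_neg (fun hc => hy hc.2.symm)]
    · intro hc
      exact absurd (Finset.mem_univ _) hc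
    · intro x _ hx
      apply Finset.sum_eq_zero
      intro y _
      rw [if_neg (fun hc => hx hc.1.symm)]
    · intro hc
      exact absurd (Finset.mem_univ _) hc
  have hswap : (∑ ω : Fin R → X, f (ω r) (ω r')) = ∑ x, ∑ y,
      ((Finset.univ.filter (fun ω : Fin R → X => ω r = x ∧ ω r' = y)).card : ℝ) * f x y := by
    rw [Finset.sum_congr rfl (fun ω _ => hexp ω), Finset.sum_comm]
    apply Finset.sum_congr rfl
    intro x _
    rw [Finset.sum_comm]
    apply Finset.sum_congr rfl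
    intro y _
    rw [← Finset.sum_filter, Finset.sum_const, nsmul_eq_mul]
  rw [hswap, Finset.sum_mul, Finset.mul_sum]
  apply Finset.sum_congr rfl
  intro x _
  rw [Finset.sum_mul, Finset.mul_sum]
  apply Finset.sum_congr rfl
  intro y _
  rw [← hcount x y]
  ring

/-- A3: three coordinates. -/
theorem avg3 {X : Type} [Fintype X] {R : ℕ} {r r' r'' : Fin R} (h : r ≠ r') (h' : r ≠ r'') (h'' : r' ≠ r'')
    (f : X → X → X → ℝ) :
    (∑ ω : Fin R → X, f (ω r) (ω r') (ω r'')) * (Fintype.card X : ℝ) ^ 3 =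
      (Fintype.card X : ℝ) ^ R * ∑ x, ∑ y, ∑ z, f x y z := by
  have hcount : ∀ x y z : X,
      ((Finset.univ.filter (fun ω : Fin R → X => ω r = x ∧ ω r' = y ∧ ω r'' = z)).card : ℝ) *
      (Fintype.card X : ℝ) ^ 3 = (Fintype.card X : ℝ) ^ R := by
    intro x y z
    have h1 := A2_count ({r, r', r''} : Finset (Fin R)) (fun j => if j = r then x else if j = r' then y else z)
    have h0 : ({r, r', r''} : Finset (Fin R)).card = 3 := Finset.card_eq_three.2 ⟨r, r', r'', h, h', h'', rfl⟩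
    rw [h0] at h1
    rw [← h1]
    congr 3
    apply Finset.filter_congr
    intro ω _
    constructor
    · rintro ⟨h2, h3, h5⟩ j hj
      rcases Finset.mem_insert.1 hj with h4 | h4
      · rw [h4, if_pos rfl]
        exact h2
      · rcases Finset.mem_insert.1 h4 with h4 | h4
        · rw [h4, if_neg h.symm, if_pos rfl]
          exact h3
        · rw [Finset.mem_singleton] at h4
          rw [h4, if_neg h'.symm, if_neg h''.symm]
          exact h5
    · intro h2
      have h3 := h2 r (Finset.mem_insert_self _ _)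
      have h4 := h2 r' (Finset.mem_insert_of_mem (Finset.mem_insert_self _ _))
      have h5 := h2 r'' (Finset.mem_insert_of_mem (Finset.mem_insert_of_mem (Finset.mem_singleton_self _)))
      rw [if_pos rfl] at h3
      rw [if_neg h.symm, if_pos rfl] at h4
      rw [if_neg h'.symm, if_neg h''.symm] at h5
      exact ⟨h3, h4, h5⟩
  have hexp : ∀ ω : Fin R → X, f (ω r) (ω r') (ω r'') =
      ∑ x, ∑ y, ∑ z, (if ω r = x ∧ ω r' = y ∧ ω r'' = z then f x y z else 0) := by
    intro ω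
    rw [Finset.sum_eq_single (ω r), Finset.sum_eq_single (ω r'), Finset.sum_eq_single (ω r'')]
    · rw [if_pos ⟨rfl, rfl, rfl⟩]
    · intro y _ hy
      rw [if_neg (fun hc => hy hc.2.2.symm)]
    · intro hc
      exact absurd (Finset.mem_univ _) hc
    · intro y _ hy
      apply Finset.sum_eq_zero
      intro z _
      rw [if_neg (fun hc => hy hc.2.1.symm)]
    · intro hc
      exact absurd (Finset.mem_univ _) hc
    · intro x _ hx
      apply Finset.sum_eq_zero
      intro y _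
      apply Finset.sum_eq_zero
      intro z _
      rw [if_neg (fun hc => hx hc.1.symm)]
    · intro hc
      exact absurd (Finset.mem_univ _) hc
  have hswap : (∑ ω : Fin R → X, f (ω r) (ω r') (ω r'')) = ∑ x, ∑ y, ∑ z,
      ((Finset.univ.filter (fun ω : Fin R → X => ω r = x ∧ ω r' = y ∧ ω r'' = z)).card : ℝ) * f x y z := by
    rw [Finset.sum_congr rfl (fun ω _ => hexp ω), Finset.sum_comm]
    apply Finset.sum_congr rfl
    intro x _
    rw [Finset.sum_comm]
    apply Finset.sum_congr rfl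
    intro y _
    rw [Finset.sum_comm]
    apply Finset.sum_congr rfl
    intro z _
    rw [← Finset.sum_filter, Finset.sum_const, nsmul_eq_mul]
  rw [hswap, Finset.sum_mul, Finset.mul_sum]
  apply Finset.sum_congr rfl
  intro x _
  rw [Finset.sum_mul, Finset.mul_sum]
  apply Finset.sum_congr rfl
  intro y _
  rw [Finset.sum_mul, Finset.mul_sum]
  apply Finset.sum_congr rfl
  intro z _
  rw [← hcount x y z]
  ring

/-! Row T1 -/

section

variable {W : Finset V} {P : Type} [Fintype P] {L b D : ℕ} {vp δ : ℝ} {en : V → P → V} {se : V → P → Finset V}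

theorem T1_ineq {ι : Type} [Fintype ι] [DecidableEq ι] (a c : ι → ℝ) (t : ℝ) (hc : ∀ p, c p = 0 ∨ c p = 1)
    (ha : ∀ p, c p ≤ a p) (ha0 : ∀ p, 0 ≤ a p) (ht0 : 0 ≤ t) (ht : (∃ p, c p = 1) → 1 ≤ t) :
    ∑ p, c p - (1 / 2) * ∑ p, ∑ p' ∈ Finset.univ.filter (fun p' => p' ≠ p), a p * a p' ≤ t := by
  have hc0 : ∀ p, 0 ≤ c p := by
    intro p
    rcases hc p with h | h
    · rw [h]
    · rw [h]
      exact zero_le_one
  have h1 : ∑ p, ∑ p' ∈ Finset.univ.filter (fun p' => p' ≠ p), c p * c p' ≤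
      ∑ p, ∑ p' ∈ Finset.univ.filter (fun p' => p' ≠ p), a p * a p' := by
    apply Finset.sum_le_sum
    intro p _
    apply Finset.sum_le_sum
    intro p' _
    exact mul_le_mul (ha p) (ha p') (hc0 p') (ha0 p)
  obtain ⟨T, hT⟩ : ∃ T : ℝ, T = ∑ p, c p := ⟨_, rfl⟩
  have h2 : ∑ p, ∑ p' ∈ Finset.univ.filter (fun p' => p' ≠ p), c p * c p' = T * T - T := by
    have h3 : ∀ p, ∑ p' ∈ Finset.univ.filter (fun p' => p' ≠ p), c p * c p' = c p * T - c p := by
      intro p
      rw [← Finset.mul_sum, Finset.filter_ne' Finset.univ p,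
        Finset.sum_erase_eq_sub (Finset.mem_univ p), ← hT, mul_sub]
      congr 1
      rcases hc p with h | h
      · rw [h, mul_zero]
      · rw [h, mul_one]
    rw [Finset.sum_congr rfl (fun p _ => h3 p), Finset.sum_sub_distrib, ← Finset.sum_mul, ← hT]
  obtain ⟨n, hn⟩ : ∃ n : ℕ, T = n := by
    refine ⟨(Finset.univ.filter (fun p => c p = 1)).card, ?_⟩
    rw [hT, Finset.card_filter]
    push_cast
    apply Finset.sum_congr rfl
    intro p _
    rcases hc p with h | h
    · rw [h]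
      simp
    · rw [h]
      simp
  rw [← hT]
  rcases Nat.eq_zero_or_pos n with h0 | hpos
  · have hT0 : T = 0 := by rw [hn, h0, Nat.cast_zero]
    have h3 : 0 ≤ ∑ p, ∑ p' ∈ Finset.univ.filter (fun p' => p' ≠ p), a p * a p' :=
      Finset.sum_nonneg (fun p _ => Finset.sum_nonneg (fun p' _ => mul_nonneg (ha0 p) (ha0 p')))
    rw [hT0]
    linarith
  · have ht1 : 1 ≤ t := by
      apply ht
      by_contra hcon
      push Not at hcon
      have h3 : T = 0 := by
        rw [hT]
        apply Finset.sum_eq_zero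
        intro p _
        exact (hc p).resolve_right (hcon p)
      have h4 : (n : ℝ) = 0 := by rw [← hn, h3]
      have h5 : n = 0 := by exact_mod_cast h4
      omega
    have h3 : 0 ≤ (T - 1) * (T - 2) := by
      rcases Nat.lt_or_ge n 2 with h4 | h4
      · have h5 : n = 1 := by omega
        rw [hn, h5]
        norm_num
      · have h5 : (2 : ℝ) ≤ T := by
          rw [hn]
          exact_mod_cast h4
        exact mul_nonneg (by linarith) (by linarith)
    rw [h2] at h1
    nlinarith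

theorem T1_conn {ι : Type} (s : Finset ι) (f : ι → Finset V) (x : V) (hs : s.Nonempty)
    (h : ∀ i ∈ s, Conn G (f i) ∧ x ∈ f i) : Conn G (s.biUnion f) ∧ x ∈ s.biUnion f := by
  induction hs using Finset.Nonempty.cons_induction with
  | singleton a =>
    rw [Finset.singleton_biUnion]
    exact h a (Finset.mem_singleton_self a)
  | cons a s ha hs ih =>
    have h1 := ih (fun i hi => h i (Finset.mem_cons_of_mem hi))
    have h2 := h a (Finset.mem_cons_self a s)
    have h3 : (Finset.cons a s ha).biUnion f = f a ∪ s.biUnion f := by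
      rw [Finset.cons_eq_insert, Finset.biUnion_insert]
    rw [h3]
    exact ⟨h2.1.union_mem h1.1 h2.2 h1.2, Finset.mem_union_left _ h2.2⟩

theorem T1_lh {W : Finset V} {P : Type} {b : ℕ} (se : V → P → Finset V) (ξ ξ' : Spi W P b) (i j : Fin b) :
    0 ≤ lh se ξ ξ' i j := by
  unfold lh
  split_ifs
  · exact zero_le_one
  · exact le_rfl

theorem T1_la {W : Finset V} {P : Type} {b : ℕ} (en : V → P → V) (ξ ξ' : Spi W P b) (i j : Fin b) :
    0 ≤ la G en ξ ξ' i j := by
  unfold la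
  split_ifs
  · exact zero_le_one
  · exact le_rfl

/-- the good legs -/
def T1_good {W : Finset V} {P : Type} {b R : ℕ} (se : V → P → Finset V) (ω : Fin R → Spi W P b)
    (r : Fin R) (i : Fin b) : Prop :=
  ∀ r'', r'' ≠ r → ∀ k, ¬ (se (ω r).1 ((ω r).2 i) ∩ se (ω r'').1 ((ω r'').2 k)).Nonempty

/-- the union of the good legs -/
def T1_Q {W : Finset V} {P : Type} {b R : ℕ} (se : V → P → Finset V) (ω : Fin R → Spi W P b)
    (r : Fin R) : Finset V :=
  (Finset.univ.filter (fun i => T1_good se ω r i)).biUnion (fun i => se (ω r).1 ((ω r).2 i))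

theorem T1_bad {W : Finset V} {P : Type} {b R : ℕ} (se : V → P → Finset V) (ω : Fin R → Spi W P b)
    (r : Fin R) (i : Fin b) :
    1 - (if T1_good se ω r i then (1 : ℝ) else 0) ≤
      ∑ r'' ∈ Finset.univ.filter (fun r'' => r'' ≠ r), ∑ k, lh se (ω r) (ω r'') i k := by
  have hnn : ∀ r'' ∈ Finset.univ.filter (fun r'' => r'' ≠ r), 0 ≤ ∑ k, lh se (ω r) (ω r'') i k :=
    fun r'' _ => Finset.sum_nonneg (fun k _ => T1_lh se _ _ _ _)
  by_cases hg : T1_good se ω r i
  · rw [if_pos hg, sub_self]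
    exact Finset.sum_nonneg hnn
  · rw [if_neg hg, sub_zero]
    unfold T1_good at hg
    push Not at hg
    obtain ⟨r'', h1, k, h2⟩ := hg
    have h3 : lh se (ω r) (ω r'') i k = 1 := by
      unfold lh
      rw [if_pos h2]
    calc (1 : ℝ) = lh se (ω r) (ω r'') i k := h3.symm
      _ ≤ ∑ k, lh se (ω r) (ω r'') i k :=
          Finset.single_le_sum (f := fun k => lh se (ω r) (ω r'') i k)
            (fun k _ => T1_lh se _ _ _ _) (Finset.mem_univ k)
      _ ≤ _ := Finset.single_le_sum (f := fun r'' => ∑ k, lh se (ω r) (ω r'') i k) hnn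
            (Finset.mem_filter.2 ⟨Finset.mem_univ _, h1⟩)

theorem T1_split {R : ℕ} {r r' : Fin R} (h : r' ≠ r) (f : Fin R → ℝ) :
    ∑ r'' ∈ Finset.univ.filter (fun r'' => r'' ≠ r), f r'' =
      f r' + ∑ r'' ∈ Finset.univ.filter (fun r'' => r'' ≠ r ∧ r'' ≠ r'), f r'' := by
  rw [← Finset.add_sum_erase _ f (Finset.mem_filter.2 ⟨Finset.mem_univ r', h⟩)]
  congr 1
  apply Finset.sum_congr _ (fun _ _ => rfl)
  ext x
  rw [Finset.mem_erase, Finset.mem_filter, Finset.mem_filter]
  constructor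
  · rintro ⟨h1, h2, h3⟩
    exact ⟨h2, h3, h1⟩
  · rintro ⟨h1, h2, h3⟩
    exact ⟨h3, h1, h2⟩

theorem T1_point (hL : Legs G W P L vp en se) {R : ℕ} (ω : Fin R → Spi W P b) {r r' : Fin R} (h : r' ≠ r) :
    Ph2 G en se (ω r) (ω r') -
      ∑ r'' ∈ Finset.univ.filter (fun r'' => r'' ≠ r ∧ r'' ≠ r'), Ph3 G en se (ω r) (ω r') (ω r'') ≤
        (if Touch G (T1_Q se ω r) (T1_Q se ω r') then 1 else 0) := by
  obtain ⟨g, hg⟩ : ∃ g : Fin R → Fin b → ℝ, ∀ r i, g r i = if T1_good se ω r i then (1 : ℝ) else 0 :=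
    ⟨_, fun _ _ => rfl⟩
  have hg01 : ∀ r i, g r i = 0 ∨ g r i = 1 := by
    intro r i
    rw [hg]
    split_ifs
    · exact Or.inr rfl
    · exact Or.inl rfl
  have hg1 : ∀ r i, 0 ≤ g r i ∧ g r i ≤ 1 := by
    intro r i
    rcases hg01 r i with h | h
    · rw [h]
      exact ⟨le_rfl, zero_le_one⟩
    · rw [h]
      exact ⟨zero_le_one, le_rfl⟩
  obtain ⟨B, hB⟩ : ∃ B : ℝ, B = ∑ p : Fin b × Fin b, ∑ p' ∈ Finset.univ.filter (fun p' : Fin b × Fin b => p' ≠ p),
      la G en (ω r) (ω r') p.1 p.2 * la G en (ω r) (ω r') p'.1 p'.2 := ⟨_, rfl⟩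
  -- the union bound
  have key1 : ∑ p : Fin b × Fin b, la G en (ω r) (ω r') p.1 p.2 * (g r p.1 * g r' p.2) - (1 / 2) * B ≤
      (if Touch G (T1_Q se ω r) (T1_Q se ω r') then (1 : ℝ) else 0) := by
    rw [hB]
    apply T1_ineq (fun p : Fin b × Fin b => la G en (ω r) (ω r') p.1 p.2)
      (fun p : Fin b × Fin b => la G en (ω r) (ω r') p.1 p.2 * (g r p.1 * g r' p.2))
    · intro p
      unfold la
      rcases hg01 r p.1 with h1 | h1 <;> rcases hg01 r' p.2 with h2 | h2 <;> rw [h1, h2] <;> split_ifs <;>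
        simp
    · intro p
      have h1 := T1_la (G := G) en (ω r) (ω r') p.1 p.2
      have h2 : g r p.1 * g r' p.2 ≤ 1 := mul_le_one₀ (hg1 r p.1).2 (hg1 r' p.2).1 (hg1 r' p.2).2
      calc la G en (ω r) (ω r') p.1 p.2 * (g r p.1 * g r' p.2) ≤ la G en (ω r) (ω r') p.1 p.2 * 1 :=
            mul_le_mul_of_nonneg_left h2 h1
        _ = la G en (ω r) (ω r') p.1 p.2 := mul_one _
    · intro p
      exact T1_la en _ _ _ _
    · split_ifs
      · exact zero_le_one
      · exact le_rfl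
    · rintro ⟨p, hp⟩
      have h1 : G.Adj (en (ω r).1 ((ω r).2 p.1)) (en (ω r').1 ((ω r').2 p.2)) := by
        by_contra hcon
        unfold la at hp
        rw [if_neg hcon, zero_mul] at hp
        exact zero_ne_one hp
      have h2 : T1_good se ω r p.1 := by
        by_contra hcon
        rw [hg r p.1, if_neg hcon, zero_mul, mul_zero] at hp
        exact zero_ne_one hp
      have h3 : T1_good se ω r' p.2 := by
        by_contra hcon
        rw [hg r' p.2, if_neg hcon, mul_zero, mul_zero] at hp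
        exact zero_ne_one hp
      have h4 : Touch G (T1_Q se ω r) (T1_Q se ω r') := by
        refine ⟨_, ?_, _, ?_, h1⟩
        · unfold T1_Q
          rw [Finset.mem_biUnion]
          exact ⟨p.1, Finset.mem_filter.2 ⟨Finset.mem_univ _, h2⟩, hL.mem_en _ (ω r).1.2 _⟩
        · unfold T1_Q
          rw [Finset.mem_biUnion]
          exact ⟨p.2, Finset.mem_filter.2 ⟨Finset.mem_univ _, h3⟩, hL.mem_en _ (ω r').1.2 _⟩
      rw [if_pos h4]
  -- the bound for the good legs
  have key2 : ∑ i, ∑ j, la G en (ω r) (ω r') i j *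
        (1 - ∑ k, lh se (ω r) (ω r') i k - ∑ k, lh se (ω r') (ω r) j k) -
      ∑ r'' ∈ Finset.univ.filter (fun r'' => r'' ≠ r ∧ r'' ≠ r'), Ph3 G en se (ω r) (ω r') (ω r'') ≤
      ∑ p : Fin b × Fin b, la G en (ω r) (ω r') p.1 p.2 * (g r p.1 * g r' p.2) := by
    have h1 : ∑ r'' ∈ Finset.univ.filter (fun r'' => r'' ≠ r ∧ r'' ≠ r'), Ph3 G en se (ω r) (ω r') (ω r'') =
        ∑ i, ∑ j, la G en (ω r) (ω r') i j *
          ((∑ r'' ∈ Finset.univ.filter (fun r'' => r'' ≠ r ∧ r'' ≠ r'), ∑ k, lh se (ω r) (ω r'') i k) +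
            ∑ r'' ∈ Finset.univ.filter (fun r'' => r'' ≠ r ∧ r'' ≠ r'), ∑ k, lh se (ω r') (ω r'') j k) := by
      unfold Ph3
      rw [Finset.sum_comm]
      apply Finset.sum_congr rfl
      intro i _
      rw [Finset.sum_comm]
      apply Finset.sum_congr rfl
      intro j _
      rw [← Finset.sum_add_distrib, Finset.mul_sum]
      apply Finset.sum_congr rfl
      intro r'' _
      rw [← Finset.sum_add_distrib, Finset.mul_sum]
    rw [h1, Fintype.sum_prod_type, ← Finset.sum_sub_distrib]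
    apply Finset.sum_le_sum
    intro i _
    rw [← Finset.sum_sub_distrib]
    apply Finset.sum_le_sum
    intro j _
    rw [← mul_sub]
    apply mul_le_mul_of_nonneg_left _ (T1_la en _ _ _ _)
    have h2 := T1_bad se ω r i
    have h3 := T1_bad se ω r' j
    rw [← hg, T1_split h] at h2
    rw [← hg, T1_split h.symm] at h3
    have h4 : ∑ r'' ∈ Finset.univ.filter (fun r'' => r'' ≠ r' ∧ r'' ≠ r), ∑ k, lh se (ω r') (ω r'') j k =
        ∑ r'' ∈ Finset.univ.filter (fun r'' => r'' ≠ r ∧ r'' ≠ r'), ∑ k, lh se (ω r') (ω r'') j k := by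
      apply Finset.sum_congr _ (fun _ _ => rfl)
      apply Finset.filter_congr
      intro x _
      exact and_comm
    rw [h4] at h3
    have h5 : 0 ≤ (1 - g r i) * (1 - g r' j) :=
      mul_nonneg (by linarith [(hg1 r i).2]) (by linarith [(hg1 r' j).2])
    nlinarith
  unfold Ph2
  rw [← hB]
  linarith

theorem T1_count {R D : ℕ} (hMD : MD G W D) (Q : Fin R → Finset V)
    (hQ : ∀ r, (Q r).Nonempty → Q r ⊆ W ∧ Conn G (Q r)) (hdis : ∀ r r', r ≠ r' → Disjoint (Q r) (Q r')) :
    ∑ r, ∑ r' ∈ Finset.univ.filter (fun r' => r' ≠ r), (if Touch G (Q r) (Q r') then (1 : ℝ) else 0) ≤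
      2 * D * R := by
  obtain ⟨Rg, hRg⟩ : ∃ Rg : Finset (Fin R), Rg = Finset.univ.filter (fun r => (Q r).Nonempty) := ⟨_, rfl⟩
  have hmem : ∀ r, r ∈ Rg ↔ (Q r).Nonempty := by
    intro r
    rw [hRg, Finset.mem_filter]
    exact ⟨fun h => h.2, fun h => ⟨Finset.mem_univ _, h⟩⟩
  have hcard : Rg.card ≤ R := by
    have h1 := Finset.card_le_univ Rg
    rw [Fintype.card_fin] at h1
    exact h1
  obtain ⟨e⟩ : Nonempty (Fin Rg.card ≃ {r // r ∈ Rg}) := ⟨Rg.equivFin.symm⟩
  have h1 := hMD Rg.card (fun i => Q (e i).1)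
    (fun i => hQ _ ((hmem _).1 (e i).2))
    (fun i j hij => hdis _ _ (fun h => hij (e.injective (Subtype.ext h))))
  have h2 : ((∑ i, (Finset.univ.filter (fun j => j ≠ i ∧ Touch G (Q (e i).1) (Q (e j).1))).card : ℕ) : ℝ) ≤
      2 * D * Rg.card := by exact_mod_cast h1
  have h3 : ∑ r, ∑ r' ∈ Finset.univ.filter (fun r' => r' ≠ r), (if Touch G (Q r) (Q r') then (1 : ℝ) else 0) =
      ((∑ i, (Finset.univ.filter (fun j => j ≠ i ∧ Touch G (Q (e i).1) (Q (e j).1))).card : ℕ) : ℝ) := by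
    have h4 : ∀ r, ∑ r' ∈ Finset.univ.filter (fun r' => r' ≠ r), (if Touch G (Q r) (Q r') then (1 : ℝ) else 0) =
        ∑ r' ∈ Rg, (if r' ≠ r ∧ Touch G (Q r) (Q r') then (1 : ℝ) else 0) := by
      intro r
      rw [Finset.sum_filter, ← Finset.sum_subset (Finset.subset_univ Rg)]
      · apply Finset.sum_congr rfl
        intro r' _
        by_cases h5 : r' ≠ r
        · rw [if_pos h5]
          by_cases h6 : Touch G (Q r) (Q r')
          · rw [if_pos h6, if_pos ⟨h5, h6⟩]
          · rw [if_neg h6, if_neg (fun h7 => h6 h7.2)]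
        · rw [if_neg h5, if_neg (fun h7 => h5 h7.1)]
      · intro r' _ hr'
        by_cases h5 : r' ≠ r
        · rw [if_pos h5, if_neg]
          rintro ⟨u, _, v, hv, _⟩
          exact hr' ((hmem r').2 ⟨v, hv⟩)
        · rw [if_neg h5]
    rw [Finset.sum_congr rfl (fun r _ => h4 r), ← Finset.sum_subset (Finset.subset_univ Rg)]
    · rw [← Finset.sum_coe_sort Rg, ← Equiv.sum_comp e]
      push_cast
      apply Finset.sum_congr rfl
      intro i _
      rw [← Finset.sum_coe_sort Rg, ← Equiv.sum_comp e, Finset.card_filter]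
      push_cast
      apply Finset.sum_congr rfl
      intro j _
      apply if_congr _ rfl rfl
      constructor
      · rintro ⟨h5, h6⟩
        exact ⟨fun h7 => h5 (by rw [h7]), h6⟩
      · rintro ⟨h5, h6⟩
        exact ⟨fun h7 => h5 (e.injective (Subtype.ext h7)), h6⟩
    · intro r _ hr
      apply Finset.sum_eq_zero
      intro r' _
      rw [if_neg]
      rintro ⟨_, u, hu, _⟩
      exact hr ((hmem r).2 ⟨u, hu⟩)
  rw [h3]
  refine h2.trans ?_
  have h5 : (Rg.card : ℝ) ≤ R := by exact_mod_cast hcard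
  exact mul_le_mul_of_nonneg_left h5 (by positivity)

/-- T1: the touching pairs of a random family of spiders. -/
theorem touch_bound (hL : Legs G W P L vp en se) (hMD : MD G W D) {R : ℕ} (ω : Fin R → Spi W P b) :
    ∑ r, ∑ r' ∈ Finset.univ.filter (fun r' => r' ≠ r), (Ph2 G en se (ω r) (ω r') -
      ∑ r'' ∈ Finset.univ.filter (fun r'' => r'' ≠ r ∧ r'' ≠ r'), Ph3 G en se (ω r) (ω r') (ω r'')) ≤
        2 * D * R := by
  refine le_trans ?_ (T1_count hMD (T1_Q se ω) ?_ ?_)
  · apply Finset.sum_le_sum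
    intro r _
    apply Finset.sum_le_sum
    intro r' hr'
    exact T1_point hL ω (Finset.mem_filter.1 hr').2
  · intro r hr
    obtain ⟨v, hv⟩ := hr
    unfold T1_Q at hv
    rw [Finset.mem_biUnion] at hv
    obtain ⟨i, hi, _⟩ := hv
    constructor
    · intro w hw
      unfold T1_Q at hw
      rw [Finset.mem_biUnion] at hw
      obtain ⟨j, _, hw⟩ := hw
      exact hL.sub _ (ω r).1.2 _ hw
    · unfold T1_Q
      exact (T1_conn _ _ ((ω r).1 : V) ⟨i, hi⟩
        (fun j _ => ⟨hL.conn _ (ω r).1.2 _, hL.mem_x _ (ω r).1.2 _⟩)).1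
  · intro r r' hne
    rw [Finset.disjoint_left]
    intro v hv hv'
    unfold T1_Q at hv hv'
    rw [Finset.mem_biUnion] at hv hv'
    obtain ⟨i, hi, hvi⟩ := hv
    obtain ⟨j, _, hvj⟩ := hv'
    exact (Finset.mem_filter.1 hi).2 r' hne.symm j ⟨v, Finset.mem_inter.2 ⟨hvi, hvj⟩⟩

end

/-! Row T2 -/

section

variable {W : Finset V} {P : Type} [Fintype P] {L b D : ℕ} {vp δ : ℝ} {en : V → P → V} {se : V → P → Finset V}

/-- T2: averaged form. -/
theorem touch_avg (hL : Legs G W P L vp en se) (hMD : MD G W D) (hW : W.Nonempty) (hP : Nonempty P) {R : ℕ}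
    (hR : 2 ≤ R) :
    ((R : ℝ) - 1) * ((∑ ξ : Spi W P b, ∑ ξ' : Spi W P b, Ph2 G en se ξ ξ') / (Fintype.card (Spi W P b) : ℝ) ^ 2 -
      ((R : ℝ) - 2) * ((∑ ξ : Spi W P b, ∑ ξ' : Spi W P b, ∑ ξ'' : Spi W P b, Ph3 G en se ξ ξ' ξ'') /
        (Fintype.card (Spi W P b) : ℝ) ^ 3)) ≤ 2 * D := by
  have hne : Nonempty (Spi W P b) := by
    obtain ⟨x, hx⟩ := hW
    obtain ⟨q⟩ := hP
    exact ⟨(⟨x, hx⟩, fun _ => q)⟩
  have hNpos : (0 : ℝ) < (Fintype.card (Spi W P b) : ℝ) := by
    exact_mod_cast Fintype.card_pos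
  have hRpos : (0 : ℝ) < (R : ℝ) := by
    have : 0 < R := by omega
    exact_mod_cast this
  have h2 : ∀ r r' : Fin R, r' ≠ r → ∑ ω : Fin R → Spi W P b, Ph2 G en se (ω r) (ω r') =
      (Fintype.card (Spi W P b) : ℝ) ^ R * ((∑ ξ : Spi W P b, ∑ ξ' : Spi W P b, Ph2 G en se ξ ξ') /
        (Fintype.card (Spi W P b) : ℝ) ^ 2) := by
    intro r r' h
    have h0 := avg2 (X := Spi W P b) (Ne.symm h) (fun x y => Ph2 G en se x y)
    rw [← mul_div_assoc, eq_div_iff (by positivity)]
    exact h0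
  have h3 : ∀ r r' r'' : Fin R, r' ≠ r → r'' ≠ r → r'' ≠ r' →
      ∑ ω : Fin R → Spi W P b, Ph3 G en se (ω r) (ω r') (ω r'') =
      (Fintype.card (Spi W P b) : ℝ) ^ R *
        ((∑ ξ : Spi W P b, ∑ ξ' : Spi W P b, ∑ ξ'' : Spi W P b, Ph3 G en se ξ ξ' ξ'') /
          (Fintype.card (Spi W P b) : ℝ) ^ 3) := by
    intro r r' r'' h h' h''
    have h0 := avg3 (X := Spi W P b) (Ne.symm h) (Ne.symm h') (Ne.symm h'') (fun x y z => Ph3 G en se x y z)
    rw [← mul_div_assoc, eq_div_iff (by positivity)]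
    exact h0
  have hc1 : ∀ r : Fin R, (((Finset.univ.filter (fun r' : Fin R => r' ≠ r)).card : ℕ) : ℝ) = (R : ℝ) - 1 := by
    intro r
    have h0 : (Finset.univ.filter (fun r' : Fin R => r' ≠ r)).card = R - 1 := by
      rw [Finset.filter_ne', Finset.card_erase_of_mem (Finset.mem_univ r), Finset.card_univ, Fintype.card_fin]
    rw [h0, Nat.cast_sub (by omega)]
    simp
  have hc2 : ∀ r r' : Fin R, r' ≠ r →
      (((Finset.univ.filter (fun r'' : Fin R => r'' ≠ r ∧ r'' ≠ r')).card : ℕ) : ℝ) = (R : ℝ) - 2 := by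
    intro r r' h
    have h0 : (Finset.univ.filter (fun r'' : Fin R => r'' ≠ r ∧ r'' ≠ r')) = ({r, r'} : Finset (Fin R))ᶜ := by
      ext z
      simp
    have h1 : (Finset.univ.filter (fun r'' : Fin R => r'' ≠ r ∧ r'' ≠ r')).card = R - 2 := by
      rw [h0, Finset.card_compl, Finset.card_pair (Ne.symm h), Fintype.card_fin]
    rw [h1, Nat.cast_sub hR]
    simp
  set N : ℝ := (Fintype.card (Spi W P b) : ℝ) with hN
  set S2 : ℝ := (∑ ξ : Spi W P b, ∑ ξ' : Spi W P b, Ph2 G en se ξ ξ') / N ^ 2 with hS2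
  set S3 : ℝ := (∑ ξ : Spi W P b, ∑ ξ' : Spi W P b, ∑ ξ'' : Spi W P b, Ph3 G en se ξ ξ' ξ'') / N ^ 3 with hS3
  have hsum : ∑ ω : Fin R → Spi W P b, ∑ r, ∑ r' ∈ Finset.univ.filter (fun r' => r' ≠ r),
      (Ph2 G en se (ω r) (ω r') - ∑ r'' ∈ Finset.univ.filter (fun r'' => r'' ≠ r ∧ r'' ≠ r'),
        Ph3 G en se (ω r) (ω r') (ω r'')) ≤ ∑ _ω : Fin R → Spi W P b, (2 * D * R : ℝ) :=
    Finset.sum_le_sum (fun ω _ => touch_bound hL hMD ω)
  have hleft : ∑ ω : Fin R → Spi W P b, ∑ r, ∑ r' ∈ Finset.univ.filter (fun r' => r' ≠ r),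
      (Ph2 G en se (ω r) (ω r') - ∑ r'' ∈ Finset.univ.filter (fun r'' => r'' ≠ r ∧ r'' ≠ r'),
        Ph3 G en se (ω r) (ω r') (ω r'')) = R * (((R : ℝ) - 1) * (N ^ R * S2 - ((R : ℝ) - 2) * (N ^ R * S3))) := by
    rw [Finset.sum_comm]
    have hr : ∀ r ∈ (Finset.univ : Finset (Fin R)), ∑ ω : Fin R → Spi W P b,
        ∑ r' ∈ Finset.univ.filter (fun r' => r' ≠ r), (Ph2 G en se (ω r) (ω r') -
          ∑ r'' ∈ Finset.univ.filter (fun r'' => r'' ≠ r ∧ r'' ≠ r'), Ph3 G en se (ω r) (ω r') (ω r'')) =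
          ((R : ℝ) - 1) * (N ^ R * S2 - ((R : ℝ) - 2) * (N ^ R * S3)) := by
      intro r _
      rw [Finset.sum_comm]
      have hr' : ∀ r' ∈ Finset.univ.filter (fun r' : Fin R => r' ≠ r), ∑ ω : Fin R → Spi W P b,
          (Ph2 G en se (ω r) (ω r') -
            ∑ r'' ∈ Finset.univ.filter (fun r'' => r'' ≠ r ∧ r'' ≠ r'), Ph3 G en se (ω r) (ω r') (ω r'')) =
            N ^ R * S2 - ((R : ℝ) - 2) * (N ^ R * S3) := by
        intro r' hr'
        have hne' : r' ≠ r := (Finset.mem_filter.1 hr').2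
        rw [Finset.sum_sub_distrib, h2 r r' hne', Finset.sum_comm]
        congr 1
        have hr'' : ∀ r'' ∈ Finset.univ.filter (fun r'' : Fin R => r'' ≠ r ∧ r'' ≠ r'),
            ∑ ω : Fin R → Spi W P b, Ph3 G en se (ω r) (ω r') (ω r'') = N ^ R * S3 := by
          intro r'' hr''
          have h4 := (Finset.mem_filter.1 hr'').2
          exact h3 r r' r'' hne' h4.1 h4.2
        rw [Finset.sum_congr rfl hr'', Finset.sum_const, nsmul_eq_mul, hc2 r r' hne']
      rw [Finset.sum_congr rfl hr', Finset.sum_const, nsmul_eq_mul, hc1 r]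
    rw [Finset.sum_congr rfl hr, Finset.sum_const, Finset.card_univ, Fintype.card_fin, nsmul_eq_mul]
  have hright : ∑ _ω : Fin R → Spi W P b, (2 * D * R : ℝ) = N ^ R * (2 * D * R) := by
    rw [Finset.sum_const, Finset.card_univ, Fintype.card_fun, Fintype.card_fin, nsmul_eq_mul, Nat.cast_pow]
  rw [hleft, hright] at hsum
  have hpos : 0 < (R : ℝ) * N ^ R := by positivity
  have h5 : (R : ℝ) * N ^ R * (((R : ℝ) - 1) * (S2 - ((R : ℝ) - 2) * S3)) ≤ (R : ℝ) * N ^ R * (2 * D) := by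
    linarith [hsum, show (R : ℝ) * N ^ R * (((R : ℝ) - 1) * (S2 - ((R : ℝ) - 2) * S3)) =
      R * (((R : ℝ) - 1) * (N ^ R * S2 - ((R : ℝ) - 2) * (N ^ R * S3))) by ring,
      show (R : ℝ) * N ^ R * (2 * D) = N ^ R * (2 * D * R) by ring]
  exact le_of_mul_le_mul_left h5 hpos

end

end HD
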