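import Pool.Agent.LibHL.B3

/-!
# LibHL : block (b), spiders, averages
-/

set_option autoImplicit false
set_option linter.unusedSectionVars false

open scoped Classical

noncomputable section

namespace HD

variable {V : Type} [Fintype V] [DecidableEq V] {G : SimpleGraph V}

/-! Row Q1 -/

section

variable {W : Finset V} {P : Type} [Fintype P] {L b D : ℕ} {vp δ : ℝ} {en : V → P → V} {se : V → P → Finset V}

theorem Q1_one (hL : Legs G W P L vp en se) {v : V} (hv : v ∈ W) :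
    ∑ x ∈ W, ∑ c : P, (if en x c = v then (1 : ℝ) else 0) = Fintype.card P := by
  rw [← hL.col v hv]
  apply Finset.sum_congr rfl
  intro x _
  rw [Finset.sum_boole]

theorem Q1_fun (hL : Legs G W P L vp en se) (hP : Nonempty P) (i : Fin b) (g : V → ℝ) :
    ∑ ξ : Spi W P b, g (en ξ.1 (ξ.2 i)) = (Fintype.card P : ℝ) ^ b * ∑ v ∈ W, g v := by
  have hc : (0 : ℝ) < Fintype.card P := by exact_mod_cast Fintype.card_pos
  have h := avg_leg (W := W) (P := P) i (fun x c => g (en x c))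
  have h2 : ∑ x ∈ W, ∑ c : P, g (en x c) = (∑ v ∈ W, g v) * Fintype.card P := by
    have e1 : ∀ x ∈ W, ∀ c : P, g (en x c) = ∑ v ∈ W, g v * (if en x c = v then (1 : ℝ) else 0) := by
      intro x hx c
      have hmem : en x c ∈ W := hL.sub x hx c (hL.mem_en x hx c)
      rw [Finset.sum_eq_single_of_mem (en x c) hmem]
      · simp
      · intro v _ hne
        rw [if_neg (fun h => hne h.symm), mul_zero]
    calc ∑ x ∈ W, ∑ c : P, g (en x c)
        = ∑ x ∈ W, ∑ c : P, ∑ v ∈ W, g v * (if en x c = v then (1 : ℝ) else 0) := by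
          apply Finset.sum_congr rfl
          intro x hx
          apply Finset.sum_congr rfl
          intro c _
          exact e1 x hx c
      _ = ∑ x ∈ W, ∑ v ∈ W, ∑ c : P, g v * (if en x c = v then (1 : ℝ) else 0) := by
          apply Finset.sum_congr rfl
          intro x _
          exact Finset.sum_comm
      _ = ∑ v ∈ W, ∑ x ∈ W, ∑ c : P, g v * (if en x c = v then (1 : ℝ) else 0) := Finset.sum_comm
      _ = ∑ v ∈ W, g v * Fintype.card P := by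
          apply Finset.sum_congr rfl
          intro v hv
          rw [← Q1_one hL hv, Finset.mul_sum]
          apply Finset.sum_congr rfl
          intro x _
          rw [Finset.mul_sum]
      _ = (∑ v ∈ W, g v) * Fintype.card P := by rw [Finset.sum_mul]
  rw [h2, ← mul_assoc] at h
  exact mul_right_cancel₀ hc.ne' h

/-- Q1: the probability of adjacency. -/
theorem la_avg (hL : Legs G W P L vp en se) (hP : Nonempty P) (i j : Fin b) :
    (∑ ξ : Spi W P b, ∑ ξ' : Spi W P b, la G en ξ ξ' i j) * (W.card : ℝ) ^ 2 =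
      (Fintype.card (Spi W P b) : ℝ) ^ 2 * ∑ v ∈ W, ((nbIn G W v).card : ℝ) := by
  have hdeg : ∀ v, ((nbIn G W v).card : ℝ) = ∑ w ∈ W, (if G.Adj v w then (1 : ℝ) else 0) := by
    intro v
    rw [Finset.sum_boole]
    unfold nbIn
    rfl
  have h1 : ∀ ξ : Spi W P b, ∑ ξ' : Spi W P b, la G en ξ ξ' i j =
      (Fintype.card P : ℝ) ^ b * ((nbIn G W (en ξ.1 (ξ.2 i))).card : ℝ) := by
    intro ξ
    unfold la
    rw [Q1_fun hL hP j (fun w => if G.Adj (en ξ.1 (ξ.2 i)) w then (1 : ℝ) else 0), hdeg]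
  have hcard : (Fintype.card (Spi W P b) : ℝ) = W.card * (Fintype.card P : ℝ) ^ b := by
    rw [Fintype.card_prod, Fintype.card_coe, Fintype.card_fun, Fintype.card_fin]
    push_cast
    ring
  rw [Finset.sum_congr rfl (fun ξ _ => h1 ξ), ← Finset.mul_sum,
    Q1_fun hL hP i (fun v => ((nbIn G W v).card : ℝ)), hcard]
  ring

end

/-! Row Q2 -/

section

variable {W : Finset V} {P : Type} [Fintype P] {L b D : ℕ} {vp δ : ℝ} {en : V → P → V} {se : V → P → Finset V}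

theorem Q2_one (hL : Legs G W P L vp en se) (hP : Nonempty P) (k : Fin b) (u : V) :
    ∑ ξ : Spi W P b, (if u ∈ se ξ.1 (ξ.2 k) then (1 : ℝ) else 0) ≤ (Fintype.card P : ℝ) ^ b * L := by
  have hc : (0 : ℝ) < Fintype.card P := by exact_mod_cast Fintype.card_pos
  have h := avg_leg (W := W) (P := P) k (fun x c => if u ∈ se x c then (1 : ℝ) else 0)
  have h2 : ∑ x ∈ W, ∑ c : P, (if u ∈ se x c then (1 : ℝ) else 0) ≤ L * Fintype.card P := by
    refine le_trans (le_of_eq ?_) (hL.hit u)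
    apply Finset.sum_congr rfl
    intro x _
    rw [Finset.sum_boole]
  have h3 : (∑ ξ : Spi W P b, (if u ∈ se ξ.1 (ξ.2 k) then (1 : ℝ) else 0)) * (Fintype.card P : ℝ) ≤
      (Fintype.card P : ℝ) ^ b * L * Fintype.card P := by
    rw [h, mul_assoc]
    exact mul_le_mul_of_nonneg_left h2 (by positivity)
  exact le_of_mul_le_mul_right h3 hc

theorem Q2_lh (i k : Fin b) (ξ ξ' : Spi W P b) :
    lh se ξ ξ' i k ≤ ∑ u ∈ se ξ.1 (ξ.2 i), (if u ∈ se ξ'.1 (ξ'.2 k) then (1 : ℝ) else 0) := by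
  unfold lh
  split_ifs with h
  · obtain ⟨u, hu⟩ := h
    rw [Finset.mem_inter] at hu
    calc (1 : ℝ) = (if u ∈ se ξ'.1 (ξ'.2 k) then (1 : ℝ) else 0) := by rw [if_pos hu.2]
      _ ≤ _ := Finset.single_le_sum (f := fun u => if u ∈ se ξ'.1 (ξ'.2 k) then (1 : ℝ) else 0)
          (fun v _ => by positivity) hu.1
  · exact Finset.sum_nonneg (fun v _ => by positivity)

/-- Q2: the probability of being hit. -/
theorem lh_avg (hL : Legs G W P L vp en se) (hP : Nonempty P) (i k : Fin b) (ξ : Spi W P b) :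
    (∑ ξ' : Spi W P b, lh se ξ ξ' i k) * (W.card : ℝ) ≤ (Fintype.card (Spi W P b) : ℝ) * (L : ℝ) ^ 2 := by
  have hcard : (Fintype.card (Spi W P b) : ℝ) = W.card * (Fintype.card P : ℝ) ^ b := by
    rw [Fintype.card_prod, Fintype.card_coe, Fintype.card_fun, Fintype.card_fin]
    push_cast
    ring
  have hB : (0 : ℝ) ≤ (Fintype.card P : ℝ) ^ b * L := by positivity
  have h1 : ∑ ξ' : Spi W P b, lh se ξ ξ' i k ≤ (L : ℝ) * ((Fintype.card P : ℝ) ^ b * L) := by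
    calc ∑ ξ' : Spi W P b, lh se ξ ξ' i k
        ≤ ∑ ξ' : Spi W P b, ∑ u ∈ se ξ.1 (ξ.2 i), (if u ∈ se ξ'.1 (ξ'.2 k) then (1 : ℝ) else 0) :=
          Finset.sum_le_sum (fun ξ' _ => Q2_lh i k ξ ξ')
      _ = ∑ u ∈ se ξ.1 (ξ.2 i), ∑ ξ' : Spi W P b, (if u ∈ se ξ'.1 (ξ'.2 k) then (1 : ℝ) else 0) :=
          Finset.sum_comm
      _ ≤ ∑ u ∈ se ξ.1 (ξ.2 i), (Fintype.card P : ℝ) ^ b * L :=
          Finset.sum_le_sum (fun u _ => Q2_one hL hP k u)
      _ = ((se ξ.1 (ξ.2 i)).card : ℝ) * ((Fintype.card P : ℝ) ^ b * L) := by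
          rw [Finset.sum_const, nsmul_eq_mul]
      _ ≤ (L : ℝ) * ((Fintype.card P : ℝ) ^ b * L) := by
          apply mul_le_mul_of_nonneg_right _ hB
          exact_mod_cast hL.card_le ξ.1 ξ.1.2 (ξ.2 i)
  calc (∑ ξ' : Spi W P b, lh se ξ ξ' i k) * (W.card : ℝ)
      ≤ ((L : ℝ) * ((Fintype.card P : ℝ) ^ b * L)) * (W.card : ℝ) :=
        mul_le_mul_of_nonneg_right h1 (by positivity)
    _ = (Fintype.card (Spi W P b) : ℝ) * (L : ℝ) ^ 2 := by
        rw [hcard]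
        ring

end

/-! Row Q3 -/

section

variable {W : Finset V} {P : Type} [Fintype P] {L b D : ℕ} {vp δ : ℝ} {en : V → P → V} {se : V → P → Finset V}

theorem Q3_one (hL : Legs G W P L vp en se) (hP : Nonempty P) (hvp : 0 ≤ vp) (j k : Fin b) (hjk : j ≠ k) (u v : V)
    (hv : v ∈ W) :
    ∑ ξ : Spi W P b, (if G.Adj v (en ξ.1 (ξ.2 j)) then (1 : ℝ) else 0) *
      (if u ∈ se ξ.1 (ξ.2 k) then (1 : ℝ) else 0) ≤ (Fintype.card P : ℝ) ^ b * (vp * L) := by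
  have hc : (0 : ℝ) < Fintype.card P := by exact_mod_cast Fintype.card_pos
  have h := avg_leg2 (W := W) (P := P) hjk (fun x c c' => (if G.Adj v (en x c) then (1 : ℝ) else 0) *
    (if u ∈ se x c' then (1 : ℝ) else 0))
  have h2 : ∑ x ∈ W, ∑ c : P, ∑ c' : P, (if G.Adj v (en x c) then (1 : ℝ) else 0) *
      (if u ∈ se x c' then (1 : ℝ) else 0) ≤ (vp * Fintype.card P) * (L * Fintype.card P) := by
    calc ∑ x ∈ W, ∑ c : P, ∑ c' : P, (if G.Adj v (en x c) then (1 : ℝ) else 0) *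
          (if u ∈ se x c' then (1 : ℝ) else 0)
        = ∑ x ∈ W, ((Finset.univ.filter (fun c => G.Adj v (en x c))).card : ℝ) *
            ((Finset.univ.filter (fun c => u ∈ se x c)).card : ℝ) := by
          apply Finset.sum_congr rfl
          intro x _
          rw [← Finset.sum_mul_sum, Finset.sum_boole, Finset.sum_boole]
      _ ≤ ∑ x ∈ W, (vp * Fintype.card P) * ((Finset.univ.filter (fun c => u ∈ se x c)).card : ℝ) := by
          apply Finset.sum_le_sum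
          intro x hx
          exact mul_le_mul_of_nonneg_right (hL.vp_le x hx v hv) (by positivity)
      _ = (vp * Fintype.card P) * ∑ x ∈ W, ((Finset.univ.filter (fun c => u ∈ se x c)).card : ℝ) := by
          rw [Finset.mul_sum]
      _ ≤ (vp * Fintype.card P) * (L * Fintype.card P) :=
          mul_le_mul_of_nonneg_left (hL.hit u) (by positivity)
  have h3 : (∑ ξ : Spi W P b, (if G.Adj v (en ξ.1 (ξ.2 j)) then (1 : ℝ) else 0) *
      (if u ∈ se ξ.1 (ξ.2 k) then (1 : ℝ) else 0)) * (Fintype.card P : ℝ) ^ 2 ≤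
      (Fintype.card P : ℝ) ^ b * (vp * L) * (Fintype.card P : ℝ) ^ 2 := by
    rw [h]
    calc (Fintype.card P : ℝ) ^ b * _ ≤ (Fintype.card P : ℝ) ^ b * ((vp * Fintype.card P) * (L * Fintype.card P)) :=
          mul_le_mul_of_nonneg_left h2 (by positivity)
      _ = (Fintype.card P : ℝ) ^ b * (vp * L) * (Fintype.card P : ℝ) ^ 2 := by ring
  exact le_of_mul_le_mul_right h3 (by positivity)

theorem Q3_lh (i k : Fin b) (ξ ξ' : Spi W P b) :
    lh se ξ ξ' i k ≤ ∑ u ∈ se ξ.1 (ξ.2 i), (if u ∈ se ξ'.1 (ξ'.2 k) then (1 : ℝ) else 0) := by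
  unfold lh
  split_ifs with h
  · obtain ⟨u, hu⟩ := h
    rw [Finset.mem_inter] at hu
    calc (1 : ℝ) = (if u ∈ se ξ'.1 (ξ'.2 k) then (1 : ℝ) else 0) := by rw [if_pos hu.2]
      _ ≤ _ := Finset.single_le_sum (f := fun u => if u ∈ se ξ'.1 (ξ'.2 k) then (1 : ℝ) else 0)
          (fun v _ => by positivity) hu.1
  · exact Finset.sum_nonneg (fun v _ => by positivity)

/-- Q3: adjacency and hitting by another leg of the same spider. -/
theorem la_lh_avg (hL : Legs G W P L vp en se) (hP : Nonempty P) (hvp : 0 ≤ vp) (i j k : Fin b) (hjk : j ≠ k)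
    (ξ : Spi W P b) :
    (∑ ξ' : Spi W P b, la G en ξ ξ' i j * lh se ξ ξ' i k) * (W.card : ℝ) ≤
      (Fintype.card (Spi W P b) : ℝ) * (vp * (L : ℝ) ^ 2) := by
  have hcard : (Fintype.card (Spi W P b) : ℝ) = W.card * (Fintype.card P : ℝ) ^ b := by
    rw [Fintype.card_prod, Fintype.card_coe, Fintype.card_fun, Fintype.card_fin]
    push_cast
    ring
  have hB : (0 : ℝ) ≤ (Fintype.card P : ℝ) ^ b * (vp * L) := by positivity
  have hv : en ξ.1 (ξ.2 i) ∈ W := hL.sub ξ.1 ξ.1.2 _ (hL.mem_en ξ.1 ξ.1.2 _)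
  have h1 : ∑ ξ' : Spi W P b, la G en ξ ξ' i j * lh se ξ ξ' i k ≤
      (L : ℝ) * ((Fintype.card P : ℝ) ^ b * (vp * L)) := by
    calc ∑ ξ' : Spi W P b, la G en ξ ξ' i j * lh se ξ ξ' i k
        ≤ ∑ ξ' : Spi W P b, ∑ u ∈ se ξ.1 (ξ.2 i), (if G.Adj (en ξ.1 (ξ.2 i)) (en ξ'.1 (ξ'.2 j)) then (1 : ℝ) else 0) *
            (if u ∈ se ξ'.1 (ξ'.2 k) then (1 : ℝ) else 0) := by
          apply Finset.sum_le_sum
          intro ξ' _
          rw [← Finset.mul_sum]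
          unfold la
          exact mul_le_mul_of_nonneg_left (Q3_lh i k ξ ξ') (by positivity)
      _ = ∑ u ∈ se ξ.1 (ξ.2 i), ∑ ξ' : Spi W P b, (if G.Adj (en ξ.1 (ξ.2 i)) (en ξ'.1 (ξ'.2 j)) then (1 : ℝ) else 0) *
            (if u ∈ se ξ'.1 (ξ'.2 k) then (1 : ℝ) else 0) :=
          Finset.sum_comm
      _ ≤ ∑ u ∈ se ξ.1 (ξ.2 i), (Fintype.card P : ℝ) ^ b * (vp * L) :=
          Finset.sum_le_sum (fun u _ => Q3_one hL hP hvp j k hjk u _ hv)
      _ = ((se ξ.1 (ξ.2 i)).card : ℝ) * ((Fintype.card P : ℝ) ^ b * (vp * L)) := by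
          rw [Finset.sum_const, nsmul_eq_mul]
      _ ≤ (L : ℝ) * ((Fintype.card P : ℝ) ^ b * (vp * L)) := by
          apply mul_le_mul_of_nonneg_right _ hB
          exact_mod_cast hL.card_le ξ.1 ξ.1.2 (ξ.2 i)
  calc (∑ ξ' : Spi W P b, la G en ξ ξ' i j * lh se ξ ξ' i k) * (W.card : ℝ)
      ≤ ((L : ℝ) * ((Fintype.card P : ℝ) ^ b * (vp * L))) * (W.card : ℝ) :=
        mul_le_mul_of_nonneg_right h1 (by positivity)
    _ = (Fintype.card (Spi W P b) : ℝ) * (vp * (L : ℝ) ^ 2) := by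
        rw [hcard]
        ring

end

/-! Row Q4 -/

section

variable {W : Finset V} {P : Type} [Fintype P] {L b D : ℕ} {vp δ : ℝ} {en : V → P → V} {se : V → P → Finset V}

/-- Two adjacencies of different legs of one spider with given vertices. -/
theorem Q4_gen (hL : Legs G W P L vp en se) (hP : Nonempty P) {j j' : Fin b} (h : j ≠ j') (v : V) {v' : V}
    (hv' : v' ∈ W) :
    ∑ ξ : Spi W P b, (if G.Adj v (en ξ.1 (ξ.2 j)) then (1 : ℝ) else 0) *
      (if G.Adj v' (en ξ.1 (ξ.2 j')) then (1 : ℝ) else 0) ≤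
      vp * ∑ ξ : Spi W P b, (if G.Adj v (en ξ.1 (ξ.2 j)) then (1 : ℝ) else 0) := by
  have hp : (0 : ℝ) < (Fintype.card P : ℝ) := by
    exact_mod_cast Fintype.card_pos
  have h1 := avg_leg2 (W := W) (P := P) h (fun x c c' => (if G.Adj v (en x c) then (1 : ℝ) else 0) *
      (if G.Adj v' (en x c') then (1 : ℝ) else 0))
  have h2 := avg_leg (W := W) (P := P) j (fun x c => (if G.Adj v (en x c) then (1 : ℝ) else 0))
  have h3 : ∑ x ∈ W, ∑ c, ∑ c', (if G.Adj v (en x c) then (1 : ℝ) else 0) *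
      (if G.Adj v' (en x c') then (1 : ℝ) else 0) ≤
      (vp * Fintype.card P) * ∑ x ∈ W, ∑ c, (if G.Adj v (en x c) then (1 : ℝ) else 0) := by
    rw [Finset.mul_sum]
    apply Finset.sum_le_sum
    intro x hx
    rw [Finset.mul_sum]
    apply Finset.sum_le_sum
    intro c _
    rw [← Finset.mul_sum, mul_comm]
    apply mul_le_mul_of_nonneg_right
    · rw [Finset.sum_boole]
      exact hL.vp_le x hx v' hv'
    · split_ifs <;> norm_num
  have h4 : (∑ ξ : Spi W P b, (if G.Adj v (en ξ.1 (ξ.2 j)) then (1 : ℝ) else 0) *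
      (if G.Adj v' (en ξ.1 (ξ.2 j')) then (1 : ℝ) else 0)) * (Fintype.card P : ℝ) ^ 2 ≤
      (vp * ∑ ξ : Spi W P b, (if G.Adj v (en ξ.1 (ξ.2 j)) then (1 : ℝ) else 0)) * (Fintype.card P : ℝ) ^ 2 := by
    rw [h1]
    calc (Fintype.card P : ℝ) ^ b * _ ≤ (Fintype.card P : ℝ) ^ b * ((vp * Fintype.card P) *
          ∑ x ∈ W, ∑ c, (if G.Adj v (en x c) then (1 : ℝ) else 0)) :=
          mul_le_mul_of_nonneg_left h3 (by positivity)
      _ = (vp * Fintype.card P) * ((Fintype.card P : ℝ) ^ b *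
          ∑ x ∈ W, ∑ c, (if G.Adj v (en x c) then (1 : ℝ) else 0)) := by ring
      _ = _ := by
          rw [← h2]
          ring
  exact le_of_mul_le_mul_right h4 (by positivity)


/-- Q4: two adjacencies between the same spiders. -/
theorem la_la_avg (hL : Legs G W P L vp en se) (hP : Nonempty P) (hvp : 0 ≤ vp) {p p' : Fin b × Fin b}
    (h : p' ≠ p) :
    ∑ ξ : Spi W P b, ∑ ξ' : Spi W P b, la G en ξ ξ' p.1 p.2 * la G en ξ ξ' p'.1 p'.2 ≤
      vp * ∑ ξ : Spi W P b, ∑ ξ' : Spi W P b, la G en ξ ξ' p.1 p.2 := by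
  obtain ⟨i, j⟩ := p
  obtain ⟨i', j'⟩ := p'
  show ∑ ξ : Spi W P b, ∑ ξ' : Spi W P b, la G en ξ ξ' i j * la G en ξ ξ' i' j' ≤
      vp * ∑ ξ : Spi W P b, ∑ ξ' : Spi W P b, la G en ξ ξ' i j
  by_cases hj : j = j'
  · have hi : i ≠ i' := by
      intro hi
      exact h (by rw [hi, hj])
    subst hj
    rw [Finset.sum_comm, Finset.sum_comm (f := fun ξ ξ' => la G en ξ ξ' i j), Finset.mul_sum]
    apply Finset.sum_le_sum
    intro ξ' _
    have hw : en ξ'.1 (ξ'.2 j) ∈ W := hL.sub _ ξ'.1.2 _ (hL.mem_en _ ξ'.1.2 _)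
    have h0 := Q4_gen (b := b) hL hP hi (en ξ'.1 (ξ'.2 j)) hw
    simp only [la, SimpleGraph.adj_comm G _ (en ξ'.1 (ξ'.2 j))]
    exact h0
  · rw [Finset.mul_sum]
    apply Finset.sum_le_sum
    intro ξ _
    have hw : en ξ.1 (ξ.2 i') ∈ W := hL.sub _ ξ.1.2 _ (hL.mem_en _ ξ.1.2 _)
    exact Q4_gen (b := b) hL hP hj (en ξ.1 (ξ.2 i)) hw

end

/-! Row Q5 -/

section

variable {W : Finset V} {P : Type} [Fintype P] {L b D : ℕ} {vp δ : ℝ} {en : V → P → V} {se : V → P → Finset V}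

theorem Q5_c {S I : Type*} [Fintype S] (t : Finset I) (f : S → S → I → ℝ) :
    ∑ ξ, ∑ ξ', ∑ i ∈ t, f ξ ξ' i = ∑ i ∈ t, ∑ ξ, ∑ ξ', f ξ ξ' i :=
  (Finset.sum_congr rfl fun _ _ => Finset.sum_comm).trans Finset.sum_comm

omit [Fintype P] in
theorem Q5_la_symm (ξ ξ' : Spi W P b) (i j : Fin b) : la G en ξ ξ' i j = la G en ξ' ξ j i := by
  unfold la
  rw [SimpleGraph.adj_comm]

omit [Fintype P] in
theorem Q5_la_le (ξ ξ' : Spi W P b) (i j : Fin b) : la G en ξ ξ' i j ≤ 1 := by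
  unfold la
  split_ifs <;> norm_num

omit [Fintype P] in
theorem Q5_la_nonneg (ξ ξ' : Spi W P b) (i j : Fin b) : 0 ≤ la G en ξ ξ' i j := by
  unfold la
  split_ifs <;> norm_num

omit [Fintype P] in
theorem Q5_lh_nonneg (ξ ξ' : Spi W P b) (i j : Fin b) : 0 ≤ lh se ξ ξ' i j := by
  unfold lh
  split_ifs <;> norm_num

theorem Q5_b1 (hL : Legs G W P L vp en se) (hP : Nonempty P) (hW : W.Nonempty) (hvp : 0 ≤ vp)
    (i j k : Fin b) :
    ∑ ξ : Spi W P b, ∑ ξ' : Spi W P b, la G en ξ ξ' i j * lh se ξ ξ' i k ≤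
      (Fintype.card (Spi W P b) : ℝ) ^ 2 * (vp * (L : ℝ) ^ 2 / W.card) +
        (if k = j then (Fintype.card (Spi W P b) : ℝ) ^ 2 * ((L : ℝ) ^ 2 / W.card) else 0) := by
  have hn : (0 : ℝ) < W.card := by exact_mod_cast hW.card_pos
  have hN : (0 : ℝ) ≤ (Fintype.card (Spi W P b) : ℝ) := Nat.cast_nonneg _
  have hconst : ∀ c : ℝ, (∀ ξ : Spi W P b, ∑ ξ' : Spi W P b, la G en ξ ξ' i j * lh se ξ ξ' i k ≤ c) →
      ∑ ξ : Spi W P b, ∑ ξ' : Spi W P b, la G en ξ ξ' i j * lh se ξ ξ' i k ≤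
        (Fintype.card (Spi W P b) : ℝ) * c := by
    intro c hc
    refine (Finset.sum_le_sum fun ξ _ => hc ξ).trans (le_of_eq ?_)
    rw [Finset.sum_const, Finset.card_univ, nsmul_eq_mul]
  by_cases hjk : k = j
  · rw [if_pos hjk]
    have h1 : ∀ ξ : Spi W P b, ∑ ξ' : Spi W P b, la G en ξ ξ' i j * lh se ξ ξ' i k ≤
        (Fintype.card (Spi W P b) : ℝ) * (L : ℝ) ^ 2 / W.card := by
      intro ξ
      rw [le_div_iff₀ hn]
      refine le_trans ?_ (lh_avg hL hP i k ξ)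
      refine mul_le_mul_of_nonneg_right ?_ hn.le
      refine Finset.sum_le_sum fun ξ' _ => ?_
      have h2 := Q5_la_le (G := G) (en := en) ξ ξ' i j
      have h3 := Q5_lh_nonneg (se := se) ξ ξ' i k
      nlinarith
    have h2 := hconst _ h1
    have h3 : 0 ≤ (Fintype.card (Spi W P b) : ℝ) ^ 2 * (vp * (L : ℝ) ^ 2 / W.card) := by positivity
    have h4 : (Fintype.card (Spi W P b) : ℝ) * ((Fintype.card (Spi W P b) : ℝ) * (L : ℝ) ^ 2 / W.card) =
        (Fintype.card (Spi W P b) : ℝ) ^ 2 * ((L : ℝ) ^ 2 / W.card) := by ring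
    linarith
  · rw [if_neg hjk, add_zero]
    have h1 : ∀ ξ : Spi W P b, ∑ ξ' : Spi W P b, la G en ξ ξ' i j * lh se ξ ξ' i k ≤
        (Fintype.card (Spi W P b) : ℝ) * (vp * (L : ℝ) ^ 2) / W.card := by
      intro ξ
      rw [le_div_iff₀ hn]
      exact la_lh_avg hL hP hvp i j k (Ne.symm hjk) ξ
    have h2 := hconst _ h1
    have h4 : (Fintype.card (Spi W P b) : ℝ) *
        ((Fintype.card (Spi W P b) : ℝ) * (vp * (L : ℝ) ^ 2) / W.card) =
        (Fintype.card (Spi W P b) : ℝ) ^ 2 * (vp * (L : ℝ) ^ 2 / W.card) := by ring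
    linarith

theorem Q5_s3 (X Y : ℝ) :
    ∑ _i : Fin b, ∑ j : Fin b, ∑ k : Fin b, (X + if k = j then Y else 0) =
      (b : ℝ) ^ 3 * X + (b : ℝ) ^ 2 * Y := by
  simp only [Finset.sum_add_distrib, Finset.sum_ite_eq', Finset.sum_const, Finset.card_univ,
    Fintype.card_fin, nsmul_eq_mul, Finset.mem_univ, if_true]
  ring

theorem Q5_s3' (X Y : ℝ) :
    ∑ i : Fin b, ∑ _j : Fin b, ∑ k : Fin b, (X + if k = i then Y else 0) =
      (b : ℝ) ^ 3 * X + (b : ℝ) ^ 2 * Y := by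
  simp only [Finset.sum_add_distrib, Finset.sum_ite_eq', Finset.sum_const, Finset.card_univ,
    Fintype.card_fin, nsmul_eq_mul, Finset.mem_univ, if_true]
  ring

/-- Q5: the average of the pair term. -/
theorem ph2_avg (hL : Legs G W P L vp en se) (hP : Nonempty P) (hW : W.Nonempty) (hvp : 0 ≤ vp) {α : ℝ}
    (hα : α = (∑ v ∈ W, ((nbIn G W v).card : ℝ)) / (W.card : ℝ) ^ 2) :
    (b : ℝ) ^ 2 * α - 2 * (b : ℝ) ^ 3 * vp * (L : ℝ) ^ 2 / W.card - 2 * (b : ℝ) ^ 2 * (L : ℝ) ^ 2 / W.card -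
        (1 / 2) * (b : ℝ) ^ 4 * vp * α ≤
      (∑ ξ : Spi W P b, ∑ ξ' : Spi W P b, Ph2 G en se ξ ξ') / (Fintype.card (Spi W P b) : ℝ) ^ 2 := by
  obtain ⟨N, hN⟩ : ∃ N : ℝ, N = (Fintype.card (Spi W P b) : ℝ) := ⟨_, rfl⟩
  obtain ⟨n, hn⟩ : ∃ n : ℝ, n = (W.card : ℝ) := ⟨_, rfl⟩
  have hn0 : 0 < n := by
    rw [hn]
    exact_mod_cast hW.card_pos
  have hN0 : 0 < N := by
    rw [hN]
    have : Nonempty (Spi W P b) := by
      obtain ⟨x, hx⟩ := hW
      obtain ⟨c⟩ := hP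
      exact ⟨(⟨x, hx⟩, fun _ => c)⟩
    exact_mod_cast Fintype.card_pos
  have hα0 : 0 ≤ α := by
    rw [hα]
    positivity
  have hA : ∀ i j : Fin b, ∑ ξ : Spi W P b, ∑ ξ' : Spi W P b, la G en ξ ξ' i j = N ^ 2 * α := by
    intro i j
    have h1 := la_avg hL hP i j
    rw [← hN, ← hn] at h1
    rw [hα, ← hn, ← mul_div_assoc, eq_div_iff (by positivity)]
    exact h1
  have hT1 : ∑ ξ : Spi W P b, ∑ ξ' : Spi W P b, ∑ i, ∑ j, la G en ξ ξ' i j =
      (b : ℝ) ^ 2 * (N ^ 2 * α) := by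
    rw [Q5_c]
    have h1 : ∀ i : Fin b, ∑ ξ : Spi W P b, ∑ ξ' : Spi W P b, ∑ j, la G en ξ ξ' i j =
        (b : ℝ) * (N ^ 2 * α) := by
      intro i
      rw [Q5_c, Finset.sum_congr rfl fun j _ => hA i j, Finset.sum_const, Finset.card_univ,
        Fintype.card_fin, nsmul_eq_mul]
    rw [Finset.sum_congr rfl fun i _ => h1 i, Finset.sum_const, Finset.card_univ,
      Fintype.card_fin, nsmul_eq_mul]
    ring
  have hT2 : ∑ ξ : Spi W P b, ∑ ξ' : Spi W P b, ∑ i, ∑ j, ∑ k,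
      la G en ξ ξ' i j * lh se ξ ξ' i k ≤
      (b : ℝ) ^ 3 * (N ^ 2 * (vp * (L : ℝ) ^ 2 / n)) + (b : ℝ) ^ 2 * (N ^ 2 * ((L : ℝ) ^ 2 / n)) := by
    rw [← Q5_s3, Q5_c]
    refine Finset.sum_le_sum fun i _ => ?_
    rw [Q5_c]
    refine Finset.sum_le_sum fun j _ => ?_
    rw [Q5_c]
    refine Finset.sum_le_sum fun k _ => ?_
    rw [hN, hn]
    exact Q5_b1 hL hP hW hvp i j k
  have hT3 : ∑ ξ : Spi W P b, ∑ ξ' : Spi W P b, ∑ i, ∑ j, ∑ k,
      la G en ξ ξ' i j * lh se ξ' ξ j k ≤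
      (b : ℝ) ^ 3 * (N ^ 2 * (vp * (L : ℝ) ^ 2 / n)) + (b : ℝ) ^ 2 * (N ^ 2 * ((L : ℝ) ^ 2 / n)) := by
    rw [← Q5_s3', Q5_c]
    refine Finset.sum_le_sum fun i _ => ?_
    rw [Q5_c]
    refine Finset.sum_le_sum fun j _ => ?_
    rw [Q5_c]
    refine Finset.sum_le_sum fun k _ => ?_
    rw [hN, hn]
    have h1 := Q5_b1 (b := b) hL hP hW hvp j i k
    refine le_trans (le_of_eq ?_) h1
    rw [Finset.sum_comm]
    refine Finset.sum_congr rfl fun ξ _ => Finset.sum_congr rfl fun ξ' _ => ?_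
    rw [Q5_la_symm]
  have hT4 : ∑ ξ : Spi W P b, ∑ ξ' : Spi W P b, ∑ p : Fin b × Fin b,
      ∑ p' ∈ Finset.univ.filter (fun p' : Fin b × Fin b => p' ≠ p),
        la G en ξ ξ' p.1 p.2 * la G en ξ ξ' p'.1 p'.2 ≤ (b : ℝ) ^ 4 * (vp * (N ^ 2 * α)) := by
    rw [Q5_c]
    have h1 : ∀ p : Fin b × Fin b, ∑ ξ : Spi W P b, ∑ ξ' : Spi W P b,
        ∑ p' ∈ Finset.univ.filter (fun p' : Fin b × Fin b => p' ≠ p),
          la G en ξ ξ' p.1 p.2 * la G en ξ ξ' p'.1 p'.2 ≤ (b : ℝ) ^ 2 * (vp * (N ^ 2 * α)) := by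
      intro p
      rw [Q5_c]
      have h2 : ∀ p' ∈ Finset.univ.filter (fun p' : Fin b × Fin b => p' ≠ p),
          ∑ ξ : Spi W P b, ∑ ξ' : Spi W P b, la G en ξ ξ' p.1 p.2 * la G en ξ ξ' p'.1 p'.2 ≤
            vp * (N ^ 2 * α) := by
        intro p' hp'
        rw [← hA p.1 p.2]
        exact la_la_avg hL hP hvp (Finset.mem_filter.1 hp').2
      refine (Finset.sum_le_sum h2).trans ?_
      rw [Finset.sum_const, nsmul_eq_mul]
      refine mul_le_mul_of_nonneg_right ?_ (by positivity)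
      have h3 : (Finset.univ.filter (fun p' : Fin b × Fin b => p' ≠ p)).card ≤ b * b := by
        refine (Finset.card_le_univ _).trans (le_of_eq ?_)
        rw [Fintype.card_prod, Fintype.card_fin]
      calc ((Finset.univ.filter (fun p' : Fin b × Fin b => p' ≠ p)).card : ℝ) ≤ ((b * b : ℕ) : ℝ) := by
            exact_mod_cast h3
        _ = (b : ℝ) ^ 2 := by push_cast; ring
    refine (Finset.sum_le_sum fun p _ => h1 p).trans (le_of_eq ?_)
    rw [Finset.sum_const, Finset.card_univ, Fintype.card_prod, Fintype.card_fin, nsmul_eq_mul]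
    push_cast
    ring
  have hexp : ∑ ξ : Spi W P b, ∑ ξ' : Spi W P b, Ph2 G en se ξ ξ' =
      ∑ ξ : Spi W P b, ∑ ξ' : Spi W P b, ∑ i, ∑ j, la G en ξ ξ' i j -
      ∑ ξ : Spi W P b, ∑ ξ' : Spi W P b, ∑ i, ∑ j, ∑ k, la G en ξ ξ' i j * lh se ξ ξ' i k -
      ∑ ξ : Spi W P b, ∑ ξ' : Spi W P b, ∑ i, ∑ j, ∑ k, la G en ξ ξ' i j * lh se ξ' ξ j k -
      (1 / 2) * ∑ ξ : Spi W P b, ∑ ξ' : Spi W P b, ∑ p : Fin b × Fin b,
        ∑ p' ∈ Finset.univ.filter (fun p' : Fin b × Fin b => p' ≠ p),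
          la G en ξ ξ' p.1 p.2 * la G en ξ ξ' p'.1 p'.2 := by
    rw [Finset.mul_sum, ← Finset.sum_sub_distrib, ← Finset.sum_sub_distrib,
      ← Finset.sum_sub_distrib]
    refine Finset.sum_congr rfl fun ξ _ => ?_
    rw [Finset.mul_sum, ← Finset.sum_sub_distrib, ← Finset.sum_sub_distrib,
      ← Finset.sum_sub_distrib]
    refine Finset.sum_congr rfl fun ξ' _ => ?_
    unfold Ph2
    congr 1
    rw [← Finset.sum_sub_distrib, ← Finset.sum_sub_distrib]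
    refine Finset.sum_congr rfl fun i _ => ?_
    rw [← Finset.sum_sub_distrib, ← Finset.sum_sub_distrib]
    refine Finset.sum_congr rfl fun j _ => ?_
    rw [← Finset.mul_sum, ← Finset.mul_sum]
    ring
  rw [hexp, hT1, ← hN, ← hn, le_div_iff₀ (by positivity)]
  have hfin : ((b : ℝ) ^ 2 * α - 2 * (b : ℝ) ^ 3 * vp * (L : ℝ) ^ 2 / n - 2 * (b : ℝ) ^ 2 * (L : ℝ) ^ 2 / n -
      1 / 2 * (b : ℝ) ^ 4 * vp * α) * N ^ 2 =
      (b : ℝ) ^ 2 * (N ^ 2 * α) -
      ((b : ℝ) ^ 3 * (N ^ 2 * (vp * (L : ℝ) ^ 2 / n)) + (b : ℝ) ^ 2 * (N ^ 2 * ((L : ℝ) ^ 2 / n))) -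
      ((b : ℝ) ^ 3 * (N ^ 2 * (vp * (L : ℝ) ^ 2 / n)) + (b : ℝ) ^ 2 * (N ^ 2 * ((L : ℝ) ^ 2 / n))) -
      1 / 2 * ((b : ℝ) ^ 4 * (vp * (N ^ 2 * α))) := by ring
  rw [hfin]
  linarith

end

/-! Row Q6 -/

section

variable {W : Finset V} {P : Type} [Fintype P] {L b D : ℕ} {vp δ : ℝ} {en : V → P → V} {se : V → P → Finset V}

theorem Q6_la_nonneg (ξ ξ' : Spi W P b) (i j : Fin b) : 0 ≤ la G en ξ ξ' i j := by
  unfold la
  split_ifs <;> norm_num

/-- Q6: the average of the triple term. -/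
theorem ph3_avg (hL : Legs G W P L vp en se) (hP : Nonempty P) (hW : W.Nonempty) {α : ℝ}
    (hα : α = (∑ v ∈ W, ((nbIn G W v).card : ℝ)) / (W.card : ℝ) ^ 2) :
    (∑ ξ : Spi W P b, ∑ ξ' : Spi W P b, ∑ ξ'' : Spi W P b, Ph3 G en se ξ ξ' ξ'') /
      (Fintype.card (Spi W P b) : ℝ) ^ 3 ≤ 2 * (b : ℝ) ^ 3 * α * (L : ℝ) ^ 2 / W.card := by
  set N : ℝ := (Fintype.card (Spi W P b) : ℝ) with hN
  have hn : 0 < (W.card : ℝ) := by exact_mod_cast hW.card_pos
  haveI : Nonempty {x // x ∈ W} := ⟨⟨hW.choose, hW.choose_spec⟩⟩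
  have hNe : Nonempty (Spi W P b) := inferInstance
  have hNp : 0 < N := by rw [hN]; exact_mod_cast Fintype.card_pos
  have hla : ∀ i j : Fin b, ∑ ξ : Spi W P b, ∑ ξ' : Spi W P b, la G en ξ ξ' i j = N ^ 2 * α := by
    intro i j
    have h := la_avg hL hP i j
    rw [← hN] at h
    rw [hα, ← mul_div_assoc, eq_div_iff (by positivity)]
    exact h
  have hlh : ∀ (i k : Fin b) (ξ : Spi W P b), ∑ ξ'' : Spi W P b, lh se ξ ξ'' i k ≤
      N * (L : ℝ) ^ 2 / W.card := by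
    intro i k ξ
    rw [le_div_iff₀ hn]
    exact lh_avg hL hP i k ξ
  set C : ℝ := 2 * (N * (L : ℝ) ^ 2 / W.card) with hC
  have h1 : ∀ ξ ξ' : Spi W P b, ∑ ξ'' : Spi W P b, Ph3 G en se ξ ξ' ξ'' ≤
      ∑ i, ∑ j, (b : ℝ) * (la G en ξ ξ' i j * C) := by
    intro ξ ξ'
    unfold Ph3
    rw [Finset.sum_comm]
    refine Finset.sum_le_sum fun i _ => ?_
    rw [Finset.sum_comm]
    refine Finset.sum_le_sum fun j _ => ?_
    rw [Finset.sum_comm]
    have h2 : ∀ k : Fin b, ∑ ξ'' : Spi W P b,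
        la G en ξ ξ' i j * (lh se ξ ξ'' i k + lh se ξ' ξ'' j k) ≤ la G en ξ ξ' i j * C := by
      intro k
      rw [← Finset.mul_sum, Finset.sum_add_distrib]
      refine mul_le_mul_of_nonneg_left ?_ (Q6_la_nonneg ξ ξ' i j)
      have := hlh i k ξ
      have := hlh j k ξ'
      rw [hC]
      linarith
    calc ∑ k : Fin b, ∑ ξ'' : Spi W P b,
        la G en ξ ξ' i j * (lh se ξ ξ'' i k + lh se ξ' ξ'' j k) ≤
        ∑ _k : Fin b, la G en ξ ξ' i j * C := Finset.sum_le_sum fun k _ => h2 k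
      _ = _ := by rw [Finset.sum_const, Finset.card_univ, Fintype.card_fin, nsmul_eq_mul]
  have h3 : ∑ ξ : Spi W P b, ∑ ξ' : Spi W P b, ∑ ξ'' : Spi W P b, Ph3 G en se ξ ξ' ξ'' ≤
      (b : ℝ) ^ 3 * (N ^ 2 * α * C) := by
    calc ∑ ξ : Spi W P b, ∑ ξ' : Spi W P b, ∑ ξ'' : Spi W P b, Ph3 G en se ξ ξ' ξ''
        ≤ ∑ ξ : Spi W P b, ∑ ξ' : Spi W P b, ∑ i, ∑ j, (b : ℝ) * (la G en ξ ξ' i j * C) :=
          Finset.sum_le_sum fun ξ _ => Finset.sum_le_sum fun ξ' _ => h1 ξ ξ'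
      _ = ∑ i : Fin b, ∑ j : Fin b, (b : ℝ) * ((∑ ξ : Spi W P b, ∑ ξ' : Spi W P b,
            la G en ξ ξ' i j) * C) := by
          have e1 : ∀ ξ : Spi W P b, ∑ ξ' : Spi W P b, ∑ i, ∑ j,
              (b : ℝ) * (la G en ξ ξ' i j * C) = ∑ i, ∑ j, ∑ ξ' : Spi W P b,
              (b : ℝ) * (la G en ξ ξ' i j * C) := by
            intro ξ
            rw [Finset.sum_comm]
            exact Finset.sum_congr rfl fun i _ => Finset.sum_comm
          simp only [e1]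
          rw [Finset.sum_comm]
          refine Finset.sum_congr rfl fun i _ => ?_
          rw [Finset.sum_comm]
          refine Finset.sum_congr rfl fun j _ => ?_
          simp only [← Finset.mul_sum, ← Finset.sum_mul]
      _ = _ := by
          simp only [hla]
          simp only [Finset.sum_const, Finset.card_univ, Fintype.card_fin, nsmul_eq_mul]
          ring
  rw [div_le_iff₀ (by positivity)]
  refine h3.trans (le_of_eq ?_)
  rw [hC]
  field_simp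

end

/-! Row Q7 -/

section

variable {W : Finset V} {P : Type} [Fintype P] {L b D : ℕ} {vp δ : ℝ} {en : V → P → V} {se : V → P → Finset V}

theorem Q7_alg {B l n r al de vp x y D : ℝ} (hB : 1 ≤ B) (hl : 1 ≤ l) (hn : 0 < n)
    (hr1 : r * (16 * B * l ^ 2) ≤ n) (hr2 : n < (r + 1) * (16 * B * l ^ 2))
    (hn64 : 64 * B * l ^ 2 ≤ n) (hr : 2 ≤ r) (hal : 0 ≤ al) (hde : de ≤ al * n)
    (hdl : 8 * l ^ 2 ≤ de) (hvp : 16 * B ^ 2 * vp ≤ 1)
    (h1 : (r - 1) * (x - (r - 2) * y) ≤ 2 * D)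
    (h2 : B ^ 2 * al - 2 * B ^ 3 * vp * l ^ 2 / n - 2 * B ^ 2 * l ^ 2 / n -
      (1 / 2) * B ^ 4 * vp * al ≤ x)
    (h3 : y ≤ 2 * B ^ 3 * al * l ^ 2 / n) : B * de ≤ 128 * l ^ 2 * D := by
  have hB0 : 0 < B := by linarith
  have hl0 : 0 < l := by linarith
  have hx : n * (B ^ 2 * al) - 2 * B ^ 3 * vp * l ^ 2 - 2 * B ^ 2 * l ^ 2 -
      n * ((1 / 2) * B ^ 4 * vp * al) ≤ n * x := by
    have h4 := mul_le_mul_of_nonneg_left h2 hn.le
    have h5 : n * (B ^ 2 * al - 2 * B ^ 3 * vp * l ^ 2 / n - 2 * B ^ 2 * l ^ 2 / n -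
      (1 / 2) * B ^ 4 * vp * al) = n * (B ^ 2 * al) - 2 * B ^ 3 * vp * l ^ 2 - 2 * B ^ 2 * l ^ 2 -
      n * ((1 / 2) * B ^ 4 * vp * al) := by
      field_simp
    rw [h5] at h4
    exact h4
  have hy : n * y ≤ 2 * B ^ 3 * al * l ^ 2 := by
    rw [le_div_iff₀ hn] at h3
    linarith
  have e1 : n * ((r - 2) * y) ≤ n * (B ^ 2 * al) / 8 := by
    have h4 : n * ((r - 2) * y) ≤ (r - 2) * (2 * B ^ 3 * al * l ^ 2) := by
      have h5 := mul_le_mul_of_nonneg_left hy (show (0 : ℝ) ≤ r - 2 by linarith)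
      linarith
    have h5 : (r - 2) * (2 * B ^ 3 * al * l ^ 2) ≤ r * (2 * B ^ 3 * al * l ^ 2) :=
      mul_le_mul_of_nonneg_right (by linarith) (by positivity)
    have h6 : r * (2 * B ^ 3 * al * l ^ 2) = (r * (16 * B * l ^ 2)) * (B ^ 2 * al / 8) := by ring
    have h7 : (r * (16 * B * l ^ 2)) * (B ^ 2 * al / 8) ≤ n * (B ^ 2 * al / 8) :=
      mul_le_mul_of_nonneg_right hr1 (by positivity)
    linarith
  have e2 : n * ((1 / 2) * B ^ 4 * vp * al) ≤ n * (B ^ 2 * al) / 32 := by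
    have h4 : n * ((1 / 2) * B ^ 4 * vp * al) = (16 * B ^ 2 * vp) * (n * (B ^ 2 * al) / 32) := by ring
    rw [h4]
    have h5 : 0 ≤ n * (B ^ 2 * al) / 32 := by positivity
    nlinarith
  have e3 : 2 * B ^ 3 * vp * l ^ 2 ≤ B ^ 2 * l ^ 2 / 8 := by
    have h4 : 2 * B ^ 3 * vp * l ^ 2 = (16 * B ^ 2 * vp) * (B * l ^ 2 / 8) := by ring
    have h5 : 0 ≤ B * l ^ 2 / 8 := by positivity
    have h6 : B * l ^ 2 / 8 ≤ B ^ 2 * l ^ 2 / 8 := by
      have h7 : B * l ^ 2 ≤ B ^ 2 * l ^ 2 := mul_le_mul_of_nonneg_right (by nlinarith) (by positivity)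
      linarith
    rw [h4]
    nlinarith
  have e4 : n * (x - (r - 2) * y) ≥ B ^ 2 * de / 2 := by
    have h4 : n * (B ^ 2 * al) ≥ B ^ 2 * de := by
      have h5 := mul_le_mul_of_nonneg_left hde (show (0 : ℝ) ≤ B ^ 2 by positivity)
      linarith
    have h6 : B ^ 2 * l ^ 2 ≤ B ^ 2 * de / 8 := by
      have h5 := mul_le_mul_of_nonneg_left hdl (show (0 : ℝ) ≤ B ^ 2 by positivity)
      linarith
    have h7 : 0 ≤ B ^ 2 * de := by
      have : 0 ≤ de := by nlinarith [sq_nonneg l]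
      positivity
    have h8 : n * (x - (r - 2) * y) = n * x - n * ((r - 2) * y) := by ring
    rw [h8]
    linarith
  have e5 : (r - 1) * (B ^ 2 * de / 2) ≤ n * (2 * D) := by
    have h4 := mul_le_mul_of_nonneg_left e4 (show (0 : ℝ) ≤ r - 1 by linarith)
    have h5 := mul_le_mul_of_nonneg_left h1 hn.le
    linarith
  have e6 : n ≤ (r - 1) * (32 * B * l ^ 2) := by
    have h4 : n < r * (16 * B * l ^ 2) + 16 * B * l ^ 2 := by linarith
    have h5 : (r - 1) * (32 * B * l ^ 2) = 2 * (r * (16 * B * l ^ 2)) - 32 * B * l ^ 2 := by ring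
    rw [h5]
    linarith
  have e7 : n * (B ^ 2 * de / 2) ≤ n * (2 * D) * (32 * B * l ^ 2) := by
    have hde0 : 0 ≤ de := by nlinarith [sq_nonneg l]
    have h4 := mul_le_mul_of_nonneg_right e6 (show (0 : ℝ) ≤ B ^ 2 * de / 2 by positivity)
    have h5 := mul_le_mul_of_nonneg_right e5 (show (0 : ℝ) ≤ 32 * B * l ^ 2 by positivity)
    linarith
  have e8 : (n * B) * (B * de) ≤ (n * B) * (128 * l ^ 2 * D) := by linarith
  exact le_of_mul_le_mul_left e8 (by positivity)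

/-- Q7: the spider theorem. -/
theorem spiders (hL : Legs G W P L vp en se) (hMD : MD G W D) (hP : Nonempty P) (hvp0 : 0 ≤ vp) (hb : 1 ≤ b)
    (h1L : 1 ≤ L) (hδ : ∀ v ∈ W, δ ≤ ((nbIn G W v).card : ℝ)) (hvp : 16 * (b : ℝ) ^ 2 * vp ≤ 1)
    (hδL : 8 * (L : ℝ) ^ 2 ≤ δ) (hn : 64 * b * L ^ 2 ≤ W.card) :
    (b : ℝ) * δ ≤ 128 * (L : ℝ) ^ 2 * D := by
  have hbL : 0 < 16 * b * L ^ 2 := by positivity
  have hcard : 0 < W.card := by
    have h1 : 0 < 64 * b * L ^ 2 := by positivity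
    omega
  have hW : W.Nonempty := Finset.card_pos.1 hcard
  obtain ⟨R, hR⟩ : ∃ R : ℕ, R = W.card / (16 * b * L ^ 2) := ⟨_, rfl⟩
  have hR4 : 4 ≤ R := by
    rw [hR, Nat.le_div_iff_mul_le hbL]
    calc 4 * (16 * b * L ^ 2) = 64 * b * L ^ 2 := by ring
      _ ≤ W.card := hn
  have hr1 : R * (16 * b * L ^ 2) ≤ W.card := by
    rw [hR]
    exact Nat.div_mul_le_self _ _
  have hr2 : W.card < (R + 1) * (16 * b * L ^ 2) := by
    rw [hR]
    exact Nat.lt_mul_of_div_lt (Nat.lt_succ_self _) hbL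
  have hn0 : (0 : ℝ) < W.card := by exact_mod_cast hcard
  obtain ⟨α, hα⟩ : ∃ α : ℝ, α = (∑ v ∈ W, ((nbIn G W v).card : ℝ)) / (W.card : ℝ) ^ 2 := ⟨_, rfl⟩
  have hα0 : 0 ≤ α := by
    rw [hα]
    positivity
  have hde : δ ≤ α * W.card := by
    have h1 : (W.card : ℝ) * δ ≤ ∑ v ∈ W, ((nbIn G W v).card : ℝ) := by
      have h2 := Finset.sum_le_sum hδ
      rw [Finset.sum_const, nsmul_eq_mul] at h2
      exact h2
    have h3 : α * W.card = (∑ v ∈ W, ((nbIn G W v).card : ℝ)) / (W.card : ℝ) := by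
      rw [hα]
      field_simp
    rw [h3, le_div_iff₀ hn0]
    linarith
  refine Q7_alg (B := b) (l := L) (n := W.card) (r := R) (al := α) (vp := vp)
    (by exact_mod_cast hb) (by exact_mod_cast h1L) hn0 (by exact_mod_cast hr1)
    (by exact_mod_cast hr2) (by exact_mod_cast hn) (by exact_mod_cast (by omega : 2 ≤ R)) hα0 hde
    hδL hvp (touch_avg (b := b) hL hMD hW hP (by omega : 2 ≤ R)) (ph2_avg hL hP hW hvp0 hα)
    (ph3_avg hL hP hW hα)

end

end HD
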