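import Pool.Agent.LibHL.BMDefs
import Pool.Agent.LibHD.G

/-!
# LibHL : block (b), disjoint families, maximal density, hubs
-/

set_option autoImplicit false
set_option linter.unusedSectionVars false

open scoped Classical

noncomputable section

namespace HD

variable {V : Type} [Fintype V] [DecidableEq V] {G : SimpleGraph V}

/-- The relation of the star contraction given by the assignment `asg` on `B`. -/
def Jr (G : SimpleGraph V) (A B : Finset V) (asg : V → V) (a a' : V) : Prop :=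
  (∃ b ∈ B, asg b = a ∧ a' ∈ nbIn G A b) ∨ ∃ b ∈ B, asg b = a' ∧ a ∈ nbIn G A b

/-! Row U1 -/

/-- U1: a disjoint connected family without a large clique model has a member touching few others. -/
theorem md_one {U : Finset V} {t D : ℕ} (ht : 1 ≤ t) (hmod : ¬ Model G U t)
    (hD : 2 ^ 20 * (t : ℝ) * (1 + Real.log t) ≤ D) {ι : Type} [Fintype ι] [DecidableEq ι] [Nonempty ι] (F : ι → Finset V)
    (hF : ∀ i, F i ⊆ U ∧ Conn G (F i)) (hd : ∀ i j, i ≠ j → Disjoint (F i) (F j)) :
    ∃ i, (Finset.univ.filter (fun j => j ≠ i ∧ Touch G (F i) (F j))).card ≤ D := by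
  classical
  obtain ⟨n, hn⟩ : ∃ n, n = Fintype.card ι := ⟨_, rfl⟩
  have e : Fin n ≃ ι := (Fintype.equivFinOfCardEq hn.symm).symm
  obtain ⟨P, hPdef⟩ : ∃ P : Fin n → Finset V, ∀ x, P x = F (e x) := ⟨fun x => F (e x), fun _ => rfl⟩
  have hP : ∀ x, P x ⊆ U ∧ Conn G (P x) := fun x => by rw [hPdef]; exact hF (e x)
  have hPd : ∀ x y, x ≠ y → Disjoint (P x) (P y) := fun x y hxy => by
    rw [hPdef, hPdef]
    exact hd _ _ fun h => hxy (e.injective h)
  obtain ⟨Q, hQ'⟩ : ∃ Q : SimpleGraph (Fin n), ∀ x y, Q.Adj x y ↔ x ≠ y ∧ Touch G (P x) (P y) :=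
    ⟨{ Adj := fun x y => x ≠ y ∧ Touch G (P x) (P y)
       symm := ⟨fun x y hxy => ⟨hxy.1.symm, hxy.2.symm⟩⟩
       loopless := ⟨fun x hx => hx.1 rfl⟩ }, fun x y => Iff.rfl⟩
  have hQ : ∀ x y, Q.Adj x y → Touch G (P x) (P y) := fun x y hxy => ((hQ' x y).1 hxy).2
  have hnm : ¬ Model Q Finset.univ t := by
    rintro ⟨f, hf1, hf2⟩
    apply hmod
    refine ⟨fun i => (f i).biUnion P, fun i => ⟨?_, ?_⟩, fun i j hij => ⟨?_, ?_⟩⟩
    · exact Finset.biUnion_subset.2 fun x _ => (hP x).1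
    · exact lift_conn P (fun y => (hP y).2) Q hQ (hf1 i).2
    · rw [Finset.disjoint_left]
      intro u hu hu'
      obtain ⟨x, hx, hux⟩ := Finset.mem_biUnion.1 hu
      obtain ⟨y, hy, huy⟩ := Finset.mem_biUnion.1 hu'
      have hxy : x ≠ y := fun hxy => Finset.disjoint_left.1 (hf2 i j hij).1 hx (hxy ▸ hy)
      exact Finset.disjoint_left.1 (hPd x y hxy) hux huy
    · obtain ⟨x, hx, y, hy, hxy⟩ := (hf2 i j hij).2
      exact (hQ x y hxy).mono (Finset.subset_biUnion_of_mem P hx) (Finset.subset_biUnion_of_mem P hy)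
  have hne : (Finset.univ : Finset (Fin n)).Nonempty := by
    obtain ⟨i⟩ := (inferInstance : Nonempty ι)
    exact ⟨e.symm i, Finset.mem_univ _⟩
  obtain ⟨y, -, hy⟩ := low_degree (G := Q) ht hne hnm
  refine ⟨e y, ?_⟩
  have h1 : (Finset.univ.filter (fun j => j ≠ e y ∧ Touch G (F (e y)) (F j))).card
      ≤ (nbIn Q Finset.univ y).card := by
    refine Finset.card_le_card_of_injOn e.symm (fun j hj => ?_) (e.symm.injective.injOn)
    obtain ⟨-, h2, h3⟩ := Finset.mem_filter.1 (Finset.mem_coe.1 hj)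
    refine Finset.mem_coe.2 (mem_nbIn.2 ⟨Finset.mem_univ _, (hQ' _ _).2 ⟨?_, ?_⟩⟩)
    · intro h4
      exact h2 (by rw [h4, Equiv.apply_symm_apply])
    · rw [hPdef, hPdef, Equiv.apply_symm_apply]
      exact h3
  have h2 : ((nbIn Q Finset.univ y).card : ℝ) ≤ D := hy.trans hD
  exact h1.trans (by exact_mod_cast h2)

/-! Row U2 -/

/-- U2: the sum form, from a degeneracy hypothesis on subfamilies. -/
theorem md_sum {ι : Type} [DecidableEq ι] {D : ℕ} (r : ι → ι → Prop) (hr : ∀ i j, r i j → r j i) (S : Finset ι)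
    (h : ∀ S' ⊆ S, S'.Nonempty → ∃ i ∈ S', (S'.filter (fun j => j ≠ i ∧ r i j)).card ≤ D) :
    ∑ i ∈ S, (S.filter (fun j => j ≠ i ∧ r i j)).card ≤ 2 * D * S.card := by
  induction S using Finset.strongInduction with
  | H S ih =>
    rcases S.eq_empty_or_nonempty with hS | hS
    · subst hS
      simp
    · obtain ⟨i, hi, hci⟩ := h S (Finset.Subset.refl _) hS
      have h1 := ih (S.erase i) (Finset.erase_ssubset hi)
        (fun S' hS' => h S' (hS'.trans (Finset.erase_subset i S)))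
      have h2 : ∀ j ∈ S.erase i, (S.filter (fun m => m ≠ j ∧ r j m)).card ≤
          ((S.erase i).filter (fun m => m ≠ j ∧ r j m)).card + (if r i j then 1 else 0) := by
        intro j hj
        by_cases hij : r i j
        · rw [if_pos hij]
          have h3 : S.filter (fun m => m ≠ j ∧ r j m) ⊆
              insert i ((S.erase i).filter (fun m => m ≠ j ∧ r j m)) := by
            intro m hm
            rw [Finset.mem_filter] at hm
            by_cases hmi : m = i
            · rw [hmi]; exact Finset.mem_insert_self _ _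
            · exact Finset.mem_insert_of_mem
                (Finset.mem_filter.2 ⟨Finset.mem_erase.2 ⟨hmi, hm.1⟩, hm.2⟩)
          exact (Finset.card_le_card h3).trans (Finset.card_insert_le _ _)
        · rw [if_neg hij, add_zero]
          refine Finset.card_le_card fun m hm => ?_
          rw [Finset.mem_filter] at hm
          refine Finset.mem_filter.2 ⟨Finset.mem_erase.2 ⟨?_, hm.1⟩, hm.2⟩
          intro hmi
          rw [hmi] at hm
          exact hij (hr _ _ hm.2.2)
      have h3 : ∑ j ∈ S.erase i, (if r i j then 1 else 0) ≤ D := by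
        rw [← Finset.card_filter]
        refine (Finset.card_le_card fun m hm => ?_).trans hci
        rw [Finset.mem_filter, Finset.mem_erase] at hm
        exact Finset.mem_filter.2 ⟨hm.1.2, hm.1.1, hm.2⟩
      have h4 := Finset.sum_le_sum h2
      rw [Finset.sum_add_distrib] at h4
      rw [← Finset.add_sum_erase S _ hi]
      have h5 : S.card = (S.erase i).card + 1 := (Finset.card_erase_add_one hi).symm
      have h6 : 2 * D * S.card = 2 * D * (S.erase i).card + 2 * D := by rw [h5]; ring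
      rw [h6]
      omega

/-! Row U3 -/

theorem U3_aux {D : ℕ} (A : Finset V) (r : V → V → Prop) (hr : ∀ i j, r i j → r j i)
    (h : ∀ S : Finset V, S ⊆ A → S.Nonempty → ∃ i ∈ S, (S.filter (fun j => j ≠ i ∧ r i j)).card ≤ D)
    (S : Finset V) (hS : S ⊆ A) :
    ∃ O : V → Finset V, (∀ a, O a ⊆ S ∧ (O a).card ≤ D) ∧
      ∀ a ∈ S, ∀ a' ∈ S, a ≠ a' → r a a' → a' ∈ O a ∨ a ∈ O a' := by
  induction S using Finset.strongInduction with
  | H S ih =>
    rcases S.eq_empty_or_nonempty with hE | hE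
    · refine ⟨fun _ => ∅, fun a => ⟨Finset.empty_subset _, ?_⟩, ?_⟩
      · rw [Finset.card_empty]; exact Nat.zero_le _
      · intro a ha
        rw [hE] at ha
        exact absurd ha (Finset.notMem_empty a)
    · obtain ⟨i, hi, hci⟩ := h S hS hE
      obtain ⟨O, hO1, hO2⟩ := ih (S.erase i) (Finset.erase_ssubset hi)
        ((Finset.erase_subset i S).trans hS)
      refine ⟨fun a => if a = i then S.filter (fun j => j ≠ i ∧ r i j) else O a, fun a => ?_, ?_⟩
      · by_cases ha : a = i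
        · simp only [ha, if_true]
          exact ⟨Finset.filter_subset _ _, hci⟩
        · simp only [ha, if_false]
          exact ⟨(hO1 a).1.trans (Finset.erase_subset i S), (hO1 a).2⟩
      · intro a ha a' ha' hne hra
        by_cases h1 : a = i
        · left
          simp only [h1, if_true]
          rw [h1] at hra hne
          exact Finset.mem_filter.2 ⟨ha', hne.symm, hra⟩
        · by_cases h2 : a' = i
          · right
            simp only [h2, if_true]
            rw [h2] at hra hne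
            exact Finset.mem_filter.2 ⟨ha, hne, hr _ _ hra⟩
          · simp only [h1, h2, if_false]
            exact hO2 a (Finset.mem_erase.2 ⟨h1, ha⟩) a' (Finset.mem_erase.2 ⟨h2, ha'⟩) hne hra

/-- U3: orientation of a degenerate relation. -/
theorem orient {D : ℕ} (A : Finset V) (r : V → V → Prop) (hr : ∀ i j, r i j → r j i)
    (h : ∀ S : Finset V, S ⊆ A → S.Nonempty → ∃ i ∈ S, (S.filter (fun j => j ≠ i ∧ r i j)).card ≤ D) :
    ∃ O : V → Finset V, (∀ a, O a ⊆ A ∧ (O a).card ≤ D) ∧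
      ∀ a ∈ A, ∀ a' ∈ A, a ≠ a' → r a a' → a' ∈ O a ∨ a ∈ O a' := by
  exact U3_aux A r hr h A (Finset.Subset.refl A)

/-! Row U4 -/

theorem U4_erase {W : Finset V} {v : V} (hv : v ∈ W) :
    dg G W ≤ dg G (W.erase v) + 2 * (nbIn G W v).card := by
  unfold dg
  rw [← Finset.add_sum_erase W _ hv]
  have h1 : ∀ x ∈ W.erase v, (nbIn G W x).card ≤
      (nbIn G (W.erase v) x).card + (if G.Adj v x then 1 else 0) := by
    intro x hx
    by_cases hvx : G.Adj v x
    · rw [if_pos hvx]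
      have h3 : nbIn G W x ⊆ insert v (nbIn G (W.erase v) x) := by
        intro m hm
        rw [mem_nbIn] at hm
        by_cases hmv : m = v
        · rw [hmv]; exact Finset.mem_insert_self _ _
        · exact Finset.mem_insert_of_mem (mem_nbIn.2 ⟨Finset.mem_erase.2 ⟨hmv, hm.1⟩, hm.2⟩)
      exact (Finset.card_le_card h3).trans (Finset.card_insert_le _ _)
    · rw [if_neg hvx, add_zero]
      refine Finset.card_le_card fun m hm => ?_
      rw [mem_nbIn] at hm
      refine mem_nbIn.2 ⟨Finset.mem_erase.2 ⟨?_, hm.1⟩, hm.2⟩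
      intro hmv
      rw [hmv] at hm
      exact hvx hm.2.symm
  have h2 : ∑ x ∈ W.erase v, (if G.Adj v x then 1 else 0) ≤ (nbIn G W v).card := by
    rw [← Finset.card_filter]
    refine Finset.card_le_card fun m hm => ?_
    rw [Finset.mem_filter, Finset.mem_erase] at hm
    exact mem_nbIn.2 ⟨hm.1.2, hm.2⟩
  have h3 := Finset.sum_le_sum h1
  rw [Finset.sum_add_distrib] at h3
  omega

/-- U4: maximal density. -/
theorem max_density {U : Finset V} (hU : U.Nonempty) :
    ∃ W ⊆ U, W.Nonempty ∧ dg G U * W.card ≤ dg G W * U.card ∧ ∀ X ⊆ W, dg G X * W.card ≤ dg G W * X.card := by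
  obtain ⟨W, hW, hmax⟩ := Finset.exists_max_image (U.powerset.filter (fun W => W.Nonempty))
    (fun W => (dg G W : ℚ) / W.card)
    ⟨U, Finset.mem_filter.2 ⟨Finset.mem_powerset.2 (Finset.Subset.refl U), hU⟩⟩
  rw [Finset.mem_filter, Finset.mem_powerset] at hW
  have key : ∀ X ⊆ U, dg G X * W.card ≤ dg G W * X.card := by
    intro X hX
    rcases X.eq_empty_or_nonempty with hE | hE
    · rw [hE]
      unfold dg
      simp
    · have h1 := hmax X (Finset.mem_filter.2 ⟨Finset.mem_powerset.2 hX, hE⟩)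
      have h2 : (0 : ℚ) < X.card := by exact_mod_cast hE.card_pos
      have h3 : (0 : ℚ) < W.card := by exact_mod_cast hW.2.card_pos
      rw [div_le_div_iff₀ h2 h3] at h1
      exact_mod_cast h1
  exact ⟨W, hW.1, hW.2, key U (Finset.Subset.refl U), fun X hX => key X (hX.trans hW.1)⟩

/-- U5: in a set of maximal density all degrees are at least half the average degree. -/
theorem max_density_deg {W : Finset V} (hW : W.Nonempty) (h : ∀ X ⊆ W, dg G X * W.card ≤ dg G W * X.card) :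
    ∀ v ∈ W, dg G W ≤ 2 * (nbIn G W v).card * W.card := by
  intro v hv
  have h1 := h (W.erase v) (Finset.erase_subset v W)
  have h2 := U4_erase (G := G) hv
  have h3 : W.card = (W.erase v).card + 1 := (Finset.card_erase_add_one hv).symm
  generalize (W.erase v).card = n at h1 h3
  generalize dg G (W.erase v) = e at h1 h2
  generalize dg G W = g at h1 h2 ⊢
  generalize (nbIn G W v).card = c at h2 ⊢
  rw [h3] at h1 ⊢
  nlinarith

/-! Row U6 -/

theorem U6_symm {A B : Finset V} {asg : V → V} {a a' : V} (h : Jr G A B asg a a') :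
    Jr G A B asg a' a := h.symm

theorem U6_mono {A B : Finset V} {asg : V → V} {b₀ a₀ : V} (hb : b₀ ∉ B) {a a' : V}
    (h : Jr G A B asg a a') : Jr G A (insert b₀ B) (Function.update asg b₀ a₀) a a' := by
  have h1 : ∀ b ∈ B, Function.update asg b₀ a₀ b = asg b := fun b hbB =>
    Function.update_of_ne (ne_of_mem_of_not_mem hbB hb) _ _
  rcases h with ⟨b, hbB, h2, h3⟩ | ⟨b, hbB, h2, h3⟩
  · exact Or.inl ⟨b, Finset.mem_insert_of_mem hbB, (h1 b hbB).trans h2, h3⟩
  · exact Or.inr ⟨b, Finset.mem_insert_of_mem hbB, (h1 b hbB).trans h2, h3⟩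

/-- The best vertex of a nonempty set with at most `l` elements. -/
theorem U6_best {N : Finset V} {l : ℕ} (hN : N.Nonempty) (hl : N.card ≤ l) (r : V → V → Prop) :
    ∃ a₀ ∈ N, ((N ×ˢ N).filter (fun p => p.1 ≠ p.2 ∧ ¬ r p.1 p.2)).card ≤
      l * (N.filter (fun a => a₀ ≠ a ∧ ¬ r a₀ a)).card := by
  obtain ⟨a₀, ha₀, hmax⟩ := Finset.exists_max_image N
    (fun a => (N.filter (fun a' => a ≠ a' ∧ ¬ r a a')).card) hN
  refine ⟨a₀, ha₀, ?_⟩
  have h1 : ((N ×ˢ N).filter (fun p => p.1 ≠ p.2 ∧ ¬ r p.1 p.2)).card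
      = ∑ a ∈ N, (N.filter (fun a' => a ≠ a' ∧ ¬ r a a')).card := by
    rw [Finset.card_filter, Finset.sum_product]
    exact Finset.sum_congr rfl fun a _ => by rw [Finset.card_filter]
  rw [h1]
  refine (Finset.sum_le_card_nsmul _ _ _ fun a ha => hmax a ha).trans ?_
  rw [smul_eq_mul]
  exact Nat.mul_le_mul_right _ hl

/-- U6: greedy star contraction. -/
theorem greedy {A : Finset V} {l : ℕ} (B : Finset V) (hBA : Disjoint A B)
    (hB : ∀ b ∈ B, 1 ≤ (nbIn G A b).card ∧ (nbIn G A b).card ≤ l) :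
    ∃ asg : V → V, (∀ b ∈ B, asg b ∈ nbIn G A b) ∧
      ∑ b ∈ B, ((nbIn G A b ×ˢ nbIn G A b).filter (fun p => p.1 ≠ p.2 ∧ ¬ Jr G A B asg p.1 p.2)).card * 2 ≤
        l * ((A ×ˢ A).filter (fun p => p.1 ≠ p.2 ∧ Jr G A B asg p.1 p.2)).card := by
  classical
  induction B using Finset.induction_on with
  | empty => exact ⟨id, fun b hb => absurd hb (Finset.notMem_empty b), by simp⟩
  | insert b₀ B hb₀ ih =>
    obtain ⟨asg, has1, has2⟩ := ih (Finset.disjoint_of_subset_right (Finset.subset_insert b₀ B) hBA)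
      (fun b hb => hB b (Finset.mem_insert_of_mem hb))
    have hN := hB b₀ (Finset.mem_insert_self b₀ B)
    obtain ⟨N, hNdef⟩ : ∃ N, N = nbIn G A b₀ := ⟨_, rfl⟩
    rw [← hNdef] at hN
    obtain ⟨a₀, ha₀, hbest⟩ := U6_best (N := N) (Finset.card_pos.1 hN.1) hN.2 (Jr G A B asg)
    have hNA : N ⊆ A := by
      intro a ha
      rw [hNdef] at ha
      exact (mem_nbIn.1 ha).1
    have hmono : ∀ {a a' : V}, Jr G A B asg a a' →
        Jr G A (insert b₀ B) (Function.update asg b₀ a₀) a a' := fun h => U6_mono hb₀ h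
    have hself : Function.update asg b₀ a₀ b₀ = a₀ := Function.update_self _ _ _
    refine ⟨Function.update asg b₀ a₀, ?_, ?_⟩
    · intro b hb
      rcases Finset.mem_insert.1 hb with h1 | h1
      · rw [h1, hself, ← hNdef]; exact ha₀
      · rw [Function.update_of_ne (ne_of_mem_of_not_mem h1 hb₀)]
        exact has1 b h1
    · obtain ⟨J', hJ'⟩ : ∃ J' : V → V → Prop, J' =
          Jr G A (insert b₀ B) (Function.update asg b₀ a₀) := ⟨_, rfl⟩
      obtain ⟨J, hJ⟩ : ∃ J : V → V → Prop, J = Jr G A B asg := ⟨_, rfl⟩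
      rw [← hJ'] at hmono ⊢
      rw [← hJ] at hmono hbest has2
      obtain ⟨Z, hZ⟩ : ∃ Z, Z = N.filter (fun a => a₀ ≠ a ∧ ¬ J a₀ a) := ⟨_, rfl⟩
      rw [← hZ] at hbest
      have hJs : ∀ {a a' : V}, J a a' → J a' a := fun h => by
        rw [hJ] at h ⊢
        exact U6_symm h
      have hnew : ∀ a' ∈ N, J' a₀ a' := by
        intro a' ha'
        rw [hJ']
        rw [hNdef] at ha'
        exact Or.inl ⟨b₀, Finset.mem_insert_self _ _, hself, ha'⟩
      have hJs' : ∀ {a a' : V}, J' a a' → J' a' a := fun h => by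
        rw [hJ'] at h ⊢
        exact U6_symm h
      -- the sum over `B` only decreases
      have h1 : ∀ b ∈ B, ((nbIn G A b ×ˢ nbIn G A b).filter
          (fun p => p.1 ≠ p.2 ∧ ¬ J' p.1 p.2)).card * 2 ≤
          ((nbIn G A b ×ˢ nbIn G A b).filter (fun p => p.1 ≠ p.2 ∧ ¬ J p.1 p.2)).card * 2 := by
        intro b _
        refine Nat.mul_le_mul_right 2 (Finset.card_le_card fun p hp => ?_)
        rw [Finset.mem_filter] at hp ⊢
        exact ⟨hp.1, hp.2.1, fun h => hp.2.2 (hmono h)⟩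
      have h2 : ((N ×ˢ N).filter (fun p => p.1 ≠ p.2 ∧ ¬ J' p.1 p.2)).card ≤
          ((N ×ˢ N).filter (fun p => p.1 ≠ p.2 ∧ ¬ J p.1 p.2)).card := by
        refine Finset.card_le_card fun p hp => ?_
        rw [Finset.mem_filter] at hp ⊢
        exact ⟨hp.1, hp.2.1, fun h => hp.2.2 (hmono h)⟩
      -- the new pairs
      have h3 : ((A ×ˢ A).filter (fun p => p.1 ≠ p.2 ∧ J p.1 p.2)).card + (Z.card + Z.card) ≤
          ((A ×ˢ A).filter (fun p => p.1 ≠ p.2 ∧ J' p.1 p.2)).card := by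
        have hZm : ∀ {a : V}, a ∈ Z ↔ a ∈ N ∧ a₀ ≠ a ∧ ¬ J a₀ a := fun {a} => by
          rw [hZ, Finset.mem_filter]
        have hc1 : (({a₀} : Finset V) ×ˢ Z).card = Z.card := by
          rw [Finset.card_product, Finset.card_singleton, one_mul]
        have hc2 : (Z ×ˢ ({a₀} : Finset V)).card = Z.card := by
          rw [Finset.card_product, Finset.card_singleton, mul_one]
        have hd1 : Disjoint (({a₀} : Finset V) ×ˢ Z) (Z ×ˢ ({a₀} : Finset V)) := by
          rw [Finset.disjoint_left]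
          intro p hp hp'
          rw [Finset.mem_product, Finset.mem_singleton] at hp hp'
          exact (hZm.1 hp'.1).2.1 hp.1.symm
        have hd2 : Disjoint ((A ×ˢ A).filter (fun p => p.1 ≠ p.2 ∧ J p.1 p.2))
            ((({a₀} : Finset V) ×ˢ Z) ∪ (Z ×ˢ ({a₀} : Finset V))) := by
          rw [Finset.disjoint_left]
          intro p hp hp'
          rw [Finset.mem_filter] at hp
          rw [Finset.mem_union, Finset.mem_product, Finset.mem_product, Finset.mem_singleton,
            Finset.mem_singleton] at hp'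
          rcases hp' with h | h
          · have h5 := (hZm.1 h.2).2.2
            rw [← h.1] at h5
            exact h5 hp.2.2
          · have h5 := (hZm.1 h.1).2.2
            rw [← h.2] at h5
            exact h5 (hJs hp.2.2)
        have hcc : ((A ×ˢ A).filter (fun p => p.1 ≠ p.2 ∧ J p.1 p.2)).card + (Z.card + Z.card)
            = ((A ×ˢ A).filter (fun p => p.1 ≠ p.2 ∧ J p.1 p.2) ∪
              ((({a₀} : Finset V) ×ˢ Z) ∪ (Z ×ˢ ({a₀} : Finset V)))).card := by
          rw [Finset.card_union_of_disjoint hd2, Finset.card_union_of_disjoint hd1, hc1, hc2]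
        rw [hcc]
        refine Finset.card_le_card fun p hp => ?_
        rw [Finset.mem_union, Finset.mem_filter, Finset.mem_union, Finset.mem_product,
          Finset.mem_product, Finset.mem_product, Finset.mem_singleton, Finset.mem_singleton] at hp
        rw [Finset.mem_filter, Finset.mem_product]
        rcases hp with hp | hp | hp
        · exact ⟨hp.1, hp.2.1, hmono hp.2.2⟩
        · have h5 := hZm.1 hp.2
          rw [hp.1]
          exact ⟨⟨hNA ha₀, hNA h5.1⟩, h5.2.1, hnew _ h5.1⟩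
        · have h5 := hZm.1 hp.1
          rw [hp.2]
          exact ⟨⟨hNA h5.1, hNA ha₀⟩, h5.2.1.symm, hJs' (hnew _ h5.1)⟩
      rw [Finset.sum_insert hb₀, ← hNdef]
      have h4 := Finset.sum_le_sum h1
      have h5 : l * (((A ×ˢ A).filter (fun p => p.1 ≠ p.2 ∧ J p.1 p.2)).card + (Z.card + Z.card)) ≤
          l * ((A ×ˢ A).filter (fun p => p.1 ≠ p.2 ∧ J' p.1 p.2)).card := Nat.mul_le_mul_left l h3
      rw [Nat.mul_add, Nat.mul_add] at h5
      omega

/-! Row U7 -/

theorem jr_degen {U A B : Finset V} {t D : ℕ} {asg : V → V} (ht : 1 ≤ t) (hmod : ¬ Model G U t)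
    (hD : 2 ^ 20 * (t : ℝ) * (1 + Real.log t) ≤ D) (hA : A ⊆ U) (hB : B ⊆ U) (hAB : Disjoint A B)
    (hasg : ∀ b ∈ B, asg b ∈ nbIn G A b) :
    ∀ S : Finset V, S ⊆ A → S.Nonempty → ∃ i ∈ S, (S.filter (fun j => j ≠ i ∧ Jr G A B asg i j)).card ≤ D := by
  intro S hS hSne
  have hne : Nonempty {a // a ∈ S} := ⟨⟨hSne.choose, hSne.choose_spec⟩⟩
  obtain ⟨i, hi⟩ := md_one (G := G) (U := U) (t := t) (D := D) ht hmod hD (ι := {a // a ∈ S})
    (fun a => insert a.1 (B.filter (fun b => asg b = a.1))) (by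
      intro a
      have haA : a.1 ∈ A := hS a.2
      refine ⟨?_, ?_⟩
      · intro z hz
        rcases Finset.mem_insert.1 hz with h | h
        · rw [h]
          exact hA haA
        · exact hB (Finset.mem_filter.1 h).1
      · refine conn_of_joined (x := a.1) (Finset.mem_insert_self _ _) ?_
        intro y hy
        rcases Finset.mem_insert.1 hy with h | h
        · rw [h]
          exact ⟨{a.1}, by
            intro z hz
            rw [Finset.mem_singleton] at hz
            rw [hz]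
            exact Finset.mem_insert_self _ _, Finset.mem_singleton_self _, Finset.mem_singleton_self _,
            conn_singleton _⟩
        · have h1 := (Finset.mem_filter.1 h)
          have h2 := hasg y h1.1
          rw [h1.2, mem_nbIn] at h2
          exact joined_of_adj (Finset.mem_insert_self _ _) hy h2.2.symm)
    (by
      intro a a' haa
      rw [Finset.disjoint_left]
      intro z hz hz'
      have hne : a.1 ≠ a'.1 := fun h => haa (Subtype.ext h)
      rcases Finset.mem_insert.1 hz with h | h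
      · rcases Finset.mem_insert.1 hz' with h' | h'
        · exact hne (h.symm.trans h')
        · exact Finset.disjoint_left.1 hAB (hS a.2) (h ▸ (Finset.mem_filter.1 h').1)
      · rcases Finset.mem_insert.1 hz' with h' | h'
        · exact Finset.disjoint_left.1 hAB (hS a'.2) (h' ▸ (Finset.mem_filter.1 h).1)
        · exact hne ((Finset.mem_filter.1 h).2.symm.trans (Finset.mem_filter.1 h').2))
  refine ⟨i.1, i.2, le_trans ?_ hi⟩
  refine Finset.card_le_card_of_injOn (fun j => if h : j ∈ S then ⟨j, h⟩ else i) ?_ ?_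
  · intro j hj
    obtain ⟨h2, h3, h4⟩ := Finset.mem_filter.1 hj
    simp only [h2, dif_pos]
    refine Finset.mem_coe.2 (Finset.mem_filter.2 ⟨Finset.mem_univ _, ?_, ?_⟩)
    · intro h5
      exact h3 (congrArg Subtype.val h5)
    · rcases h4 with ⟨b, hb, hb1, hb2⟩ | ⟨b, hb, hb1, hb2⟩
      · exact ⟨b, Finset.mem_insert_of_mem (Finset.mem_filter.2 ⟨hb, hb1⟩), j, Finset.mem_insert_self _ _,
          (mem_nbIn.1 hb2).2⟩
      · exact ⟨i.1, Finset.mem_insert_self _ _, b, Finset.mem_insert_of_mem (Finset.mem_filter.2 ⟨hb, hb1⟩),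
          (mem_nbIn.1 hb2).2.symm⟩
  · intro j hj j' hj' h5
    obtain ⟨h2, -, -⟩ := Finset.mem_filter.1 (Finset.mem_coe.1 hj)
    obtain ⟨h2', -, -⟩ := Finset.mem_filter.1 (Finset.mem_coe.1 hj')
    simp only [h2, h2', dif_pos] at h5
    exact congrArg Subtype.val h5

/-! Row U8 -/

theorem U8_card (Y : Finset V) (x : V) :
    (nbIn G Y x).card = ∑ y ∈ Y, if G.Adj x y then 1 else 0 := by
  unfold nbIn
  rw [Finset.card_filter]

theorem U8_union (X Y : Finset V) (h : Disjoint X Y) (v : V) :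
    (nbIn G (X ∪ Y) v).card = (nbIn G X v).card + (nbIn G Y v).card := by
  rw [U8_card, U8_card, U8_card, Finset.sum_union h]

theorem U8_double (X Y : Finset V) :
    ∑ v ∈ X, (nbIn G Y v).card = ∑ v ∈ Y, (nbIn G X v).card := by
  simp only [U8_card]
  rw [Finset.sum_comm]
  refine Finset.sum_congr rfl fun v _ => Finset.sum_congr rfl fun u _ => ?_
  by_cases h : G.Adj u v
  · rw [if_pos h, if_pos h.symm]
  · rw [if_neg h, if_neg (fun h' => h h'.symm)]

theorem U8_split (X Y : Finset V) (h : Disjoint X Y) :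
    dg G (X ∪ Y) = dg G X + dg G Y + 2 * ∑ b ∈ Y, (nbIn G X b).card := by
  unfold dg
  rw [Finset.sum_union h]
  simp only [U8_union X Y h]
  rw [Finset.sum_add_distrib, Finset.sum_add_distrib, U8_double X Y]
  ring

theorem U8_sub {X Y : Finset V} (h : X ⊆ Y) (v : V) : (nbIn G X v).card ≤ (nbIn G Y v).card :=
  Finset.card_le_card (Finset.filter_subset_filter _ h)

/-- U8: counting: many low-degree vertices with many hub neighbours. -/
theorem hub_count {W A : Finset V} {d : ℝ} (hd : 8 ≤ d) (hW : W.Nonempty) (hA : A ⊆ W)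
    (hdens : ∀ X ⊆ W, (dg G X : ℝ) ≤ 2 * d * X.card) (hdW : (dg G W : ℝ) = 2 * d * W.card)
    (hAc : 2 ^ 20 * (A.card : ℝ) ≤ W.card) (hout : (dg G (W \ A) : ℝ) < d / 2 * W.card) :
    (W.card : ℝ) ≤ 64 * (((W \ A).filter (fun b => d / 4 ≤ ((nbIn G A b).card : ℝ) ∧
      ((nbIn G W b).card : ℝ) ≤ 16 * d)).card : ℝ) := by
  have hd0 : 0 < d := by linarith
  have hn0 : 0 ≤ (W.card : ℝ) := Nat.cast_nonneg _
  have hA0 : 0 ≤ (A.card : ℝ) := Nat.cast_nonneg _
  have hAL : Disjoint A (W \ A) := Finset.disjoint_sdiff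
  have hun : A ∪ (W \ A) = W := Finset.union_sdiff_of_subset hA
  -- step 1
  have h1 : (dg G W : ℝ) = dg G A + dg G (W \ A) + 2 * ∑ b ∈ W \ A, ((nbIn G A b).card : ℝ) := by
    have := U8_split (G := G) A (W \ A) hAL
    rw [hun] at this
    rw [this]
    push_cast
    ring
  have h2 : (dg G A : ℝ) ≤ 2 * d * A.card := hdens A hA
  -- the three parts
  set L2 : Finset V := (W \ A).filter (fun b => 16 * d < ((nbIn G W b).card : ℝ)) with hL2
  set B1 : Finset V := (W \ A).filter (fun b => d / 4 ≤ ((nbIn G A b).card : ℝ) ∧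
      ((nbIn G W b).card : ℝ) ≤ 16 * d) with hB1
  have hsplit : ∑ b ∈ W \ A, ((nbIn G A b).card : ℝ) ≤
      ∑ b ∈ W \ A, (d / 4) + ∑ b ∈ L2, ((nbIn G A b).card : ℝ) + ∑ b ∈ B1, ((nbIn G A b).card : ℝ) := by
    rw [hL2, hB1, Finset.sum_filter, Finset.sum_filter, ← Finset.sum_add_distrib, ← Finset.sum_add_distrib]
    refine Finset.sum_le_sum fun b _ => ?_
    have hs : 0 ≤ ((nbIn G A b).card : ℝ) := Nat.cast_nonneg _
    by_cases c1 : 16 * d < ((nbIn G W b).card : ℝ)
    · rw [if_pos c1, if_neg (fun h => absurd h.2 (not_le.2 c1))]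
      linarith
    · rw [if_neg c1]
      by_cases c2 : d / 4 ≤ ((nbIn G A b).card : ℝ)
      · rw [if_pos ⟨c2, not_lt.1 c1⟩]
        linarith
      · rw [if_neg (fun h => c2 h.1)]
        linarith [not_le.1 c2]
  have hLc : ((W \ A).card : ℝ) ≤ W.card := by
    exact_mod_cast Finset.card_le_card Finset.sdiff_subset
  have h3 : ∑ b ∈ W \ A, (d / 4) ≤ d * W.card / 4 := by
    rw [Finset.sum_const, nsmul_eq_mul]
    nlinarith
  -- step 3
  have hL2W : L2 ⊆ W := (Finset.filter_subset _ _).trans Finset.sdiff_subset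
  have h4 : 16 * d * L2.card ≤ 2 * d * W.card := by
    rw [← hdW]
    have e1 : ∑ b ∈ L2, (16 * d) ≤ ∑ b ∈ L2, ((nbIn G W b).card : ℝ) := by
      refine Finset.sum_le_sum fun b hb => ?_
      exact le_of_lt (Finset.mem_filter.1 hb).2
    have e2 : ∑ b ∈ L2, ((nbIn G W b).card : ℝ) ≤ ∑ b ∈ W, ((nbIn G W b).card : ℝ) :=
      Finset.sum_le_sum_of_subset_of_nonneg hL2W (fun b _ _ => Nat.cast_nonneg _)
    have e3 : (dg G W : ℝ) = ∑ b ∈ W, ((nbIn G W b).card : ℝ) := by
      unfold dg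
      push_cast
      rfl
    rw [Finset.sum_const, nsmul_eq_mul] at e1
    rw [e3]
    linarith
  have h5 : (L2.card : ℝ) ≤ W.card / 8 := by
    have : d * (16 * L2.card) ≤ d * (2 * W.card) := by linarith
    have := le_of_mul_le_mul_left this hd0
    linarith
  have hAL2 : Disjoint A L2 := hAL.mono_right (Finset.filter_subset _ _)
  have h6 : 2 * ∑ b ∈ L2, ((nbIn G A b).card : ℝ) ≤ 2 * d * (A.card + L2.card) := by
    have e1 := hdens (A ∪ L2) (Finset.union_subset hA hL2W)
    rw [U8_split A L2 hAL2, Finset.card_union_of_disjoint hAL2] at e1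
    push_cast at e1
    have e2 : 0 ≤ (dg G A : ℝ) := Nat.cast_nonneg _
    have e3 : 0 ≤ (dg G L2 : ℝ) := Nat.cast_nonneg _
    linarith
  have h7 : ∑ b ∈ L2, ((nbIn G A b).card : ℝ) ≤ d * A.card + d * (W.card / 8) := by
    have := mul_le_mul_of_nonneg_left h5 hd0.le
    linarith
  -- step 4
  have h8 : ∑ b ∈ B1, ((nbIn G A b).card : ℝ) ≤ 16 * d * B1.card := by
    have e1 : ∑ b ∈ B1, ((nbIn G A b).card : ℝ) ≤ ∑ b ∈ B1, (16 * d) := by
      refine Finset.sum_le_sum fun b hb => ?_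
      have e2 := (Finset.mem_filter.1 hb).2.2
      have e3 : ((nbIn G A b).card : ℝ) ≤ ((nbIn G W b).card : ℝ) := by
        exact_mod_cast U8_sub hA b
      linarith
    rw [Finset.sum_const, nsmul_eq_mul] at e1
    linarith
  have h9 : d * (2 ^ 20 * (A.card : ℝ)) ≤ d * W.card := mul_le_mul_of_nonneg_left hAc hd0.le
  have h10 : d * (W.card : ℝ) ≤ d * (64 * B1.card) := by
    have hdn : 0 ≤ d * (W.card : ℝ) := mul_nonneg hd0.le hn0
    nlinarith
  exact le_of_mul_le_mul_left h10 hd0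

/-! Row U9 -/

theorem U9_a {N : Finset V} {d : ℝ} (hd : 8 ≤ d) (h : d / 4 ≤ (N.card : ℝ)) :
    d ^ 2 / 32 ≤ (((N ×ˢ N).filter (fun p => p.1 ≠ p.2)).card : ℝ) := by
  have h1 : (N ×ˢ N).filter (fun p => p.1 ≠ p.2) = N.offDiag := by
    ext p
    simp only [Finset.mem_filter, Finset.mem_product, Finset.mem_offDiag, and_assoc]
  have h2 : N.card ≤ N.card * N.card := Nat.le_mul_self _
  rw [h1, Finset.offDiag_card, Nat.cast_sub h2]
  push_cast
  nlinarith

theorem U9_b {N : Finset V} (r : V → V → Prop) (O : V → Finset V)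
    (hr : ∀ a ∈ N, ∀ a' ∈ N, a ≠ a' → r a a' → a' ∈ O a ∨ a ∈ O a') :
    ((N ×ˢ N).filter (fun p => p.1 ≠ p.2)).card ≤
      ((N ×ˢ N).filter (fun p => p.1 ≠ p.2 ∧ ¬ r p.1 p.2)).card +
        2 * ∑ a ∈ N, (N.filter (fun x => x ∈ O a)).card := by
  have h1 : ∑ a ∈ N, (N.filter (fun x => x ∈ O a)).card =
      ((N ×ˢ N).filter (fun p => p.2 ∈ O p.1)).card := by
    rw [Finset.card_filter, Finset.sum_product]
    refine Finset.sum_congr rfl fun a _ => ?_
    rw [Finset.card_filter]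
  have h2 : ((N ×ˢ N).filter (fun p => p.1 ∈ O p.2)).card =
      ((N ×ˢ N).filter (fun p => p.2 ∈ O p.1)).card := by
    refine Finset.card_bij (fun p _ => p.swap) ?_ ?_ ?_
    · intro p hp
      simp only [Finset.mem_filter, Finset.mem_product, Prod.fst_swap, Prod.snd_swap] at hp ⊢
      exact ⟨⟨hp.1.2, hp.1.1⟩, hp.2⟩
    · intro p _ q _ h
      exact Prod.swap_injective h
    · intro p hp
      simp only [Finset.mem_filter, Finset.mem_product] at hp
      refine ⟨p.swap, ?_, Prod.swap_swap p⟩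
      simp only [Finset.mem_filter, Finset.mem_product, Prod.fst_swap, Prod.snd_swap]
      exact ⟨⟨hp.1.2, hp.1.1⟩, hp.2⟩
  have h3 : (N ×ˢ N).filter (fun p => p.1 ≠ p.2) ⊆
      (N ×ˢ N).filter (fun p => p.1 ≠ p.2 ∧ ¬ r p.1 p.2) ∪
        ((N ×ˢ N).filter (fun p => p.2 ∈ O p.1) ∪ (N ×ˢ N).filter (fun p => p.1 ∈ O p.2)) := by
    intro p hp
    simp only [Finset.mem_filter, Finset.mem_product] at hp
    simp only [Finset.mem_union, Finset.mem_filter, Finset.mem_product]
    by_cases h : r p.1 p.2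
    · rcases hr p.1 hp.1.1 p.2 hp.1.2 hp.2 h with h4 | h4
      · exact Or.inr (Or.inl ⟨hp.1, h4⟩)
      · exact Or.inr (Or.inr ⟨hp.1, h4⟩)
    · exact Or.inl ⟨hp.1, hp.2, h⟩
  have h4 := Finset.card_le_card h3
  have h5 := Finset.card_union_le ((N ×ˢ N).filter (fun p => p.1 ≠ p.2 ∧ ¬ r p.1 p.2))
    ((N ×ˢ N).filter (fun p => p.2 ∈ O p.1) ∪ (N ×ˢ N).filter (fun p => p.1 ∈ O p.2))
  have h6 := Finset.card_union_le ((N ×ˢ N).filter (fun p => p.2 ∈ O p.1))
    ((N ×ˢ N).filter (fun p => p.1 ∈ O p.2))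
  omega

theorem U9_c {N : Finset V} (O : V → Finset V) {d : ℝ} (hd : 8 ≤ d) (h : (N.card : ℝ) ≤ 16 * d) :
    ((∑ a ∈ N, (N.filter (fun x => x ∈ O a)).card : ℕ) : ℝ) ≤
      16 * d * ((N.filter (fun a => d / 4096 ≤ ((N.filter (fun x => x ∈ O a)).card : ℝ))).card : ℝ) +
        16 * d * (d / 4096) := by
  push_cast
  have h1 : ∀ a ∈ N, ((N.filter (fun x => x ∈ O a)).card : ℝ) ≤
      16 * d * (if d / 4096 ≤ ((N.filter (fun x => x ∈ O a)).card : ℝ) then (1 : ℝ) else 0) + d / 4096 := by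
    intro a _
    have h2 : ((N.filter (fun x => x ∈ O a)).card : ℝ) ≤ N.card := by
      exact_mod_cast Finset.card_filter_le _ _
    split_ifs with h3
    · have : 0 ≤ d / 4096 := by positivity
      linarith
    · push Not at h3
      linarith
  refine (Finset.sum_le_sum h1).trans ?_
  rw [Finset.sum_add_distrib, ← Finset.mul_sum, Finset.sum_boole, Finset.sum_const, nsmul_eq_mul]
  have h4 : (N.card : ℝ) * (d / 4096) ≤ 16 * d * (d / 4096) :=
    mul_le_mul_of_nonneg_right h (by positivity)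
  linarith

theorem U9_num {d b S F G : ℝ} (hd : 8 ≤ d) (h1 : d ^ 2 / 32 * b ≤ S) (h2 : S ≤ F + 2 * (16 * d * G + 16 * d * (d / 4096) * b))
    (h3 : F ≤ d ^ 2 / 1024 * b) (hb : 0 ≤ b) : d / 4096 * b ≤ G := by
  have h4 : d ^ 2 / 32 * b ≤ d ^ 2 / 1024 * b + 2 * (16 * d * G + 16 * d * (d / 4096) * b) := by linarith
  have h5 : d * (23 / 1024 * d * b) ≤ d * (32 * G) := by nlinarith
  have h6 : 23 / 1024 * d * b ≤ 32 * G := le_of_mul_le_mul_left h5 (by linarith)
  have h7 : 0 ≤ d * b := by positivity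
  linarith

/-- U9: from many related pairs and an orientation to a small dense set. -/
theorem hub_dense {A B : Finset V} {D : ℕ} {d : ℝ} (r : V → V → Prop) (O : V → Finset V) (hd : 8 ≤ d)
    (hAB : Disjoint A B) (hBne : B.Nonempty)
    (hB : ∀ b ∈ B, d / 4 ≤ ((nbIn G A b).card : ℝ) ∧ ((nbIn G A b).card : ℝ) ≤ 16 * d)
    (hO : ∀ a, O a ⊆ A ∧ (O a).card ≤ D)
    (hr : ∀ a ∈ A, ∀ a' ∈ A, a ≠ a' → r a a' → a' ∈ O a ∨ a ∈ O a')
    (hfew : ((∑ b ∈ B, ((nbIn G A b ×ˢ nbIn G A b).filter (fun p => p.1 ≠ p.2 ∧ ¬ r p.1 p.2)).card : ℕ) : ℝ) ≤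
      d ^ 2 / 1024 * B.card)
    (hA : (D : ℝ) * A.card * 2 ^ 13 ≤ d * B.card) :
    ∃ Y ⊆ A ∪ B, Y.Nonempty ∧ Y.card ≤ 2 * D ∧ d / 4096 * (Y.card : ℝ) ≤ dg G Y := by
  have hd0 : 0 < d := by linarith
  have hBpos : (0 : ℝ) < B.card := by exact_mod_cast hBne.card_pos
  obtain ⟨g, hg⟩ : ∃ g : V → V → ℕ, ∀ b a, g b a = ((nbIn G A b).filter (fun x => x ∈ O a)).card :=
    ⟨_, fun _ _ => rfl⟩
  obtain ⟨rel, hrel⟩ : ∃ rel : V → V → Prop, ∀ b a, rel b a ↔ a ∈ nbIn G A b ∧ d / 4096 ≤ (g b a : ℝ) :=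
    ⟨fun b a => a ∈ nbIn G A b ∧ d / 4096 ≤ (g b a : ℝ), fun _ _ => Iff.rfl⟩
  -- (1)-(3)
  have h3 : ∀ b ∈ B, ((∑ a ∈ nbIn G A b, ((nbIn G A b).filter (fun x => x ∈ O a)).card : ℕ) : ℝ) ≤
      16 * d * ((A.filter (fun a => rel b a)).card : ℝ) + 16 * d * (d / 4096) := by
    intro b hb
    have h4 := U9_c (N := nbIn G A b) O hd (hB b hb).2
    have h5 : (nbIn G A b).filter (fun a => d / 4096 ≤
        (((nbIn G A b).filter (fun x => x ∈ O a)).card : ℝ)) = A.filter (fun a => rel b a) := by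
      ext a
      simp only [Finset.mem_filter, hrel, hg]
      exact ⟨fun h => ⟨(mem_nbIn.1 h.1).1, h⟩, fun h => h.2⟩
    rw [h5] at h4
    exact h4
  have h4 : ((∑ b ∈ B, ((nbIn G A b ×ˢ nbIn G A b).filter (fun p => p.1 ≠ p.2)).card : ℕ) : ℝ) ≤
      ((∑ b ∈ B, ((nbIn G A b ×ˢ nbIn G A b).filter (fun p => p.1 ≠ p.2 ∧ ¬ r p.1 p.2)).card : ℕ) : ℝ) +
        2 * (16 * d * ((∑ b ∈ B, (A.filter (fun a => rel b a)).card : ℕ) : ℝ) +
          16 * d * (d / 4096) * B.card) := by
    have h5 : ((∑ b ∈ B, ((nbIn G A b ×ˢ nbIn G A b).filter (fun p => p.1 ≠ p.2)).card : ℕ) : ℝ) ≤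
        ∑ b ∈ B, ((((nbIn G A b ×ˢ nbIn G A b).filter (fun p => p.1 ≠ p.2 ∧ ¬ r p.1 p.2)).card : ℝ) +
          2 * (16 * d * ((A.filter (fun a => rel b a)).card : ℝ) + 16 * d * (d / 4096))) := by
      push_cast
      refine Finset.sum_le_sum fun b hb => ?_
      have h6 := U9_b (N := nbIn G A b) r O (fun a ha a' ha' =>
        hr a (mem_nbIn.1 ha).1 a' (mem_nbIn.1 ha').1)
      have h7 : (((nbIn G A b ×ˢ nbIn G A b).filter (fun p => p.1 ≠ p.2)).card : ℝ) ≤
          (((nbIn G A b ×ˢ nbIn G A b).filter (fun p => p.1 ≠ p.2 ∧ ¬ r p.1 p.2)).card : ℝ) +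
            2 * ((∑ a ∈ nbIn G A b, ((nbIn G A b).filter (fun x => x ∈ O a)).card : ℕ) : ℝ) := by
        exact_mod_cast h6
      have h8 := h3 b hb
      linarith
    refine h5.trans (le_of_eq ?_)
    rw [Finset.sum_add_distrib, ← Finset.mul_sum, Finset.sum_add_distrib, ← Finset.mul_sum,
      Finset.sum_const, nsmul_eq_mul]
    push_cast
    ring
  have h5 : d ^ 2 / 32 * (B.card : ℝ) ≤
      ((∑ b ∈ B, ((nbIn G A b ×ˢ nbIn G A b).filter (fun p => p.1 ≠ p.2)).card : ℕ) : ℝ) := by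
    push_cast
    have h6 : ∑ _b ∈ B, d ^ 2 / 32 = d ^ 2 / 32 * (B.card : ℝ) := by
      rw [Finset.sum_const, nsmul_eq_mul, mul_comm]
    rw [← h6]
    exact Finset.sum_le_sum fun b hb => U9_a hd (hB b hb).1
  have h6 := U9_num hd h5 h4 hfew hBpos.le
  -- (4)
  have h7 : ∑ b ∈ B, (A.filter (fun a => rel b a)).card = ∑ a ∈ A, (B.filter (fun b => rel b a)).card :=
    Finset.sum_card_bipartiteAbove_eq_sum_card_bipartiteBelow rel
  have h8 : ∑ a ∈ A, (O a).card < ∑ a ∈ A, (B.filter (fun b => rel b a)).card := by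
    rw [h7] at h6
    have h9 : ((∑ a ∈ A, (O a).card : ℕ) : ℝ) ≤ D * A.card := by
      have h10 : ∑ a ∈ A, (O a).card ≤ A.card * D := by
        have := Finset.sum_le_card_nsmul A (fun a => (O a).card) D (fun a _ => (hO a).2)
        simpa using this
      have h11 : ((∑ a ∈ A, (O a).card : ℕ) : ℝ) ≤ ((A.card * D : ℕ) : ℝ) := by exact_mod_cast h10
      push_cast at h11 ⊢
      linarith
    have h12 : 0 < d * (B.card : ℝ) := mul_pos hd0 hBpos
    have h13 : ((∑ a ∈ A, (O a).card : ℕ) : ℝ) < ((∑ a ∈ A, (B.filter (fun b => rel b a)).card : ℕ) : ℝ) := by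
      norm_num at hA
      linarith
    exact_mod_cast h13
  obtain ⟨a, haA, ha⟩ := Finset.exists_lt_of_sum_lt h8
  obtain ⟨B', hB'sub, hB'card⟩ := Finset.exists_subset_card_eq ha.le
  obtain ⟨b0, hb0⟩ : (B.filter (fun b => rel b a)).Nonempty :=
    Finset.card_pos.1 (lt_of_le_of_lt (Nat.zero_le _) ha)
  have hgO : ∀ b, g b a ≤ (O a).card := by
    intro b
    rw [hg]
    refine Finset.card_le_card fun x hx => (Finset.mem_filter.1 hx).2
  have hOpos : 0 < (O a).card := by
    have h9 := ((hrel b0 a).1 (Finset.mem_filter.1 hb0).2).2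
    have h10 : 0 < (g b0 a : ℝ) := lt_of_lt_of_le (by positivity) h9
    have h11 : 0 < g b0 a := by exact_mod_cast h10
    exact lt_of_lt_of_le h11 (hgO b0)
  have hB'B : ∀ b ∈ B', b ∈ B ∧ d / 4096 ≤ (g b a : ℝ) := fun b hb =>
    ⟨(Finset.mem_filter.1 (hB'sub hb)).1, ((hrel b a).1 (Finset.mem_filter.1 (hB'sub hb)).2).2⟩
  have hdisj : Disjoint (O a) B' := by
    refine Finset.disjoint_of_subset_left (hO a).1 (Finset.disjoint_of_subset_right ?_ hAB)
    exact fun b hb => (hB'B b hb).1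
  have hYc : (O a ∪ B').card = 2 * (O a).card := by
    rw [Finset.card_union_of_disjoint hdisj, hB'card]
    ring
  refine ⟨O a ∪ B', ?_, ?_, ?_, ?_⟩
  · refine Finset.union_subset_union (hO a).1 fun b hb => (hB'B b hb).1
  · rw [← Finset.card_pos, hYc]
    omega
  · rw [hYc]
    have := (hO a).2
    omega
  · have k1 : ∀ b ∈ B', g b a ≤ (nbIn G (O a ∪ B') b).card := by
      intro b _
      rw [hg]
      refine Finset.card_le_card fun x hx => ?_
      rw [Finset.mem_filter, mem_nbIn] at hx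
      exact mem_nbIn.2 ⟨Finset.mem_union_left _ hx.2, hx.1.2⟩
    have k2 : ∑ b ∈ B', g b a ≤ ∑ x ∈ O a, (nbIn G (O a ∪ B') x).card := by
      have k3 : ∑ b ∈ B', ((O a).filter (fun x => G.Adj b x)).card =
          ∑ x ∈ O a, (B'.filter (fun b => G.Adj b x)).card :=
        Finset.sum_card_bipartiteAbove_eq_sum_card_bipartiteBelow (fun b x => G.Adj b x)
      have k4 : ∑ b ∈ B', g b a ≤ ∑ b ∈ B', ((O a).filter (fun x => G.Adj b x)).card := by
        refine Finset.sum_le_sum fun b _ => ?_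
        rw [hg]
        refine Finset.card_le_card fun x hx => ?_
        rw [Finset.mem_filter, mem_nbIn] at hx
        exact Finset.mem_filter.2 ⟨hx.2, hx.1.2⟩
      have k5 : ∑ x ∈ O a, (B'.filter (fun b => G.Adj b x)).card ≤
          ∑ x ∈ O a, (nbIn G (O a ∪ B') x).card := by
        refine Finset.sum_le_sum fun x _ => ?_
        refine Finset.card_le_card fun b hb => ?_
        rw [Finset.mem_filter] at hb
        exact mem_nbIn.2 ⟨Finset.mem_union_right _ hb.1, hb.2.symm⟩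
      exact k4.trans (k3.le.trans k5)
    have k6 : 2 * ∑ b ∈ B', g b a ≤ dg G (O a ∪ B') := by
      unfold dg
      rw [Finset.sum_union hdisj, two_mul]
      exact add_le_add k2 (Finset.sum_le_sum k1)
    have k7 : (B'.card : ℝ) * (d / 4096) ≤ ((∑ b ∈ B', g b a : ℕ) : ℝ) := by
      push_cast
      have := Finset.card_nsmul_le_sum B' (fun b => (g b a : ℝ)) (d / 4096) (fun b hb => (hB'B b hb).2)
      rwa [nsmul_eq_mul] at this
    have k8 : (2 : ℝ) * ((∑ b ∈ B', g b a : ℕ) : ℝ) ≤ dg G (O a ∪ B') := by exact_mod_cast k6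
    rw [hYc]
    rw [hB'card] at k7
    push_cast
    push_cast at k7 k8
    linarith

end HD
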