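import Pool.Agent.LibHL.B5

/-!
# LibHL : block (b), case U
-/

set_option autoImplicit false
set_option linter.unusedSectionVars false

open scoped Classical

noncomputable section

namespace HD

variable {V : Type} [Fintype V] [DecidableEq V] {G : SimpleGraph V}

/-! Row U10 -/

theorem U10_adj {U W : Finset V} {t D : ℕ} (ht : 1 ≤ t) (hmod : ¬ Model G U t)
    (hD : 2 ^ 20 * (t : ℝ) * (1 + Real.log t) ≤ D) (hWU : W ⊆ U) : dg G W ≤ 2 * D * W.card := by
  have h1 := md_sum (D := D) (fun u v => G.Adj u v) (fun u v h => h.symm) W (by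
    intro S' hS' hne
    obtain ⟨s, hs⟩ := hne
    have hne' : Nonempty {v // v ∈ S'} := ⟨⟨s, hs⟩⟩
    obtain ⟨i, hi⟩ := md_one ht hmod hD (ι := {v // v ∈ S'}) (fun v => {v.1})
      (fun v => ⟨Finset.singleton_subset_iff.2 (hWU (hS' v.2)), conn_singleton _⟩)
      (fun u v huv => by
        rw [Finset.disjoint_singleton]
        exact fun h => huv (Subtype.ext h))
    refine ⟨i.1, i.2, le_trans ?_ hi⟩
    apply Finset.card_le_card_of_surjOn (fun v : {v // v ∈ S'} => v.1)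
    intro v hv
    rw [Finset.mem_coe, Finset.mem_filter] at hv
    refine ⟨⟨v, hv.1⟩, ?_, rfl⟩
    rw [Finset.mem_coe, Finset.mem_filter]
    refine ⟨Finset.mem_univ _, fun h => hv.2.1 (congrArg Subtype.val h), ?_⟩
    exact ⟨i.1, Finset.mem_singleton_self _, v, Finset.mem_singleton_self _, hv.2.2⟩)
  refine le_trans (le_of_eq ?_) h1
  unfold dg nbIn
  apply Finset.sum_congr rfl
  intro i _
  congr 1
  apply Finset.filter_congr
  intro j _
  exact ⟨fun h => ⟨fun h2 => G.loopless.irrefl i (h2 ▸ h), h⟩, fun h => h.2⟩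

theorem U10_pairs (A : Finset V) (r : V → V → Prop) :
    ((A ×ˢ A).filter (fun p => p.1 ≠ p.2 ∧ r p.1 p.2)).card =
      ∑ i ∈ A, (A.filter (fun j => j ≠ i ∧ r i j)).card := by
  rw [Finset.card_filter, Finset.sum_product]
  apply Finset.sum_congr rfl
  intro i _
  rw [Finset.card_filter]
  apply Finset.sum_congr rfl
  intro j _
  apply if_congr _ rfl rfl
  exact ⟨fun h => ⟨h.1.symm, h.2⟩, fun h => ⟨h.1.symm, h.2⟩⟩

theorem U10_nb {A W : Finset V} (h : A ⊆ W) (b : V) : (nbIn G A b).card ≤ (nbIn G W b).card := by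
  apply Finset.card_le_card
  intro v hv
  unfold nbIn at hv ⊢
  rw [Finset.mem_filter] at hv ⊢
  exact ⟨h hv.1, hv.2⟩

/-- U10: case U. -/
theorem caseU {U W A : Finset V} {t D : ℕ} {d : ℝ} (ht : 1 ≤ t) (hmod : ¬ Model G U t)
    (hD : 2 ^ 20 * (t : ℝ) * (1 + Real.log t) ≤ D) (hWU : W ⊆ U) (hd : 8 ≤ d) (hW : W.Nonempty)
    (hA : A = W.filter (fun v => 2 ^ 21 * D < (nbIn G W v).card))
    (hdens : ∀ X ⊆ W, (dg G X : ℝ) ≤ 2 * d * X.card) (hdW : (dg G W : ℝ) = 2 * d * W.card)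
    (hout : (dg G (W \ A) : ℝ) < d / 2 * W.card) :
    ∃ Y ⊆ W, Y.Nonempty ∧ Y.card ≤ 2 * D ∧ d / 4096 * (Y.card : ℝ) ≤ dg G Y := by
  have htr : (1 : ℝ) ≤ t := by exact_mod_cast ht
  have hDpos : (0 : ℝ) < D := by
    have h1 := Real.log_nonneg htr
    have h2 : (0 : ℝ) < 2 ^ 20 * (t : ℝ) * (1 + Real.log t) := by positivity
    linarith
  have hWpos : (0 : ℝ) < W.card := by exact_mod_cast Finset.card_pos.2 hW
  have hAW : A ⊆ W := by
    rw [hA]
    exact Finset.filter_subset _ _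
  have hadj : (dg G W : ℝ) ≤ 2 * D * W.card := by exact_mod_cast U10_adj ht hmod hD hWU
  have hAdeg : (A.card : ℝ) * (2 ^ 21 * D) ≤ dg G W := by
    have h1 : A.card * (2 ^ 21 * D) ≤ dg G W := by
      calc A.card * (2 ^ 21 * D) = A.card • (2 ^ 21 * D) := by rw [smul_eq_mul]
        _ ≤ ∑ v ∈ A, (nbIn G W v).card := by
            apply Finset.card_nsmul_le_sum
            intro v hv
            rw [hA, Finset.mem_filter] at hv
            exact hv.2.le
        _ ≤ dg G W := Finset.sum_le_sum_of_subset hAW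
    exact_mod_cast h1
  have hAc : 2 ^ 20 * (A.card : ℝ) ≤ W.card := by
    have h1 : (A.card : ℝ) * (2 ^ 21 * D) ≤ 2 * D * W.card := hAdeg.trans hadj
    have h2 : (2 * (D : ℝ)) * (2 ^ 20 * (A.card : ℝ)) ≤ (2 * (D : ℝ)) * (W.card : ℝ) := by
      have h3 : (2 * (D : ℝ)) * (2 ^ 20 * (A.card : ℝ)) = (A.card : ℝ) * (2 ^ 21 * (D : ℝ)) := by ring
      rw [h3]
      exact h1
    exact le_of_mul_le_mul_left h2 (by positivity)
  obtain ⟨B, hB⟩ : ∃ B : Finset V, B = (W \ A).filter (fun b => d / 4 ≤ ((nbIn G A b).card : ℝ) ∧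
      ((nbIn G W b).card : ℝ) ≤ 16 * d) := ⟨_, rfl⟩
  have hcount := hub_count hd hW hAW hdens hdW hAc hout
  rw [← hB] at hcount
  have hBcard : (0 : ℝ) < B.card := by linarith
  have hBne : B.Nonempty := by
    rw [← Finset.card_pos]
    exact_mod_cast hBcard
  have hBmem : ∀ b ∈ B, b ∈ W ∧ b ∉ A ∧ d / 4 ≤ ((nbIn G A b).card : ℝ) ∧
      ((nbIn G A b).card : ℝ) ≤ 16 * d := by
    intro b hb
    rw [hB, Finset.mem_filter, Finset.mem_sdiff] at hb
    refine ⟨hb.1.1, hb.1.2, hb.2.1, le_trans ?_ hb.2.2⟩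
    exact_mod_cast U10_nb hAW b
  have hAB : Disjoint A B := by
    rw [Finset.disjoint_left]
    intro v hv hv'
    exact (hBmem v hv').2.1 hv
  have hDA : (D : ℝ) * A.card * 2 ^ 14 ≤ d * B.card := by
    have h1 : (A.card : ℝ) * (2 ^ 21 * D) ≤ 2 * d * (64 * B.card) := by
      refine hAdeg.trans ?_
      rw [hdW]
      exact mul_le_mul_of_nonneg_left hcount (by linarith)
    linarith
  obtain ⟨asg, hasg, hsum⟩ := greedy (G := G) (A := A) (l := ⌊16 * d⌋₊) B hAB (by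
    intro b hb
    obtain ⟨_, _, h3, h4⟩ := hBmem b hb
    constructor
    · have h5 : (1 : ℝ) ≤ ((nbIn G A b).card : ℝ) := by linarith
      exact_mod_cast h5
    · exact Nat.le_floor h4)
  have hdegen := jr_degen ht hmod hD (hAW.trans hWU) (fun b hb => hWU (hBmem b hb).1) hAB hasg
  have hsymm : ∀ i j, Jr G A B asg i j → Jr G A B asg j i := fun i j h => Or.symm h
  have hpairs := md_sum (D := D) (Jr G A B asg) hsymm A hdegen
  rw [← U10_pairs] at hpairs
  obtain ⟨O, hO1, hO2⟩ := orient A (Jr G A B asg) hsymm hdegen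
  have hfew : ((∑ b ∈ B, ((nbIn G A b ×ˢ nbIn G A b).filter
      (fun p => p.1 ≠ p.2 ∧ ¬ Jr G A B asg p.1 p.2)).card : ℕ) : ℝ) ≤ d ^ 2 / 1024 * B.card := by
    rw [← Finset.sum_mul] at hsum
    have h1 : ((∑ b ∈ B, ((nbIn G A b ×ˢ nbIn G A b).filter
        (fun p => p.1 ≠ p.2 ∧ ¬ Jr G A B asg p.1 p.2)).card : ℕ) : ℝ) * 2 ≤
        (⌊16 * d⌋₊ : ℝ) * (((A ×ˢ A).filter (fun p => p.1 ≠ p.2 ∧ Jr G A B asg p.1 p.2)).card : ℝ) := by
      exact_mod_cast hsum
    have h2 : (((A ×ˢ A).filter (fun p => p.1 ≠ p.2 ∧ Jr G A B asg p.1 p.2)).card : ℝ) ≤ 2 * D * A.card := by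
      exact_mod_cast hpairs
    have h3 : (⌊16 * d⌋₊ : ℝ) ≤ 16 * d := Nat.floor_le (by linarith)
    have h4 : (⌊16 * d⌋₊ : ℝ) * (((A ×ˢ A).filter (fun p => p.1 ≠ p.2 ∧ Jr G A B asg p.1 p.2)).card : ℝ) ≤
        16 * d * (2 * D * A.card) := mul_le_mul h3 h2 (Nat.cast_nonneg _) (by linarith)
    have h5 : 16 * d * (D * A.card) ≤ 16 * d * (d * B.card / 2 ^ 14) := by
      apply mul_le_mul_of_nonneg_left _ (by linarith)
      rw [le_div_iff₀ (by positivity)]
      exact hDA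
    have h6 : 16 * d * (d * B.card / 2 ^ 14) = d ^ 2 / 1024 * B.card := by ring
    rw [← h6]
    linarith
  obtain ⟨Y, hY1, hY2, hY3, hY4⟩ := hub_dense (G := G) (Jr G A B asg) O hd hAB hBne
    (fun b hb => ⟨(hBmem b hb).2.2.1, (hBmem b hb).2.2.2⟩) hO1 hO2 hfew (by
      have h1 : (0 : ℝ) ≤ (D : ℝ) * A.card := by positivity
      linarith)
  refine ⟨Y, ?_, hY2, hY3, hY4⟩
  intro v hv
  rcases Finset.mem_union.1 (hY1 hv) with h1 | h1
  · exact hAW h1
  · exact (hBmem v h1).1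

end HD
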