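import Pool.Agent.LibHL.B2
import Pool.Agent.LibHL.B4

/-!
# LibHL : block (b), case M
-/

set_option autoImplicit false
set_option linter.unusedSectionVars false

open scoped Classical

noncomputable section

namespace HD

variable {V : Type} [Fintype V] [DecidableEq V] {G : SimpleGraph V}

/-! Row CM -/

section

variable {W : Finset V} {P : Type} [Fintype P] {L b D : ℕ} {vp δ : ℝ} {en : V → P → V} {se : V → P → Finset V}

/-- CM: case M. -/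
theorem caseM {W : Finset V} {D D0 m ρ b M2 : ℕ} {δ c0 : ℝ} (hW : W.Nonempty) (hMD : MD G W D) (hD0 : 0 < D0)
    (hδ : 0 < δ) (hdeg : ∀ v ∈ W, δ ≤ ((nbIn G W v).card : ℝ) ∧ (nbIn G W v).card ≤ D0)
    (hLS : ∀ Y ⊆ W, Y.Nonempty → Y.card ≤ m → ∃ v ∈ Y, ((nbIn G Y v).card : ℝ) ≤ δ / 16)
    (hc0 : c0 = δ / (8 * D0)) (hb : 1 ≤ b) (hM2 : 256 * b ^ 4 * D0 ≤ M2) (hm : 4 * (M2 : ℝ) / c0 ^ 2 ≤ m)
    (hρ : (1 - c0) ^ ρ ≤ 1 / (2 * (M2 : ℝ))) (hP2 : 128 * ((ρ : ℝ) + 1) ^ 2 * D < b * δ)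
    (hP3 : 8 * ((ρ : ℝ) + 1) ^ 2 ≤ δ) : False := by
  obtain ⟨x0, hx0⟩ := hW
  have hD0r : (0 : ℝ) < D0 := by exact_mod_cast hD0
  have hbr : (1 : ℝ) ≤ b := by exact_mod_cast hb
  have hδD0 : δ ≤ D0 := by
    have h1 := hdeg x0 hx0
    have h2 : ((nbIn G W x0).card : ℝ) ≤ D0 := by exact_mod_cast h1.2
    exact h1.1.trans h2
  have hc0pos : 0 < c0 := by
    rw [hc0]
    positivity
  have hc01 : c0 ≤ 1 := by
    rw [hc0, div_le_one (by positivity)]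
    linarith
  have hb4 : 1 ≤ b ^ 4 := Nat.one_le_pow _ _ hb
  have hM2pos : 1 ≤ M2 := by
    have h1 : 1 ≤ 256 * b ^ 4 * D0 := Nat.mul_pos (by positivity) hD0
    omega
  have hWm : m < W.card := by
    by_contra hcon
    push Not at hcon
    obtain ⟨v, hv, h1⟩ := hLS W (Finset.Subset.refl W) ⟨x0, hx0⟩ hcon
    have h2 := (hdeg v hv).1
    linarith
  obtain ⟨vp, hvp⟩ : ∃ vp : ℝ, vp = 1 / (16 * (b : ℝ) ^ 2) := ⟨_, rfl⟩
  have hvp0 : 0 ≤ vp := by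
    rw [hvp]
    positivity
  obtain ⟨st, hst⟩ := exists_step (G := G) (W := W) (Δ := 2 * D0) (fun v hv => by
    have := (hdeg v hv).2
    omega)
  have hM2r : (256 : ℝ) * (b : ℝ) ^ 4 * D0 ≤ M2 := by exact_mod_cast hM2
  have hvp2 : (D0 : ℝ) ≤ vp ^ 2 * M2 := by
    have h1 : vp ^ 2 * (256 * (b : ℝ) ^ 4 * D0) = D0 := by
      rw [hvp]
      field_simp
      norm_num
    calc (D0 : ℝ) = vp ^ 2 * (256 * (b : ℝ) ^ 4 * D0) := h1.symm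
      _ ≤ vp ^ 2 * M2 := mul_le_mul_of_nonneg_left hM2r (sq_nonneg vp)
  have hL := legs hD0 hst (fun v hv => (hdeg v hv).2) hM2pos hvp0 hvp2
    (fun x hx => spread hD0 hδ hdeg hLS hc0 hc01 hM2pos hm hρ hx)
  have hne : Nonempty (Fin ρ → Fin (2 * D0)) := ⟨fun _ => ⟨0, by omega⟩⟩
  have hvp3 : 16 * (b : ℝ) ^ 2 * vp ≤ 1 := by
    rw [hvp]
    apply le_of_eq
    field_simp
  have hδL : 8 * (((ρ + 1 : ℕ) : ℝ)) ^ 2 ≤ δ := by
    push_cast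
    exact hP3
  have hn : 64 * b * (ρ + 1) ^ 2 ≤ W.card := by
    have h1 : (m : ℝ) ≤ W.card := by exact_mod_cast hWm.le
    have h2 : 4 * (M2 : ℝ) ≤ 4 * (M2 : ℝ) / c0 ^ 2 := by
      rw [le_div_iff₀ (by positivity)]
      have h3 : c0 ^ 2 ≤ 1 := pow_le_one₀ hc0pos.le hc01
      have h4 : (0 : ℝ) ≤ 4 * (M2 : ℝ) := by positivity
      nlinarith
    have h5 : (b : ℝ) ≤ (b : ℝ) ^ 4 := le_self_pow₀ hbr (by norm_num)
    have h6 : (64 : ℝ) * b * (((ρ : ℝ) + 1)) ^ 2 ≤ W.card := by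
      have h7 : (64 : ℝ) * b * (((ρ : ℝ) + 1)) ^ 2 ≤ 8 * (b : ℝ) ^ 4 * D0 := by
        have h8 : 8 * ((ρ : ℝ) + 1) ^ 2 ≤ D0 := hP3.trans hδD0
        have h9 : (b : ℝ) * (8 * ((ρ : ℝ) + 1) ^ 2) ≤ (b : ℝ) ^ 4 * D0 :=
          mul_le_mul h5 h8 (by positivity) (by positivity)
        linarith
      have h10 : (0 : ℝ) ≤ (b : ℝ) ^ 4 * D0 := by positivity
      linarith
    exact_mod_cast h6
  have hfin := spiders hL hMD hne hvp0 hb (by omega) (fun v hv => (hdeg v hv).1) hvp3 hδL hn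
  push_cast at hfin
  linarith

end

end HD
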