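import Pool.Agent.LibHL.A1
import Pool.Agent.LibHL.B6
import Pool.Agent.LibHL.B7

/-!
# LibHL : block (b), the piece theorem
-/

set_option autoImplicit false
set_option linter.unusedSectionVars false

open scoped Classical

noncomputable section

namespace HD

variable {V : Type} [Fintype V] [DecidableEq V] {G : SimpleGraph V}

theorem PC_aux1 {x c : ℝ} (hc : 0 < c) : x = 2 * (x / (2 * c)) * c := by
  field_simp

theorem PC_aux2 {x c y : ℝ} (hc : 0 < c) : 2 * (x / (2 * c)) * y = (x * y) / c := by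
  field_simp

/-- PC: small highly connected pieces in sets of large minimum degree. -/
theorem piece0 {U : Finset V} {t D D0 m ρ b M2 k d1 : ℕ} {c0 : ℝ} (ht : 1 ≤ t) (hmod : ¬ Model G U t)
    (hD : 2 ^ 20 * (t : ℝ) * (1 + Real.log t) ≤ D) (hD0 : D0 = 2 ^ 21 * D) (hk : 1 ≤ k) (hd1 : 2 ^ 15 * k ≤ d1)
    (hc0 : c0 = (d1 : ℝ) / (64 * D0)) (hb : 1 ≤ b) (hM2 : 256 * b ^ 4 * D0 ≤ M2) (hm : 4 * (M2 : ℝ) / c0 ^ 2 ≤ m)
    (hρ : (1 - c0) ^ ρ ≤ 1 / (2 * (M2 : ℝ))) (hP2 : 128 * ((ρ : ℝ) + 1) ^ 2 * D < b * ((d1 : ℝ) / 8))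
    (hP3 : 8 * ((ρ : ℝ) + 1) ^ 2 ≤ (d1 : ℝ) / 8) (hDm : 4 * D ≤ m) (hU : U.Nonempty)
    (hdeg : ∀ v ∈ U, d1 ≤ (nbIn G U v).card) :
    ∃ H ⊆ U, KC G H k ∧ H.card ≤ m := by
  have hk' : (2 : ℝ) ^ 15 * k ≤ d1 := by exact_mod_cast hd1
  have hkR : (1 : ℝ) ≤ k := by exact_mod_cast hk
  -- maximal density
  obtain ⟨W, hWU, hWne, hWU2, hWd⟩ := max_density (G := G) hU
  have hnW : (0 : ℝ) < W.card := by exact_mod_cast Finset.card_pos.2 hWne
  have hnU : (0 : ℝ) < U.card := by exact_mod_cast Finset.card_pos.2 hU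
  set d : ℝ := (dg G W : ℝ) / (2 * W.card) with hddef
  have hdW : (dg G W : ℝ) = 2 * d * W.card := by
    rw [hddef]
    exact PC_aux1 hnW
  have hdens : ∀ X ⊆ W, (dg G X : ℝ) ≤ 2 * d * X.card := by
    intro X hX
    have h1 : (dg G X : ℝ) * W.card ≤ dg G W * X.card := by exact_mod_cast hWd X hX
    rw [hddef]
    rw [PC_aux2 hnW]
    rw [le_div_iff₀ hnW]
    exact h1
  have hdU : (d1 : ℝ) * U.card ≤ dg G U := by
    unfold dg
    push_cast
    calc (d1 : ℝ) * U.card = ∑ _v ∈ U, (d1 : ℝ) := by rw [Finset.sum_const, nsmul_eq_mul, mul_comm]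
      _ ≤ ∑ v ∈ U, ((nbIn G U v).card : ℝ) := Finset.sum_le_sum fun v hv => by exact_mod_cast hdeg v hv
  have hd1d : (d1 : ℝ) / 2 ≤ d := by
    have h1 : (dg G U : ℝ) * W.card ≤ dg G W * U.card := by exact_mod_cast hWU2
    rw [hddef, div_le_div_iff₀ (zero_lt_two) (mul_pos zero_lt_two hnW)]
    have h2 : (d1 : ℝ) * U.card * W.card ≤ dg G W * U.card :=
      (mul_le_mul_of_nonneg_right hdU hnW.le).trans h1
    have h3 : (d1 : ℝ) * W.card ≤ dg G W := by
      have h4 : ((d1 : ℝ) * W.card) * U.card ≤ dg G W * U.card := by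
        calc ((d1 : ℝ) * W.card) * U.card = (d1 : ℝ) * U.card * W.card := by ring
          _ ≤ _ := h2
      exact le_of_mul_le_mul_right h4 hnU
    linarith
  have hd8 : 8 ≤ d := by
    have : (2 : ℝ) ^ 15 ≤ d1 := by nlinarith
    linarith
  have hmodW : ¬ Model G W t := fun h => hmod (h.mono hWU le_rfl)
  -- a dense small set is enough
  suffices hY : ∃ Y ⊆ W, Y.Nonempty ∧ Y.card ≤ m ∧ (d1 : ℝ) / 2 / 4096 * (Y.card : ℝ) ≤ dg G Y by
    obtain ⟨Y, hYW, hYne, hYm, hYd⟩ := hY
    obtain ⟨H, hHY, hH⟩ := mader (G := G) (k := k) hk hYne (by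
      have h1 : (4 * k * Y.card : ℝ) ≤ dg G Y := by
        refine le_trans ?_ hYd
        have h2 : (0 : ℝ) ≤ Y.card := Nat.cast_nonneg _
        have h3 : (4 * k : ℝ) ≤ (d1 : ℝ) / 2 / 4096 := by
          rw [le_div_iff₀ (by norm_num), le_div_iff₀ (by norm_num)]
          linarith
        exact mul_le_mul_of_nonneg_right h3 h2
      exact_mod_cast h1)
    exact ⟨H, hHY.trans (hYW.trans hWU), hH, (Finset.card_le_card hHY).trans hYm⟩
  set A : Finset V := W.filter (fun v => 2 ^ 21 * D < (nbIn G W v).card) with hA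
  have hd4096 : (d1 : ℝ) / 2 / 4096 ≤ d / 4096 := by linarith
  by_cases hout : (dg G (W \ A) : ℝ) < d / 2 * W.card
  · obtain ⟨Y, h1, h2, h3, h4⟩ := caseU ht hmod hD hWU hd8 hWne hA hdens hdW hout
    refine ⟨Y, h1, h2, by omega, le_trans ?_ h4⟩
    exact mul_le_mul_of_nonneg_right hd4096 (Nat.cast_nonneg _)
  · push Not at hout
    by_contra hcon
    push Not at hcon
    -- case M
    have hL : (W \ A).Nonempty := by
      rw [Finset.nonempty_iff_ne_empty]
      intro h0
      rw [h0] at hout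
      have h1 : dg G (∅ : Finset V) = 0 := by unfold dg; simp
      rw [h1] at hout
      have : 0 < d / 2 * W.card := mul_pos (by linarith) hnW
      push_cast at hout
      linarith
    obtain ⟨X, hXL, hXne, hXL2, hXd⟩ := max_density (G := G) hL
    have hXdeg := max_density_deg (G := G) hXne hXd
    have hnX : (0 : ℝ) < X.card := by exact_mod_cast Finset.card_pos.2 hXne
    have hnL : (0 : ℝ) < (W \ A).card := by exact_mod_cast Finset.card_pos.2 hL
    have hXW : X ⊆ W := hXL.trans Finset.sdiff_subset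
    have hLW : ((W \ A).card : ℝ) ≤ W.card := by exact_mod_cast Finset.card_le_card Finset.sdiff_subset
    have hXdens : d / 2 * X.card ≤ dg G X := by
      have h1 : (dg G (W \ A) : ℝ) * X.card ≤ dg G X * (W \ A).card := by exact_mod_cast hXL2
      have h2 : d / 2 * (W \ A).card ≤ dg G (W \ A) := le_trans (by
        exact mul_le_mul_of_nonneg_left hLW (by linarith)) hout
      have h3 : (d / 2 * X.card) * (W \ A).card ≤ dg G X * (W \ A).card := by
        calc (d / 2 * X.card) * (W \ A).card = (d / 2 * (W \ A).card) * X.card := by ring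
          _ ≤ dg G (W \ A) * X.card := mul_le_mul_of_nonneg_right h2 hnX.le
          _ ≤ _ := h1
      exact le_of_mul_le_mul_right h3 hnL
    have hdegX : ∀ v ∈ X, (d1 : ℝ) / 8 ≤ ((nbIn G X v).card : ℝ) ∧ (nbIn G X v).card ≤ D0 := by
      intro v hv
      constructor
      · have h1 : (dg G X : ℝ) ≤ 2 * (nbIn G X v).card * X.card := by exact_mod_cast hXdeg v hv
        have h2 : d / 2 * X.card ≤ 2 * ((nbIn G X v).card : ℝ) * X.card := hXdens.trans h1
        have h3 := le_of_mul_le_mul_right h2 hnX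
        linarith
      · have h1 : v ∉ A := (Finset.mem_sdiff.1 (hXL hv)).2
        have h2 : ¬ 2 ^ 21 * D < (nbIn G W v).card := fun h => h1 (Finset.mem_filter.2 ⟨hXW hv, h⟩)
        have h3 : (nbIn G X v).card ≤ (nbIn G W v).card := Finset.card_le_card (by
          intro u hu
          rw [mem_nbIn] at hu ⊢
          exact ⟨hXW hu.1, hu.2⟩)
        rw [hD0]
        omega
    have hDpos : 0 < D := by
      have h1 : (0 : ℝ) < D := by
        refine lt_of_lt_of_le ?_ hD
        have htR : (1 : ℝ) ≤ t := by exact_mod_cast ht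
        have := Real.log_nonneg htR
        positivity
      exact_mod_cast h1
    have hMD : MD G X D := by
      intro n F hF hFd
      have h1 := md_sum (D := D) (fun i j : Fin n => Touch G (F i) (F j)) (fun i j h => h.symm) Finset.univ (by
        intro S _ hS
        have : Nonempty {i // i ∈ S} := ⟨⟨hS.choose, hS.choose_spec⟩⟩
        obtain ⟨i, hi⟩ := md_one (D := D) ht hmodW hD (ι := {i // i ∈ S}) (fun i => F i.1)
          (fun i => ⟨(hF i.1).1.trans hXW, (hF i.1).2⟩) (fun i j hij => hFd i.1 j.1 (fun h => hij (Subtype.ext h)))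
        refine ⟨i.1, i.2, le_trans ?_ hi⟩
        refine Finset.card_le_card_of_injOn (fun j => if h : j ∈ S then ⟨j, h⟩ else i) ?_ ?_
        · intro j hj
          obtain ⟨h2, h3, h4⟩ := Finset.mem_filter.1 hj
          simp only [h2, dif_pos]
          refine Finset.mem_coe.2 (Finset.mem_filter.2 ⟨Finset.mem_univ _, ?_, h4⟩)
          intro h5
          exact h3 (congrArg Subtype.val h5)
        · intro j hj j' hj' h5
          obtain ⟨h2, -, -⟩ := Finset.mem_filter.1 (Finset.mem_coe.1 hj)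
          obtain ⟨h2', -, -⟩ := Finset.mem_filter.1 (Finset.mem_coe.1 hj')
          simp only [h2, h2', dif_pos] at h5
          exact congrArg Subtype.val h5)
      simpa using h1
    refine caseM (W := X) (D := D) (D0 := D0) (m := m) (ρ := ρ) (b := b) (M2 := M2) (δ := (d1 : ℝ) / 8) (c0 := c0)
      hXne hMD (by rw [hD0]; omega) (by linarith) hdegX ?_ ?_ hb hM2 hm hρ hP2 hP3
    · intro Y hYX hYne hYm
      by_contra hcon2
      push Not at hcon2
      have h1 := hcon Y (hYX.trans hXW) hYne hYm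
      have h2 : (d1 : ℝ) / 8 / 16 * Y.card ≤ dg G Y := by
        unfold dg
        push_cast
        calc (d1 : ℝ) / 8 / 16 * Y.card = ∑ _v ∈ Y, (d1 : ℝ) / 8 / 16 := by
              rw [Finset.sum_const, nsmul_eq_mul, mul_comm]
          _ ≤ ∑ v ∈ Y, ((nbIn G Y v).card : ℝ) := Finset.sum_le_sum fun v hv => (hcon2 v hv).le
      have h3 : (d1 : ℝ) / 2 / 4096 * Y.card ≤ (d1 : ℝ) / 8 / 16 * Y.card := by
        have h4 : (0 : ℝ) ≤ Y.card := Nat.cast_nonneg _
        refine mul_le_mul_of_nonneg_right ?_ h4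
        linarith
      linarith
    · rw [hc0]
      have h1 : (0 : ℝ) < D0 := by rw [hD0]; exact_mod_cast (by omega : 0 < 2 ^ 21 * D)
      field_simp
      ring

end HD
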