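import Pool.Agent.LibHL.Defs

/-!
# LibHL : block (b), case M (bounded degrees), definitions
-/

set_option autoImplicit false
set_option linter.unusedSectionVars false

open scoped Classical

noncomputable section

namespace HD

variable {V : Type} [Fintype V] [DecidableEq V] (G : SimpleGraph V)

/-- The lazy walk operator on functions, with `Δ` slots per vertex; only the values on `W` matter. -/
def Mop (W : Finset V) (Δ : ℕ) (u : V → ℝ) (v : V) : ℝ :=
  (∑ w ∈ nbIn G W v, u w + ((Δ : ℝ) - (nbIn G W v).card) * u v) / Δ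

/-- The square of the norm on `W`. -/
def nsq (W : Finset V) (u : V → ℝ) : ℝ := ∑ v ∈ W, u v ^ 2

/-- The energy. -/
def En (W : Finset V) (u : V → ℝ) : ℝ := (1 / 2) * ∑ x ∈ W, ∑ y ∈ nbIn G W x, (u x - u y) ^ 2

/-- `st v` lists the neighbours of `v` in `W` once each, all other slots give `v`. -/
def IsStep (W : Finset V) (Δ : ℕ) (st : V → Fin Δ → V) : Prop :=
  ∀ v ∈ W, (∀ i, st v i ∈ W ∧ (st v i = v ∨ G.Adj v (st v i))) ∧
    ∀ f : V → ℝ, ∑ i, f (st v i) = ∑ w ∈ nbIn G W v, f w + ((Δ : ℝ) - (nbIn G W v).card) * f v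

/-- The end of a walk with code `c`. -/
def wend {Δ : ℕ} (st : V → Fin Δ → V) : (ρ : ℕ) → V → (Fin ρ → Fin Δ) → V
  | 0, x, _ => x
  | ρ + 1, x, c => wend st ρ (st x (c 0)) (Fin.tail c)

/-- The set of vertices of a walk with code `c`. -/
def wset {Δ : ℕ} (st : V → Fin Δ → V) : (ρ : ℕ) → V → (Fin ρ → Fin Δ) → Finset V
  | 0, x, _ => {x}
  | ρ + 1, x, c => insert x (wset st ρ (st x (c 0)) (Fin.tail c))

/-- A system of legs: for every start `x ∈ W` and every code `c` a connected set `se x c` of at most `L` vertices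
containing `x` and the end `en x c`. -/
structure Legs (W : Finset V) (P : Type) [Fintype P] (L : ℕ) (vp : ℝ) (en : V → P → V) (se : V → P → Finset V) :
    Prop where
  mem_x : ∀ x ∈ W, ∀ c, x ∈ se x c
  mem_en : ∀ x ∈ W, ∀ c, en x c ∈ se x c
  sub : ∀ x ∈ W, ∀ c, se x c ⊆ W
  conn : ∀ x ∈ W, ∀ c, Conn G (se x c)
  card_le : ∀ x ∈ W, ∀ c, (se x c).card ≤ L
  hit : ∀ v, ∑ x ∈ W, ((Finset.univ.filter (fun c => v ∈ se x c)).card : ℝ) ≤ L * Fintype.card P
  col : ∀ v ∈ W, ∑ x ∈ W, ((Finset.univ.filter (fun c => en x c = v)).card : ℝ) = Fintype.card P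
  vp_le : ∀ x ∈ W, ∀ v ∈ W, ((Finset.univ.filter (fun c => G.Adj v (en x c))).card : ℝ) ≤ vp * Fintype.card P

/-- A spider: a start in `W` and `b` codes. -/
abbrev Spi (W : Finset V) (P : Type) (b : ℕ) : Type := {x // x ∈ W} × (Fin b → P)

/-- Are the ends of leg `i` of `ξ` and leg `j` of `ξ'` adjacent? -/
def la {W : Finset V} {P : Type} {b : ℕ} (en : V → P → V) (ξ ξ' : Spi W P b) (i j : Fin b) : ℝ :=
  if G.Adj (en ξ.1 (ξ.2 i)) (en ξ'.1 (ξ'.2 j)) then 1 else 0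

/-- Do leg `i` of `ξ` and leg `j` of `ξ'` intersect? -/
def lh {W : Finset V} {P : Type} {b : ℕ} (se : V → P → Finset V) (ξ ξ' : Spi W P b) (i j : Fin b) : ℝ :=
  if (se ξ.1 (ξ.2 i) ∩ se ξ'.1 (ξ'.2 j)).Nonempty then 1 else 0

/-- The pair term. -/
def Ph2 {W : Finset V} {P : Type} {b : ℕ} (en : V → P → V) (se : V → P → Finset V) (ξ ξ' : Spi W P b) : ℝ :=
  ∑ i, ∑ j, la G en ξ ξ' i j * (1 - ∑ k, lh se ξ ξ' i k - ∑ k, lh se ξ' ξ j k) -
    (1 / 2) * ∑ p : Fin b × Fin b, ∑ p' ∈ Finset.univ.filter (fun p' : Fin b × Fin b => p' ≠ p),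
      la G en ξ ξ' p.1 p.2 * la G en ξ ξ' p'.1 p'.2

/-- The triple term. -/
def Ph3 {W : Finset V} {P : Type} {b : ℕ} (en : V → P → V) (se : V → P → Finset V) (ξ ξ' ξ'' : Spi W P b) : ℝ :=
  ∑ i, ∑ j, ∑ k, la G en ξ ξ' i j * (lh se ξ ξ'' i k + lh se ξ' ξ'' j k)

/-- Bounded number of touching pairs in every disjoint connected family inside `W`. -/
def MD (W : Finset V) (D : ℕ) : Prop :=
  ∀ (n : ℕ) (F : Fin n → Finset V), (∀ i, F i ⊆ W ∧ Conn G (F i)) → (∀ i j, i ≠ j → Disjoint (F i) (F j)) →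
    ∑ i, (Finset.univ.filter (fun j => j ≠ i ∧ Touch G (F i) (F j))).card ≤ 2 * D * n

end HD
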