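import Pool.Agent.LibHL.Defs

/-!
# LibHL : block (c), definitions
-/

set_option autoImplicit false
set_option linter.unusedSectionVars false

open scoped Classical

noncomputable section

namespace HD

variable {V : Type} [Fintype V] [DecidableEq V] (G : SimpleGraph V)

/-- `Y` is a union of `q` connected sets. -/
def Parts (Y : Finset V) (q : ℕ) : Prop :=
  ∃ Q : Fin q → Finset V, (∀ i, Conn G (Q i)) ∧ Y = Finset.univ.biUnion Q

/-- A state of the inseparable case: strands `T r` (`r ∈ R`), each attached to the host `M` in the single vertex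
`e r`, with kept parts `Y r` in the small set `X`; the pairs in `P` are already adjacent. -/
structure St (M₀ R : Finset V) (κ c q : ℕ) (X : Finset V) (P : V → V → Prop) (M : Finset V)
    (T Y : V → Finset V) (e : V → V) : Prop where
  sub : M ⊆ M₀
  kc : KC G M κ
  col : ¬ Col G M c
  T_sub : ∀ r ∈ R, T r ⊆ M₀
  T_conn : ∀ r ∈ R, Conn G (T r)
  T_end : ∀ r ∈ R, T r ∩ M = {e r}
  T_disj : ∀ r ∈ R, ∀ r' ∈ R, r ≠ r' → Disjoint (T r) (T r')
  Y_sub : ∀ r ∈ R, Y r ⊆ T r
  Y_root : ∀ r ∈ R, r ∈ Y r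
  Y_parts : ∀ r ∈ R, Parts G (Y r) q
  Y_small : ∀ r ∈ R, Y r ⊆ insert r X
  touch : ∀ r ∈ R, ∀ r' ∈ R, r ≠ r' → P r r' → Touch G (Y r) (Y r')

/-- No two disjoint subsets of `M₀` both fail to be `c`-colourable. -/
def Insep (M₀ : Finset V) (c : ℕ) : Prop :=
  ∀ A ⊆ M₀, ∀ B ⊆ M₀, Disjoint A B → Col G A c ∨ Col G B c

/-- Every non-`c`-colourable subset of `M₀` contains a `(2 ^ 15 * k)`-connected set of at most `h` vertices. -/
def Piece (M₀ : Finset V) (c k h : ℕ) : Prop :=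
  ∀ U ⊆ M₀, ¬ Col G U c → ∃ H ⊆ U, KC G H (2 ^ 15 * k) ∧ H.card ≤ h

/-- All subsets of `M₀` of at most `m` vertices are `x`-colourable. -/
def Small (M₀ : Finset V) (m x : ℕ) : Prop := ∀ W ⊆ M₀, W.card ≤ m → Col G W x

end HD
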