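import Pool.Agent.LibHL.Api
import Pool.Agent.LibHL.A4
import Pool.Agent.LibHL.CDefs
import Pool.Agent.LibHD.X2

/-! block (c) skeleton 1 -/

set_option autoImplicit false
set_option linter.unusedSectionVars false

open scoped Classical

noncomputable section

namespace HD

variable {V : Type} [Fintype V] [DecidableEq V] {G : SimpleGraph V}


/-! Row SA -/
theorem SA_col {U : V → Finset V} (R : Finset V) (h : ∀ r ∈ R, Col G (U r) 2) :
    Col G (R.biUnion U) (2 * R.card) := by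
  induction R using Finset.induction_on with
  | empty =>
    rw [Finset.biUnion_empty]
    exact col_empty _
  | insert a s ha ih =>
    rw [Finset.biUnion_insert, Finset.card_insert_of_notMem ha]
    have h1 := (h a (Finset.mem_insert_self a s)).union
      (ih fun r hr => h r (Finset.mem_insert_of_mem hr))
    exact h1.mono (Finset.Subset.refl _) (by omega)

theorem SA_one {T Y : Finset V} {q : ℕ} {e : V} (hT : Conn G T) (he : e ∈ T) (hY : Y ⊆ T)
    (hP : Parts G Y q) : ∃ T' A : Finset V, T' ⊆ T ∧ Conn G T' ∧ Y ⊆ T' ∧ e ∈ T' ∧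
      A.card ≤ q + 1 ∧ Col G (T' \ (insert e Y ∪ A)) 2 := by
  obtain ⟨Q, hQ, hYQ⟩ := hP
  have hQY : ∀ i, Q i ⊆ Y := by
    intro i
    rw [hYQ]
    exact Finset.subset_biUnion_of_mem Q (Finset.mem_univ i)
  let Q' : Fin (q + 1) → Finset V := Fin.cons {e} Q
  have h0 : Q' 0 = {e} := rfl
  have hs : ∀ i : Fin q, Q' i.succ = Q i := fun i => rfl
  have h1 : ∀ i, Conn G (Q' i) ∧ Q' i ⊆ T := by
    intro i
    refine Fin.cases ?_ (fun j => ?_) i
    · rw [h0]
      exact ⟨conn_singleton e, Finset.singleton_subset_iff.2 he⟩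
    · rw [hs]
      exact ⟨hQ j, (hQY j).trans hY⟩
  obtain ⟨T', A, h2, h3, h4, -, h6, h7⟩ := shrink hT (q := q + 1) (Nat.succ_le_succ (Nat.zero_le q)) Q' h1
  refine ⟨T', A, h2, h3, ?_, ?_, h6, ?_⟩
  · intro z hz
    rw [hYQ] at hz
    obtain ⟨i, -, hi⟩ := Finset.mem_biUnion.1 hz
    have h8 := h4 i.succ
    rw [hs] at h8
    exact h8 hi
  · have h8 := h4 0
    rw [h0] at h8
    exact h8 (Finset.mem_singleton_self e)
  · refine h7.mono ?_ le_rfl
    intro z hz
    rw [Finset.mem_sdiff] at hz ⊢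
    refine ⟨hz.1, fun hz2 => hz.2 ?_⟩
    rcases Finset.mem_union.1 hz2 with hz3 | hz3
    · refine Finset.mem_union_left _ ?_
      obtain ⟨i, -, hi⟩ := Finset.mem_biUnion.1 hz3
      revert hi
      refine Fin.cases ?_ (fun j => ?_) i
      · intro hi
        rw [h0] at hi
        rw [Finset.mem_singleton.1 hi]
        exact Finset.mem_insert_self _ _
      · intro hi
        rw [hs] at hi
        exact Finset.mem_insert_of_mem (hQY j hi)
    · exact Finset.mem_union_right _ hz3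

/-- S2: shrinking all strands. -/
theorem shrink_all {M₀ R X : Finset V} {q x m : ℕ} {T Y : V → Finset V} {e : V → V}
    (hT : ∀ r ∈ R, T r ⊆ M₀ ∧ Conn G (T r) ∧ e r ∈ T r ∧ Y r ⊆ T r ∧ Parts G (Y r) q ∧ Y r ⊆ insert r X ∧ r ∈ Y r)
    (hs : Small G M₀ m x) (hm : X.card + (q + 3) * R.card ≤ m) :
    ∃ T' : V → Finset V, (∀ r ∈ R, T' r ⊆ T r ∧ Conn G (T' r) ∧ Y r ⊆ T' r ∧ e r ∈ T' r) ∧
      Col G (R.biUnion T') (2 * R.card + x) := by
  have key : ∀ r ∈ R, ∃ T' A : Finset V, T' ⊆ T r ∧ Conn G T' ∧ Y r ⊆ T' ∧ e r ∈ T' ∧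
      A.card ≤ q + 1 ∧ Col G (T' \ (insert (e r) (Y r) ∪ A)) 2 := fun r hr =>
    SA_one (hT r hr).2.1 (hT r hr).2.2.1 (hT r hr).2.2.2.1 (hT r hr).2.2.2.2.1
  choose! T' A h1 h2 h3 h4 h5 h6 using key
  refine ⟨T', fun r hr => ⟨h1 r hr, h2 r hr, h3 r hr, h4 r hr⟩, ?_⟩
  let N : Finset V := R.biUnion fun r => insert (e r) (Y r) ∪ A r
  have hN : N.card ≤ m := by
    have h7 : N ⊆ X ∪ R ∪ R.image e ∪ R.biUnion A := by
      intro z hz
      obtain ⟨r, hr, hz⟩ := Finset.mem_biUnion.1 hz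
      rcases Finset.mem_union.1 hz with hz | hz
      · rcases Finset.mem_insert.1 hz with hz | hz
        · refine Finset.mem_union_left _ (Finset.mem_union_right _ ?_)
          rw [hz]
          exact Finset.mem_image_of_mem e hr
        · refine Finset.mem_union_left _ (Finset.mem_union_left _ ?_)
          rcases Finset.mem_insert.1 ((hT r hr).2.2.2.2.2.1 hz) with h | h
          · rw [h]
            exact Finset.mem_union_right _ hr
          · exact Finset.mem_union_left _ h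
      · exact Finset.mem_union_right _ (Finset.mem_biUnion.2 ⟨r, hr, hz⟩)
    have h8 := Finset.card_le_card h7
    have h9 := Finset.card_union_le (X ∪ R ∪ R.image e) (R.biUnion A)
    have h10 := Finset.card_union_le (X ∪ R) (R.image e)
    have h11 := Finset.card_union_le X R
    have h12 : (R.image e).card ≤ R.card := Finset.card_image_le
    have h13 : (R.biUnion A).card ≤ R.card * (q + 1) := Finset.card_biUnion_le_card_mul R A (q + 1) h5
    nlinarith
  have hD : R.biUnion T' ⊆ M₀ := by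
    intro z hz
    obtain ⟨r, hr, hz⟩ := Finset.mem_biUnion.1 hz
    exact (hT r hr).1 (h1 r hr hz)
  have hZ : Col G (R.biUnion T' ∩ N) x := by
    refine hs _ (Finset.inter_subset_left.trans hD) ?_
    exact (Finset.card_le_card Finset.inter_subset_right).trans hN
  have hU := SA_col (G := G) (U := fun r => T' r \ (insert (e r) (Y r) ∪ A r)) R h6
  refine (hU.union hZ).mono ?_ le_rfl
  intro z hz
  by_cases hzN : z ∈ N
  · exact Finset.mem_union_right _ (Finset.mem_inter.2 ⟨hz, hzN⟩)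
  · refine Finset.mem_union_left _ ?_
    obtain ⟨r, hr, hz'⟩ := Finset.mem_biUnion.1 hz
    refine Finset.mem_biUnion.2 ⟨r, hr, Finset.mem_sdiff.2 ⟨hz', fun h => hzN ?_⟩⟩
    exact Finset.mem_biUnion.2 ⟨r, hr, h⟩

/-! Row GJ -/
theorem GJ_model {A : Finset V} {b k N s : ℕ} (hb : 1 ≤ b) (hA : A.Nonempty) (hs : 1 ≤ s)
    (hk : b * s ≤ k) (hN : b * s ≤ N)
    (hdeg : ∀ v ∈ A, 2 ^ 11 * N ≤ (nbIn G A v).card) (hlog : 2 ^ 10 * (1 + Real.log k) ≤ s) :
    Model G A b := by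
  by_contra hmod
  obtain ⟨v, hv, h1⟩ := low_degree hb hA hmod
  have h2 := hdeg v hv
  have hb' : (1 : ℝ) ≤ b := by exact_mod_cast hb
  have hbk : b ≤ k := by nlinarith
  have hbk' : (b : ℝ) ≤ k := by exact_mod_cast hbk
  have h3 : Real.log b ≤ Real.log k := Real.log_le_log (by linarith) hbk'
  have h4 : 0 ≤ Real.log b := Real.log_nonneg hb'
  have h5 : (2 : ℝ) ^ 11 * (b * s) ≤ (nbIn G A v).card := by
    have h6 : 2 ^ 11 * (b * s) ≤ (nbIn G A v).card := (Nat.mul_le_mul_left _ hN).trans h2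
    exact_mod_cast h6
  have h7 : (2 : ℝ) ^ 10 * (1 + Real.log b) ≤ s := by
    refine le_trans ?_ hlog
    linarith
  have h8 : (2 : ℝ) ^ 11 * (b * (2 ^ 10 * (1 + Real.log b))) ≤ 2 ^ 20 * b * (1 + Real.log b) := by
    refine le_trans ?_ (h5.trans h1)
    apply mul_le_mul_of_nonneg_left _ (by positivity)
    exact mul_le_mul_of_nonneg_left h7 (by linarith)
  have h9 : 0 < (b : ℝ) * (1 + Real.log b) := by positivity
  nlinarith

theorem GJ_family {γ : Type} {A : Finset V} {b : ℕ} {J : Finset γ} (hJ : J.card ≤ b)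
    (hmod : J.Nonempty → Model G A b) :
    ∃ S : γ → Finset V, (∀ g ∈ J, S g ⊆ A ∧ Conn G (S g)) ∧
      ∀ g ∈ J, ∀ g' ∈ J, g ≠ g' → Disjoint (S g) (S g') ∧ Touch G (S g) (S g') := by
  by_cases hJe : J.Nonempty
  · obtain ⟨f, hf1, hf2⟩ := hmod hJe
    have h1 : ∀ g : γ, ∃ S : Finset V, ∀ h : g ∈ J, S = f (Fin.castLE hJ (J.equivFin ⟨g, h⟩)) := by
      intro g
      by_cases h : g ∈ J
      · exact ⟨f (Fin.castLE hJ (J.equivFin ⟨g, h⟩)), fun _ => rfl⟩
      · exact ⟨∅, fun h' => absurd h' h⟩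
    choose S hS using h1
    refine ⟨S, ?_, ?_⟩
    · intro g hg
      rw [hS g hg]
      exact hf1 _
    · intro g hg g' hg' hne
      rw [hS g hg, hS g' hg']
      apply hf2
      intro h2
      have h3 := J.equivFin.injective (Fin.castLE_injective hJ h2)
      exact hne (congrArg Subtype.val h3)
  · rw [Finset.not_nonempty_iff_eq_empty] at hJe
    refine ⟨fun _ => ∅, ?_, ?_⟩
    · intro g hg
      rw [hJe] at hg
      exact absurd hg (Finset.notMem_empty g)
    · intro g hg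
      rw [hJe] at hg
      exact absurd hg (Finset.notMem_empty g)

/-- G0: the gadget: grouping ports inside a small highly connected set, and making the groups in `J` adjacent. -/
theorem gadgetJ {γ : Type} {H P : Finset V} {k m b s : ℕ} (hk : 1 ≤ k) (hH : KC G H (2 ^ 15 * k))
    (hcard : H.card ≤ k ^ 2) (hs : 1 ≤ s) (hmk : 2 ^ 12 * (m + b * s) ≤ k)
    (hlog : 2 ^ 10 * (1 + Real.log k) ≤ s) (hP : P ⊆ H) (hPm : P.card ≤ m) (grp : V → γ)
    (J : Finset γ) (hJ : J.card ≤ b) (hJP : ∀ g ∈ J, ∃ p ∈ P, grp p = g) :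
    ∃ C : γ → Finset V, (∀ p ∈ P, p ∈ C (grp p) ∧ C (grp p) ⊆ H ∧ Conn G (C (grp p))) ∧
      (∀ p ∈ P, ∀ p' ∈ P, grp p ≠ grp p' → Disjoint (C (grp p)) (C (grp p'))) ∧
      ∀ g ∈ J, ∀ g' ∈ J, g ≠ g' → Touch G (C g) (C g') := by
  rcases Nat.eq_zero_or_pos (m + b * s) with h0 | h0
  · have hm : m = 0 := by omega
    have hPe : P = ∅ := by
      rw [← Finset.card_eq_zero]
      omega
    have hno : ∀ g, g ∉ J := by
      intro g hg
      obtain ⟨p, hp, _⟩ := hJP g hg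
      rw [hPe] at hp
      exact Finset.notMem_empty p hp
    refine ⟨fun _ => ∅, ?_, ?_, ?_⟩
    · intro p hp
      rw [hPe] at hp
      exact absurd hp (Finset.notMem_empty p)
    · intro p hp
      rw [hPe] at hp
      exact absurd hp (Finset.notMem_empty p)
    · intro g hg
      exact absurd hg (hno g)
  have hbs : b ≤ b * s := Nat.le_mul_of_pos_right b hs
  obtain ⟨A, hA1, hA2, -, hA4, hA5⟩ := gadget (k := k) (m := m + b * s) h0 hmk hH hcard hP (by omega)
  have hA0H : A 0 ⊆ H := (hA1 0).trans Finset.sdiff_subset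
  have hA0P : ∀ v ∈ A 0, v ∉ P := fun v hv => (Finset.mem_sdiff.1 (hA1 0 hv)).2
  have hA0ne : (A 0).Nonempty := by
    have h1 : 0 < H.card := by
      have := hH.1
      omega
    obtain ⟨v, hv⟩ := Finset.card_pos.1 h1
    have h2 := hA4 0 v hv
    have h3 : 0 < (nbIn G (A 0) v).card := by omega
    obtain ⟨u, hu⟩ := Finset.card_pos.1 h3
    exact ⟨u, (Finset.mem_filter.1 hu).1⟩
  obtain ⟨S, hS1, hS2⟩ := GJ_family (A := A 0) hJ (fun hJne => by
    have hb : 1 ≤ b := by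
      have := Finset.card_pos.2 hJne
      omega
    exact GJ_model (N := m + b * s) hb hA0ne hs (by omega) (by omega)
      (fun v hv => hA4 0 v (hA0H hv)) hlog)
  have hyex : ∀ g, ∃ v, g ∈ J → v ∈ S g := by
    intro g
    by_cases hg : g ∈ J
    · obtain ⟨v, hv⟩ := (hS1 g hg).2.nonempty
      exact ⟨v, fun _ => hv⟩
    · obtain ⟨v, _⟩ := hA0ne
      exact ⟨v, fun h => absurd h hg⟩
  choose y hy using hyex
  have hyA : ∀ g ∈ J, y g ∈ A 0 := fun g hg => (hS1 g hg).1 (hy g hg)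
  obtain ⟨W, hW1, hW2, hW3⟩ := hA5 0 ({p // p ∈ P} ⊕ {g // g ∈ J}) γ
    (Sum.elim (fun p => p.1) (fun g => y g.1)) (Sum.elim (fun p => grp p.1) (fun g => g.1))
    (by
      rw [Fintype.card_sum, Fintype.card_coe, Fintype.card_coe]
      omega)
    (by
      rintro (a | a) (c | c) hab
      · have h1 : a.1 = c.1 := hab
        exact congrArg _ (Subtype.ext h1)
      · have h1 : a.1 = y c.1 := hab
        exact absurd (h1 ▸ a.2) (hA0P _ (hyA c.1 c.2))
      · have h1 : y a.1 = c.1 := hab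
        exact absurd (h1 ▸ c.2) (hA0P _ (hyA a.1 a.2))
      · have h1 : y a.1 = y c.1 := hab
        have h2 : a.1 = c.1 := by
          by_contra hne
          exact Finset.disjoint_left.1 (hS2 a.1 a.2 c.1 c.2 hne).1 (hy a.1 a.2) (h1 ▸ hy c.1 c.2)
        exact congrArg _ (Subtype.ext h2))
    (by
      rintro (a | a)
      · exact Finset.mem_union_left _ a.2
      · exact Finset.mem_union_right _ (hyA a.1 a.2))
  have hWp : ∀ p ∈ P, p ∈ W (grp p) ∧ Conn G (W (grp p)) := fun p hp => hW2 (Sum.inl ⟨p, hp⟩)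
  have hWy : ∀ g ∈ J, y g ∈ W g ∧ Conn G (W g) := fun g hg => hW2 (Sum.inr ⟨g, hg⟩)
  have hWH : ∀ g, W g ⊆ H := by
    intro g v hv
    rcases hW1 g v hv with h1 | ⟨a, _, h2⟩
    · exact (Finset.mem_sdiff.1 h1).1
    · rcases a with a | a
      · have h3 : a.1 = v := h2
        rw [← h3]
        exact hP a.2
      · have h3 : y a.1 = v := h2
        rw [← h3]
        exact hA0H (hyA a.1 a.2)
  have hWA : ∀ g, ∀ v ∈ W g, v ∈ A 0 → g ∈ J ∧ v ∈ S g := by
    intro g v hv hvA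
    rcases hW1 g v hv with h1 | ⟨a, h2, h3⟩
    · exact absurd (Finset.mem_union_right _ hvA) (Finset.mem_sdiff.1 h1).2
    · rcases a with a | a
      · have h4 : a.1 = v := h3
        exact absurd (h4 ▸ a.2) (hA0P v hvA)
      · have h4 : y a.1 = v := h3
        have h5 : a.1 = g := h2
        rw [← h4, ← h5]
        exact ⟨a.2, hy a.1 a.2⟩
  have dWS : ∀ g, ∀ g' ∈ J, g ≠ g' → Disjoint (W g) (S g') := by
    intro g g' hg' hne
    rw [Finset.disjoint_left]
    intro v hv hv'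
    obtain ⟨h1, h2⟩ := hWA g v hv ((hS1 g' hg').1 hv')
    exact Finset.disjoint_left.1 (hS2 g h1 g' hg' hne).1 h2 hv'
  obtain ⟨C, hC⟩ : ∃ C : γ → Finset V, ∀ g, (g ∈ J → C g = W g ∪ S g) ∧ (g ∉ J → C g = W g) := by
    refine ⟨fun g => if g ∈ J then W g ∪ S g else W g, fun g => ⟨fun h => ?_, fun h => ?_⟩⟩
    · simp only [h, if_true]
    · simp only [h, if_false]
  have hWC : ∀ g, W g ⊆ C g := by
    intro g
    by_cases hg : g ∈ J
    · rw [(hC g).1 hg]
      exact Finset.subset_union_left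
    · rw [(hC g).2 hg]
  have hCdis : ∀ g g', g ≠ g' → Disjoint (C g) (C g') := by
    intro g g' hne
    by_cases hg : g ∈ J <;> by_cases hg' : g' ∈ J
    · rw [(hC g).1 hg, (hC g').1 hg', Finset.disjoint_union_left, Finset.disjoint_union_right,
        Finset.disjoint_union_right]
      exact ⟨⟨hW3 g g' hne, dWS g g' hg' hne⟩, ⟨(dWS g' g hg hne.symm).symm, (hS2 g hg g' hg' hne).1⟩⟩
    · rw [(hC g).1 hg, (hC g').2 hg', Finset.disjoint_union_left]
      exact ⟨hW3 g g' hne, (dWS g' g hg hne.symm).symm⟩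
    · rw [(hC g).2 hg, (hC g').1 hg', Finset.disjoint_union_right]
      exact ⟨hW3 g g' hne, dWS g g' hg' hne⟩
    · rw [(hC g).2 hg, (hC g').2 hg']
      exact hW3 g g' hne
  refine ⟨C, ?_, ?_, ?_⟩
  · intro p hp
    refine ⟨hWC _ (hWp p hp).1, ?_, ?_⟩
    · by_cases hg : grp p ∈ J
      · rw [(hC _).1 hg]
        exact Finset.union_subset (hWH _) ((hS1 _ hg).1.trans hA0H)
      · rw [(hC _).2 hg]
        exact hWH _
    · by_cases hg : grp p ∈ J
      · rw [(hC _).1 hg]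
        exact (hWy _ hg).2.union_mem (hS1 _ hg).2 (hWy _ hg).1 (hy _ hg)
      · rw [(hC _).2 hg]
        exact (hWp p hp).2
  · intro p _ p' _ hne
    exact hCdis _ _ hne
  · intro g hg g' hg' hne
    rw [(hC g).1 hg, (hC g').1 hg']
    exact (hS2 g hg g' hg' hne).2.mono Finset.subset_union_right Finset.subset_union_right

/-! Row SP -/
theorem SP_col_biUnion {ι : Type} (s : Finset ι) (f : ι → Finset V) (h : ∀ e ∈ s, Col G (f e) 2) :
    Col G (s.biUnion f) (2 * s.card) := by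
  induction s using Finset.induction_on with
  | empty =>
    rw [Finset.biUnion_empty]
    exact col_empty _
  | insert a s ha ih =>
    have h1 := (h a (Finset.mem_insert_self a s)).union (ih (fun e he => h e (Finset.mem_insert_of_mem he)))
    rw [Finset.biUnion_insert, Finset.card_insert_of_notMem ha]
    exact h1.mono (Finset.Subset.refl _) (by omega)

/-- P1: the path system of a stage. -/
theorem stage_paths {M E H : Finset V} {κ c x : ℕ} (hM : KC G M κ) (hE : E ⊆ M) (hκ : 2 * E.card ≤ κ)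
    (hH : H ⊆ M \ E) (hHc : 2 * E.card ≤ H.card) (hx : Col G H x) (hcκ : 2 * κ ≤ c)
    (hc : ¬ Col G M (c + 4 * κ + 5 * E.card + x)) :
    ∃ (Ms E' : Finset V) (F : V → Finset V), Ms ⊆ M \ (E ∪ H) ∧ KC G Ms κ ∧ ¬ Col G Ms c ∧ E' ⊆ Ms ∧
      E'.card = E.card ∧ Sys G M H (E ∪ E') (E ∪ Ms) F ∧ ∀ e ∈ E ∪ E', ∃ a, F e ∩ H = {a} := by
  have hHM : H ⊆ M := hH.trans Finset.sdiff_subset
  -- the auxiliary set C
  have hrest : E.card ≤ (M \ (E ∪ H)).card := by
    by_contra hcon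
    push Not at hcon
    apply hc
    have h1 : Col G ((M \ (E ∪ H)) ∪ E ∪ H) ((M \ (E ∪ H)).card + E.card + x) :=
      ((col_card _).union (col_card E)).union hx
    refine h1.mono ?_ (by omega)
    intro v hv
    by_cases h2 : v ∈ E
    · exact Finset.mem_union_left _ (Finset.mem_union_right _ h2)
    · by_cases h3 : v ∈ H
      · exact Finset.mem_union_right _ h3
      · refine Finset.mem_union_left _ (Finset.mem_union_left _ (Finset.mem_sdiff.2 ⟨hv, fun h4 => ?_⟩))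
        rcases Finset.mem_union.1 h4 with h5 | h5
        · exact h2 h5
        · exact h3 h5
  obtain ⟨C, hC1, hC2⟩ := Finset.exists_subset_card_eq hrest
  have hCM : C ⊆ M := hC1.trans Finset.sdiff_subset
  have hEC : Disjoint E C := by
    rw [Finset.disjoint_left]
    intro v hv hv'
    exact (Finset.mem_sdiff.1 (hC1 hv')).2 (Finset.mem_union_left _ hv)
  have hECcard : (E ∪ C).card = 2 * E.card := by
    rw [Finset.card_union_of_disjoint hEC, hC2]
    ring
  obtain ⟨F0, hF0, hF0c⟩ := link0 hM hHM (Finset.union_subset hE hCM) (by omega) (by omega)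
  obtain ⟨U, hU⟩ : ∃ U : Finset V, U = (E ∪ C).biUnion F0 ∪ H := ⟨_, rfl⟩
  have hUcol : Col G U (4 * E.card + x) := by
    have h1 := (SP_col_biUnion (E ∪ C) F0 (fun e he => (hF0c e he).1)).union hx
    rw [hU]
    exact h1.mono (Finset.Subset.refl _) (by omega)
  have hFU : ∀ e ∈ E ∪ C, F0 e ⊆ U := by
    intro e he v hv
    rw [hU]
    exact Finset.mem_union_left _ (Finset.mem_biUnion.2 ⟨e, he, hv⟩)
  have hMU : ¬ Col G (M \ U) (c + 4 * κ) := by
    intro h1
    apply hc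
    refine (h1.union hUcol).mono ?_ (by omega)
    intro v hv
    by_cases h2 : v ∈ U
    · exact Finset.mem_union_right _ h2
    · exact Finset.mem_union_left _ (Finset.mem_sdiff.2 ⟨hv, h2⟩)
  obtain ⟨Ms, hMs1, hMs2, hMs3⟩ := gn hMU hcκ
  have hMsM : Ms ⊆ M := hMs1.trans Finset.sdiff_subset
  have hMsU : ∀ v ∈ Ms, v ∉ U := fun v hv => (Finset.mem_sdiff.1 (hMs1 hv)).2
  have hEU : E ⊆ U := fun e he =>
    hFU e (Finset.mem_union_left _ he) (hF0.1 e (Finset.mem_union_left _ he)).2.2.1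
  have hHU : H ⊆ U := by
    rw [hU]
    exact Finset.subset_union_right
  have hSys : Sys G (M \ Ms) H (E ∪ C) E F0 := by
    refine ⟨fun e he => ?_, hF0.2⟩
    obtain ⟨h1, h2, h3, h4, h5⟩ := hF0.1 e he
    refine ⟨?_, h2, h3, h4, ?_⟩
    · intro v hv
      exact Finset.mem_sdiff.2 ⟨h1 hv, fun h6 => hMsU v h6 (hFU e he hv)⟩
    · intro v hv
      apply h5
      rw [Finset.mem_inter] at hv ⊢
      exact ⟨hv.1, Finset.mem_union_left _ hv.2⟩
  obtain ⟨E', F1, hE'1, hE'2, hF1⟩ := swap hSys hEC (Finset.Subset.refl M) hM (by omega) hCM hMsM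
    hMs2.1 (fun e he => Finset.mem_sdiff.2 ⟨hE he, fun h => hMsU e h (hEU he)⟩)
  have htrim : ∀ e, ∃ F' : Finset V, e ∈ E ∪ E' →
      F' ⊆ F1 e ∧ Conn G F' ∧ e ∈ F' ∧ ∃ a, F' ∩ H = {a} := by
    intro e
    by_cases he : e ∈ E ∪ E'
    · obtain ⟨_, h2, h3, h4, _⟩ := hF1.1 e he
      obtain ⟨F', k1, k2, k3, k4, _⟩ := trim h2 h3 h4
      exact ⟨F', fun _ => ⟨k1, k2, k3, k4⟩⟩
    · exact ⟨∅, fun h => absurd h he⟩
  choose F hF using htrim
  refine ⟨Ms, E', F, ?_, hMs2, hMs3, hE'1, by rw [hE'2, hC2], ⟨?_, ?_⟩, fun e he => (hF e he).2.2.2⟩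
  · intro v hv
    refine Finset.mem_sdiff.2 ⟨hMsM hv, fun h => ?_⟩
    rcases Finset.mem_union.1 h with h1 | h1
    · exact hMsU v hv (hEU h1)
    · exact hMsU v hv (hHU h1)
  · intro e he
    obtain ⟨h1, h2, h3, a, h4⟩ := hF e he
    obtain ⟨k1, _, _, _, k5⟩ := hF1.1 e he
    refine ⟨h1.trans k1, h2, h3, ?_, ?_⟩
    · rw [h4]
      exact Finset.singleton_nonempty a
    · intro v hv
      apply k5
      rw [Finset.mem_inter] at hv ⊢
      exact ⟨h1 hv.1, hv.2⟩
  · intro e he e' he' hne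
    exact (hF1.2 e he e' he' hne).mono (hF e he).1 (hF e' he').1

/-! Row SU -/
theorem SU_parts {Y C : Finset V} {q : ℕ} (h : Parts G Y q) (hC : Conn G C) :
    Parts G (Y ∪ C) (q + 1) := by
  obtain ⟨Q, h1, h2⟩ := h
  refine ⟨(Fin.cons C Q : Fin (q + 1) → Finset V), ?_, ?_⟩
  · intro i
    refine Fin.cases ?_ ?_ i
    · rw [Fin.cons_zero]
      exact hC
    · intro j
      rw [Fin.cons_succ]
      exact h1 j
  · ext x
    rw [h2]
    simp only [Finset.mem_union, Finset.mem_biUnion, Finset.mem_univ, true_and]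
    rw [Fin.exists_fin_succ]
    simp only [Fin.cons_zero, Fin.cons_succ]
    exact Or.comm

theorem SU_bij {R E' : Finset V} (h : E'.card = R.card) :
    ∃ e' : V → V, (∀ r ∈ R, e' r ∈ E') ∧ ∀ r ∈ R, ∀ r' ∈ R, e' r = e' r' → r = r' := by
  let φ := Finset.equivOfCardEq h.symm
  refine ⟨fun r => if h : r ∈ R then (φ ⟨r, h⟩ : V) else r, ?_, ?_⟩
  · intro r hr
    simp only [hr, dif_pos]
    exact (φ ⟨r, hr⟩).2
  · intro r hr r' hr' he
    simp only [hr, hr', dif_pos] at he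
    have h1 := φ.injective (Subtype.ext he)
    exact congrArg Subtype.val h1

/-- P2: the strands after passing through the piece. -/
theorem stage_union {M₀ R X M Ms H E' J : Finset V} {κ c q k b s : ℕ} {P : V → V → Prop} {T Y F : V → Finset V}
    {e : V → V} (hSt : St G M₀ R κ c q X P M T Y e) (hk : 1 ≤ k) (hH : KC G H (2 ^ 15 * k))
    (hcard : H.card ≤ k ^ 2) (hs : 1 ≤ s) (hmk : 2 ^ 12 * (2 * R.card + b * s) ≤ k)
    (hlog : 2 ^ 10 * (1 + Real.log k) ≤ s) (hHM : H ⊆ M \ R.image e) (hMs : Ms ⊆ M \ (R.image e ∪ H))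
    (hE' : E' ⊆ Ms) (hE'c : E'.card = (R.image e).card)
    (hF : Sys G M H (R.image e ∪ E') (R.image e ∪ Ms) F) (hF1 : ∀ v ∈ R.image e ∪ E', ∃ a, F v ∩ H = {a})
    (hJR : J ⊆ R) (hJ : J.card ≤ b) :
    ∃ (T' Y' : V → Finset V) (e' : V → V),
      (∀ r ∈ R, T' r ⊆ M₀ ∧ Conn G (T' r) ∧ T' r ∩ Ms = {e' r} ∧ Y' r ⊆ T' r ∧ Parts G (Y' r) (q + 1) ∧
        Y' r ⊆ insert r (X ∪ H) ∧ r ∈ Y' r) ∧
      (∀ r ∈ R, ∀ r' ∈ R, r ≠ r' → Disjoint (T' r) (T' r')) ∧
      ∀ r ∈ R, ∀ r' ∈ R, r ≠ r' → (P r r' ∨ (r ∈ J ∧ r' ∈ J)) → Touch G (Y' r) (Y' r') := by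
  obtain ⟨E, hE⟩ : ∃ E, E = R.image e := ⟨_, rfl⟩
  rw [← hE] at hHM hMs hE'c hF hF1
  -- the ends
  have heT : ∀ r ∈ R, e r ∈ T r ∧ e r ∈ M := by
    intro r hr
    have h1 : e r ∈ T r ∩ M := by
      rw [hSt.T_end r hr]
      exact Finset.mem_singleton_self _
    exact Finset.mem_inter.1 h1
  have heE : ∀ r ∈ R, e r ∈ E := by
    intro r hr
    rw [hE]
    exact Finset.mem_image_of_mem e hr
  have heinj : ∀ r ∈ R, ∀ r' ∈ R, e r = e r' → r = r' := by
    intro r hr r' hr' he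
    by_contra hne
    have h1 := hSt.T_disj r hr r' hr' hne
    have h2 := (heT r' hr').1
    rw [← he] at h2
    exact Finset.disjoint_left.1 h1 (heT r hr).1 h2
  have hEc : E.card = R.card := by
    rw [hE]
    exact Finset.card_image_of_injOn (fun r hr r' hr' he => heinj r hr r' hr' he)
  obtain ⟨e', he'1, he'inj⟩ := SU_bij (hE'c.trans hEc)
  have hMsM : ∀ x ∈ Ms, x ∈ M ∧ x ∉ E ∧ x ∉ H := by
    intro x hx
    have h1 := Finset.mem_sdiff.1 (hMs hx)
    exact ⟨h1.1, fun h => h1.2 (Finset.mem_union_left _ h), fun h => h1.2 (Finset.mem_union_right _ h)⟩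
  have hHE : ∀ x ∈ H, x ∈ M ∧ x ∉ E := by
    intro x hx
    exact Finset.mem_sdiff.1 (hHM hx)
  have hEE' : ∀ x ∈ E, x ∉ E' := fun x hx hx' => (hMsM x (hE' hx')).2.1 hx
  have hne : ∀ r ∈ R, ∀ r' ∈ R, e r ≠ e' r' := by
    intro r hr r' hr' h1
    apply hEE' _ (heE r hr)
    rw [h1]
    exact he'1 r' hr'
  have hm1 : ∀ r ∈ R, e r ∈ E ∪ E' := fun r hr => Finset.mem_union_left _ (heE r hr)
  have hm2 : ∀ r ∈ R, e' r ∈ E ∪ E' := fun r hr => Finset.mem_union_right _ (he'1 r hr)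
  -- the ports
  obtain ⟨a, ha⟩ : ∃ a : V → V, ∀ v ∈ E ∪ E', F v ∩ H = {a v} := by
    refine ⟨fun v => if h : v ∈ E ∪ E' then (hF1 v h).choose else v, ?_⟩
    intro v hv
    simp only [hv, dif_pos]
    exact (hF1 v hv).choose_spec
  have haF : ∀ v ∈ E ∪ E', a v ∈ F v ∧ a v ∈ H := by
    intro v hv
    have h1 : a v ∈ F v ∩ H := by
      rw [ha v hv]
      exact Finset.mem_singleton_self _
    exact Finset.mem_inter.1 h1
  have hainj : ∀ v ∈ E ∪ E', ∀ v' ∈ E ∪ E', a v = a v' → v = v' := by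
    intro v hv v' hv' h1
    by_contra h2
    have h3 := (haF v' hv').1
    rw [← h1] at h3
    exact Finset.disjoint_left.1 (hF.2 v hv v' hv' h2) (haF v hv).1 h3
  obtain ⟨grp, hg1, hg2⟩ : ∃ grp : V → V, (∀ r ∈ R, grp (a (e r)) = r) ∧ ∀ r ∈ R, grp (a (e' r)) = r := by
    refine ⟨fun p => if h : ∃ r, r ∈ R ∧ (p = a (e r) ∨ p = a (e' r)) then h.choose else p, ?_, ?_⟩
    · intro r hr
      have h : ∃ r0, r0 ∈ R ∧ (a (e r) = a (e r0) ∨ a (e r) = a (e' r0)) := ⟨r, hr, Or.inl rfl⟩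
      simp only [h, dif_pos]
      obtain ⟨h1, h2⟩ := h.choose_spec
      rcases h2 with h2 | h2
      · exact (heinj r hr _ h1 (hainj _ (hm1 r hr) _ (hm1 _ h1) h2)).symm
      · exact absurd (hainj _ (hm1 r hr) _ (hm2 _ h1) h2) (hne r hr _ h1)
    · intro r hr
      have h : ∃ r0, r0 ∈ R ∧ (a (e' r) = a (e r0) ∨ a (e' r) = a (e' r0)) := ⟨r, hr, Or.inr rfl⟩
      simp only [h, dif_pos]
      obtain ⟨h1, h2⟩ := h.choose_spec
      rcases h2 with h2 | h2
      · exact absurd (hainj _ (hm2 r hr) _ (hm1 _ h1) h2).symm (hne _ h1 r hr)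
      · exact (he'inj r hr _ h1 (hainj _ (hm2 r hr) _ (hm2 _ h1) h2)).symm
  have hPH : (E ∪ E').image a ⊆ H := by
    intro x hx
    obtain ⟨v, hv, rfl⟩ := Finset.mem_image.1 hx
    exact (haF v hv).2
  have hPc : ((E ∪ E').image a).card ≤ 2 * R.card := by
    have h1 : ((E ∪ E').image a).card ≤ (E ∪ E').card := Finset.card_image_le
    have h2 := Finset.card_union_le E E'
    omega
  have hJP : ∀ g ∈ J, ∃ p ∈ (E ∪ E').image a, grp p = g := fun g hg =>
    ⟨a (e g), Finset.mem_image_of_mem a (hm1 g (hJR hg)), hg1 g (hJR hg)⟩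
  obtain ⟨C, hC1, hC2, hC3⟩ := gadgetJ (G := G) hk hH hcard hs hmk hlog hPH hPc grp J hJ hJP
  have hCr : ∀ r ∈ R, a (e r) ∈ C r ∧ a (e' r) ∈ C r ∧ C r ⊆ H ∧ Conn G (C r) := by
    intro r hr
    have h1 := hC1 (a (e r)) (Finset.mem_image_of_mem a (hm1 r hr))
    have h2 := hC1 (a (e' r)) (Finset.mem_image_of_mem a (hm2 r hr))
    rw [hg1 r hr] at h1
    rw [hg2 r hr] at h2
    exact ⟨h1.1, h2.1, h1.2.1, h1.2.2⟩
  have dCC : ∀ r ∈ R, ∀ r' ∈ R, r ≠ r' → Disjoint (C r) (C r') := by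
    intro r hr r' hr' hrr
    have h1 := hC2 (a (e r)) (Finset.mem_image_of_mem a (hm1 r hr)) (a (e r'))
      (Finset.mem_image_of_mem a (hm1 r' hr'))
    rw [hg1 r hr, hg1 r' hr'] at h1
    exact h1 hrr
  -- disjointness
  have dTF : ∀ r ∈ R, ∀ v ∈ E ∪ E', v ≠ e r → Disjoint (T r) (F v) := by
    intro r hr v hv hvr
    rw [Finset.disjoint_left]
    intro x hx1 hx2
    have h1 : x ∈ T r ∩ M := Finset.mem_inter.2 ⟨hx1, (hF.1 v hv).1 hx2⟩
    rw [hSt.T_end r hr] at h1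
    have h2 := Finset.mem_singleton.1 h1
    have h3 : x ∈ F v ∩ (E ∪ Ms) := Finset.mem_inter.2 ⟨hx2, Finset.mem_union_left _ (h2 ▸ heE r hr)⟩
    have h4 := Finset.mem_singleton.1 ((hF.1 v hv).2.2.2.2 h3)
    exact hvr (h4.symm.trans h2)
  have dTC : ∀ r ∈ R, ∀ r' ∈ R, Disjoint (T r) (C r') := by
    intro r hr r' hr'
    rw [Finset.disjoint_left]
    intro x hx1 hx2
    obtain ⟨h5, h6⟩ := hHE x ((hCr r' hr').2.2.1 hx2)
    have h1 : x ∈ T r ∩ M := Finset.mem_inter.2 ⟨hx1, h5⟩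
    rw [hSt.T_end r hr] at h1
    rw [Finset.mem_singleton.1 h1] at h6
    exact h6 (heE r hr)
  have dFC : ∀ v ∈ E ∪ E', ∀ r ∈ R, ∀ r' ∈ R, r ≠ r' → a v ∈ C r → Disjoint (F v) (C r') := by
    intro v hv r hr r' hr' hrr hav
    rw [Finset.disjoint_left]
    intro x hx1 hx2
    have h1 : x ∈ F v ∩ H := Finset.mem_inter.2 ⟨hx1, (hCr r' hr').2.2.1 hx2⟩
    rw [ha v hv] at h1
    rw [Finset.mem_singleton.1 h1] at hx2
    exact Finset.disjoint_left.1 (dCC r hr r' hr' hrr) hav hx2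
  refine ⟨fun r => T r ∪ F (e r) ∪ C r ∪ F (e' r), fun r => Y r ∪ C r, e', ?_, ?_, ?_⟩
  · intro r hr
    obtain ⟨hc1, hc2, hc3, hc4⟩ := hCr r hr
    have hf1 := hF.1 (e r) (hm1 r hr)
    have hf2 := hF.1 (e' r) (hm2 r hr)
    refine ⟨?_, ?_, ?_, ?_, ?_, ?_, ?_⟩
    · refine Finset.union_subset (Finset.union_subset (Finset.union_subset (hSt.T_sub r hr) ?_) ?_) ?_
      · exact hf1.1.trans hSt.sub
      · exact fun x hx => hSt.sub (hHE x (hc3 hx)).1
      · exact hf2.1.trans hSt.sub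
    · have h1 : Conn G (T r ∪ F (e r)) := (hSt.T_conn r hr).union_mem hf1.2.1 (heT r hr).1 hf1.2.2.1
      have h2 : Conn G (T r ∪ F (e r) ∪ C r) :=
        h1.union_mem hc4 (Finset.mem_union_right _ (haF _ (hm1 r hr)).1) hc1
      exact h2.union_mem hf2.2.1 (Finset.mem_union_right _ hc2) (haF _ (hm2 r hr)).1
    · apply Finset.Subset.antisymm
      · intro x hx
        obtain ⟨hx1, hx2⟩ := Finset.mem_inter.1 hx
        obtain ⟨hxM, hxE, hxH⟩ := hMsM x hx2
        rcases Finset.mem_union.1 hx1 with h1 | h1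
        · rcases Finset.mem_union.1 h1 with h2 | h2
          · rcases Finset.mem_union.1 h2 with h3 | h3
            · exfalso
              have h4 : x ∈ T r ∩ M := Finset.mem_inter.2 ⟨h3, hxM⟩
              rw [hSt.T_end r hr] at h4
              rw [Finset.mem_singleton.1 h4] at hxE
              exact hxE (heE r hr)
            · exfalso
              have h4 := hf1.2.2.2.2 (Finset.mem_inter.2 ⟨h3, Finset.mem_union_right _ hx2⟩)
              rw [Finset.mem_singleton.1 h4] at hxE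
              exact hxE (heE r hr)
          · exact absurd (hc3 h2) hxH
        · exact hf2.2.2.2.2 (Finset.mem_inter.2 ⟨h1, Finset.mem_union_right _ hx2⟩)
      · intro x hx
        rw [Finset.mem_singleton.1 hx]
        exact Finset.mem_inter.2 ⟨Finset.mem_union_right _ hf2.2.2.1, hE' (he'1 r hr)⟩
    · refine Finset.union_subset ?_ ?_
      · exact (hSt.Y_sub r hr).trans (fun x hx => Finset.mem_union_left _
          (Finset.mem_union_left _ (Finset.mem_union_left _ hx)))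
      · exact fun x hx => Finset.mem_union_left _ (Finset.mem_union_right _ hx)
    · exact SU_parts (hSt.Y_parts r hr) hc4
    · refine Finset.union_subset ?_ ?_
      · intro x hx
        rcases Finset.mem_insert.1 (hSt.Y_small r hr hx) with h1 | h1
        · exact Finset.mem_insert.2 (Or.inl h1)
        · exact Finset.mem_insert.2 (Or.inr (Finset.mem_union_left _ h1))
      · exact fun x hx => Finset.mem_insert.2 (Or.inr (Finset.mem_union_right _ (hc3 hx)))
    · exact Finset.mem_union_left _ (hSt.Y_root r hr)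
  · intro r hr r' hr' hrr
    have hrr' : r' ≠ r := fun h => hrr h.symm
    obtain ⟨hc1, hc2, hc3, hc4⟩ := hCr r hr
    obtain ⟨hc1', hc2', hc3', hc4'⟩ := hCr r' hr'
    have hee : e r ≠ e r' := fun h => hrr (heinj r hr r' hr' h)
    have he'e' : e' r ≠ e' r' := fun h => hrr (he'inj r hr r' hr' h)
    simp only [Finset.disjoint_union_left, Finset.disjoint_union_right]
    refine ⟨⟨⟨⟨⟨⟨?_, ?_⟩, ?_⟩, ?_⟩, ⟨⟨?_, ?_⟩, ?_⟩, ?_⟩, ⟨⟨?_, ?_⟩, ?_⟩, ?_⟩, ⟨⟨?_, ?_⟩, ?_⟩, ?_⟩
    · exact hSt.T_disj r hr r' hr' hrr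
    · exact (dTF r' hr' _ (hm1 r hr) hee).symm
    · exact (dTC r' hr' r hr).symm
    · exact (dTF r' hr' _ (hm2 r hr) (hne r' hr' r hr).symm).symm
    · exact dTF r hr _ (hm1 r' hr') hee.symm
    · exact hF.2 _ (hm1 r hr) _ (hm1 r' hr') hee
    · exact (dFC _ (hm1 r' hr') r' hr' r hr hrr' hc1').symm
    · exact hF.2 _ (hm2 r hr) _ (hm1 r' hr') (hne r' hr' r hr).symm
    · exact dTC r hr r' hr'
    · exact dFC _ (hm1 r hr) r hr r' hr' hrr hc1
    · exact dCC r hr r' hr' hrr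
    · exact dFC _ (hm2 r hr) r hr r' hr' hrr hc2
    · exact dTF r hr _ (hm2 r' hr') (hne r hr r' hr').symm
    · exact hF.2 _ (hm1 r hr) _ (hm2 r' hr') (hne r hr r' hr')
    · exact (dFC _ (hm2 r' hr') r' hr' r hr hrr' hc2').symm
    · exact hF.2 _ (hm2 r hr) _ (hm2 r' hr') he'e'
  · intro r hr r' hr' hrr h
    rcases h with h | h
    · exact (hSt.touch r hr r' hr' hrr h).mono Finset.subset_union_left Finset.subset_union_left
    · exact (hC3 r h.1 r' h.2 hrr).mono Finset.subset_union_right Finset.subset_union_right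

/-- the level of a state. -/
def stc (c κ τ x : ℕ) : ℕ := c + 4 * κ + 6 * τ + x

/-- P3: one stage. -/
theorem stage {M₀ R X M J : Finset V} {κ c q k b s x h m : ℕ} {P : V → V → Prop} {T Y : V → Finset V} {e : V → V}
    (hSt : St G M₀ R κ (stc c κ R.card x) q X P M T Y e)
    (hins : Insep G M₀ c) (hM₀ : ¬ Col G M₀ (stc c κ R.card x + 4 * κ + 2 * R.card + x))
    (hsm : Small G M₀ m x) (hpc : Piece G M₀ c k h) (hk : 1 ≤ k) (hhk : h ≤ k ^ 2) (hs : 1 ≤ s)
    (hmk : 2 ^ 12 * (2 * R.card + b * s) ≤ k) (hlog : 2 ^ 10 * (1 + Real.log k) ≤ s)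
    (hκ : 2 * R.card ≤ κ) (hcκ : 2 * κ ≤ c) (hm : X.card + h + (q + 4) * R.card ≤ m)
    (hJR : J ⊆ R) (hJ : J.card ≤ b) :
    ∃ (X' M' : Finset V) (T' Y' : V → Finset V) (e' : V → V), X'.card ≤ X.card + h ∧
      St G M₀ R κ (stc c κ R.card x) (q + 1) X' (fun r r' => P r r' ∨ (r ∈ J ∧ r' ∈ J)) M' T' Y' e' := by
  -- the piece
  have hRM : R.image e ⊆ M := by
    intro v hv
    obtain ⟨r, hr, rfl⟩ := Finset.mem_image.1 hv
    have h1 : e r ∈ T r ∩ M := by rw [hSt.T_end r hr]; exact Finset.mem_singleton_self _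
    exact (Finset.mem_inter.1 h1).2
  have hinj : Set.InjOn e R := by
    intro r hr r' hr' hrr
    by_contra hne
    have h1 : e r ∈ T r ∩ M := by rw [hSt.T_end r hr]; exact Finset.mem_singleton_self _
    have h2 : e r' ∈ T r' ∩ M := by rw [hSt.T_end r' hr']; exact Finset.mem_singleton_self _
    exact Finset.disjoint_left.1 (hSt.T_disj r hr r' hr' hne) (Finset.mem_inter.1 h1).1
      (hrr ▸ (Finset.mem_inter.1 h2).1)
  have hRc : (R.image e).card = R.card := Finset.card_image_of_injOn hinj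
  have hcolE : ¬ Col G (M \ R.image e) c := by
    intro hcol
    apply hSt.col
    have h1 := hcol.union (col_card (G := G) (R.image e))
    rw [Finset.sdiff_union_of_subset hRM, hRc] at h1
    exact h1.mono (Finset.Subset.refl _) (by unfold stc; omega)
  obtain ⟨H, hHM, hH, hHh⟩ := hpc (M \ R.image e) (Finset.sdiff_subset.trans hSt.sub) hcolE
  have hHcard : 2 * R.card ≤ H.card := by
    have h1 := hH.1
    have h2 : 2 * R.card ≤ 2 ^ 15 * k := by
      have : 2 * R.card + b * s ≤ k := by omega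
      omega
    omega
  have hHx : Col G H x := hsm H (hHM.trans (Finset.sdiff_subset.trans hSt.sub)) (by omega)
  obtain ⟨Ms, E', F, hMs, hMsκ, hMsc, hE', hE'c, hF, hF1⟩ := stage_paths (c := c) (x := x) hSt.kc hRM
    (by rw [hRc]; exact hκ) hHM (by rw [hRc]; exact hHcard) hHx hcκ (by
      intro hcol
      refine hSt.col (hcol.mono (Finset.Subset.refl _) ?_)
      unfold stc
      rw [hRc]
      omega)
  obtain ⟨T₁, Y₁, e₁, h1, h2, h3⟩ := stage_union hSt hk hH (hHh.trans hhk) hs hmk hlog hHM hMs hE' hE'c hF hF1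
    hJR hJ
  have he₁ : ∀ r ∈ R, e₁ r ∈ T₁ r ∧ e₁ r ∈ Ms := by
    intro r hr
    have h4 : e₁ r ∈ T₁ r ∩ Ms := by rw [(h1 r hr).2.2.1]; exact Finset.mem_singleton_self _
    exact Finset.mem_inter.1 h4
  obtain ⟨T₂, h4, h5⟩ := shrink_all (M₀ := M₀) (R := R) (X := X ∪ H) (q := q + 1) (x := x) (m := m) (T := T₁)
    (Y := Y₁) (e := e₁) (fun r hr => ⟨(h1 r hr).1, (h1 r hr).2.1, (he₁ r hr).1, (h1 r hr).2.2.2.1,
      (h1 r hr).2.2.2.2.1, (h1 r hr).2.2.2.2.2.1, (h1 r hr).2.2.2.2.2.2⟩) hsm (by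
      have h6 := Finset.card_union_le X H
      have h7 : (q + 1 + 3) * R.card = (q + 4) * R.card := by ring
      rw [h7]
      omega)
  have hD : R.biUnion T₂ ⊆ M₀ := Finset.biUnion_subset.2 fun r hr => (h4 r hr).1.trans (h1 r hr).1
  have hcol2 : ¬ Col G (M₀ \ R.biUnion T₂) (stc c κ R.card x + 4 * κ) := by
    intro hcol
    apply hM₀
    have h6 := hcol.union h5
    rw [Finset.sdiff_union_of_subset hD] at h6
    exact h6.mono (Finset.Subset.refl _) (by omega)
  obtain ⟨M1, hM1, hM1κ, hM1c⟩ := gn hcol2 (by unfold stc; omega)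
  have hMsM₀ : Ms ⊆ M₀ := hMs.trans (Finset.sdiff_subset.trans hSt.sub)
  have hM1M₀ : M1 ⊆ M₀ := hM1.trans Finset.sdiff_subset
  have hint : κ < (Ms ∩ M1).card := by
    by_contra hcon
    push Not at hcon
    rcases hins Ms hMsM₀ (M1 \ Ms) (Finset.sdiff_subset.trans hM1M₀) Finset.disjoint_sdiff with h6 | h6
    · exact hMsc h6
    · apply hM1c
      have h7 := h6.union (col_card (G := G) (Ms ∩ M1))
      have h8 : M1 \ Ms ∪ Ms ∩ M1 = M1 := by
        rw [Finset.inter_comm]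
        exact Finset.sdiff_union_inter M1 Ms
      rw [h8] at h7
      exact h7.mono (Finset.Subset.refl _) (by unfold stc; omega)
  refine ⟨X ∪ H, Ms ∪ M1, T₂, Y₁, e₁, (Finset.card_union_le X H).trans (by omega), ?_⟩
  refine ⟨Finset.union_subset hMsM₀ hM1M₀, kc_union hMsκ hM1κ hint, ?_, ?_, ?_, ?_, ?_, ?_, ?_, ?_, ?_, ?_⟩
  · intro hcol
    exact hM1c (hcol.mono Finset.subset_union_right le_rfl)
  · intro r hr
    exact (h4 r hr).1.trans (h1 r hr).1
  · intro r hr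
    exact (h4 r hr).2.1
  · intro r hr
    rw [Finset.inter_union_distrib_left]
    have h6 : T₂ r ∩ M1 = ∅ := by
      rw [← Finset.disjoint_iff_inter_eq_empty, Finset.disjoint_left]
      intro v hv hv1
      exact (Finset.mem_sdiff.1 (hM1 hv1)).2 (Finset.mem_biUnion.2 ⟨r, hr, hv⟩)
    rw [h6, Finset.union_empty]
    apply Finset.Subset.antisymm
    · rw [← (h1 r hr).2.2.1]
      exact Finset.inter_subset_inter_right (h4 r hr).1
    · rw [Finset.singleton_subset_iff]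
      exact Finset.mem_inter.2 ⟨(h4 r hr).2.2.2, (he₁ r hr).2⟩
  · intro r hr r' hr' hne
    exact (h2 r hr r' hr' hne).mono (h4 r hr).1 (h4 r' hr').1
  · intro r hr
    exact (h4 r hr).2.2.1
  · intro r hr
    exact (h1 r hr).2.2.2.2.2.2
  · intro r hr
    exact (h1 r hr).2.2.2.2.1
  · intro r hr
    exact (h1 r hr).2.2.2.2.2.1
  · intro r hr r' hr' hne hP
    exact h3 r hr r' hr' hne hP

end HD
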