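import Pool.Agent.LibHL.C1

/-! block (c) skeleton 2: iteration, inseparable case -/

set_option autoImplicit false
set_option linter.unusedSectionVars false

open scoped Classical

noncomputable section

namespace HD

variable {V : Type} [Fintype V] [DecidableEq V] {G : SimpleGraph V}

/-- I1: the initial state. -/
theorem st_init {M₀ R : Finset V} {κ c : ℕ} (hM : KC G M₀ κ) (hc : ¬ Col G M₀ c) (hR : R ⊆ M₀) :
    St G M₀ R κ c 1 ∅ (fun _ _ => False) M₀ (fun r => {r}) (fun r => {r}) id := by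
  refine ⟨Finset.Subset.refl _, hM, hc, ?_, ?_, ?_, ?_, ?_, ?_, ?_, ?_, ?_⟩
  · intro r hr
    exact Finset.singleton_subset_iff.2 (hR hr)
  · intro r _
    exact conn_singleton r
  · intro r hr
    rw [Finset.singleton_inter_of_mem (hR hr)]
    rfl
  · intro r _ r' _ hne
    exact Finset.disjoint_singleton.2 hne
  · intro r _
    exact Finset.Subset.refl _
  · intro r _
    exact Finset.mem_singleton_self r
  · intro r _
    refine ⟨fun _ => {r}, fun _ => conn_singleton r, ?_⟩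
    ext v
    simp
  · intro r _ v hv
    rw [Finset.mem_singleton] at hv
    rw [hv]
    exact Finset.mem_insert_self _ _
  · intro r _ r' _ _ h
    exact h.elim

/-! Row BT -/
/-- a numbering of the elements of `R`. -/
theorem BT_idx (R : Finset V) : ∃ f : V → ℕ, (∀ v ∈ R, f v < R.card) ∧
    ∀ u ∈ R, ∀ v ∈ R, f u = f v → u = v := by
  refine ⟨fun v => if h : v ∈ R then (R.equivFin ⟨v, h⟩ : ℕ) else 0, ?_, ?_⟩
  · intro v hv
    simp only [hv, dif_pos]
    exact (R.equivFin ⟨v, hv⟩).2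
  · intro u hu v hv h
    simp only [hu, hv, dif_pos] at h
    exact congrArg Subtype.val (R.equivFin.injective (Fin.ext h))

/-- I3: few batches covering all pairs. -/
theorem batches {R : Finset V} {b : ℕ} (hb : 1 ≤ b) :
    ∃ L : List (Finset V), (∀ J ∈ L, J ⊆ R ∧ J.card ≤ 2 * b) ∧ L.length ≤ (R.card / b + 1) ^ 2 ∧
      ∀ r ∈ R, ∀ r' ∈ R, ∃ J ∈ L, r ∈ J ∧ r' ∈ J := by
  obtain ⟨f, hf, hinj⟩ := BT_idx R
  have hBl : ∀ i : ℕ, (R.filter (fun v => f v / b = i)).card ≤ b := by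
    intro i
    have h1 : (R.filter (fun v => f v / b = i)).card ≤ (Finset.Ico (i * b) (i * b + b)).card := by
      apply Finset.card_le_card_of_injOn f
      · intro v hv
        have hv' := Finset.mem_filter.1 (Finset.mem_coe.1 hv)
        have h2 := Nat.div_add_mod (f v) b
        have h3 := Nat.mod_lt (f v) hb
        rw [hv'.2, Nat.mul_comm] at h2
        rw [Finset.mem_coe, Finset.mem_Ico]
        omega
      · intro u hu v hv huv
        exact hinj u (Finset.mem_filter.1 (Finset.mem_coe.1 hu)).1 v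
          (Finset.mem_filter.1 (Finset.mem_coe.1 hv)).1 huv
    rw [Nat.card_Ico] at h1
    omega
  have hblk : ∀ v ∈ R, f v / b < R.card / b + 1 := by
    intro v hv
    exact Nat.lt_succ_of_le (Nat.div_le_div_right (hf v hv).le)
  refine ⟨(Finset.range (R.card / b + 1) ×ˢ Finset.range (R.card / b + 1)).toList.map
    (fun p => R.filter (fun v => f v / b = p.1) ∪ R.filter (fun v => f v / b = p.2)), ?_, ?_, ?_⟩
  · intro J hJ
    obtain ⟨p, -, rfl⟩ := List.mem_map.1 hJ
    refine ⟨Finset.union_subset (Finset.filter_subset _ _) (Finset.filter_subset _ _), ?_⟩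
    refine (Finset.card_union_le _ _).trans ?_
    have h1 := hBl p.1
    have h2 := hBl p.2
    omega
  · rw [List.length_map, Finset.length_toList, Finset.card_product, Finset.card_range, sq]
  · intro r hr r' hr'
    refine ⟨_, List.mem_map.2 ⟨(f r / b, f r' / b), ?_, rfl⟩, ?_, ?_⟩
    · rw [Finset.mem_toList, Finset.mem_product, Finset.mem_range, Finset.mem_range]
      exact ⟨hblk r hr, hblk r' hr'⟩
    · exact Finset.mem_union_left _ (Finset.mem_filter.2 ⟨hr, rfl⟩)
    · exact Finset.mem_union_right _ (Finset.mem_filter.2 ⟨hr', rfl⟩)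

/-- I2: iteration of the stages. -/
theorem stages {M₀ R : Finset V} {κ c k b s x h m : ℕ} (hκM : KC G M₀ κ) (hRM : R ⊆ M₀)
    (hins : Insep G M₀ c) (hM₀ : ¬ Col G M₀ (stc c κ R.card x + 4 * κ + 2 * R.card + x))
    (hsm : Small G M₀ m x) (hpc : Piece G M₀ c k h) (hk : 1 ≤ k) (hhk : h ≤ k ^ 2) (hs : 1 ≤ s)
    (hmk : 2 ^ 12 * (2 * R.card + b * s) ≤ k) (hlog : 2 ^ 10 * (1 + Real.log k) ≤ s)
    (hκ : 2 * R.card ≤ κ) (hcκ : 2 * κ ≤ c) (L : List (Finset V)) (hL : ∀ J ∈ L, J ⊆ R ∧ J.card ≤ b)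
    (hm : L.length * h + (L.length + 5) * R.card ≤ m) :
    ∃ (X M : Finset V) (T Y : V → Finset V) (e : V → V), X.card ≤ L.length * h ∧
      St G M₀ R κ (stc c κ R.card x) (L.length + 1) X (fun r r' => ∃ J ∈ L, r ∈ J ∧ r' ∈ J) M T Y e := by
  induction L with
  | nil =>
    refine ⟨∅, M₀, fun r => {r}, fun r => {r}, id, by simp, ?_⟩
    have h1 := st_init (G := G) (c := stc c κ R.card x) hκM (fun hc => hM₀ (hc.mono (Finset.Subset.refl _) (by omega))) hRM
    have h2 : (fun r r' : V => ∃ J ∈ ([] : List (Finset V)), r ∈ J ∧ r' ∈ J) = fun _ _ => False := by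
      funext r r'
      simp
    rw [h2]
    exact h1
  | cons J L ih =>
    rw [List.length_cons] at hm ⊢
    obtain ⟨X, M, T, Y, e, hX, hSt⟩ := ih (fun J' hJ' => hL J' (List.mem_cons_of_mem _ hJ')) (by
      refine le_trans ?_ hm
      gcongr <;> omega)
    have hJ := hL J List.mem_cons_self
    obtain ⟨X', M', T', Y', e', hX', hSt'⟩ := stage (J := J) (b := b) (k := k) (s := s) (h := h) (m := m) hSt hins hM₀
      hsm hpc hk hhk hs hmk hlog hκ hcκ (by
        have e1 : (L.length + 1) * h = L.length * h + h := by ring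
        have e2 : (L.length + 1 + 4) * R.card ≤ (L.length + 1 + 5) * R.card := by gcongr; omega
        rw [e1] at hm
        omega) hJ.1 hJ.2
    refine ⟨X', M', T', Y', e', hX'.trans (by
      have e1 : (L.length + 1) * h = L.length * h + h := by ring
      rw [e1]
      omega), ?_⟩
    refine ⟨hSt'.sub, hSt'.kc, hSt'.col, hSt'.T_sub, hSt'.T_conn, hSt'.T_end, hSt'.T_disj, hSt'.Y_sub,
      hSt'.Y_root, hSt'.Y_parts, hSt'.Y_small, ?_⟩
    intro r hr r' hr' hne hP
    refine hSt'.touch r hr r' hr' hne ?_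
    obtain ⟨J', hJ', h1⟩ := hP
    rcases List.mem_cons.1 hJ' with h2 | h2
    · right
      rw [← h2]
      exact h1
    · left
      exact ⟨J', h2, h1⟩

/-- I4: the inseparable case. -/
theorem insep_rooted {M₀ : Finset V} {τ κ c k b s x h m : ℕ} (hκM : KC G M₀ κ)
    (hins : Insep G M₀ c) (hM₀ : ¬ Col G M₀ (c + 8 * κ + 8 * τ + 2 * x))
    (hsm : Small G M₀ m x) (hpc : Piece G M₀ c k h) (hk : 1 ≤ k) (hhk : h ≤ k ^ 2) (hs : 1 ≤ s) (hb : 1 ≤ b)
    (hmk : 2 ^ 12 * (2 * τ + 2 * b * s) ≤ k) (hlog : 2 ^ 10 * (1 + Real.log k) ≤ s)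
    (hκ : 2 * τ ≤ κ) (hcκ : 2 * κ ≤ c) (hm : (τ / b + 1) ^ 2 * h + ((τ / b + 1) ^ 2 + 5) * τ ≤ m) :
    Rooted G M₀ τ := by
  intro R hR hRτ
  obtain ⟨L, hL1, hL2, hL3⟩ := batches (R := R) hb
  have hN : L.length ≤ (τ / b + 1) ^ 2 := hL2.trans (Nat.pow_le_pow_left (by
    have := Nat.div_le_div_right (c := b) hRτ
    omega) 2)
  obtain ⟨X, M, T, Y, e, -, hSt⟩ := stages (b := 2 * b) (s := s) (k := k) (h := h) (m := m) (x := x) hκM hR hins
    (fun hc => hM₀ (hc.mono (Finset.Subset.refl _) (by unfold stc; omega))) hsm hpc hk hhk hs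
    (le_trans (by gcongr) hmk) hlog (by omega) hcκ L hL1 (by
      refine le_trans ?_ hm
      gcongr)
  refine ⟨T, fun r hr => ⟨hSt.Y_sub r hr (hSt.Y_root r hr), hSt.T_sub r hr, hSt.T_conn r hr⟩,
    fun r hr r' hr' hne => ⟨hSt.T_disj r hr r' hr' hne, ?_⟩⟩
  exact (hSt.touch r hr r' hr' hne (hL3 r hr r' hr')).mono (hSt.Y_sub r hr) (hSt.Y_sub r' hr')

end HD
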