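import Pool.Agent.LibHL.C2

/-! block (c) skeleton 3: separable case, base, level -/

set_option autoImplicit false
set_option linter.unusedSectionVars false

open scoped Classical

noncomputable section

namespace HD

variable {V : Type} [Fintype V] [DecidableEq V] {G : SimpleGraph V}

/-! Row RU -/
/-- U1: rooted models pass to larger highly connected sets. -/
theorem rooted_up {M₀ M : Finset V} {κ τ : ℕ} (hM₀ : KC G M₀ κ) (hτ : τ ≤ κ) (hM : M ⊆ M₀) (hMτ : τ ≤ M.card)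
    (h : Rooted G M τ) : Rooted G M₀ τ := by
  intro R hR hRτ
  obtain ⟨F, ⟨hF1, hF2⟩, hF3⟩ := link0 (G := G) hM₀ hM hR (hRτ.trans hτ) (hRτ.trans hMτ)
  have hex : ∃ a : V → V, ∀ r ∈ R, F r ∩ M = {a r} := by
    refine ⟨fun r => if hr : r ∈ R then Classical.choose (hF3 r hr).2 else r, fun r hr => ?_⟩
    dsimp only
    rw [dif_pos hr]
    exact Classical.choose_spec (hF3 r hr).2
  obtain ⟨a, ha⟩ := hex
  have haF : ∀ r ∈ R, a r ∈ F r := fun r hr => by
    have h1 : a r ∈ F r ∩ M := by rw [ha r hr]; exact Finset.mem_singleton_self _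
    exact (Finset.mem_inter.1 h1).1
  have haM : ∀ r ∈ R, a r ∈ M := fun r hr => by
    have h1 : a r ∈ F r ∩ M := by rw [ha r hr]; exact Finset.mem_singleton_self _
    exact (Finset.mem_inter.1 h1).2
  have hainj : ∀ r ∈ R, ∀ r' ∈ R, r ≠ r' → a r ≠ a r' := by
    intro r hr r' hr' hne heq
    refine Finset.disjoint_left.1 (hF2 r hr r' hr' hne) (haF r hr) ?_
    rw [heq]
    exact haF r' hr'
  have hR'M : R.image a ⊆ M := by
    intro x hx
    obtain ⟨r, hr, rfl⟩ := Finset.mem_image.1 hx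
    exact haM r hr
  obtain ⟨B', hB1, hB2⟩ := h (R.image a) hR'M (Finset.card_image_le.trans hRτ)
  have hmem : ∀ r ∈ R, a r ∈ R.image a := fun r hr => Finset.mem_image_of_mem a hr
  have hFB : ∀ r ∈ R, ∀ r' ∈ R, r ≠ r' → Disjoint (F r) (B' (a r')) := by
    intro r hr r' hr' hne
    rw [Finset.disjoint_left]
    intro x hx hx'
    have h1 : x ∈ F r ∩ M := Finset.mem_inter.2 ⟨hx, (hB1 (a r') (hmem r' hr')).2.1 hx'⟩
    rw [ha r hr, Finset.mem_singleton] at h1
    rw [h1] at hx'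
    exact Finset.disjoint_left.1 (hB2 (a r) (hmem r hr) (a r') (hmem r' hr') (hainj r hr r' hr' hne)).1
      (hB1 (a r) (hmem r hr)).1 hx'
  refine ⟨fun r => F r ∪ B' (a r), ?_, ?_⟩
  · intro r hr
    obtain ⟨h1, h2, h3, _, _⟩ := hF1 r hr
    obtain ⟨h4, h5, h6⟩ := hB1 (a r) (hmem r hr)
    exact ⟨Finset.mem_union_left _ h3, Finset.union_subset h1 (h5.trans hM),
      Conn.union_mem h2 h6 (haF r hr) h4⟩
  · intro r hr r' hr' hne
    have h1 := hB2 (a r) (hmem r hr) (a r') (hmem r' hr') (hainj r hr r' hr' hne)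
    refine ⟨?_, Touch.mono h1.2 Finset.subset_union_right Finset.subset_union_right⟩
    rw [Finset.disjoint_union_left, Finset.disjoint_union_right, Finset.disjoint_union_right]
    exact ⟨⟨hF2 r hr r' hr' hne, hFB r hr r' hr' hne⟩, (hFB r' hr' r hr hne.symm).symm, h1.1⟩

theorem rooted_mono {M : Finset V} {τ τ' : ℕ} (h : Rooted G M τ) (hτ : τ' ≤ τ) : Rooted G M τ' :=
  fun R hR hc => h R hR (hc.trans hτ)

/-- B1: the base case. -/
theorem base_rooted {M₀ : Finset V} {κ c k h s τ : ℕ} (hM₀ : KC G M₀ κ) (hτκ : τ ≤ κ) (hc : ¬ Col G M₀ c)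
    (hpc : Piece G M₀ c k h) (hk : 1 ≤ k) (hhk : h ≤ k ^ 2) (hs : 1 ≤ s) (hmk : 2 ^ 12 * (τ + τ * s) ≤ k)
    (hlog : 2 ^ 10 * (1 + Real.log k) ≤ s) : Rooted G M₀ τ := by
  obtain ⟨H, hH, hHκ, hHh⟩ := hpc M₀ (Finset.Subset.refl _) hc
  refine rooted_up hM₀ hτκ hH ?_ ?_
  · have h1 := hHκ.1
    have h2 : τ ≤ k := by
      have : τ + τ * s ≤ 2 ^ 12 * (τ + τ * s) := Nat.le_mul_of_pos_left _ (by norm_num)
      omega
    omega
  · intro R hR hRτ
    obtain ⟨C, h1, h2, h3⟩ := gadgetJ (γ := V) (b := τ) (m := τ) hk hHκ (hHh.trans hhk) hs hmk hlog hR hRτ id R hRτ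
      (fun g hg => ⟨g, hg, rfl⟩)
    refine ⟨C, fun r hr => h1 r hr, fun r hr r' hr' hne => ⟨h2 r hr r' hr' hne, h3 r hr r' hr' hne⟩⟩

/-! Row DP -/
theorem DP_cover {U W S : Finset V} {a b : ℕ} (h1 : Col G (U \ S) a) (h2 : Col G S b) (h : W ⊆ U) :
    Col G W (a + b) := by
  refine (h1.union h2).mono ?_ le_rfl
  intro y hy
  by_cases hyS : y ∈ S
  · exact Finset.mem_union_right _ hyS
  · exact Finset.mem_union_left _ (Finset.mem_sdiff.2 ⟨h hy, hyS⟩)

theorem DP_biUnion {B : Finset V} {F : V → Finset V} (h : ∀ e ∈ B, Col G (F e) 2) :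
    Col G (B.biUnion F) (2 * B.card) := by
  induction B using Finset.induction_on with
  | empty => simpa using col_empty (G := G) 0
  | insert a s ha ih =>
    have h1 := ih fun e he => h e (Finset.mem_insert_of_mem he)
    have h2 := (h a (Finset.mem_insert_self a s)).union h1
    rw [Finset.biUnion_insert, Finset.card_insert_of_notMem ha]
    refine h2.mono (Finset.Subset.refl _) ?_
    omega

theorem DP_core {M₀ R H D0 D1 D2 C0 C1 C2 S0 S1 S2 : Finset V} {κ : ℕ} {F0 : V → Finset V}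
    (hF : Sys G M₀ H (R ∪ C0 ∪ C1 ∪ C2) (R ∪ C0 ∪ C1 ∪ C2) F0)
    (hFS : ∀ e ∈ R ∪ C0 ∪ C1 ∪ C2, ∀ y ∈ F0 e, y ∉ S0 ∧ y ∉ S1 ∧ y ∉ S2)
    (hR : R ⊆ M₀) (hD0 : D0 ⊆ M₀) (hD1 : D1 ⊆ M₀) (hD2 : D2 ⊆ M₀)
    (hK0 : KC G D0 κ) (hK1 : KC G D1 κ) (hK2 : KC G D2 κ)
    (h01 : ∀ y ∈ D0, y ∉ D1) (h02 : ∀ y ∈ D0, y ∉ D2) (h12 : ∀ y ∈ D1, y ∉ D2)
    (hC0 : C0 ⊆ D0) (hC1 : C1 ⊆ D1) (hC2 : C2 ⊆ D2)
    (hR0 : ∀ y ∈ C0, y ∉ R) (hR1 : ∀ y ∈ C1, y ∉ R) (hR2 : ∀ y ∈ C2, y ∉ R)
    (hS0 : S0 ⊆ D0) (hS1 : S1 ⊆ D1) (hS2 : S2 ⊆ D2)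
    (hκ0 : κ < S0.card) (hκ1 : κ < S1.card) (hκ2 : κ < S2.card)
    (hRS0 : ∀ y ∈ R, y ∉ S0) (hRS1 : ∀ y ∈ R, y ∉ S1) (hRS2 : ∀ y ∈ R, y ∉ S2)
    (hCS1 : ∀ y ∈ C1, y ∉ S1) (hCS2 : ∀ y ∈ C2, y ∉ S2)
    (hcard : R.card + C0.card + C1.card + C2.card ≤ κ) :
    ∃ (E0 E1 E2 : Finset V) (F : V → Finset V), E0 ⊆ S0 ∧ E1 ⊆ S1 ∧ E2 ⊆ S2 ∧
      E0.card = C0.card ∧ E1.card = C1.card ∧ E2.card = C2.card ∧
      Sys G M₀ H (R ∪ E0 ∪ E1 ∪ E2) (R ∪ S0 ∪ S1 ∪ S2) F := by
  -- first swap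
  obtain ⟨E0, F1, hE0, hc0, hF1⟩ := swap (G := G) (reg := M₀ \ (S1 ∪ S2)) (A := H)
    (E := R ∪ C1 ∪ C2) (C := C0) (D := D0) (X := S0) (κ := κ) (F := F0) (by
      refine ⟨fun e he => ?_, fun e he e' he' => hF.2 e (by grind) e' (by grind)⟩
      have heB : e ∈ R ∪ C0 ∪ C1 ∪ C2 := by grind
      obtain ⟨k1, k2, k3, k4, k5⟩ := hF.1 e heB
      have k6 := hFS e heB
      refine ⟨?_, k2, k3, k4, ?_⟩
      · intro y hy
        have := k1 hy
        have := k6 y hy
        grind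
      · intro y hy
        apply k5
        grind) (by
      rw [Finset.disjoint_left]
      intro y hy hy0
      have := hC0 hy0
      have := hR0 y hy0
      have := h01 y (hC0 hy0)
      have := h02 y (hC0 hy0)
      grind) (by
      intro y hy
      have := hD0 hy
      have := h01 y hy
      have := h02 y hy
      grind) hK0 (by
      have h1 := Finset.card_union_le (R ∪ C1) C2
      have h2 := Finset.card_union_le R C1
      omega) hC0 hS0 hκ0 (by
      intro y hy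
      have e1 : y ∈ R ∨ y ∈ C1 ∨ y ∈ C2 := by grind
      rcases e1 with e1 | e1 | e1
      · have := hR e1
        have := hRS0 y e1
        have := hRS1 y e1
        have := hRS2 y e1
        grind
      · have := hD1 (hC1 e1)
        have := h12 y (hC1 e1)
        have := hCS1 y e1
        grind
      · have := hD2 (hC2 e1)
        have := hCS2 y e1
        grind)
  have hF1e : ∀ e ∈ R ∪ C1 ∪ C2 ∪ E0, ∀ y ∈ F1 e, y ∈ S0 → y ∈ E0 := by
    intro e he y hy hyS
    have k5 := (hF1.1 e he).2.2.2.2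
    have h1 : y = e := by
      have := k5 (Finset.mem_inter.2 ⟨hy, Finset.mem_union_right _ hyS⟩)
      simpa using this
    subst h1
    grind
  -- second swap
  obtain ⟨E1, F2, hE1, hc1, hF2⟩ := swap (G := G) (reg := M₀ \ ((S0 \ E0) ∪ S2)) (A := H)
    (E := R ∪ C2 ∪ E0) (C := C1) (D := D1) (X := S1) (κ := κ) (F := F1) (by
      refine ⟨fun e he => ?_, fun e he e' he' => hF1.2 e (by grind) e' (by grind)⟩
      have heB : e ∈ R ∪ C1 ∪ C2 ∪ E0 := by grind
      obtain ⟨k1, k2, k3, k4, k5⟩ := hF1.1 e heB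
      have k6 := hF1e e heB
      refine ⟨?_, k2, k3, k4, ?_⟩
      · intro y hy
        have := k1 hy
        have := k6 y hy
        grind
      · intro y hy
        apply k5
        grind) (by
      rw [Finset.disjoint_left]
      intro y hy hy0
      have := hC1 hy0
      have := hR1 y hy0
      have := h12 y (hC1 hy0)
      grind) (by
      intro y hy
      have := hD1 hy
      have := h12 y hy
      grind) hK1 (by
      have h1 := Finset.card_union_le (R ∪ C2) E0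
      have h2 := Finset.card_union_le R C2
      omega) hC1 hS1 hκ1 (by
      intro y hy
      have e1 : y ∈ R ∨ y ∈ C2 ∨ y ∈ E0 := by grind
      rcases e1 with e1 | e1 | e1
      · have := hR e1
        have := hRS0 y e1
        have := hRS1 y e1
        have := hRS2 y e1
        grind
      · have := hD2 (hC2 e1)
        have := hCS2 y e1
        grind
      · have := hD0 (hS0 (hE0 e1))
        have := h01 y (hS0 (hE0 e1))
        have := h02 y (hS0 (hE0 e1))
        grind)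
  have hF2e : ∀ e ∈ R ∪ C2 ∪ E0 ∪ E1, ∀ y ∈ F2 e, y ∈ S1 → y ∈ E1 := by
    intro e he y hy hyS
    have k5 := (hF2.1 e he).2.2.2.2
    have h1 : y = e := by
      have := k5 (Finset.mem_inter.2 ⟨hy, Finset.mem_union_right _ hyS⟩)
      simpa using this
    subst h1
    grind
  -- third swap
  obtain ⟨E2, F3, hE2, hc2, hF3⟩ := swap (G := G) (reg := M₀ \ ((S0 \ E0) ∪ (S1 \ E1))) (A := H)
    (E := R ∪ E0 ∪ E1) (C := C2) (D := D2) (X := S2) (κ := κ) (F := F2) (by
      refine ⟨fun e he => ?_, fun e he e' he' => hF2.2 e (by grind) e' (by grind)⟩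
      have heB : e ∈ R ∪ C2 ∪ E0 ∪ E1 := by grind
      obtain ⟨k1, k2, k3, k4, k5⟩ := hF2.1 e heB
      have k6 := hF2e e heB
      refine ⟨?_, k2, k3, k4, ?_⟩
      · intro y hy
        have := k1 hy
        have := k6 y hy
        grind
      · intro y hy
        apply k5
        grind) (by
      rw [Finset.disjoint_left]
      intro y hy hy0
      have := hC2 hy0
      have := hR2 y hy0
      grind) (by
      intro y hy
      have := hD2 hy
      grind) hK2 (by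
      have h1 := Finset.card_union_le (R ∪ E0) E1
      have h2 := Finset.card_union_le R E0
      omega) hC2 hS2 hκ2 (by
      intro y hy
      have e1 : y ∈ R ∨ y ∈ E0 ∨ y ∈ E1 := by grind
      rcases e1 with e1 | e1 | e1
      · have := hR e1
        have := hRS0 y e1
        have := hRS1 y e1
        have := hRS2 y e1
        grind
      · have := hD0 (hS0 (hE0 e1))
        have := h01 y (hS0 (hE0 e1))
        have := h02 y (hS0 (hE0 e1))
        grind
      · have := hD1 (hS1 (hE1 e1))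
        have := h12 y (hS1 (hE1 e1))
        grind)
  refine ⟨E0, E1, E2, F3, hE0, hE1, hE2, hc0, hc1, hc2, ?_⟩
  refine ⟨fun e he => ?_, fun e he e' he' => hF3.2 e he e' he'⟩
  obtain ⟨k1, k2, k3, k4, k5⟩ := hF3.1 e he
  refine ⟨?_, k2, k3, k4, ?_⟩
  · intro y hy
    have := k1 hy
    grind
  · intro y hy
    apply k5
    have h1 : y ∈ F3 e := (Finset.mem_inter.1 hy).1
    have h2 := k1 h1
    grind

/-- D1: a path system with exits in three parts. -/
theorem sep_paths {M₀ R H : Finset V} {D : Fin 3 → Finset V} {n : Fin 3 → ℕ} {κ c x : ℕ} (hM : KC G M₀ κ)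
    (hR : R ⊆ M₀) (hH : H ⊆ M₀ \ R) (hx : Col G H x) (hcκ : 2 * κ ≤ c)
    (hD : ∀ a, D a ⊆ M₀ ∧ KC G (D a) κ ∧ ¬ Col G (D a) (c + 4 * κ + x + 2 * (R.card + n 0 + n 1 + n 2)))
    (hDd : ∀ a a', a ≠ a' → Disjoint (D a) (D a')) (hn : R.card + n 0 + n 1 + n 2 ≤ κ)
    (hnH : R.card + n 0 + n 1 + n 2 ≤ H.card) :
    ∃ (Ds E : Fin 3 → Finset V) (F : V → Finset V),
      (∀ a, Ds a ⊆ D a \ (H ∪ R) ∧ KC G (Ds a) κ ∧ ¬ Col G (Ds a) c ∧ E a ⊆ Ds a ∧ (E a).card = n a) ∧
      Sys G M₀ H (R ∪ Finset.univ.biUnion E) (R ∪ Finset.univ.biUnion Ds) F ∧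
      ∀ e ∈ R ∪ Finset.univ.biUnion E, ∃ a, F e ∩ H = {a} := by
  obtain ⟨k, hk⟩ : ∃ k, k = R.card + n 0 + n 1 + n 2 := ⟨_, rfl⟩
  have hna : ∀ a : Fin 3, R.card + n a ≤ k := by
    intro a
    fin_cases a <;> simp <;> omega
  have hHM : H ⊆ M₀ := fun y hy => (Finset.mem_sdiff.1 (hH hy)).1
  have hHR : ∀ y ∈ H, y ∉ R := fun y hy => (Finset.mem_sdiff.1 (hH hy)).2
  have hC : ∀ a : Fin 3, ∃ C ⊆ D a \ (H ∪ R), C.card = n a := by
    intro a
    apply Finset.exists_subset_card_eq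
    by_contra hcon
    push Not at hcon
    apply (hD a).2.2
    have h1 : Col G (D a \ (H ∪ R)) (n a) := (col_card _).mono (Finset.Subset.refl _) hcon.le
    have h2 : Col G (H ∪ R) (x + R.card) := hx.union (col_card R)
    have h3 := DP_cover h1 h2 (Finset.Subset.refl (D a))
    have h4 := hna a
    exact h3.mono (Finset.Subset.refl _) (by omega)
  choose C hCs hCc using hC
  have hCD : ∀ a, C a ⊆ D a := fun a y hy => (Finset.mem_sdiff.1 (hCs a hy)).1
  have hCR : ∀ a, ∀ y ∈ C a, y ∉ R := fun a y hy h =>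
    (Finset.mem_sdiff.1 (hCs a hy)).2 (Finset.mem_union_right _ h)
  have hCH : ∀ a, ∀ y ∈ C a, y ∉ H := fun a y hy h =>
    (Finset.mem_sdiff.1 (hCs a hy)).2 (Finset.mem_union_left _ h)
  obtain ⟨B, hB⟩ : ∃ B, B = R ∪ C 0 ∪ C 1 ∪ C 2 := ⟨_, rfl⟩
  have hBk : B.card ≤ k := by
    rw [hB]
    have h1 := Finset.card_union_le (R ∪ C 0 ∪ C 1) (C 2)
    have h2 := Finset.card_union_le (R ∪ C 0) (C 1)
    have h3 := Finset.card_union_le R (C 0)
    have e0 := hCc 0
    have e1 := hCc 1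
    have e2 := hCc 2
    omega
  have hBM : B ⊆ M₀ := by
    rw [hB]
    intro y hy
    have e1 : y ∈ R ∨ y ∈ C 0 ∨ y ∈ C 1 ∨ y ∈ C 2 := by grind
    rcases e1 with e1 | e1 | e1 | e1
    · exact hR e1
    · exact (hD 0).1 (hCD 0 e1)
    · exact (hD 1).1 (hCD 1 e1)
    · exact (hD 2).1 (hCD 2 e1)
  obtain ⟨F0, hF0, hF0c⟩ := link0 hM hHM hBM (hBk.trans (hk ▸ hn)) (hBk.trans (hk ▸ hnH))
  obtain ⟨U, hU⟩ : ∃ U, U = B.biUnion F0 ∪ H := ⟨_, rfl⟩
  have hUc : Col G U (2 * k + x) := by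
    rw [hU]
    have h1 := (DP_biUnion fun e he => (hF0c e he).1).union hx
    exact h1.mono (Finset.Subset.refl _) (by omega)
  have hS : ∀ a : Fin 3, ∃ S ⊆ D a \ U, KC G S κ ∧ ¬ Col G S c := by
    intro a
    apply gn _ hcκ
    intro hcon
    apply (hD a).2.2
    have h3 := DP_cover hcon hUc (Finset.Subset.refl (D a))
    exact h3.mono (Finset.Subset.refl _) (by omega)
  choose S hSs hSK hSc using hS
  have hSD : ∀ a, S a ⊆ D a := fun a y hy => (Finset.mem_sdiff.1 (hSs a hy)).1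
  have hSU : ∀ a, ∀ y ∈ U, y ∉ S a := fun a y hy h => (Finset.mem_sdiff.1 (hSs a h)).2 hy
  have hFU : ∀ e ∈ B, ∀ y ∈ F0 e, y ∈ U := by
    intro e he y hy
    rw [hU]
    exact Finset.mem_union_left _ (Finset.mem_biUnion.2 ⟨e, he, hy⟩)
  have hBU : ∀ e ∈ B, e ∈ U := fun e he => hFU e he e (hF0.1 e he).2.2.1
  have hHU : ∀ y ∈ H, y ∈ U := fun y hy => by
    rw [hU]
    exact Finset.mem_union_right _ hy
  have hRB : ∀ y ∈ R, y ∈ B := fun y hy => by rw [hB]; grind
  have hC0B : ∀ y ∈ C 0, y ∈ B := fun y hy => by rw [hB]; grind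
  have hC1B : ∀ y ∈ C 1, y ∈ B := fun y hy => by rw [hB]; grind
  have hC2B : ∀ y ∈ C 2, y ∈ B := fun y hy => by rw [hB]; grind
  obtain ⟨E0, E1, E2, F, hE0, hE1, hE2, hc0, hc1, hc2, hF⟩ := DP_core (G := G) (M₀ := M₀) (R := R)
    (H := H) (D0 := D 0) (D1 := D 1) (D2 := D 2) (C0 := C 0) (C1 := C 1) (C2 := C 2) (S0 := S 0)
    (S1 := S 1) (S2 := S 2) (κ := κ) (F0 := F0) (by rw [← hB]; exact hF0) (by
      rw [← hB]
      intro e he y hy
      have h1 := hFU e he y hy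
      exact ⟨hSU 0 y h1, hSU 1 y h1, hSU 2 y h1⟩) hR (hD 0).1 (hD 1).1 (hD 2).1
    (hD 0).2.1 (hD 1).2.1 (hD 2).2.1
    (fun y hy h => Finset.disjoint_left.1 (hDd 0 1 (by decide)) hy h)
    (fun y hy h => Finset.disjoint_left.1 (hDd 0 2 (by decide)) hy h)
    (fun y hy h => Finset.disjoint_left.1 (hDd 1 2 (by decide)) hy h)
    (hCD 0) (hCD 1) (hCD 2) (hCR 0) (hCR 1) (hCR 2) (hSD 0) (hSD 1) (hSD 2)
    (hSK 0).1 (hSK 1).1 (hSK 2).1
    (fun y hy => hSU 0 y (hBU y (hRB y hy))) (fun y hy => hSU 1 y (hBU y (hRB y hy)))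
    (fun y hy => hSU 2 y (hBU y (hRB y hy)))
    (fun y hy => hSU 1 y (hBU y (hC1B y hy)))
    (fun y hy => hSU 2 y (hBU y (hC2B y hy)))
    (by rw [hCc, hCc, hCc]; exact hn)
  have hu1 : (Finset.univ : Finset (Fin 3)).biUnion ![E0, E1, E2] = E0 ∪ E1 ∪ E2 := by
    ext y
    simp only [Finset.mem_biUnion, Finset.mem_univ, true_and, Fin.exists_fin_succ, Finset.mem_union]
    simp [or_assoc]
  have hu2 : (Finset.univ : Finset (Fin 3)).biUnion S = S 0 ∪ S 1 ∪ S 2 := by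
    ext y
    simp only [Finset.mem_biUnion, Finset.mem_univ, true_and, Fin.exists_fin_succ, Finset.mem_union]
    simp [or_assoc]
  have hun1 : R ∪ (E0 ∪ E1 ∪ E2) = R ∪ E0 ∪ E1 ∪ E2 := by
    rw [Finset.union_assoc R, Finset.union_assoc R, Finset.union_assoc E0]
  have hun2 : R ∪ (S 0 ∪ S 1 ∪ S 2) = R ∪ S 0 ∪ S 1 ∪ S 2 := by
    rw [Finset.union_assoc R, Finset.union_assoc R, Finset.union_assoc (S 0)]
  have htr : ∀ e, ∃ F' : Finset V, e ∈ R ∪ E0 ∪ E1 ∪ E2 →
      F' ⊆ F e ∧ Conn G F' ∧ e ∈ F' ∧ ∃ a, F' ∩ H = {a} := by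
    intro e
    by_cases he : e ∈ R ∪ E0 ∪ E1 ∪ E2
    · obtain ⟨k1, k2, k3, k4, k5⟩ := hF.1 e he
      obtain ⟨F', h1, h2, h3, h4, _⟩ := trim k2 k3 k4
      exact ⟨F', fun _ => ⟨h1, h2, h3, h4⟩⟩
    · exact ⟨∅, fun h => absurd h he⟩
  choose F' hF' using htr
  refine ⟨S, ![E0, E1, E2], F', ?_, ?_, ?_⟩
  · intro a
    refine ⟨?_, hSK a, hSc a, ?_⟩
    · intro y hy
      refine Finset.mem_sdiff.2 ⟨hSD a hy, fun h => ?_⟩
      rcases Finset.mem_union.1 h with h | h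
      · exact hSU a y (hHU y h) hy
      · exact hSU a y (hBU y (hRB y h)) hy
    · have h1 : ∀ a : Fin 3, (![E0, E1, E2] : Fin 3 → Finset V) a ⊆ S a ∧
          ((![E0, E1, E2] : Fin 3 → Finset V) a).card = n a := by
        intro a
        fin_cases a
        · exact ⟨hE0, hc0.trans (hCc 0)⟩
        · exact ⟨hE1, hc1.trans (hCc 1)⟩
        · exact ⟨hE2, hc2.trans (hCc 2)⟩
      exact h1 a
  · rw [hu1, hu2, hun1, hun2]
    refine ⟨fun e he => ?_, fun e he e' he' hne => ?_⟩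
    · obtain ⟨k1, k2, k3, k4, k5⟩ := hF.1 e he
      obtain ⟨l1, l2, l3, a, l4⟩ := hF' e he
      refine ⟨l1.trans k1, l2, l3, ?_, ?_⟩
      · rw [l4]
        exact Finset.singleton_nonempty a
      · exact (Finset.inter_subset_inter_right l1).trans k5
    · have h1 := hF.2 e he e' he' hne
      exact Finset.disjoint_of_subset_left (hF' e he).1
        (Finset.disjoint_of_subset_right (hF' e' he').1 h1)
  · rw [hu1, hun1]
    intro e he
    exact (hF' e he).2.2.2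

/-! Row DJ -/
theorem DJ_part_sum {R : Finset V} (part : V → Fin 3) :
    (R.filter (fun r => part r ≠ 0)).card + (R.filter (fun r => part r ≠ 1)).card +
      (R.filter (fun r => part r ≠ 2)).card = 2 * R.card := by
  rw [Finset.card_filter, Finset.card_filter, Finset.card_filter, ← Finset.sum_add_distrib,
    ← Finset.sum_add_distrib, mul_comm 2, ← smul_eq_mul, ← Finset.sum_const]
  apply Finset.sum_congr rfl
  intro r _
  generalize part r = x
  fin_cases x <;> simp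

theorem DJ_bij {S T : Finset V} (h : T.card = S.card) : ∃ f : V → V, (∀ r ∈ S, f r ∈ T) ∧
    (∀ r ∈ S, ∀ r' ∈ S, f r = f r' → r = r') ∧ ∀ v ∈ T, ∃ r ∈ S, f r = v := by
  have e : S ≃ T := Finset.equivOfCardEq h.symm
  refine ⟨fun r => if hr : r ∈ S then (e ⟨r, hr⟩ : V) else r, ?_, ?_, ?_⟩
  · intro r hr
    simp only [hr, dif_pos]
    exact (e ⟨r, hr⟩).2
  · intro r hr r' hr' h1
    simp only [hr, hr', dif_pos] at h1
    have h2 := e.injective (Subtype.ext h1)
    exact congrArg Subtype.val h2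
  · intro v hv
    refine ⟨(e.symm ⟨v, hv⟩ : V), (e.symm ⟨v, hv⟩).2, ?_⟩
    simp

theorem DJ_conn {S : Finset V} {α : Type} (A : Finset α) (T : α → Finset V) (hS : Conn G S)
    (hT : ∀ a ∈ A, Conn G (T a) ∧ ∃ z ∈ S, z ∈ T a) : Conn G (S ∪ A.biUnion T) := by
  induction A using Finset.induction_on with
  | empty => simpa using hS
  | insert a A ha ih =>
    have h1 := ih (fun b hb => hT b (Finset.mem_insert_of_mem hb))
    obtain ⟨h2, z, hz1, hz2⟩ := hT a (Finset.mem_insert_self a A)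
    have h3 := h1.union_mem h2 (Finset.mem_union_left _ hz1) hz2
    have h4 : S ∪ (insert a A).biUnion T = S ∪ A.biUnion T ∪ T a := by
      rw [Finset.biUnion_insert, Finset.union_assoc, Finset.union_comm (A.biUnion T)]
    rw [h4]
    exact h3

/-- D2: joining the three parts. -/
theorem sep_join {M₀ R H : Finset V} {D Ds E : Fin 3 → Finset V} {F : V → Finset V} {k s : ℕ} (hR : R ⊆ M₀)
    (hH : H ⊆ M₀ \ R) (hHκ : KC G H (2 ^ 15 * k)) (hk : 1 ≤ k) (hHh : H.card ≤ k ^ 2) (hs : 1 ≤ s)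
    (hmk : 2 ^ 12 * (3 * R.card) ≤ k) (hlog : 2 ^ 10 * (1 + Real.log k) ≤ s)
    (hD : ∀ a, D a ⊆ M₀) (hDd : ∀ a a', a ≠ a' → Disjoint (D a) (D a'))
    (part : V → Fin 3)
    (hDs : ∀ a, Ds a ⊆ D a \ (H ∪ R) ∧ E a ⊆ Ds a ∧ (E a).card = (R.filter (fun r => part r ≠ a)).card ∧
      Rooted G (Ds a) (R.filter (fun r => part r ≠ a)).card)
    (hF : Sys G M₀ H (R ∪ Finset.univ.biUnion E) (R ∪ Finset.univ.biUnion Ds) F)
    (hF1 : ∀ e ∈ R ∪ Finset.univ.biUnion E, ∃ a, F e ∩ H = {a}) :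
    ∃ B : V → Finset V, (∀ r ∈ R, r ∈ B r ∧ B r ⊆ M₀ ∧ Conn G (B r)) ∧
      ∀ r ∈ R, ∀ r' ∈ R, r ≠ r' → Disjoint (B r) (B r') ∧ Touch G (B r) (B r') := by
  classical
  choose x hxE hxinj hxsurj using fun a => DJ_bij (hDs a).2.2.1
  choose B hB1 hB2 using fun a => (hDs a).2.2.2 (E a) (hDs a).2.1 (le_of_eq (hDs a).2.2.1)
  obtain ⟨hFs, hFd⟩ := hF
  set I : Finset V := R ∪ Finset.univ.biUnion E with hI
  have hpex : ∃ p : V → V, ∀ e ∈ I, F e ∩ H = {p e} := by
    refine ⟨fun e => if he : e ∈ I then (hF1 e he).choose else e, fun e he => ?_⟩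
    simp only [he, dif_pos]
    exact (hF1 e he).choose_spec
  obtain ⟨p, hp⟩ := hpex
  have hpF : ∀ e ∈ I, p e ∈ F e := fun e he =>
    (Finset.mem_inter.1 ((hp e he).symm ▸ Finset.mem_singleton_self (p e))).1
  have hpH : ∀ e ∈ I, p e ∈ H := fun e he =>
    (Finset.mem_inter.1 ((hp e he).symm ▸ Finset.mem_singleton_self (p e))).2
  have hpinj : ∀ e ∈ I, ∀ e' ∈ I, p e = p e' → e = e' := by
    intro e he e' he' h
    by_contra hne
    have h1 := hFd e he e' he' hne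
    exact (Finset.disjoint_left.1 h1 (hpF e he)) (h ▸ hpF e' he')
  -- the owner relation
  have hEI : ∀ a, ∀ e ∈ E a, e ∈ I := fun a e he =>
    Finset.mem_union_right _ (Finset.mem_biUnion.2 ⟨a, Finset.mem_univ a, he⟩)
  have hRI : ∀ r ∈ R, r ∈ I := fun r hr => Finset.mem_union_left _ hr
  have hEx : ∀ a, ∀ r ∈ R, part r ≠ a → x a r ∈ E a := fun a r hr h =>
    hxE a r (Finset.mem_filter.2 ⟨hr, h⟩)
  have hxR : ∀ a, ∀ r ∈ R, part r ≠ a → x a r ∈ I := fun a r hr h => hEI a _ (hEx a r hr h)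
  have hDsR : ∀ a, ∀ z ∈ Ds a, z ∉ R := by
    intro a z hz hzR
    exact (Finset.mem_sdiff.1 ((hDs a).1 hz)).2 (Finset.mem_union_right _ hzR)
  have hDsH : ∀ a, ∀ z ∈ Ds a, z ∉ H := by
    intro a z hz hzH
    exact (Finset.mem_sdiff.1 ((hDs a).1 hz)).2 (Finset.mem_union_left _ hzH)
  have hDsD : ∀ a, ∀ z ∈ Ds a, z ∈ D a := fun a z hz => (Finset.mem_sdiff.1 ((hDs a).1 hz)).1
  have hDeq : ∀ a a' z, z ∈ Ds a → z ∈ Ds a' → a = a' := by
    intro a a' z h1 h2
    by_contra hne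
    exact Finset.disjoint_left.1 (hDd a a' hne) (hDsD a z h1) (hDsD a' z h2)
  have hxinj' : ∀ a, ∀ r ∈ R, ∀ r' ∈ R, part r ≠ a → part r' ≠ a → x a r = x a r' → r = r' :=
    fun a r hr r' hr' h h' => hxinj a r (Finset.mem_filter.2 ⟨hr, h⟩) r' (Finset.mem_filter.2 ⟨hr', h'⟩)
  let own : V → V → Prop := fun r e => e = r ∨ ∃ a, part r ≠ a ∧ e = x a r
  have own_I : ∀ r ∈ R, ∀ e, own r e → e ∈ I := by
    rintro r hr e (h | ⟨a, h1, h2⟩)
    · rw [h]; exact hRI r hr
    · rw [h2]; exact hxR a r hr h1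
  have own_ex : ∀ e ∈ I, ∃ r ∈ R, own r e := by
    intro e he
    rcases Finset.mem_union.1 he with h | h
    · exact ⟨e, h, Or.inl rfl⟩
    · obtain ⟨a, _, h1⟩ := Finset.mem_biUnion.1 h
      obtain ⟨r, hr, h2⟩ := hxsurj a e h1
      obtain ⟨h3, h4⟩ := Finset.mem_filter.1 hr
      exact ⟨r, h3, Or.inr ⟨a, h4, h2.symm⟩⟩
  have own_uniq : ∀ r ∈ R, ∀ r' ∈ R, ∀ e, own r e → own r' e → r = r' := by
    rintro r hr r' hr' e (h | ⟨a, h1, h2⟩) (h' | ⟨a', h1', h2'⟩)
    · rw [← h, ← h']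
    · exfalso
      have h3 := hDsR a' _ ((hDs a').2.1 (hEx a' r' hr' h1'))
      rw [← h2', h] at h3
      exact h3 hr
    · exfalso
      have h3 := hDsR a _ ((hDs a).2.1 (hEx a r hr h1))
      rw [← h2, h'] at h3
      exact h3 hr'
    · have h3 := (hDs a).2.1 (hEx a r hr h1)
      have h4 := (hDs a').2.1 (hEx a' r' hr' h1')
      rw [← h2] at h3
      rw [← h2'] at h4
      have h5 := hDeq a a' e h3 h4
      subst h5
      exact hxinj' a r hr r' hr' h1 h1' (h2.symm.trans h2')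
  -- the groups of the ports
  have hgex : ∃ grp : V → V, ∀ r ∈ R, ∀ e, own r e → grp (p e) = r := by
    refine ⟨fun q => if h : ∃ r ∈ R, ∃ e, own r e ∧ q = p e then h.choose else q, ?_⟩
    intro r hr e he
    have h : ∃ r' ∈ R, ∃ e', own r' e' ∧ p e = p e' := ⟨r, hr, e, he, rfl⟩
    simp only [h, dif_pos]
    obtain ⟨h1, e', h2, h3⟩ := h.choose_spec
    have h4 : e = e' := hpinj e (own_I r hr e he) e' (own_I _ h1 e' h2) h3
    subst h4
    exact own_uniq _ h1 r hr e h2 he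
  obtain ⟨grp, hgrp⟩ := hgex
  have hPH : I.image p ⊆ H := by
    intro q hq
    obtain ⟨e, he, rfl⟩ := Finset.mem_image.1 hq
    exact hpH e he
  have hcI : I.card ≤ 3 * R.card := by
    have h1 : I.card ≤ R.card + ((E 0).card + (E 1).card + (E 2).card) := by
      rw [hI]
      refine (Finset.card_union_le _ _).trans (Nat.add_le_add_left ?_ _)
      refine Finset.card_biUnion_le.trans (le_of_eq ?_)
      rw [Fin.sum_univ_three]
    rw [(hDs 0).2.2.1, (hDs 1).2.2.1, (hDs 2).2.2.1, DJ_part_sum part] at h1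
    omega
  obtain ⟨C, hC1, hC2, -⟩ := gadgetJ (γ := V) (P := I.image p) (m := 3 * R.card) (b := 0) (s := s) hk
    hHκ hHh hs (by simpa using hmk) hlog hPH (Finset.card_image_le.trans hcI) grp ∅ (by simp)
    (by intro g hg; exact absurd hg (Finset.notMem_empty g))
  have hport : ∀ r ∈ R, ∀ e, own r e → p e ∈ C r := by
    intro r hr e he
    have h1 := (hC1 (p e) (Finset.mem_image_of_mem p (own_I r hr e he))).1
    rwa [hgrp r hr e he] at h1
  have hCs : ∀ r ∈ R, C r ⊆ H ∧ Conn G (C r) := by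
    intro r hr
    have h1 := (hC1 (p r) (Finset.mem_image_of_mem p (hRI r hr))).2
    rwa [hgrp r hr r (Or.inl rfl)] at h1
  have hCd : ∀ r ∈ R, ∀ r' ∈ R, r ≠ r' → Disjoint (C r) (C r') := by
    intro r hr r' hr' hne
    have h1 := hC2 (p r) (Finset.mem_image_of_mem p (hRI r hr)) (p r')
      (Finset.mem_image_of_mem p (hRI r' hr'))
    rw [hgrp r hr r (Or.inl rfl), hgrp r' hr' r' (Or.inl rfl)] at h1
    exact h1 hne
  have hMR : ∀ z ∈ H, z ∈ M₀ := fun z hz => (Finset.mem_sdiff.1 (hH hz)).1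
  refine ⟨fun r => (F r ∪ C r) ∪ (Finset.univ.filter (fun a => part r ≠ a)).biUnion
    (fun a => F (x a r) ∪ B a (x a r)), ?_, ?_⟩
  · intro r hr
    refine ⟨Finset.mem_union_left _ (Finset.mem_union_left _ (hFs r (hRI r hr)).2.2.1), ?_, ?_⟩
    · refine Finset.union_subset (Finset.union_subset (hFs r (hRI r hr)).1 ?_) ?_
      · exact fun z hz => hMR z ((hCs r hr).1 hz)
      · intro z hz
        obtain ⟨a, ha, hz⟩ := Finset.mem_biUnion.1 hz
        have ha' := (Finset.mem_filter.1 ha).2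
        rcases Finset.mem_union.1 hz with h | h
        · exact (hFs _ (hxR a r hr ha')).1 h
        · exact hD a (hDsD a z ((hB1 a _ (hEx a r hr ha')).2.1 h))
    · apply DJ_conn
      · exact (hFs r (hRI r hr)).2.1.union_mem (hCs r hr).2 (hpF r (hRI r hr))
          (hport r hr r (Or.inl rfl))
      · intro a ha
        have ha' := (Finset.mem_filter.1 ha).2
        refine ⟨(hFs _ (hxR a r hr ha')).2.1.union_mem (hB1 a _ (hEx a r hr ha')).2.2
          (hFs _ (hxR a r hr ha')).2.2.1 (hB1 a _ (hEx a r hr ha')).1, p (x a r), ?_, ?_⟩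
        · exact Finset.mem_union_right _ (hport r hr _ (Or.inr ⟨a, ha', rfl⟩))
        · exact Finset.mem_union_left _ (hpF _ (hxR a r hr ha'))
  · have char : ∀ r z, z ∈ (F r ∪ C r) ∪ (Finset.univ.filter (fun a => part r ≠ a)).biUnion
        (fun a => F (x a r) ∪ B a (x a r)) → (∃ e, own r e ∧ z ∈ F e) ∨ z ∈ C r ∨
          ∃ a, part r ≠ a ∧ z ∈ B a (x a r) := by
      intro r z hz
      rcases Finset.mem_union.1 hz with h | h
      · rcases Finset.mem_union.1 h with h1 | h1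
        · exact Or.inl ⟨r, Or.inl rfl, h1⟩
        · exact Or.inr (Or.inl h1)
      · obtain ⟨a, ha, hz⟩ := Finset.mem_biUnion.1 h
        have ha' := (Finset.mem_filter.1 ha).2
        rcases Finset.mem_union.1 hz with h1 | h1
        · exact Or.inl ⟨x a r, Or.inr ⟨a, ha', rfl⟩, h1⟩
        · exact Or.inr (Or.inr ⟨a, ha', h1⟩)
    have FC : ∀ r ∈ R, ∀ r' ∈ R, r ≠ r' → ∀ e, own r e → ∀ z, z ∈ F e → z ∈ C r' → False := by
      intro r hr r' hr' hne e he z h1 h2
      have h3 : z ∈ F e ∩ H := Finset.mem_inter.2 ⟨h1, (hCs r' hr').1 h2⟩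
      rw [hp e (own_I r hr e he), Finset.mem_singleton] at h3
      subst h3
      exact Finset.disjoint_left.1 (hCd r hr r' hr' hne) (hport r hr e he) h2
    have BB : ∀ r ∈ R, ∀ r' ∈ R, r ≠ r' → ∀ a, part r ≠ a → part r' ≠ a → ∀ z,
        z ∈ B a (x a r) → z ∈ B a (x a r') → False := by
      intro r hr r' hr' hne a h1 h2 z h3 h4
      have h5 : x a r ≠ x a r' := fun h => hne (hxinj' a r hr r' hr' h1 h2 h)
      exact Finset.disjoint_left.1 (hB2 a _ (hEx a r hr h1) _ (hEx a r' hr' h2) h5).1 h3 h4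
    have FB : ∀ r ∈ R, ∀ r' ∈ R, r ≠ r' → ∀ e, own r e → ∀ a, part r' ≠ a → ∀ z, z ∈ F e →
        z ∈ B a (x a r') → False := by
      intro r hr r' hr' hne e he a ha z h1 h2
      have h3 : z ∈ Ds a := (hB1 a _ (hEx a r' hr' ha)).2.1 h2
      have h4 := (hFs e (own_I r hr e he)).2.2.2.2 (Finset.mem_inter.2 ⟨h1,
        Finset.mem_union_right _ (Finset.mem_biUnion.2 ⟨a, Finset.mem_univ a, h3⟩)⟩)
      rw [Finset.mem_singleton] at h4
      subst h4
      rcases he with h | ⟨a', h5, h6⟩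
      · rw [h] at h3
        exact hDsR a r h3 hr
      · have h7 := (hDs a').2.1 (hEx a' r hr h5)
        rw [← h6] at h7
        have h8 := hDeq a a' z h3 h7
        subst h8
        rw [h6] at h2
        exact BB r hr r' hr' hne a h5 ha _ (hB1 a _ (hEx a r hr h5)).1 h2
    have CB : ∀ r ∈ R, ∀ r' ∈ R, ∀ a, part r' ≠ a → ∀ z, z ∈ C r → z ∈ B a (x a r') → False := by
      intro r hr r' hr' a ha z h1 h2
      exact hDsH a z ((hB1 a _ (hEx a r' hr' ha)).2.1 h2) ((hCs r hr).1 h1)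
    intro r hr r' hr' hne
    constructor
    · rw [Finset.disjoint_left]
      intro z hz hz'
      rcases char r z hz with ⟨e, h1, h2⟩ | h1 | ⟨a, h1, h2⟩ <;>
        rcases char r' z hz' with ⟨e', h1', h2'⟩ | h1' | ⟨a', h1', h2'⟩
      · have h3 : e ≠ e' := by
          intro h
          subst h
          exact hne (own_uniq r hr r' hr' e h1 h1')
        exact Finset.disjoint_left.1 (hFd e (own_I r hr e h1) e' (own_I r' hr' e' h1') h3) h2 h2'
      · exact FC r hr r' hr' hne e h1 z h2 h1'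
      · exact FB r hr r' hr' hne e h1 a' h1' z h2 h2'
      · exact FC r' hr' r hr hne.symm e' h1' z h2' h1
      · exact Finset.disjoint_left.1 (hCd r hr r' hr' hne) h1 h1'
      · exact CB r hr r' hr' a' h1' z h1 h2'
      · exact FB r' hr' r hr hne.symm e' h1' a h1 z h2' h2
      · exact CB r' hr' r hr a h1 z h1' h2
      · have h3 := hDeq a a' z ((hB1 a _ (hEx a r hr h1)).2.1 h2) ((hB1 a' _ (hEx a' r' hr' h1')).2.1 h2')
        subst h3
        exact BB r hr r' hr' hne a h1 h1' z h2 h2'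
    · have h3 : ∀ u v : Fin 3, ∃ a : Fin 3, u ≠ a ∧ v ≠ a := by decide
      obtain ⟨a, h1, h2⟩ := h3 (part r) (part r')
      have h5 : x a r ≠ x a r' := fun h => hne (hxinj' a r hr r' hr' h1 h2 h)
      refine (hB2 a _ (hEx a r hr h1) _ (hEx a r' hr' h2) h5).2.mono ?_ ?_
      · intro z hz
        exact Finset.mem_union_right _ (Finset.mem_biUnion.2 ⟨a, Finset.mem_filter.2
          ⟨Finset.mem_univ a, h1⟩, Finset.mem_union_right _ hz⟩)
      · intro z hz
        exact Finset.mem_union_right _ (Finset.mem_biUnion.2 ⟨a, Finset.mem_filter.2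
          ⟨Finset.mem_univ a, h2⟩, Finset.mem_union_right _ hz⟩)

/-! Row P3 -/
/-- D3: splitting the roots in three parts. -/
theorem three_parts {R : Finset V} {τ : ℕ} (hR : R.card ≤ τ) :
    ∃ part : V → Fin 3, ∀ a, (R.filter (fun r => part r ≠ a)).card ≤ τ - τ / 3 := by
  classical
  let part : V → Fin 3 := fun v =>
    if h : v ∈ R then ⟨((R.equivFin ⟨v, h⟩ : Fin R.card) : ℕ) % 3, Nat.mod_lt _ (by norm_num)⟩ else 0
  refine ⟨part, fun a => ?_⟩
  have h1 : R.card / 3 ≤ (R.filter (fun r => part r = a)).card := by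
    have hlt : ∀ i : Fin (R.card / 3), 3 * (i : ℕ) + (a : ℕ) < R.card := by
      intro i
      have := i.2
      have := a.2
      omega
    let f : Fin (R.card / 3) → V := fun i => (R.equivFin.symm ⟨3 * (i : ℕ) + (a : ℕ), hlt i⟩ : R)
    have hf : Function.Injective f := by
      intro i j hij
      have h2 := Subtype.ext hij
      have h3 := R.equivFin.symm.injective h2
      have h4 := congrArg Fin.val h3
      apply Fin.ext
      simp only at h4
      omega
    have hsub : Finset.univ.image f ⊆ R.filter (fun r => part r = a) := by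
      intro v hv
      rw [Finset.mem_image] at hv
      obtain ⟨i, _, rfl⟩ := hv
      have hmem : f i ∈ R := (R.equivFin.symm ⟨3 * (i : ℕ) + (a : ℕ), hlt i⟩).2
      rw [Finset.mem_filter]
      refine ⟨hmem, ?_⟩
      have h5 : part (f i) = ⟨((R.equivFin ⟨f i, hmem⟩ : Fin R.card) : ℕ) % 3,
          Nat.mod_lt _ (by norm_num)⟩ := dif_pos hmem
      rw [h5]
      apply Fin.ext
      have h6 : R.equivFin ⟨f i, hmem⟩ = ⟨3 * (i : ℕ) + (a : ℕ), hlt i⟩ := by
        rw [show (⟨f i, hmem⟩ : R) = R.equivFin.symm ⟨3 * (i : ℕ) + (a : ℕ), hlt i⟩ from rfl]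
        exact R.equivFin.apply_symm_apply _
      rw [h6]
      have := a.2
      simp only
      omega
    calc R.card / 3 = (Finset.univ.image f).card := by
          rw [Finset.card_image_of_injective _ hf, Finset.card_univ, Fintype.card_fin]
      _ ≤ _ := Finset.card_le_card hsub
  have h2 : (R.filter (fun r => part r = a)).card + (R.filter (fun r => part r ≠ a)).card
      = R.card := Finset.card_filter_add_card_filter_not _
  omega

/-! Row PS -/
theorem part_sum {R : Finset V} (part : V → Fin 3) :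
    (R.filter (fun r => part r ≠ 0)).card + (R.filter (fun r => part r ≠ 1)).card +
      (R.filter (fun r => part r ≠ 2)).card = 2 * R.card := by
  rw [Finset.card_filter, Finset.card_filter, Finset.card_filter, ← Finset.sum_add_distrib,
    ← Finset.sum_add_distrib, mul_comm 2, ← smul_eq_mul, ← Finset.sum_const]
  apply Finset.sum_congr rfl
  intro r _
  generalize part r = x
  fin_cases x <;> simp

/-- D4: three disjoint highly connected non-colourable parts give rooted models. -/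
theorem sep_rooted {M₀ : Finset V} {D : Fin 3 → Finset V} {τ κ c k h s x m : ℕ} (hM : KC G M₀ κ) (hκ : 3 * τ ≤ κ)
    (hcκ : 2 * κ ≤ c)
    (hD : ∀ a, D a ⊆ M₀ ∧ KC G (D a) κ ∧ ¬ Col G (D a) (c + 4 * κ + x + 6 * τ))
    (hDd : ∀ a a', a ≠ a' → Disjoint (D a) (D a'))
    (hQ : ∀ M : Finset V, M ⊆ M₀ → KC G M κ → ¬ Col G M c → Rooted G M (τ - τ / 3))
    (hsm : Small G M₀ m x) (hhm : h ≤ m) (hpc : Piece G M₀ c k h) (hk : 1 ≤ k) (hhk : h ≤ k ^ 2) (hs : 1 ≤ s)
    (hmk : 2 ^ 12 * (3 * τ) ≤ k) (hlog : 2 ^ 10 * (1 + Real.log k) ≤ s) : Rooted G M₀ τ := by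
  intro R hR hRτ
  obtain ⟨part, hpart⟩ := three_parts hRτ
  have hsum := part_sum (R := R) part
  have hcol : ¬ Col G (M₀ \ R) c := by
    intro hcol
    apply (hD 0).2.2
    have h1 := hcol.union (col_card (G := G) R)
    rw [Finset.sdiff_union_of_subset hR] at h1
    exact h1.mono (hD 0).1 (by omega)
  obtain ⟨H, hH, hHκ, hHh⟩ := hpc (M₀ \ R) Finset.sdiff_subset hcol
  have hτk : 3 * τ ≤ k := le_trans (Nat.le_mul_of_pos_left _ (by norm_num)) hmk
  have hHc : 3 * R.card ≤ H.card := by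
    have h1 := hHκ.1
    omega
  have hHx : Col G H x := hsm H (hH.trans Finset.sdiff_subset) (hHh.trans hhm)
  obtain ⟨Ds, E, F, h1, h2, h3⟩ := sep_paths (D := D) (n := fun a => (R.filter (fun r => part r ≠ a)).card)
    (c := c) (x := x) hM hR hH hHx hcκ (fun a => ⟨(hD a).1, (hD a).2.1, fun hc => (hD a).2.2
      (hc.mono (Finset.Subset.refl _) (by omega))⟩) hDd (by omega) (by omega)
  refine sep_join (D := D) (Ds := Ds) (E := E) (F := F) hR hH hHκ hk (hHh.trans hhk) hs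
    (le_trans (by gcongr) hmk) hlog (fun a => (hD a).1) hDd part (fun a => ⟨(h1 a).1, (h1 a).2.2.2.1, (h1 a).2.2.2.2, ?_⟩) h2 h3
  exact rooted_mono (hQ (Ds a) ((h1 a).1.trans (Finset.sdiff_subset.trans (hD a).1)) (h1 a).2.1 (h1 a).2.2.1) (hpart a)

/-- L1: one level of the recursion. -/
theorem level {τ κ k h s b x m Λ : ℕ} {M₀ : Finset V} (hκ : 3 * τ ≤ κ) (hκΛ : 2 * κ ≤ Λ)
    (hQ : ∀ M : Finset V, M ⊆ M₀ → KC G M κ → ¬ Col G M Λ → Rooted G M (τ - τ / 3))
    (hpc : Piece G M₀ Λ k h) (hk : 1 ≤ k) (hhk : h ≤ k ^ 2) (hs : 1 ≤ s) (hb : 1 ≤ b)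
    (hmk : 2 ^ 12 * (3 * τ + 2 * b * s) ≤ k) (hlog : 2 ^ 10 * (1 + Real.log k) ≤ s)
    (hm : (τ / b + 1) ^ 2 * h + ((τ / b + 1) ^ 2 + 5) * τ ≤ m) (hsm : Small G M₀ m x)
    (hM₀ : KC G M₀ κ) (hcol : ¬ Col G M₀ (Λ + 28 * κ + 22 * τ + 5 * x)) : Rooted G M₀ τ := by
  -- c' : level of the three parts; c : level of inseparability
  obtain ⟨c', hc'⟩ : ∃ c', c' = Λ + 8 * κ + 6 * τ + x := ⟨_, rfl⟩
  obtain ⟨c, hc⟩ : ∃ c, c = c' + 12 * κ + 8 * τ + 2 * x := ⟨_, rfl⟩
  have hpcmono : ∀ (M : Finset V) (c₁ : ℕ), M ⊆ M₀ → Λ ≤ c₁ → Piece G M c₁ k h := by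
    intro M c₁ hM hc₁ U hU hcU
    exact hpc U (hU.trans hM) (fun h1 => hcU (h1.mono (Finset.Subset.refl _) hc₁))
  have hsmmono : ∀ M : Finset V, M ⊆ M₀ → Small G M m x := fun M hM W hW hWm => hsm W (hW.trans hM) hWm
  have hhm : h ≤ m := by
    have h1 : 1 * h ≤ (τ / b + 1) ^ 2 * h := Nat.mul_le_mul_right h (Nat.one_le_pow _ _ (Nat.succ_pos _))
    omega
  by_cases hins : Insep G M₀ c
  · exact insep_rooted (c := c) (x := x) (k := k) (h := h) (s := s) (b := b) (m := m) hM₀ hins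
      (fun h1 => hcol (h1.mono (Finset.Subset.refl _) (by omega))) hsm (hpcmono M₀ c (Finset.Subset.refl _) (by omega))
      hk hhk hs hb (le_trans (by gcongr; omega) hmk) hlog (by omega) (by omega) hm
  · unfold Insep at hins
    push Not at hins
    obtain ⟨A, hA, B, hB, hAB, hAc, hBc⟩ := hins
    obtain ⟨MB, hMB, hMBκ, hMBc⟩ := gn (c := c' + 8 * κ + 8 * τ + 2 * x) (κ := κ)
      (fun h1 => hBc (h1.mono (Finset.Subset.refl _) (by omega))) (by omega)
    have hMBM : MB ⊆ M₀ := hMB.trans hB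
    by_cases hins' : Insep G MB c'
    · refine rooted_up hM₀ (by omega) hMBM (by have := hMBκ.1; omega) ?_
      exact insep_rooted (c := c') (x := x) (k := k) (h := h) (s := s) (b := b) (m := m) hMBκ hins' hMBc
        (hsmmono MB hMBM) (hpcmono MB c' hMBM (by omega))
        hk hhk hs hb (le_trans (by gcongr; omega) hmk) hlog (by omega) (by omega) hm
    · unfold Insep at hins'
      push Not at hins'
      obtain ⟨B1, hB1, B2, hB2, hB12, hB1c, hB2c⟩ := hins'
      have hpart : ∀ W : Finset V, ¬ Col G W c' → ∃ D ⊆ W, KC G D κ ∧ ¬ Col G D (Λ + 4 * κ + x + 6 * τ) := by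
        intro W hW
        exact gn (fun h1 => hW (h1.mono (Finset.Subset.refl _) (by omega))) (by omega)
      obtain ⟨D0, hD0, hD0κ, hD0c⟩ := hpart A (fun h1 => hAc (h1.mono (Finset.Subset.refl _) (by omega)))
      obtain ⟨D1, hD1, hD1κ, hD1c⟩ := hpart B1 hB1c
      obtain ⟨D2, hD2, hD2κ, hD2c⟩ := hpart B2 hB2c
      have hd01 : Disjoint D0 D1 := hAB.mono hD0 (hD1.trans (hB1.trans hMB))
      have hd02 : Disjoint D0 D2 := hAB.mono hD0 (hD2.trans (hB2.trans hMB))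
      have hd12 : Disjoint D1 D2 := hB12.mono hD1 hD2
      refine sep_rooted (D := ![D0, D1, D2]) (κ := κ) (c := Λ) (x := x) (m := m) (h := h) (k := k) (s := s) hM₀ hκ hκΛ
        ?_ ?_ hQ hsm hhm hpc hk hhk hs (le_trans (by gcongr; omega) hmk) hlog
      · intro a
        fin_cases a
        · exact ⟨hD0.trans hA, hD0κ, hD0c⟩
        · exact ⟨hD1.trans (hB1.trans hMBM), hD1κ, hD1c⟩
        · exact ⟨hD2.trans (hB2.trans hMBM), hD2κ, hD2c⟩
      · intro a a' hne
        fin_cases a <;> fin_cases a' <;> simp at hne ⊢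
        · exact hd01
        · exact hd02
        · exact hd01.symm
        · exact hd12
        · exact hd02.symm
        · exact hd12.symm

end HD
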