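import Pool.Agent.LibHL.C3

/-! block (c): the recursion over the levels -/

set_option autoImplicit false
set_option linter.unusedSectionVars false

open scoped Classical

noncomputable section

namespace HD

variable {V : Type} [Fintype V] [DecidableEq V] {G : SimpleGraph V}

theorem piece_mono {U M : Finset V} {c c' k k' h : ℕ} (hp : Piece G U c k h) (hM : M ⊆ U) (hc : c ≤ c')
    (hk : k' ≤ k) : Piece G M c' k' h := by
  intro W hW hcol
  obtain ⟨H, h1, h2, h3⟩ := hp W (hW.trans hM) (fun h1 => hcol (h1.mono (Finset.Subset.refl _) hc))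
  exact ⟨H, h1, kc_mono h2 (Nat.mul_le_mul_left _ hk), h3⟩

/-- the recursion over the number of roots -/
theorem rec_levels {U : Finset V} {t s h m cb K0 : ℕ} (hcb : 6 * t ≤ cb)
    (hpc : Piece G U cb (2 ^ 15 * t) h)
    (hslog : 2 ^ 10 * (1 + Real.log ((2 ^ 15 * t : ℕ) : ℝ)) ≤ s) (hst : s * s ≤ t)
    (hh : ∀ τ, t ≤ τ * s → h ≤ (2 ^ 15 * τ) ^ 2) (hhb : h ≤ (2 ^ 13 * t) ^ 2)
    (hm : 4 * s ^ 2 * h + (4 * s ^ 2 + 5) * t ≤ m)
    (hsmall : ∀ τ, t ≤ τ * s → 1 ≤ τ → τ ≤ t → ∀ M ⊆ U, KC G M τ → ∀ W ⊆ M, W.card ≤ m →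
      ¬ Col G W (K0 * τ) → Rooted G M τ) :
    ∀ τ, 1 ≤ τ → τ ≤ t → ∀ M ⊆ U, KC G M (3 * τ) → ¬ Col G M (cb + (530 + 25 * K0) * τ) → Rooted G M τ := by
  intro τ
  induction τ using Nat.strong_induction_on with
  | _ τ ih =>
    intro hτ1 hτt M hMU hM hcol
    have ht1 : 1 ≤ t := hτ1.trans hτt
    have hlogt : 0 ≤ Real.log ((2 ^ 15 * t : ℕ) : ℝ) := by
      apply Real.log_nonneg
      have : 1 ≤ 2 ^ 15 * t := Nat.mul_pos (by norm_num) ht1
      exact_mod_cast this
    have hs10 : 2 ^ 10 ≤ s := by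
      have h1 : ((2 ^ 10 : ℕ) : ℝ) ≤ s := by
        push_cast
        nlinarith
      exact_mod_cast h1
    have hs1 : 1 ≤ s := le_trans (by norm_num) hs10
    have hlogmono : ∀ k : ℕ, 1 ≤ k → k ≤ 2 ^ 15 * t → 2 ^ 10 * (1 + Real.log (k : ℝ)) ≤ s := by
      intro k hk1 hk
      have h1 : Real.log (k : ℝ) ≤ Real.log ((2 ^ 15 * t : ℕ) : ℝ) := by
        apply Real.log_le_log
        · exact_mod_cast hk1
        · exact_mod_cast hk
      refine le_trans ?_ hslog
      nlinarith
    rcases le_or_gt τ (t / s) with hcase | hcase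
    · -- base
      have hτs : τ * s ≤ t := (Nat.le_div_iff_mul_le hs1).1 hcase
      have hτs' : τ ≤ τ * s := Nat.le_mul_of_pos_right _ hs1
      refine base_rooted (κ := 3 * τ) (c := cb) (k := 2 ^ 13 * t) (h := h) (s := s) hM (by omega) ?_
        (piece_mono hpc hMU le_rfl (by omega)) (by omega) hhb hs1 (by omega)
        (hlogmono _ (by omega) (by omega))
      intro h1
      exact hcol (h1.mono (Finset.Subset.refl _) (Nat.le_add_right _ _))
    · -- level
      have hτs : t < τ * s := (Nat.div_lt_iff_lt_mul hs1).1 hcase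
      have hsτ : s ≤ τ := by
        by_contra hlt
        push Not at hlt
        have : τ * s ≤ s * s := Nat.mul_le_mul_right s hlt.le
        omega
      have hτ3 : 3 ≤ τ := le_trans (by omega) hsτ
      by_cases hsm : Small G M m (K0 * τ)
      · obtain ⟨b, hb⟩ : ∃ b, b = τ / s := ⟨_, rfl⟩
        have hb1 : 1 ≤ b := by
          rw [hb]
          exact (Nat.le_div_iff_mul_le hs1).2 (by omega)
        have hbs : b * s ≤ τ := by rw [hb]; exact Nat.div_mul_le_self τ s
        have hbs' : τ < (b + 1) * s := by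
          rw [hb]
          exact (Nat.div_lt_iff_lt_mul hs1).1 (Nat.lt_succ_self _)
        have hτb : τ / b + 1 ≤ 2 * s := by
          have h1 : τ / b < 2 * s := by
            rw [Nat.div_lt_iff_lt_mul hb1]
            have h2 : s ≤ s * b := Nat.le_mul_of_pos_right _ hb1
            have h3 : (b + 1) * s = s * b + s := by ring
            have h4 : 2 * s * b = s * b + s * b := by ring
            omega
          omega
        refine level (κ := 3 * τ) (k := 2 ^ 15 * τ) (h := h) (s := s) (b := b) (x := K0 * τ) (m := m)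
          (Λ := cb + (530 + 25 * K0) * (τ - τ / 3)) le_rfl (by omega) ?_
          (piece_mono hpc hMU (Nat.le_add_right _ _) (by omega)) (by omega) (hh τ hτs.le) hs1 hb1 ?_
          (hlogmono _ (by omega) (by omega)) ?_ hsm hM ?_
        · intro M' hM' hM'κ hM'c
          exact ih (τ - τ / 3) (by omega) (by omega) (by omega) M' (hM'.trans hMU)
            (kc_mono hM'κ (by omega)) hM'c
        · have h1 : 2 * b * s = 2 * (b * s) := by ring
          rw [h1]
          omega
        · refine le_trans ?_ hm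
          have h1 : (τ / b + 1) ^ 2 ≤ 4 * s ^ 2 := by
            have h2 := Nat.pow_le_pow_left hτb 2
            have h3 : (2 * s) ^ 2 = 4 * s ^ 2 := by ring
            rwa [h3] at h2
          have h4 : (τ / b + 1) ^ 2 * h ≤ 4 * s ^ 2 * h := Nat.mul_le_mul_right h h1
          have h5 : ((τ / b + 1) ^ 2 + 5) * τ ≤ (4 * s ^ 2 + 5) * t :=
            Nat.mul_le_mul (by omega) hτt
          omega
        · intro h1
          refine hcol (h1.mono (Finset.Subset.refl _) ?_)
          obtain ⟨q, hq⟩ : ∃ q, q = τ / 3 := ⟨_, rfl⟩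
          rw [← hq]
          have hq5 : τ ≤ 5 * q := by omega
          have hqτ : q ≤ τ := by omega
          obtain ⟨p, hp⟩ : ∃ p, τ = p + q := ⟨τ - q, by omega⟩
          have hpq : τ - q = p := by omega
          rw [hpq]
          have h2 : (106 + 5 * K0) * τ ≤ (106 + 5 * K0) * (5 * q) := Nat.mul_le_mul_left _ hq5
          have h3 : (530 + 25 * K0) * τ = (530 + 25 * K0) * p + (106 + 5 * K0) * (5 * q) := by
            rw [hp]; ring
          have h4 : 28 * (3 * τ) + 22 * τ + 5 * (K0 * τ) = (106 + 5 * K0) * τ := by ring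
          rw [h3]
          omega
      · unfold Small at hsm
        push Not at hsm
        obtain ⟨W, hW, hWm, hWc⟩ := hsm
        exact hsmall τ hτs.le hτ1 hτt M hMU (kc_mono hM (by omega)) W hW hWm hWc

/-- the top level -/
theorem top_level {U : Finset V} {t s h m cb K0 : ℕ} (ht : 1 ≤ t) (hcb : 6 * t ≤ cb)
    (hpc : Piece G U cb (2 ^ 15 * t) h)
    (hslog : 2 ^ 10 * (1 + Real.log ((2 ^ 15 * t : ℕ) : ℝ)) ≤ s) (hst : s * s ≤ t)
    (hh : ∀ τ, t ≤ τ * s → h ≤ (2 ^ 15 * τ) ^ 2) (hhb : h ≤ (2 ^ 13 * t) ^ 2)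
    (hm : 4 * s ^ 2 * h + (4 * s ^ 2 + 5) * t ≤ m)
    (hsmall : ∀ τ, t ≤ τ * s → 1 ≤ τ → τ ≤ t → ∀ M ⊆ U, KC G M τ → ∀ W ⊆ M, W.card ≤ m →
      ¬ Col G W (K0 * τ) → Rooted G M τ) (hmod : ¬ Model G U t) :
    Col G U (cb + (530 + 25 * K0) * t + 12 * t) := by
  by_contra hcon
  obtain ⟨M, hM, hMκ, hMc⟩ := gn (κ := 3 * t) (c := cb + (530 + 25 * K0) * t) (U := U)
    (fun h1 => hcon (h1.mono (Finset.Subset.refl _) (by omega))) (by omega)
  have hr := rec_levels hcb hpc hslog hst hh hhb hm hsmall t ht le_rfl M hM hMκ hMc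
  have hMt : t ≤ M.card := by have := hMκ.1; omega
  obtain ⟨R, hR, hRt⟩ := Finset.exists_subset_card_eq hMt
  obtain ⟨B, h1, h2⟩ := hr R hR hRt.le
  apply hmod
  let f : Fin t ≃ R := (Finset.equivFinOfCardEq hRt).symm
  refine ⟨fun i => B (f i), fun i => ⟨(h1 _ (f i).2).2.1.trans hM, (h1 _ (f i).2).2.2⟩, ?_⟩
  intro i j hij
  have hne : (f i : V) ≠ f j := fun h => hij (f.injective (Subtype.ext h))
  exact h2 _ (f i).2 _ (f j).2 hne

end HD
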