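import Pool.Agent.LibHL.C4
import Pool.Agent.LibHL.A5
import Pool.Agent.LibHL.B8

/-!
# LibHL : block (c), numerics and the theorem for all graphs
-/

set_option autoImplicit false
set_option linter.unusedSectionVars false

open scoped Classical

noncomputable section

namespace HD

theorem num_large : ∃ t0 : ℕ, ∀ t : ℕ, t0 ≤ t → 2 ^ 400 * ⌈1 + Real.log (t : ℝ)⌉₊ ^ 60 ≤ t := by
  have h1 : (fun x : ℝ => Real.log x ^ 60) =o[Filter.atTop] (id : ℝ → ℝ) := Real.isLittleO_pow_log_id_atTop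
  have h2 := h1.bound (c := 1 / (2 ^ 400 * 3 ^ 60)) (by positivity)
  have h3 : ∀ᶠ x : ℝ in Filter.atTop, Real.exp 1 ≤ x := Filter.eventually_ge_atTop _
  obtain ⟨a, ha⟩ := Filter.eventually_atTop.1 (h2.and h3)
  refine ⟨⌈a⌉₊, fun t ht => ?_⟩
  have hat : a ≤ (t : ℝ) := (Nat.le_ceil a).trans (by exact_mod_cast ht)
  obtain ⟨h4, h5⟩ := ha _ hat
  have hlog : 1 ≤ Real.log (t : ℝ) := by
    have := Real.log_le_log (Real.exp_pos 1) h5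
    rwa [Real.log_exp] at this
  have ht0 : (0 : ℝ) < t := (Real.exp_pos 1).trans_le h5
  rw [id, Real.norm_of_nonneg (by positivity), Real.norm_of_nonneg ht0.le] at h4
  have h6 : ((⌈1 + Real.log (t : ℝ)⌉₊ : ℕ) : ℝ) ≤ 3 * Real.log t := by
    have := (Nat.ceil_lt_add_one (show 0 ≤ 1 + Real.log (t : ℝ) by linarith)).le
    linarith
  have h7 : ((⌈1 + Real.log (t : ℝ)⌉₊ : ℕ) : ℝ) ^ 60 ≤ 3 ^ 60 * Real.log t ^ 60 := by
    rw [← mul_pow]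
    exact pow_le_pow_left₀ (by positivity) h6 60
  have h8 : (2 : ℝ) ^ 400 * ((⌈1 + Real.log (t : ℝ)⌉₊ : ℕ) : ℝ) ^ 60 ≤ (t : ℝ) := by
    obtain ⟨A, hA⟩ : ∃ A : ℝ, A = 2 ^ 400 := ⟨_, rfl⟩
    obtain ⟨B, hB⟩ : ∃ B : ℝ, B = 3 ^ 60 := ⟨_, rfl⟩
    have hA0 : 0 < A := by rw [hA]; positivity
    have hB0 : 0 < B := by rw [hB]; positivity
    rw [← hA, ← hB] at h4
    rw [← hB] at h7
    rw [← hA]
    calc A * ((⌈1 + Real.log (t : ℝ)⌉₊ : ℕ) : ℝ) ^ 60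
        ≤ A * (B * Real.log (t : ℝ) ^ 60) := mul_le_mul_of_nonneg_left h7 hA0.le
      _ ≤ A * (B * (1 / (A * B) * (t : ℝ))) :=
        mul_le_mul_of_nonneg_left (mul_le_mul_of_nonneg_left h4 hB0.le) hA0.le
      _ = (t : ℝ) := by field_simp
  have h9 : (((2 : ℕ) ^ 400 * ⌈1 + Real.log (t : ℝ)⌉₊ ^ 60 : ℕ) : ℝ) ≤ (t : ℝ) := by
    rw [Nat.cast_mul, Nat.cast_pow, Nat.cast_pow]
    exact h8
  exact Nat.cast_le.1 h9

theorem num_log {x y : ℝ} (hx : 0 ≤ x) (hy : y = Real.log (1 + x)) {ℓ q : ℝ} (hℓ1 : 1 ≤ ℓ) (hℓ : ℓ ≤ 2 + x)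
    (hq0 : 0 ≤ q) (hq : q ≤ 2 ^ 189 * ℓ ^ 26) : Real.log (2 + Real.log (1 + q)) ≤ 8 * Real.log (2 + y) := by
  have hy0 : 0 ≤ y := by rw [hy]; exact Real.log_nonneg (by linarith)
  have hlog2 : Real.log 2 ≤ 0.6931471808 := Real.log_two_lt_d9.le
  have hlog2' : 0.6931471803 ≤ Real.log 2 := Real.log_two_gt_d9.le
  have h1 : Real.log (1 + q) ≤ 151 + 26 * y := by
    have h2 : 1 + q ≤ 2 ^ 190 * ℓ ^ 26 := by
      have h3 : (1 : ℝ) ≤ ℓ ^ 26 := one_le_pow₀ hℓ1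
      nlinarith
    have h4 : Real.log (1 + q) ≤ Real.log (2 ^ 190 * ℓ ^ 26) := Real.log_le_log (by linarith) h2
    have h5 : Real.log (2 ^ 190 * ℓ ^ 26) = 190 * Real.log 2 + 26 * Real.log ℓ := by
      rw [Real.log_mul (by positivity) (by positivity), Real.log_pow, Real.log_pow]
      norm_num
    have h6 : Real.log ℓ ≤ Real.log 2 + y := by
      rw [hy, ← Real.log_mul (by norm_num) (by linarith)]
      exact Real.log_le_log (by linarith) (by linarith)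
    rw [h5] at h4
    linarith
  have h2 : 2 + Real.log (1 + q) ≤ 77 * (2 + y) := by linarith
  have h3 : 0 ≤ Real.log (1 + q) := Real.log_nonneg (by linarith)
  have h4 : Real.log (2 + Real.log (1 + q)) ≤ Real.log (77 * (2 + y)) := Real.log_le_log (by linarith) h2
  have h5 : Real.log (77 * (2 + y)) = Real.log 77 + Real.log (2 + y) :=
    Real.log_mul (by norm_num) (by linarith)
  have h6 : Real.log 77 ≤ 7 * Real.log 2 := by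
    have h7 : Real.log ((2 : ℝ) ^ 7) = 7 * Real.log 2 := by rw [Real.log_pow]; norm_num
    rw [← h7]
    exact Real.log_le_log (by norm_num) (by norm_num)
  have h8 : Real.log 2 ≤ Real.log (2 + y) := Real.log_le_log (by norm_num) (by linarith)
  linarith

variable {V : Type} [Fintype V] [DecidableEq V] {G : SimpleGraph V}

/-- colouring by degeneracy -/
theorem col_low {t c : ℕ} (ht : 1 ≤ t) (hc : 2 ^ 20 * t * (1 + Real.log t) < (c : ℝ)) :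
    ∀ (n : ℕ) (U : Finset V), U.card ≤ n → ¬ Model G U t → Col G U c := by
  intro n
  induction n with
  | zero =>
    intro U hU _
    rw [Finset.card_eq_zero.1 (Nat.le_zero.1 hU)]
    exact col_empty c
  | succ n ih =>
    intro U hU hmod
    rcases U.eq_empty_or_nonempty with h0 | h0
    · rw [h0]; exact col_empty c
    · obtain ⟨v, hv, hd⟩ := low_degree ht h0 hmod
      have h1 : (nbIn G U v).card < c := by
        have h2 := hd.trans_lt hc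
        exact_mod_cast h2
      obtain ⟨φ, hφ1, hφ2⟩ := ih (U.erase v) (by rw [Finset.card_erase_of_mem hv]; omega)
        (fun h => hmod (h.mono (Finset.erase_subset v U) le_rfl))
      obtain ⟨a, ha, ha'⟩ : ∃ a ∈ Finset.range c, a ∉ (nbIn G U v).image φ := by
        apply Finset.exists_mem_notMem_of_card_lt_card
        rw [Finset.card_range]
        exact lt_of_le_of_lt Finset.card_image_le h1
      refine ⟨Function.update φ v a, ?_, ?_⟩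
      · intro u hu
        by_cases huv : u = v
        · rw [huv, Function.update_self]
          exact Finset.mem_range.1 ha
        · rw [Function.update_of_ne huv]
          exact hφ1 u (Finset.mem_erase.2 ⟨huv, hu⟩)
      · intro u hu w hw huw
        by_cases huv : u = v
        · by_cases hwv : w = v
          · rw [huv, hwv] at huw
            exact absurd huw (G.loopless.irrefl v)
          · rw [huv, Function.update_self, Function.update_of_ne hwv]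
            intro h
            rw [huv] at huw
            exact ha' (Finset.mem_image.2 ⟨w, mem_nbIn.2 ⟨hw, huw⟩, h.symm⟩)
        · by_cases hwv : w = v
          · rw [hwv, Function.update_self, Function.update_of_ne huv]
            intro h
            rw [hwv] at huw
            exact ha' (Finset.mem_image.2 ⟨u, mem_nbIn.2 ⟨hu, huw.symm⟩, h⟩)
          · rw [Function.update_of_ne huv, Function.update_of_ne hwv]
            exact hφ2 u (Finset.mem_erase.2 ⟨huv, hu⟩) w (Finset.mem_erase.2 ⟨hwv, hw⟩) huw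

/-- The piece theorem in the form used below. -/
theorem piece {U : Finset V} {t D d1 k ρ b M2 m : ℕ} (ht : 1 ≤ t) (hmod : ¬ Model G U t)
    (hD : 2 ^ 20 * t * (1 + Real.log t) ≤ (D : ℝ)) (hU : U.Nonempty) (hdeg : ∀ v ∈ U, d1 ≤ (nbIn G U v).card)
    (hk : 1 ≤ k) (hd1 : 2 ^ 15 * k ≤ d1) (hb : 1 ≤ b)
    (hP1 : (1 - (d1 : ℝ) / (2 ^ 27 * D)) ^ ρ ≤ 1 / (2 * M2)) (hM2 : 256 * b ^ 4 * (2 ^ 21 * D) ≤ M2)
    (hm : 4 * (M2 : ℝ) / ((d1 : ℝ) / (2 ^ 27 * D)) ^ 2 ≤ m)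
    (hP2 : 128 * ((ρ : ℝ) + 1) ^ 2 * D < b * ((d1 : ℝ) / 8)) (hP3 : 8 * ((ρ : ℝ) + 1) ^ 2 ≤ (d1 : ℝ) / 8)
    (h4 : 4 * D ≤ m) : ∃ H ⊆ U, KC G H k ∧ H.card ≤ m := by
  have hc : (d1 : ℝ) / (64 * ((2 ^ 21 * D : ℕ) : ℝ)) = (d1 : ℝ) / (2 ^ 27 * D) := by
    have h1 : (64 : ℝ) * ((2 ^ 21 * D : ℕ) : ℝ) = 2 ^ 27 * D := by
      push_cast
      ring
    rw [h1]
  exact piece0 (c0 := (d1 : ℝ) / (64 * ((2 ^ 21 * D : ℕ) : ℝ))) ht hmod hD rfl hk hd1 rfl hb hM2 (by rw [hc]; exact hm)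
    (by rw [hc]; exact hP1) hP2 hP3 h4 hU hdeg

theorem num_b {ρ b ℓ : ℕ} (hℓ : 1 ≤ ℓ) (hρ : ρ = 2 ^ 10 * ℓ ^ 2) (hb : b = (ρ + 1) ^ 2 * ℓ) :
    (ρ + 1) ^ 2 ≤ 2 ^ 22 * ℓ ^ 4 ∧ b ≤ 2 ^ 22 * ℓ ^ 5 := by
  have h1 : 1 ≤ ℓ ^ 2 := Nat.one_le_pow _ _ hℓ
  have h2 : ρ + 1 ≤ 2 ^ 11 * ℓ ^ 2 := by rw [hρ]; omega
  have h3 : (ρ + 1) ^ 2 ≤ 2 ^ 22 * ℓ ^ 4 := by
    calc (ρ + 1) ^ 2 ≤ (2 ^ 11 * ℓ ^ 2) ^ 2 := Nat.pow_le_pow_left h2 2
      _ = 2 ^ 22 * ℓ ^ 4 := by ring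
  refine ⟨h3, ?_⟩
  rw [hb]
  calc (ρ + 1) ^ 2 * ℓ ≤ (2 ^ 22 * ℓ ^ 4) * ℓ := Nat.mul_le_mul_right ℓ h3
    _ = 2 ^ 22 * ℓ ^ 5 := by ring

theorem num_P1 {t ℓ b M2 ρ : ℕ} (ht : 1 ≤ t) (hℓ1 : 1 ≤ ℓ) (hℓ : 1 + Real.log (t : ℝ) ≤ ℓ) (hρ : ρ = 2 ^ 10 * ℓ ^ 2)
    (hb : b ≤ 2 ^ 22 * ℓ ^ 5) (hM1 : 1 ≤ M2) (hM : M2 = 256 * b ^ 4 * (2 ^ 21 * (2 ^ 20 * t * ℓ))) :
    (1 - 1 / (4 * (ℓ : ℝ))) ^ ρ ≤ 1 / (2 * (M2 : ℝ)) := by
  have hℓR : (1 : ℝ) ≤ ℓ := by exact_mod_cast hℓ1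
  have htR : (1 : ℝ) ≤ t := by exact_mod_cast ht
  have h1 : (1 - 1 / (4 * (ℓ : ℝ))) ^ ρ ≤ Real.exp (-(256 * (ℓ : ℝ))) := by
    have h2 : 1 - 1 / (4 * (ℓ : ℝ)) ≤ Real.exp (-(1 / (4 * (ℓ : ℝ)))) := by
      have := Real.add_one_le_exp (-(1 / (4 * (ℓ : ℝ))))
      linarith
    have h3 : 0 ≤ 1 - 1 / (4 * (ℓ : ℝ)) := by
      have : 1 / (4 * (ℓ : ℝ)) ≤ 1 := by
        rw [div_le_one (by positivity)]
        linarith
      linarith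
    calc (1 - 1 / (4 * (ℓ : ℝ))) ^ ρ ≤ Real.exp (-(1 / (4 * (ℓ : ℝ)))) ^ ρ := pow_le_pow_left₀ h3 h2 ρ
      _ = Real.exp ((ρ : ℝ) * (-(1 / (4 * (ℓ : ℝ))))) := by rw [← Real.exp_nat_mul]
      _ = Real.exp (-(256 * (ℓ : ℝ))) := by
        congr 1
        rw [hρ]
        push_cast
        field_simp
        norm_num
  refine h1.trans ?_
  have h2 : (2 : ℝ) * M2 ≤ Real.exp (256 * (ℓ : ℝ)) := by
    have h3 : 2 * M2 ≤ 2 ^ 138 * ℓ ^ 21 * t := by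
      rw [hM]
      calc 2 * (256 * b ^ 4 * (2 ^ 21 * (2 ^ 20 * t * ℓ)))
          ≤ 2 * (256 * (2 ^ 22 * ℓ ^ 5) ^ 4 * (2 ^ 21 * (2 ^ 20 * t * ℓ))) := by gcongr
        _ = 2 ^ 138 * ℓ ^ 21 * t := by ring
    have h4 : (2 : ℝ) * M2 ≤ 2 ^ 138 * (ℓ : ℝ) ^ 21 * t := by exact_mod_cast h3
    refine h4.trans ?_
    have e1 : (2 : ℝ) ^ 138 ≤ Real.exp (138 * (ℓ : ℝ)) := by
      have e2 : (2 : ℝ) ≤ Real.exp (ℓ : ℝ) := by
        have := Real.add_one_le_exp (ℓ : ℝ)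
        linarith
      calc (2 : ℝ) ^ 138 ≤ Real.exp (ℓ : ℝ) ^ 138 := pow_le_pow_left₀ (by norm_num) e2 138
        _ = Real.exp (138 * (ℓ : ℝ)) := by rw [← Real.exp_nat_mul]; norm_num
    have e3 : (ℓ : ℝ) ^ 21 ≤ Real.exp (21 * (ℓ : ℝ)) := by
      have e2 : (ℓ : ℝ) ≤ Real.exp (ℓ : ℝ) := by
        have := Real.add_one_le_exp (ℓ : ℝ)
        linarith
      calc (ℓ : ℝ) ^ 21 ≤ Real.exp (ℓ : ℝ) ^ 21 := pow_le_pow_left₀ (by positivity) e2 21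
        _ = Real.exp (21 * (ℓ : ℝ)) := by rw [← Real.exp_nat_mul]; norm_num
    have e4 : (t : ℝ) ≤ Real.exp (ℓ : ℝ) := by
      rw [← Real.log_le_iff_le_exp (by linarith)]
      linarith
    calc (2 : ℝ) ^ 138 * (ℓ : ℝ) ^ 21 * t ≤ Real.exp (138 * (ℓ : ℝ)) * Real.exp (21 * (ℓ : ℝ)) * Real.exp (ℓ : ℝ) := by
          gcongr
      _ = Real.exp (160 * (ℓ : ℝ)) := by
        rw [← Real.exp_add, ← Real.exp_add]
        congr 1
        ring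
      _ ≤ Real.exp (256 * (ℓ : ℝ)) := Real.exp_le_exp.2 (by linarith)
  have h3 : (0 : ℝ) < 2 * M2 := by
    have : (1 : ℝ) ≤ M2 := by exact_mod_cast hM1
    linarith
  rw [Real.exp_neg, ← one_div]
  exact one_div_le_one_div_of_le h3 h2

/-- the instance of the piece theorem -/
theorem piece_inst {U : Finset V} {t ℓ : ℕ} (ht : 1 ≤ t) (hℓ : 1 + Real.log (t : ℝ) ≤ ℓ) (h4 : ℓ ^ 4 ≤ 2 ^ 17 * t)
    (hmod : ¬ Model G U t) : Piece G U (2 ^ 45 * t) (2 ^ 15 * t) (2 ^ 143 * ℓ ^ 23 * t) := by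
  intro W hW hcol
  have htR : (1 : ℝ) ≤ t := by exact_mod_cast ht
  have hℓR : (1 : ℝ) ≤ ℓ := by
    have := Real.log_nonneg htR
    linarith
  have hℓ1 : 1 ≤ ℓ := by exact_mod_cast hℓR
  obtain ⟨U', hU'W, hmin⟩ := exists_minimal_le_of_wellFoundedLT (fun Z : Finset V => ¬ Col G Z (2 ^ 45 * t)) W hcol
  have hU' : ¬ Col G U' (2 ^ 45 * t) := hmin.1
  have hmin' : ∀ Z, Z ⊆ U' → Z ≠ U' → Col G Z (2 ^ 45 * t) := by
    intro Z hZ hne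
    by_contra hcol
    exact hne (Finset.Subset.antisymm hZ (hmin.2 hcol hZ))
  have hne : U'.Nonempty := by
    rw [Finset.nonempty_iff_ne_empty]
    intro h0
    apply hU'
    rw [h0]
    exact col_empty _
  have hdeg : ∀ v ∈ U', 2 ^ 45 * t ≤ (nbIn G U' v).card := fun v hv => C2_deg hU' hmin' hv
  obtain ⟨ρ, hρ⟩ : ∃ ρ, ρ = 2 ^ 10 * ℓ ^ 2 := ⟨_, rfl⟩
  obtain ⟨b, hb⟩ : ∃ b, b = (ρ + 1) ^ 2 * ℓ := ⟨_, rfl⟩
  obtain ⟨M2, hM2⟩ : ∃ M2, M2 = 256 * b ^ 4 * (2 ^ 21 * (2 ^ 20 * t * ℓ)) := ⟨_, rfl⟩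
  obtain ⟨hρ2, hb2⟩ := num_b hℓ1 hρ hb
  have hb1 : 1 ≤ b := by
    rw [hb]
    exact Nat.mul_pos (by positivity) hℓ1
  have hM1 : 1 ≤ M2 := by
    rw [hM2]
    exact Nat.mul_pos (Nat.mul_pos (by norm_num) (pow_pos hb1 4))
      (Nat.mul_pos (by norm_num) (Nat.mul_pos (Nat.mul_pos (by norm_num) ht) hℓ1))
  have hc0 : ((2 ^ 45 * t : ℕ) : ℝ) / (2 ^ 27 * ((2 ^ 20 * t * ℓ : ℕ) : ℝ)) = 1 / (4 * (ℓ : ℝ)) := by
    push_cast
    field_simp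
    norm_num
  have g1 : 2 ^ 20 * (t : ℝ) * (1 + Real.log (t : ℝ)) ≤ ((2 ^ 20 * t * ℓ : ℕ) : ℝ) := by
    have e1 : ((2 ^ 20 * t * ℓ : ℕ) : ℝ) = 2 ^ 20 * (t : ℝ) * (ℓ : ℝ) := by
      push_cast
      ring
    rw [e1]
    exact mul_le_mul_of_nonneg_left hℓ (by positivity)
  have g3 : (1 - ((2 ^ 45 * t : ℕ) : ℝ) / (2 ^ 27 * ((2 ^ 20 * t * ℓ : ℕ) : ℝ))) ^ ρ ≤ 1 / (2 * (M2 : ℝ)) := by
    rw [hc0]
    exact num_P1 ht hℓ1 hℓ hρ hb2 hM1 hM2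
  have g4 : 4 * (M2 : ℝ) / (((2 ^ 45 * t : ℕ) : ℝ) / (2 ^ 27 * ((2 ^ 20 * t * ℓ : ℕ) : ℝ))) ^ 2 ≤
      ((64 * ℓ ^ 2 * M2 : ℕ) : ℝ) := by
    rw [hc0]
    push_cast
    apply le_of_eq
    field_simp
    norm_num
  have g5 : 128 * ((ρ : ℝ) + 1) ^ 2 * ((2 ^ 20 * t * ℓ : ℕ) : ℝ) < (b : ℝ) * (((2 ^ 45 * t : ℕ) : ℝ) / 8) := by
    rw [hb]
    push_cast
    have e1 : (0 : ℝ) < ((ρ : ℝ) + 1) ^ 2 * (ℓ * t) := by positivity
    nlinarith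
  have g6 : 8 * ((ρ : ℝ) + 1) ^ 2 ≤ ((2 ^ 45 * t : ℕ) : ℝ) / 8 := by
    have e1 : ((ρ : ℝ) + 1) ^ 2 ≤ 2 ^ 22 * (ℓ : ℝ) ^ 4 := by exact_mod_cast hρ2
    have e2 : (ℓ : ℝ) ^ 4 ≤ 2 ^ 17 * t := by exact_mod_cast h4
    push_cast
    nlinarith
  have g7 : 4 * (2 ^ 20 * t * ℓ) ≤ 64 * ℓ ^ 2 * M2 := by
    have e1 : 2 ^ 21 * (2 ^ 20 * t * ℓ) ≤ M2 := by
      rw [hM2]
      exact Nat.le_mul_of_pos_left _ (by positivity)
    have e2 : M2 ≤ 64 * ℓ ^ 2 * M2 := Nat.le_mul_of_pos_left _ (by positivity)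
    omega
  obtain ⟨H, h1, h2, h3⟩ := piece (G := G) (U := U') (t := t) (D := 2 ^ 20 * t * ℓ) (d1 := 2 ^ 45 * t)
    (k := 2 ^ 15 * (2 ^ 15 * t)) (ρ := ρ) (b := b) (M2 := M2) (m := 64 * ℓ ^ 2 * M2) ht
    (fun h => hmod (h.mono (hU'W.trans hW) le_rfl)) g1 hne hdeg (by omega) (by omega) hb1 g3 hM2.ge g4 g5 g6 g7
  refine ⟨H, h1.trans hU'W, h2, h3.trans ?_⟩
  rw [hM2]
  calc 64 * ℓ ^ 2 * (256 * b ^ 4 * (2 ^ 21 * (2 ^ 20 * t * ℓ)))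
      ≤ 64 * ℓ ^ 2 * (256 * (2 ^ 22 * ℓ ^ 5) ^ 4 * (2 ^ 21 * (2 ^ 20 * t * ℓ))) := by gcongr
    _ = 2 ^ 143 * ℓ ^ 23 * t := by ring

/-- all natural number estimates -/
theorem num_nat {t ℓ s h m : ℕ} (hℓ : 1 ≤ ℓ) (hQ : 2 ^ 400 * ℓ ^ 60 ≤ t) (hs : s = 2 ^ 14 * ℓ)
    (hh : h = 2 ^ 143 * ℓ ^ 23 * t) (hm : m = 4 * s ^ 2 * h + (4 * s ^ 2 + 5) * t) :
    s * s ≤ t ∧ ℓ ^ 4 ≤ 2 ^ 17 * t ∧ (∀ τ, t ≤ τ * s → h ≤ (2 ^ 15 * τ) ^ 2) ∧ h ≤ (2 ^ 13 * t) ^ 2 ∧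
      m * s ≤ 2 ^ 189 * ℓ ^ 26 * t ∧ ∀ τ, t ≤ τ * s → m ^ 2 ≤ τ ^ 3 := by
  have hle : ∀ a p : ℕ, a ≤ 400 → p ≤ 60 → 2 ^ a * ℓ ^ p ≤ t := fun a p ha hp =>
    le_trans (Nat.mul_le_mul (Nat.pow_le_pow_right (by norm_num) ha) (Nat.pow_le_pow_right hℓ hp)) hQ
  have ht : 1 ≤ t := by
    have := hle 0 0 (by norm_num) (by norm_num)
    simpa using this
  have hth : t ≤ h := by
    rw [hh]
    exact Nat.le_mul_of_pos_left _ (by positivity)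
  have hs1 : 1 ≤ s := by rw [hs]; exact Nat.mul_pos (by norm_num) hℓ
  have hmle : m ≤ 2 ^ 175 * ℓ ^ 25 * t := by
    have h1 : (4 * s ^ 2 + 5) * t ≤ 9 * s ^ 2 * h := by
      apply Nat.mul_le_mul _ hth
      have : 1 ≤ s ^ 2 := Nat.one_le_pow _ _ hs1
      omega
    have h2 : m ≤ 16 * s ^ 2 * h := by
      have e1 : 4 * s ^ 2 * h + 9 * s ^ 2 * h = 13 * (s ^ 2 * h) := by ring
      have e2 : 16 * s ^ 2 * h = 16 * (s ^ 2 * h) := by ring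
      rw [hm, e2]
      omega
    refine h2.trans (le_of_eq ?_)
    rw [hs, hh]
    ring
  refine ⟨?_, ?_, ?_, ?_, ?_, ?_⟩
  · have h1 := hle 28 2 (by norm_num) (by norm_num)
    have h2 : s * s = 2 ^ 28 * ℓ ^ 2 := by rw [hs]; ring
    rw [h2]
    exact h1
  · have h1 := hle 0 4 (by norm_num) (by norm_num)
    have h2 : t ≤ 2 ^ 17 * t := Nat.le_mul_of_pos_left _ (by norm_num)
    omega
  · intro τ hτ
    have h1 := hle 141 25 (by norm_num) (by norm_num)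
    have h2 : t * t ≤ (τ * s) * (τ * s) := Nat.mul_le_mul hτ hτ
    have h3 : 2 ^ 28 * ℓ ^ 2 * h ≤ 2 ^ 28 * ℓ ^ 2 * (2 ^ 15 * τ) ^ 2 := by
      calc 2 ^ 28 * ℓ ^ 2 * h = 2 ^ 30 * (2 ^ 141 * ℓ ^ 25) * t := by rw [hh]; ring
        _ ≤ 2 ^ 30 * t * t := by gcongr
        _ = 2 ^ 30 * (t * t) := by ring
        _ ≤ 2 ^ 30 * ((τ * s) * (τ * s)) := by gcongr
        _ = 2 ^ 28 * ℓ ^ 2 * (2 ^ 15 * τ) ^ 2 := by rw [hs]; ring
    exact Nat.le_of_mul_le_mul_left h3 (by positivity)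
  · have h1 := hle 117 23 (by norm_num) (by norm_num)
    calc h = 2 ^ 26 * (2 ^ 117 * ℓ ^ 23) * t := by rw [hh]; ring
      _ ≤ 2 ^ 26 * t * t := by gcongr
      _ = (2 ^ 13 * t) ^ 2 := by ring
  · calc m * s ≤ (2 ^ 175 * ℓ ^ 25 * t) * s := Nat.mul_le_mul_right s hmle
      _ = 2 ^ 189 * ℓ ^ 26 * t := by rw [hs]; ring
  · intro τ hτ
    have h1 : s ^ 3 * (2 ^ 175 * ℓ ^ 25) ^ 2 ≤ t := by
      refine le_trans (le_of_eq ?_) (hle 392 53 (by norm_num) (by norm_num))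
      have e1 : s ^ 3 * (2 ^ 175 * ℓ ^ 25) ^ 2 = ((2 ^ 14) ^ 3 * (2 ^ 175) ^ 2) * (ℓ ^ 3 * (ℓ ^ 25) ^ 2) := by
        rw [hs, mul_pow, mul_pow, mul_mul_mul_comm]
      rw [e1, ← pow_mul, ← pow_mul, ← pow_add, ← pow_mul, ← pow_add]
    obtain ⟨A, hA⟩ : ∃ A, A = 2 ^ 175 * ℓ ^ 25 := ⟨_, rfl⟩
    rw [← hA] at h1 hmle
    have h3 : s ^ 3 * m ^ 2 ≤ s ^ 3 * τ ^ 3 := by
      calc s ^ 3 * m ^ 2 ≤ s ^ 3 * (A * t) ^ 2 := by gcongr
        _ = (s ^ 3 * A ^ 2) * t ^ 2 := by ring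
        _ ≤ t * t ^ 2 := by gcongr
        _ = t ^ 3 := by ring
        _ ≤ (τ * s) ^ 3 := Nat.pow_le_pow_left hτ 3
        _ = s ^ 3 * τ ^ 3 := by ring
    exact Nat.le_of_mul_le_mul_left h3 (by positivity)

/-- the theorem for all graphs, clique minors counted by `t` -/
theorem all_graphs : ∃ C : ℝ, 0 < C ∧ ∀ (V : Type) [Fintype V] [DecidableEq V] (G : SimpleGraph V) (U : Finset V)
    (t c : ℕ), 1 ≤ t → ¬ Model G U t → C * t * Real.log (2 + Real.log (1 + Real.log t)) ≤ c → Col G U c := by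
  obtain ⟨C0, hC0, hrs⟩ := rooted_small
  obtain ⟨t0, ht0⟩ := num_large
  refine ⟨2 ^ 47 + 600 * C0 + 2 ^ 22 * (1 + Real.log (t0 + 1)), ?_, ?_⟩
  · have : 0 ≤ Real.log ((t0 : ℝ) + 1) := Real.log_nonneg (by
      have : (0 : ℝ) ≤ t0 := Nat.cast_nonneg _
      linarith)
    positivity
  intro V _ _ G U t c ht hmod hc
  have htR : (1 : ℝ) ≤ t := by exact_mod_cast ht
  have hx0 : 0 ≤ Real.log (t : ℝ) := Real.log_nonneg htR
  obtain ⟨x, hx⟩ : ∃ x, x = Real.log (t : ℝ) := ⟨_, rfl⟩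
  rw [← hx] at hx0 hc
  obtain ⟨y, hy⟩ : ∃ y, y = Real.log (1 + x) := ⟨_, rfl⟩
  have hy0 : 0 ≤ y := by rw [hy]; exact Real.log_nonneg (by linarith)
  rw [← hy] at hc
  obtain ⟨L, hL⟩ : ∃ L, L = Real.log (2 + y) := ⟨_, rfl⟩
  rw [← hL] at hc
  have hL1 : 0.6931471803 ≤ L := by
    rw [hL]
    exact Real.log_two_gt_d9.le.trans (Real.log_le_log (by norm_num) (by linarith))
  have hlt0 : 0 ≤ Real.log ((t0 : ℝ) + 1) := Real.log_nonneg (by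
      have : (0 : ℝ) ≤ t0 := Nat.cast_nonneg _
      linarith)
  rcases lt_or_ge t t0 with hcase | hcase
  · -- small `t`
    apply col_low ht ?_ U.card U le_rfl hmod
    have h1 : x ≤ Real.log ((t0 : ℝ) + 1) := by
      rw [hx]
      apply Real.log_le_log (by linarith)
      have : (t : ℝ) ≤ t0 := by exact_mod_cast hcase.le
      linarith
    rw [← hx]
    refine lt_of_lt_of_le ?_ hc
    have h2 : (2 : ℝ) ^ 20 * t * (1 + x) ≤ 2 ^ 20 * t * (1 + Real.log ((t0 : ℝ) + 1)) := by gcongr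
    refine lt_of_le_of_lt h2 ?_
    have h3 : 0 < (t : ℝ) := by linarith
    have h4 : (2 : ℝ) ^ 20 * (1 + Real.log ((t0 : ℝ) + 1)) <
        (2 ^ 47 + 600 * C0 + 2 ^ 22 * (1 + Real.log (t0 + 1))) * L := by
      nlinarith
    nlinarith
  · -- large `t`
    obtain ⟨ℓ, hℓ⟩ : ∃ ℓ : ℕ, ℓ = ⌈1 + Real.log (t : ℝ)⌉₊ := ⟨_, rfl⟩
    have hQ := ht0 t hcase
    rw [← hℓ] at hQ
    have hℓx : 1 + x ≤ (ℓ : ℝ) := by rw [hℓ, hx]; exact Nat.le_ceil _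
    have hℓx' : (ℓ : ℝ) ≤ 2 + x := by
      have := (Nat.ceil_lt_add_one (show 0 ≤ 1 + Real.log (t : ℝ) by rw [← hx]; linarith)).le
      rw [← hℓ, ← hx] at this
      linarith
    have hℓ1R : (1 : ℝ) ≤ ℓ := by linarith
    have hℓ1 : 1 ≤ ℓ := by exact_mod_cast hℓ1R
    obtain ⟨s, hs⟩ : ∃ s, s = 2 ^ 14 * ℓ := ⟨_, rfl⟩
    obtain ⟨h, hh⟩ : ∃ h, h = 2 ^ 143 * ℓ ^ 23 * t := ⟨_, rfl⟩
    obtain ⟨m, hm⟩ : ∃ m, m = 4 * s ^ 2 * h + (4 * s ^ 2 + 5) * t := ⟨_, rfl⟩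
    obtain ⟨n1, n2, n3, n4, n5, n6⟩ := num_nat hℓ1 hQ hs hh hm
    obtain ⟨K0, hK0⟩ : ∃ K0 : ℕ, K0 = ⌈8 * C0 * L⌉₊ := ⟨_, rfl⟩
    have hK1 : 8 * C0 * L ≤ (K0 : ℝ) := by rw [hK0]; exact Nat.le_ceil _
    have hK2 : (K0 : ℝ) ≤ 8 * C0 * L + 1 := by
      rw [hK0]
      exact (Nat.ceil_lt_add_one (by positivity)).le
    have hs1 : 1 ≤ s := by rw [hs]; exact Nat.mul_pos (by norm_num) hℓ1
    have hpc : Piece G U (2 ^ 45 * t) (2 ^ 15 * t) h := by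
      rw [hh]
      exact piece_inst ht (by rw [← hx]; exact hℓx) n2 hmod
    have hslog : 2 ^ 10 * (1 + Real.log ((2 ^ 15 * t : ℕ) : ℝ)) ≤ s := by
      have e1 : Real.log ((2 ^ 15 * t : ℕ) : ℝ) = 15 * Real.log 2 + x := by
        rw [Nat.cast_mul, Nat.cast_pow, Real.log_mul (by positivity) (by positivity), Real.log_pow, ← hx]
        norm_num
      have e2 : Real.log 2 ≤ 0.6931471808 := Real.log_two_lt_d9.le
      rw [e1, hs]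
      push_cast
      nlinarith
    have key := top_level (G := G) (U := U) (t := t) (s := s) (h := h) (m := m) (cb := 2 ^ 45 * t) (K0 := K0) ht
      (by omega) hpc hslog n1 n3 n4 hm.ge ?_ hmod
    · refine key.mono (Finset.Subset.refl _) ?_
      have e1 : (((2 ^ 45 * t + (530 + 25 * K0) * t + 12 * t : ℕ)) : ℝ) ≤ c := by
        refine le_trans ?_ hc
        have e2 : (((2 ^ 45 * t + (530 + 25 * K0) * t + 12 * t : ℕ)) : ℝ) = t * (2 ^ 45 + 542 + 25 * K0) := by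
          push_cast
          ring
        rw [e2]
        have e3 : (2 : ℝ) ^ 45 + 542 + 25 * K0 ≤
            (2 ^ 47 + 600 * C0 + 2 ^ 22 * (1 + Real.log (t0 + 1))) * L := by
          have e4 : 0 ≤ (2 : ℝ) ^ 22 * (1 + Real.log (t0 + 1)) * L := by positivity
          nlinarith [mul_pos hC0 (show 0 < L by linarith)]
        calc (t : ℝ) * (2 ^ 45 + 542 + 25 * K0) ≤
            t * ((2 ^ 47 + 600 * C0 + 2 ^ 22 * (1 + Real.log (t0 + 1))) * L) := by gcongr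
          _ = _ := by ring
      exact_mod_cast e1
    · intro τ hτ hτ1 hτt M hM hMκ W hW hWm hWc R hR hRτ
      have hMτ : τ ≤ M.card := hMκ.1.le
      obtain ⟨R', hRR', hR'M, hR'c⟩ := Finset.exists_subsuperset_card_eq hR hRτ hMτ
      have hτR : (0 : ℝ) < τ := by exact_mod_cast hτ1
      have hW2 : W.card ^ 2 ≤ τ ^ 3 := (Nat.pow_le_pow_left hWm 2).trans (n6 τ hτ)
      have hq : (W.card : ℝ) / τ ≤ 2 ^ 189 * (ℓ : ℝ) ^ 26 := by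
        rw [div_le_iff₀ hτR]
        have e1 : W.card * s ≤ 2 ^ 189 * ℓ ^ 26 * (τ * s) :=
          calc W.card * s ≤ m * s := Nat.mul_le_mul_right s hWm
            _ ≤ 2 ^ 189 * ℓ ^ 26 * t := n5
            _ ≤ 2 ^ 189 * ℓ ^ 26 * (τ * s) := Nat.mul_le_mul_left _ hτ
        have e2 : W.card ≤ 2 ^ 189 * ℓ ^ 26 * τ := by
          apply Nat.le_of_mul_le_mul_right _ hs1
          calc W.card * s ≤ 2 ^ 189 * ℓ ^ 26 * (τ * s) := e1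
            _ = 2 ^ 189 * ℓ ^ 26 * τ * s := by ring
        exact_mod_cast e2
      have hlog := num_log hx0 hy hℓ1R hℓx' (by positivity) hq
      rw [← hL] at hlog
      obtain ⟨f, hf1, hf2⟩ := hrs V G M W R' τ (K0 * τ) hτ1 hMκ hW hR'M hR'c hW2 (by
        push_cast
        calc C0 * τ * Real.log (2 + Real.log (1 + (W.card : ℝ) / τ)) ≤ C0 * τ * (8 * L) := by gcongr
          _ = (8 * C0 * L) * τ := by ring
          _ ≤ K0 * τ := by gcongr) hWc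
      exact ⟨f, fun r hr => hf1 r (hRR' hr), fun r hr r' hr' hne => hf2 r (hRR' hr) r' (hRR' hr') hne⟩

end HD
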