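import Pool.Agent.LibHD.Basic

/-!
# LibHL : colouring all graphs without a clique minor, definitions
-/

set_option autoImplicit false
set_option linter.unusedSectionVars false

open scoped Classical

noncomputable section

namespace HD

variable {V : Type*} [Fintype V] [DecidableEq V] (G : SimpleGraph V)

/-- `M` is a `k`-connected vertex set: it has more than `k` vertices and stays connected after deleting
at most `k` vertices. -/
def KC (M : Finset V) (k : ℕ) : Prop :=
  k < M.card ∧ ∀ S : Finset V, S.card ≤ k → ∀ x ∈ M \ S, ∀ y ∈ M \ S, Joined G (M \ S) x y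

/-- Twice the number of edges inside `X`. -/
def dg (X : Finset V) : ℕ := ∑ v ∈ X, (nbIn G X v).card

/-- `F` is a system of disjoint connected sets inside `reg`, one for every vertex of `B`, such that `F e` contains
`e`, meets `A`, and meets `W` only in `e`. -/
def Sys (reg A B W : Finset V) (F : V → Finset V) : Prop :=
  (∀ e ∈ B, F e ⊆ reg ∧ Conn G (F e) ∧ e ∈ F e ∧ (F e ∩ A).Nonempty ∧ F e ∩ W ⊆ {e}) ∧
    ∀ e ∈ B, ∀ e' ∈ B, e ≠ e' → Disjoint (F e) (F e')

/-- Rooted clique models: every set `R ⊆ M` of at most `τ` roots extends to a rooted clique model inside `M`. -/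
def Rooted (M : Finset V) (τ : ℕ) : Prop :=
  ∀ R : Finset V, R ⊆ M → R.card ≤ τ → ∃ B : V → Finset V,
    (∀ r ∈ R, r ∈ B r ∧ B r ⊆ M ∧ Conn G (B r)) ∧
    ∀ r ∈ R, ∀ r' ∈ R, r ≠ r' → Disjoint (B r) (B r') ∧ Touch G (B r) (B r')

end HD
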