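import Pool.Agent.LibHL.C5
import Pool.Agent.LibHD.Final

/-!
# LibHL : the theorem for all graphs, in terms of chromatic numbers and tree decompositions
-/

set_option autoImplicit false

open scoped Classical

noncomputable section

namespace HD

theorem log_shift {C : ℝ} (hC : 0 < C) {t c : ℕ} (ht : 1 ≤ t)
    (hc1 : 4 * C * (t * Real.log (2 + Real.log (1 + Real.log (t : ℝ)))) ≤ c) :
    C * ((t + 1 : ℕ) : ℝ) * Real.log (2 + Real.log (1 + Real.log ((t + 1 : ℕ) : ℝ))) ≤ c := by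
  have htR : (1 : ℝ) ≤ t := by exact_mod_cast ht
  have hl0 : 0 ≤ Real.log (t : ℝ) := Real.log_nonneg htR
  set L : ℝ := Real.log (1 + Real.log (t : ℝ)) with hL
  have hL0 : 0 ≤ L := Real.log_nonneg (by linarith)
  have hlog2 : Real.log 2 < 1 := by
    have := Real.log_two_lt_d9
    linarith
  have e1 : Real.log ((t + 1 : ℕ) : ℝ) ≤ 1 + Real.log t := by
    have e9 : ((t + 1 : ℕ) : ℝ) ≤ 2 * t := by push_cast; linarith
    have : Real.log ((t + 1 : ℕ) : ℝ) ≤ Real.log (2 * t) := Real.log_le_log (by positivity) e9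
    rw [Real.log_mul (by norm_num) (by positivity)] at this
    linarith
  have e1' : 0 ≤ Real.log ((t + 1 : ℕ) : ℝ) := Real.log_nonneg (by push_cast; linarith)
  have e2 : Real.log (1 + Real.log ((t + 1 : ℕ) : ℝ)) ≤ 1 + L := by
    have : Real.log (1 + Real.log ((t + 1 : ℕ) : ℝ)) ≤ Real.log (2 * (1 + Real.log t)) :=
      Real.log_le_log (by linarith) (by linarith)
    rw [Real.log_mul (by norm_num) (by linarith)] at this
    linarith
  have e2' : 0 ≤ Real.log (1 + Real.log ((t + 1 : ℕ) : ℝ)) := Real.log_nonneg (by linarith)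
  have e3 : Real.log (2 + Real.log (1 + Real.log ((t + 1 : ℕ) : ℝ))) ≤ 2 * Real.log (2 + L) := by
    have a1 : Real.log (2 + Real.log (1 + Real.log ((t + 1 : ℕ) : ℝ))) ≤ Real.log (2 * (2 + L)) :=
      Real.log_le_log (by linarith) (by linarith)
    rw [Real.log_mul (by norm_num) (by linarith)] at a1
    have a2 : Real.log 2 ≤ Real.log (2 + L) := Real.log_le_log (by norm_num) (by linarith)
    linarith
  have e9 : ((t + 1 : ℕ) : ℝ) ≤ 2 * t := by push_cast; linarith
  have e6 : 0 ≤ Real.log (2 + L) := Real.log_nonneg (by linarith)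
  calc C * ((t + 1 : ℕ) : ℝ) * Real.log (2 + Real.log (1 + Real.log ((t + 1 : ℕ) : ℝ)))
      ≤ C * ((t + 1 : ℕ) : ℝ) * (2 * Real.log (2 + L)) := mul_le_mul_of_nonneg_left e3 (by positivity)
    _ ≤ C * (2 * t) * (2 * Real.log (2 + L)) :=
        mul_le_mul_of_nonneg_right (mul_le_mul_of_nonneg_left e9 hC.le) (by linarith)
    _ = 4 * C * (t * Real.log (2 + L)) := by ring
    _ ≤ c := hc1

/-- The tree decomposition with a single bag. -/
theorem one_bag {V : Type} (G : SimpleGraph V) {c : ℕ} (h : G.Colorable c) :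
    ∃ n : ℕ, ∃ T : SimpleGraph (Fin n), T.IsTree ∧ ∃ β : Fin n → Set V,
      (∀ u v, G.Adj u v → ∃ w, u ∈ β w ∧ v ∈ β w) ∧ (∀ v, (T.induce {w | v ∈ β w}).Connected) ∧
      (∀ w, (G.induce (β w)).Colorable c) := by
  refine ⟨1, ⊥, ?_, fun _ => Set.univ, fun u v _ => ⟨0, Set.mem_univ _, Set.mem_univ _⟩, ?_, ?_⟩
  · exact SimpleGraph.IsTree.of_subsingleton
  · intro v
    have : Nonempty {w : Fin 1 | v ∈ (Set.univ : Set V)} := ⟨⟨0, Set.mem_univ v⟩⟩
    refine ⟨?_⟩
    intro a b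
    rw [Subsingleton.elim a b]
  · intro w
    obtain ⟨C⟩ := h
    exact ⟨C.comp (SimpleGraph.Embedding.induce (Set.univ : Set V)).toHom⟩

/-- Every finite graph without a `K_{t+1}` minor has chromatic number `O(t log log log t)`. -/
theorem all_sets : ∃ C : ℝ, 0 < C ∧ ∀ (V : Type) [Fintype V] (G : SimpleGraph V) (t : ℕ), 1 ≤ t →
    (¬ ∃ f : Fin (t + 1) → Set V, (∀ i, (G.induce (f i)).Connected) ∧ (∀ i j, i ≠ j → Disjoint (f i) (f j)) ∧
      (∀ i j, i ≠ j → ∃ u ∈ f i, ∃ v ∈ f j, G.Adj u v)) →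
    ∃ c : ℕ, (c : ℝ) ≤ C * t * Real.log (2 + Real.log (1 + Real.log t)) ∧ G.Colorable c := by
  obtain ⟨C, hC, h⟩ := all_graphs
  refine ⟨4 * C + 4, by linarith, ?_⟩
  intro V _ G t ht hno
  have htR : (1 : ℝ) ≤ t := by exact_mod_cast ht
  have hl0 : 0 ≤ Real.log (t : ℝ) := Real.log_nonneg htR
  set L : ℝ := Real.log (1 + Real.log (t : ℝ)) with hL
  have hL0 : 0 ≤ L := Real.log_nonneg (by linarith)
  have h1 := one_le_two_mul_log htR hL0
  obtain ⟨c, hc1, hc2⟩ := round_up (C := 4 * C) (by linarith) h1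
  have key := log_shift hC ht hc1
  have hcol := h V G Finset.univ (t + 1) c (by omega) (fun hm => hno (model_to_sets hm)) key
  refine ⟨c, ?_, ?_⟩
  · have e : (4 * C + 4) * (t : ℝ) * Real.log (2 + L) = (4 * C + 2) * (t * Real.log (2 + L)) +
        2 * (t * Real.log (2 + L)) := by ring
    rw [e]
    linarith
  · obtain ⟨φ, p1, p2⟩ := hcol
    exact ⟨⟨fun v => ⟨φ v, p1 v (Finset.mem_univ v)⟩, fun {a b} hab heq =>
      p2 a (Finset.mem_univ a) b (Finset.mem_univ b) hab (congrArg Fin.val heq)⟩⟩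

end HD
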