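import Pool.Agent.LibHL.Defs

/-!
# LibHL : basic facts on highly connected sets
-/

set_option autoImplicit false
set_option linter.unusedSectionVars false

open scoped Classical

noncomputable section

namespace HD

variable {V : Type*} [Fintype V] [DecidableEq V] {G : SimpleGraph V}

theorem kc_mono {M : Finset V} {κ l : ℕ} (h : KC G M κ) (hl : l ≤ κ) : KC G M l :=
  ⟨lt_of_le_of_lt hl h.1, fun S hS => h.2 S (hS.trans hl)⟩

theorem kc_nonempty {M : Finset V} {κ : ℕ} (h : KC G M κ) : M.Nonempty :=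
  Finset.card_pos.1 (lt_of_le_of_lt (Nat.zero_le _) h.1)

theorem kc_conn {M : Finset V} {κ : ℕ} (h : KC G M κ) : Conn G M := by
  obtain ⟨x, hx⟩ := kc_nonempty h
  apply conn_of_joined hx
  intro y hy
  have h1 := h.2 ∅ (by simp) x (by simpa using hx) y (by simpa using hy)
  simpa using h1

theorem kc_union {M M' : Finset V} {κ : ℕ} (h : KC G M κ) (h' : KC G M' κ) (hi : κ < (M ∩ M').card) :
    KC G (M ∪ M') κ := by
  refine ⟨lt_of_lt_of_le h.1 (Finset.card_le_card Finset.subset_union_left), ?_⟩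
  intro S hS
  obtain ⟨z, hz, hzS⟩ := Finset.exists_mem_notMem_of_card_lt_card (lt_of_le_of_lt hS hi)
  have hz1 : z ∈ M \ S := Finset.mem_sdiff.2 ⟨(Finset.mem_inter.1 hz).1, hzS⟩
  have hz2 : z ∈ M' \ S := Finset.mem_sdiff.2 ⟨(Finset.mem_inter.1 hz).2, hzS⟩
  have key : ∀ x ∈ (M ∪ M') \ S, Joined G ((M ∪ M') \ S) x z := by
    intro x hx
    rw [Finset.mem_sdiff, Finset.mem_union] at hx
    obtain ⟨hx1 | hx1, hx2⟩ := hx
    · exact (h.2 S hS x (Finset.mem_sdiff.2 ⟨hx1, hx2⟩) z hz1).mono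
        (Finset.sdiff_subset_sdiff Finset.subset_union_left (Finset.Subset.refl _))
    · exact (h'.2 S hS x (Finset.mem_sdiff.2 ⟨hx1, hx2⟩) z hz2).mono
        (Finset.sdiff_subset_sdiff Finset.subset_union_right (Finset.Subset.refl _))
  intro x hx y hy
  exact (key x hx).trans (key y hy).symm

theorem kc_sdiff {M T : Finset V} {κ l : ℕ} (h : KC G M κ) (hl : l + T.card ≤ κ) : KC G (M \ T) l := by
  refine ⟨?_, ?_⟩
  · have h1 : M.card ≤ (M \ T).card + T.card := by
      have := Finset.card_le_card_sdiff_add_card (s := M) (t := T)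
      exact this
    have := h.1
    omega
  · intro S hS x hx y hy
    have h1 : (M \ T) \ S = M \ (T ∪ S) := by
      ext v; simp only [Finset.mem_sdiff, Finset.mem_union]; tauto
    rw [h1] at hx hy ⊢
    refine h.2 (T ∪ S) ?_ x hx y hy
    have := Finset.card_union_le T S
    omega

theorem kc_deg {M : Finset V} {κ : ℕ} (h : KC G M κ) {v : V} (hv : v ∈ M) : κ ≤ (nbIn G M v).card := by
  by_contra hlt
  push Not at hlt
  set S := nbIn G M v with hS
  have hvS : v ∉ S := by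
    intro hmem
    exact G.loopless.irrefl v (mem_nbIn.1 hmem).2
  have hvM : v ∈ M \ S := Finset.mem_sdiff.2 ⟨hv, hvS⟩
  have hcard : (insert v S).card < M.card := by
    rw [Finset.card_insert_of_notMem hvS]
    have := h.1
    omega
  obtain ⟨y, hy, hy'⟩ := Finset.exists_mem_notMem_of_card_lt_card hcard
  rw [Finset.mem_insert, not_or] at hy'
  have hyM : y ∈ M \ S := Finset.mem_sdiff.2 ⟨hy, hy'.2⟩
  have hj := h.2 S hlt.le v hvM y hyM
  obtain ⟨u, hu, w, hw, huw⟩ := joined_split (P := {v}) hj (Finset.mem_singleton_self v)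
    (by rw [Finset.mem_singleton]; exact hy'.1)
  have huv : u = v := Finset.mem_singleton.1 (Finset.mem_inter.1 hu).2
  subst huv
  have hwM := Finset.mem_sdiff.1 (Finset.mem_sdiff.1 hw).1
  exact hwM.2 (mem_nbIn.2 ⟨hwM.1, huw⟩)

theorem kc_insert {M : Finset V} {κ : ℕ} (h : KC G M κ) {v : V} (hv : κ < (nbIn G M v).card) :
    KC G (insert v M) κ := by
  refine ⟨lt_of_lt_of_le h.1 (Finset.card_le_card (Finset.subset_insert v M)), ?_⟩
  intro S hS
  obtain ⟨z, hz, hzS⟩ := Finset.exists_mem_notMem_of_card_lt_card (lt_of_le_of_lt hS hv)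
  have hzM := mem_nbIn.1 hz
  have hzz : z ∈ M \ S := Finset.mem_sdiff.2 ⟨hzM.1, hzS⟩
  have hsub : M \ S ⊆ (insert v M) \ S :=
    Finset.sdiff_subset_sdiff (Finset.subset_insert v M) (Finset.Subset.refl _)
  have key : ∀ x ∈ (insert v M) \ S, Joined G ((insert v M) \ S) x z := by
    intro x hx
    rw [Finset.mem_sdiff, Finset.mem_insert] at hx
    by_cases hxM : x ∈ M
    · exact (h.2 S hS x (Finset.mem_sdiff.2 ⟨hxM, hx.2⟩) z hzz).mono hsub
    · have hxv : x = v := by tauto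
      subst hxv
      exact joined_of_adj (Finset.mem_sdiff.2 ⟨Finset.mem_insert_self _ _, hx.2⟩) (hsub hzz) hzM.2
  intro x hx y hy
  exact (key x hx).trans (key y hy).symm

/-- a set which is not `c`-colourable contains a connected subset which is not `c`-colourable -/
theorem gn_zero {U : Finset V} {c : ℕ} (h : ¬ Col G U c) : ∃ M ⊆ U, KC G M 0 ∧ ¬ Col G M c := by
  obtain ⟨U', hU'U, hmin⟩ := exists_minimal_le_of_wellFoundedLT (fun W : Finset V => ¬ Col G W c) U h
  have hU' : ¬ Col G U' c := hmin.1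
  have hmin' : ∀ W, W ⊆ U' → W ≠ U' → Col G W c := by
    intro W hW hne
    by_contra hcol
    exact hne (Finset.Subset.antisymm hW (hmin.2 hcol hW))
  have hne : U'.Nonempty := by
    rw [Finset.nonempty_iff_ne_empty]
    intro h0
    apply hU'
    rw [h0]
    exact col_empty c
  refine ⟨U', hU'U, ⟨Finset.card_pos.2 hne, ?_⟩, hU'⟩
  intro S hS x hx y hy
  have hS0 : S = ∅ := Finset.card_eq_zero.1 (Nat.le_zero.1 hS)
  subst hS0
  rw [Finset.sdiff_empty] at hx hy ⊢
  by_contra hcon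
  obtain ⟨A, hA⟩ : ∃ A, A = comp G U' x := ⟨_, rfl⟩
  have hAU : A ⊆ U' := by rw [hA]; exact comp_subset U' x
  have hxA : x ∈ A := by rw [hA]; exact mem_comp_self hx
  have hyA : y ∉ A := by rw [hA]; exact fun h1 => hcon (mem_comp.1 h1)
  have hnt : ¬ Touch G A (U' \ A) := by rw [hA]; exact comp_no_touch U' x
  have h1 : Col G A c := hmin' A hAU (fun h2 => hyA (h2 ▸ hy))
  have h2 : Col G (U' \ A) c := hmin' _ Finset.sdiff_subset (fun h3 => by
    have h4 : x ∈ U' \ A := by rw [h3]; exact hx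
    exact (Finset.mem_sdiff.1 h4).2 hxA)
  obtain ⟨φ, hφ1, hφ2⟩ := h1
  obtain ⟨ψ, hψ1, hψ2⟩ := h2
  apply hU'
  refine ⟨fun v => if v ∈ A then φ v else ψ v, ?_, ?_⟩
  · intro u hu
    by_cases huA : u ∈ A
    · simp only [huA, if_true]; exact hφ1 u huA
    · simp only [huA, if_false]; exact hψ1 u (Finset.mem_sdiff.2 ⟨hu, huA⟩)
  · intro u hu v hv huv
    by_cases huA : u ∈ A <;> by_cases hvA : v ∈ A
    · simp only [huA, hvA, if_true]; exact hφ2 u huA v hvA huv
    · exact absurd ⟨u, huA, v, Finset.mem_sdiff.2 ⟨hv, hvA⟩, huv⟩ hnt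
    · exact absurd ⟨v, hvA, u, Finset.mem_sdiff.2 ⟨hu, huA⟩, huv.symm⟩ hnt
    · simp only [huA, hvA, if_false]
      exact hψ2 u (Finset.mem_sdiff.2 ⟨hu, huA⟩) v (Finset.mem_sdiff.2 ⟨hv, hvA⟩) huv

end HD
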